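import Mathlib

set_option autoImplicit false

open Finset

namespace Pool.Agent.P.MP_d0f69c_mp

/-- the lattice -/
abbrev Zd (d : ℕ) := Fin d → ℤ

variable {d : ℕ}

/-- unit vector -/
def ee (i : Fin d) : Zd d := Pi.single i 1

/-- box of radius `L` -/
noncomputable def box (d L : ℕ) : Finset (Zd d) :=
  Fintype.piFinset fun _ : Fin d => Finset.Icc (-(L : ℤ)) L

/-- outer shell of the box of radius `L` -/
noncomputable def shell (d L : ℕ) : Finset (Zd d) := box d (L + 1) \ box d L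

/-- the potential -/
noncomputable def pot (ω : Zd d → Bool) (y : Zd d) : ℝ := if ω y then 1 else -1

/-- sum over neighbours -/
def adj (u : Zd d → ℝ) (y : Zd d) : ℝ := ∑ i : Fin d, (u (y + ee i) + u (y - ee i))

/-- `(H - E) u` -/
noncomputable def TT (ω : Zd d → Bool) (E : ℝ) (u : Zd d → ℝ) (y : Zd d) : ℝ :=
  (2 * d + pot ω y - E) * u y - adj u y

/-- a priori estimate at the point `z` from the box of radius `L` -/
def Est (ω : Zd d → Bool) (E : ℝ) (L : ℕ) (z : Zd d) (g M : ℝ) : Prop :=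
  ∀ u : Zd d → ℝ, |u z| ≤ g * ∑ y ∈ shell d L, |u y| + M * ∑ y ∈ box d L, |TT ω E u y|

/-- nonresonance -/
def Res (ω : Zd d → Bool) (E : ℝ) (L : ℕ) (R : ℝ) : Prop := ∀ z ∈ box d L, Est ω E L z R R

/-- shifted configuration -/
def sh (x : Zd d) (ω : Zd d → Bool) : Zd d → Bool := fun y => ω (x + y)

lemma mem_box {L : ℕ} {y : Zd d} : y ∈ box d L ↔ ‖y‖ ≤ L := by
  rw [box, Fintype.mem_piFinset, pi_norm_le_iff_of_nonneg (by positivity)]
  apply forall_congr'
  intro i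
  rw [Finset.mem_Icc, Int.norm_eq_abs, ← abs_le]
  exact_mod_cast Iff.rfl

lemma card_box (d L : ℕ) : (box d L).card = (2 * L + 1) ^ d := by
  rw [box, Fintype.card_piFinset]
  simp only [Int.card_Icc, Finset.prod_const, Finset.card_univ, Fintype.card_fin]
  congr 1
  omega

lemma norm_ee (i : Fin d) : ‖ee i‖ = 1 := by
  rw [ee, Pi.norm_single]
  simp

lemma mem_shell {L : ℕ} {y : Zd d} : y ∈ shell d L ↔ ‖y‖ ≤ L + 1 ∧ (L : ℝ) < ‖y‖ := by
  rw [shell, Finset.mem_sdiff, mem_box, mem_box]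
  push_cast
  simp

lemma card_box_le {L L' : ℕ} (h : L ≤ L') : ((box d L).card : ℝ) ≤ (box d L').card := by
  rw [card_box, card_box]
  exact_mod_cast Nat.pow_le_pow_left (by omega) d

lemma card_shell_le (L : ℕ) : ((shell d L).card : ℝ) ≤ (box d (L + 1)).card := by
  exact_mod_cast Finset.card_le_card Finset.sdiff_subset

lemma TT_sh (ω : Zd d → Bool) (E : ℝ) (u : Zd d → ℝ) (x y : Zd d) :
    TT (sh x ω) E (fun z => u (x + z)) y = TT ω E u (x + y) := by
  simp only [TT, pot, sh, adj, add_assoc, add_sub_assoc]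
  rfl

lemma sum_le_mul {s : Finset (Zd d)} {f : Zd d → ℝ} {a v : ℝ} (ha : 0 ≤ a) (hv : (s.card : ℝ) ≤ v)
    (h : ∀ y ∈ s, f y ≤ a) : ∑ y ∈ s, f y ≤ v * a := by
  refine (Finset.sum_le_card_nsmul s f a h).trans ?_
  rw [nsmul_eq_mul]
  exact mul_le_mul_of_nonneg_right hv ha

lemma Est.mono {ω : Zd d → Bool} {E : ℝ} {L : ℕ} {z : Zd d} {g M g' M' : ℝ}
    (h : Est ω E L z g M) (hg : g ≤ g') (hM : M ≤ M') : Est ω E L z g' M' := by
  intro u
  refine (h u).trans (add_le_add ?_ ?_)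
  · exact mul_le_mul_of_nonneg_right hg (Finset.sum_nonneg fun _ _ => abs_nonneg _)
  · exact mul_le_mul_of_nonneg_right hM (Finset.sum_nonneg fun _ _ => abs_nonneg _)

/-- use of a shifted estimate with sup bounds -/
lemma Est.use {ω : Zd d → Bool} {E : ℝ} {L : ℕ} {x z : Zd d} {g M : ℝ}
    (h : Est (sh x ω) E L z g M) (hg : 0 ≤ g) (hM : 0 ≤ M) (u : Zd d → ℝ) {a F v : ℝ}
    (ha : 0 ≤ a) (hF : 0 ≤ F) (hv : ((box d (L + 1)).card : ℝ) ≤ v)
    (h1 : ∀ y ∈ shell d L, |u (x + y)| ≤ a) (h2 : ∀ y ∈ box d L, |TT ω E u (x + y)| ≤ F) :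
    |u (x + z)| ≤ g * (v * a) + M * (v * F) := by
  refine (h fun z => u (x + z)).trans (add_le_add ?_ ?_)
  · exact mul_le_mul_of_nonneg_left (sum_le_mul ha ((card_shell_le L).trans hv) h1) hg
  · refine mul_le_mul_of_nonneg_left (sum_le_mul hF ((card_box_le (Nat.le_succ L)).trans hv) ?_) hM
    intro y hy
    rw [TT_sh]
    exact h2 y hy

/-- the deterministic induction step -/
theorem step {ω : Zd d → Bool} {E θ v : ℝ} {l : ℕ} (hl : 1 ≤ l) (hθ : 0 < θ) (hθ5 : θ ≤ 1 / 5)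
    (hv : ((box d (28 * l)).card : ℝ) ≤ v) (hvθ : v * θ ≤ 1) (c : Zd d)
    (hgood : ∀ y ∈ box d (28 * l), (2 * l : ℝ) < ‖y - c‖ →
      Est (sh y ω) E l 0 (θ ^ 8) (θ⁻¹ ^ 4))
    (hres : Res (sh c ω) E (2 * l) θ⁻¹) (hbig : Res ω E (28 * l) θ⁻¹) :
    Est ω E (28 * l) 0 ((θ ^ 2) ^ 8) ((θ ^ 2)⁻¹ ^ 4) := by
  intro u
  set F := ∑ y ∈ box d (28 * l), |TT ω E u y| with hF
  set S := ∑ y ∈ shell d (28 * l), |u y| with hS
  have F0 : 0 ≤ F := Finset.sum_nonneg fun _ _ => abs_nonneg _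
  have S0 : 0 ≤ S := Finset.sum_nonneg fun _ _ => abs_nonneg _
  have hl' : (1 : ℝ) ≤ l := by exact_mod_cast hl
  set t := θ⁻¹ with ht
  have tθ : t * θ = 1 := inv_mul_cancel₀ hθ.ne'
  have t5 : 5 ≤ t := by nlinarith
  have v0 : 0 ≤ v := (Nat.cast_nonneg _).trans hv
  have vt : v ≤ t := by nlinarith
  have hFy : ∀ y : Zd d, ‖y‖ ≤ 28 * l → |TT ω E u y| ≤ F := by
    intro y hy
    exact Finset.single_le_sum (f := fun y => |TT ω E u y|) (fun _ _ => abs_nonneg _)
      (mem_box.2 (by exact_mod_cast hy))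
  have v1 : ((box d (l + 1)).card : ℝ) ≤ v := (card_box_le (by omega)).trans hv
  have v2 : ((box d (2 * l + 1)).card : ℝ) ≤ v := (card_box_le (by omega)).trans hv
  have gd : ∀ (r a : ℝ), 0 ≤ a → r + l + 1 ≤ 28 * l → (∀ y : Zd d, ‖y‖ ≤ r + l + 1 → |u y| ≤ a) →
      ∀ y : Zd d, ‖y‖ ≤ r → (2 * l : ℝ) < ‖y - c‖ → |u y| ≤ θ ^ 7 * a + t ^ 5 * F := by
    intro r a ha hr hb y hy hc
    have h := (hgood y (mem_box.2 (by push_cast; linarith)) hc).use (by positivity) (by positivity)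
      u ha F0 v1 (fun y' hy' => hb _ (by
        have := (mem_shell.1 hy').1
        linarith [norm_add_le y y'])) (fun y' hy' => hFy _ (by
        have := mem_box.1 hy'
        linarith [norm_add_le y y']))
    rw [add_zero] at h
    refine h.trans (add_le_add ?_ ?_)
    · calc θ ^ 8 * (v * a) = (v * θ) * (θ ^ 7 * a) := by ring
        _ ≤ 1 * (θ ^ 7 * a) := by gcongr
        _ = _ := one_mul _
    · calc t ^ 4 * (v * F) ≤ t ^ 4 * (t * F) := by gcongr
        _ = _ := by ring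
  have st : ∀ (r a : ℝ), 0 ≤ a → r + 7 * l ≤ 28 * l → (∀ y : Zd d, ‖y‖ ≤ r + 7 * l → |u y| ≤ a) →
      ∀ y : Zd d, ‖y‖ ≤ r → |u y| ≤ θ ^ 5 * a + (t ^ 7 + t ^ 2) * F := by
    intro r a ha hr hb y hy
    by_cases hc : (2 * l : ℝ) < ‖y - c‖
    · refine (gd r a ha (by linarith) (fun y' hy' => hb y' (by linarith)) y hy hc).trans
        (add_le_add ?_ ?_)
      · have : θ ^ 7 ≤ θ ^ 5 := pow_le_pow_of_le_one hθ.le (by linarith) (by norm_num)
        gcongr
      · have : t ^ 5 ≤ t ^ 7 := pow_le_pow_right₀ (by linarith) (by norm_num)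
        have : t ^ 5 ≤ t ^ 7 + t ^ 2 := by nlinarith [sq_nonneg t]
        gcongr
    · push Not at hc
      have hcn : ‖c‖ ≤ r + 2 * l := by
        have : c = y - (y - c) := by abel
        rw [this]
        linarith [norm_sub_le y (y - c)]
      have h := (hres (y - c) (mem_box.2 (by push_cast; linarith))).use (by positivity)
        (by positivity) u (a := θ ^ 7 * a + t ^ 5 * F) (by positivity) F0 v2 (fun y' hy' => by
          have h1 := mem_shell.1 hy'
          push_cast at h1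
          refine gd (r + 4 * l + 1) a ha (by linarith) (fun y hy => hb y (by linarith)) _
            (by linarith [norm_add_le c y']) ?_
          rw [add_sub_cancel_left]
          exact h1.2) (fun y' hy' => hFy _ (by
          have h1 := mem_box.1 hy'
          push_cast at h1
          linarith [norm_add_le c y']))
      rw [add_sub_cancel] at h
      refine h.trans ?_
      calc t * (v * (θ ^ 7 * a + t ^ 5 * F)) + t * (v * F)
          ≤ t * (t * (θ ^ 7 * a + t ^ 5 * F)) + t * (t * F) := by gcongr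
        _ = (t * θ) ^ 2 * (θ ^ 5 * a) + (t ^ 7 + t ^ 2) * F := by ring
        _ = _ := by rw [tθ]; ring
  have b4 : ∀ y : Zd d, ‖y‖ ≤ 21 * l + 7 * l → |u y| ≤ t * S + t * F := fun y hy =>
    hbig y (mem_box.2 (by push_cast; linarith)) u
  have b3 := st (21 * l) _ (by positivity) (by linarith) b4
  have b2 := st (14 * l) _ (by positivity) (by linarith) (fun y hy => b3 y (by linarith))
  have b1 := st (7 * l) _ (by positivity) (by linarith) (fun y hy => b2 y (by linarith))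
  have b0 := st 0 _ (by positivity) (by linarith) (fun y hy => b1 y (by linarith)) 0 (by simp)
  refine b0.trans ?_
  set q := θ ^ 5 with hq
  have q0 : 0 ≤ q := by positivity
  have q1 : q ≤ 1 / 5 := by
    have : θ ^ 5 ≤ θ ^ 1 := pow_le_pow_of_le_one hθ.le (by linarith) (by norm_num)
    linarith
  have e1 : q ^ 4 * t ≤ (θ ^ 2) ^ 8 := by
    calc q ^ 4 * t = (t * θ) * θ ^ 19 := by rw [hq]; ring
      _ = θ ^ 19 := by rw [tθ, one_mul]
      _ ≤ θ ^ 16 := pow_le_pow_of_le_one hθ.le (by linarith) (by norm_num)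
      _ = _ := by ring
  have e2 : q ^ 4 * t + (q ^ 3 + q ^ 2 + q + 1) * (t ^ 7 + t ^ 2) ≤ (θ ^ 2)⁻¹ ^ 4 := by
    have a1 : q ^ 4 ≤ 1 := pow_le_one₀ q0 (by linarith)
    have a2 : q ^ 3 + q ^ 2 + q + 1 ≤ 2 := by nlinarith [pow_le_pow_left₀ q0 q1 2, pow_le_pow_left₀ q0 q1 3]
    have a3 : t ≤ t ^ 7 := by
      simpa using pow_le_pow_right₀ (by linarith : 1 ≤ t) (by norm_num : 1 ≤ 7)
    have a4 : t ^ 2 ≤ t ^ 7 := pow_le_pow_right₀ (by linarith) (by norm_num)
    have a5 : (θ ^ 2)⁻¹ ^ 4 = t * t ^ 7 := by rw [ht, ← inv_pow]; ring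
    have a6 : 0 ≤ t ^ 7 := by positivity
    have a7 : q ^ 4 * t ≤ t ^ 7 := by nlinarith
    have a8 : (q ^ 3 + q ^ 2 + q + 1) * (t ^ 7 + t ^ 2) ≤ 2 * (t ^ 7 + t ^ 7) := by gcongr
    rw [a5]
    nlinarith
  calc _ = (q ^ 4 * t) * S + (q ^ 4 * t + (q ^ 3 + q ^ 2 + q + 1) * (t ^ 7 + t ^ 2)) * F := by ring
    _ ≤ _ := by gcongr

end Pool.Agent.P.MP_d0f69c_mp
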