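import Pool.Agent.P.MP_d0f69c_mp.Explore

set_option autoImplicit false

open Finset Matrix

namespace Pool.Agent.P.MP_d0f69c_mp

variable {ι : Type} [Fintype ι] [DecidableEq ι]

/-- admissible perturbations -/
def Adm (U : Finset ι) (s : ι → ℝ) : Prop := ∀ y, 0 ≤ s y ∧ s y ≤ 2 ∧ (y ∉ U → s y = 0)

/-- the perturbation given by a configuration -/
def sc (U : Finset ι) (c : ι → Bool) (y : ι) : ℝ := if y ∈ U ∧ c y = true then 2 else 0

omit [Fintype ι] in
lemma adm_sc {U W : Finset ι} (h : W ⊆ U) (c : ι → Bool) : Adm U (sc W c) := by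
  intro y
  unfold sc
  split_ifs with h1
  · exact ⟨by norm_num, le_rfl, fun h2 => absurd (h h1.1) h2⟩
  · simp

lemma mv_diag (A : Matrix ι ι ℝ) (s φ : ι → ℝ) (y : ι) :
    ((A + diagonal s) *ᵥ φ) y = (A *ᵥ φ) y + s y * φ y := by
  simp [add_mulVec, mulVec_diagonal]

lemma q_diag (A : Matrix ι ι ℝ) (s g : ι → ℝ) :
    g ⬝ᵥ (A + diagonal s) *ᵥ g = g ⬝ᵥ A *ᵥ g + ∑ y, s y * g y ^ 2 := by
  simp only [dotProduct, mv_diag, ← Finset.sum_add_distrib]
  exact Finset.sum_congr rfl fun y _ => by ring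

omit [DecidableEq ι] in
lemma abs_le_sqrt (g : ι → ℝ) (x : ι) : |g x| ≤ Real.sqrt (g ⬝ᵥ g) :=
  Real.abs_le_sqrt (sq_le_n g x)

omit [DecidableEq ι] in
lemma abs_le_win {A : Matrix ι ι ℝ} {σ : ℝ} (hσ : 0 ≤ σ) {g : ι → ℝ}
    (h : (A *ᵥ g) ⬝ᵥ (A *ᵥ g) ≤ (2 * σ) ^ 2 * (g ⬝ᵥ g)) (y : ι) :
    |(A *ᵥ g) y| ≤ 2 * σ * Real.sqrt (g ⬝ᵥ g) := by
  refine (abs_le_sqrt _ y).trans ((Real.sqrt_le_sqrt h).trans (le_of_eq ?_))
  rw [Real.sqrt_mul (sq_nonneg _), Real.sqrt_sq (by positivity)]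

omit [DecidableEq ι] in
lemma sum_sq_le {g : ι → ℝ} {U : Finset ι} {a V : ℝ} (hV : (Fintype.card ι : ℝ) ≤ V)
    (h : ∀ y ∈ U, |g y| ≤ a) : ∑ y ∈ U, g y ^ 2 ≤ V * a ^ 2 := by
  refine (Finset.sum_le_card_nsmul _ _ (a ^ 2) fun y hy => ?_).trans ?_
  · rw [← sq_abs]
    exact pow_le_pow_left₀ (abs_nonneg _) (h y hy) 2
  · rw [nsmul_eq_mul]
    exact mul_le_mul_of_nonneg_right (le_trans (by exact_mod_cast card_le_univ U) hV) (sq_nonneg _)

omit [DecidableEq ι] in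
lemma win_of {A : Matrix ι ι ℝ} {Θ U : Finset ι} {nr : ι → Finset ι} {K τ ζ G : ℝ}
    (h : H2 A Θ U nr K τ ζ) (hV : (Fintype.card ι : ℝ) ≤ G) (hK : K ≤ G) (hG : 1 ≤ G)
    (τ1 : τ ≤ 1) (ζ0 : 0 ≤ ζ) (hζ : ζ * G ^ 5 ≤ 1) : Win A U (1 / G ^ 4) (25 / G ^ 5) := by
  intro g hg
  have n0 : 0 ≤ g ⬝ᵥ g := Finset.sum_nonneg fun _ _ => mul_self_nonneg _
  have a := abs_le_win (by positivity) hg
  refine (sum_sq_le (a := 5 / G ^ 3 * Real.sqrt (g ⬝ᵥ g)) hV fun x hx => ?_).trans (le_of_eq ?_)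
  · refine (h x hx g _ _ _ (by positivity) (by positivity) (by positivity) (fun y _ _ => a y)
      (fun y _ => a y) (abs_le_sqrt g)).trans ?_
    have b1 : ζ ≤ 1 / G ^ 3 := by
      rw [le_div_iff₀ (by positivity)]
      have : G ^ 3 ≤ G ^ 5 := pow_le_pow_right₀ hG (by norm_num)
      nlinarith
    have b2 : (K + τ) * (2 * (1 / G ^ 4)) ≤ 4 / G ^ 3 := by
      calc (K + τ) * (2 * (1 / G ^ 4)) ≤ (2 * G) * (2 * (1 / G ^ 4)) := by gcongr; linarith
        _ = _ := by field_simp; norm_num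
    have b3 : (K + τ) * (2 * (1 / G ^ 4)) + ζ ≤ 5 / G ^ 3 := by
      have : 5 / G ^ 3 = 4 / G ^ 3 + 1 / G ^ 3 := by ring
      linarith
    nlinarith [mul_le_mul_of_nonneg_right b3 (Real.sqrt_nonneg (g ⬝ᵥ g))]
  · rw [mul_pow, Real.sq_sqrt n0]
    field_simp
    ring

lemma count_le {A : Matrix ι ι ℝ} {b : ι → ι → ℝ} {lam : ι → ℝ} (D : Dec A b lam) {Θ : Finset ι}
    {M G : ℝ} (h : H1 A Θ M) (hV : (Fintype.card ι : ℝ) ≤ G) (M0 : 0 ≤ M) (hM : M ≤ G)
    (hG : 512 ≤ G) : (univ.filter fun i => |lam i| ≤ 2 * (1 / G ^ 4)).card ≤ Θ.card := by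
  refine window D Θ fun g h0 hg => ?_
  by_contra hc
  have n0 := n_pos hc
  have a := h g 0 _ le_rfl (by positivity) (fun y hy => by simp [h0 y hy])
    (abs_le_win (by positivity) hg)
  have a2 := sum_sq_le (U := univ) hV (fun y _ => a y)
  have e : ∑ y, g y ^ 2 = g ⬝ᵥ g := Finset.sum_congr rfl fun y _ => pow_two _
  rw [e, zero_add, ← mul_assoc, mul_pow, Real.sq_sqrt n0.le, ← mul_assoc] at a2
  have b : G * (M * (2 * (1 / G ^ 4))) ^ 2 < 1 := by
    calc G * (M * (2 * (1 / G ^ 4))) ^ 2 ≤ G * (G * (2 * (1 / G ^ 4))) ^ 2 := by gcongr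
      _ = 4 / G ^ 5 := by field_simp; norm_num
      _ < 1 := by
        rw [div_lt_one (by positivity)]
        have : G ^ 1 ≤ G ^ 5 := pow_le_pow_right₀ (by linarith) (by norm_num)
        linarith
  nlinarith

lemma nrm_of {A : Matrix ι ι ℝ} {b : ι → ι → ℝ} {lam : ι → ℝ} (D : Dec A b lam) {η G : ℝ}
    (hη : 0 < η) (hV : (Fintype.card ι : ℝ) ≤ G) (hG : 1 ≤ G) (h : ∀ i, η ≤ |lam i|) :
    NRm A (G / η) := by
  intro ψ F hF hψ z
  have a1 : η ^ 2 * (ψ ⬝ᵥ ψ) ≤ (A *ᵥ ψ) ⬝ᵥ (A *ᵥ ψ) := by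
    rw [D.n, D.n2, Finset.mul_sum]
    refine Finset.sum_le_sum fun i _ => mul_le_mul_of_nonneg_right ?_ (sq_nonneg _)
    rw [← sq_abs (lam i)]
    exact pow_le_pow_left₀ hη.le (h i) 2
  have a2 := sum_sq_le (U := univ) hV (fun y _ => hψ y)
  have e : ∑ y, (A *ᵥ ψ) y ^ 2 = (A *ᵥ ψ) ⬝ᵥ (A *ᵥ ψ) := Finset.sum_congr rfl fun y _ => pow_two _
  have a3 := mul_le_mul_of_nonneg_left (sq_le_n ψ z) (sq_nonneg η)
  rw [div_mul_eq_mul_div, le_div_iff₀ hη]
  refine abs_le_of_sq_le_sq' ?_ (by positivity) |>.2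
  rw [mul_pow, sq_abs, mul_pow]
  have : G * F ^ 2 ≤ G ^ 2 * F ^ 2 := by gcongr; nlinarith
  linarith

omit [DecidableEq ι] in
lemma annulus {lam : ι → ℝ} {σ ρ : ℝ} {n : ℕ} (hσ : 0 < σ) (hρ : 0 < ρ) (hρ1 : ρ ≤ 1)
    (h : (univ.filter fun i => |lam i| ≤ 2 * σ).card ≤ n) :
    ∃ j ≤ n, ∀ i, |lam i| ≤ σ * ρ ^ (j + 1) ∨ σ * ρ ^ j ≤ |lam i| := by
  by_contra hc
  push Not at hc
  have : Nonempty ι := ⟨(hc 0 (Nat.zero_le n)).choose⟩
  choose! g g1 g2 using hc
  have mono : ∀ j j', j ≤ j' → σ * ρ ^ j' ≤ σ * ρ ^ j := fun j j' hj =>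
    mul_le_mul_of_nonneg_left (pow_le_pow_of_le_one hρ.le hρ1 hj) hσ.le
  have := Finset.card_le_card_of_injOn (s := range (n + 1))
    (t := univ.filter fun i => |lam i| ≤ 2 * σ) g (fun j hj => by
      have hj' : j ≤ n := by simpa [Nat.lt_succ_iff] using hj
      have := mono 0 j (Nat.zero_le j)
      simp only [coe_filter, mem_univ, true_and, Set.mem_ofPred_eq]
      linarith [g2 j hj', pow_zero ρ]) (fun j hj j' hj' e => by
      have hj1 : j ≤ n := by simpa [Nat.lt_succ_iff] using hj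
      have hj2 : j' ≤ n := by simpa [Nat.lt_succ_iff] using hj'
      have a1 := g1 j hj1
      have a2 := g2 j hj1
      have a3 := g1 j' hj2
      have a4 := g2 j' hj2
      rw [e] at a1 a2
      rcases lt_trichotomy j j' with l | l | l
      · linarith [mono (j + 1) j' l]
      · exact l
      · linarith [mono (j' + 1) j l])
  rw [card_range] at this
  omega

lemma range2 {A0 : Matrix ι ι ℝ} {U : Finset ι} {bb : (ι → ℝ) → ι → ι → ℝ}
    {ll : (ι → ℝ) → ι → ℝ} (D : ∀ s, Dec (A0 + diagonal s) (bb s) (ll s)) {σ κ t : ℝ} {n : ℕ}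
    (hW : ∀ s, Adm U s → Win (A0 + diagonal s) U σ κ)
    (hn : ∀ s, Adm U s → (univ.filter fun i => |ll s i| ≤ 2 * σ).card ≤ n)
    (hσ : 0 < σ) (hκ : 0 < κ) (hκσ : 6 * κ ≤ σ) (t1 : 0 ≤ t) (t2 : t ≤ σ) {s : ι → ℝ}
    (hs : Adm U s) :
    NN (ll 0) t ≤ NN (ll s) t + n ∧ NN (-ll s) t ≤ NN (-ll 0) t + n := by
  obtain ⟨m, hm⟩ := exists_nat_ge (8 / σ)
  have m0 : (0 : ℝ) < m := lt_of_lt_of_le (by positivity) hm
  have hh : 2 / (m : ℝ) ≤ σ / 4 := by
    rw [div_le_iff₀ hσ] at hm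
    rw [div_le_iff₀ m0]
    linarith
  have hm2 : m * (3 * (2 / (m : ℝ)) * κ) ≤ σ := by
    rw [show m * (3 * (2 / (m : ℝ)) * κ) = 6 * κ by field_simp; norm_num]
    exact hκσ
  have adm : ∀ r : ℝ, 0 ≤ r → r ≤ 1 → Adm U (r • s) := fun r r0 r1 y => by
    obtain ⟨a1, a2, a3⟩ := hs y
    simp only [Pi.smul_apply, smul_eq_mul]
    exact ⟨by positivity, by nlinarith, fun h => by simp [a3 h]⟩
  have r01 : ∀ j ≤ m, 0 ≤ (j : ℝ) / m ∧ (j : ℝ) / m ≤ 1 := fun j hj =>
    ⟨by positivity, by rw [div_le_one m0]; exact_mod_cast hj⟩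
  have ss : ∀ g : ι → ℝ, 1 / (m : ℝ) * ∑ y, s y * g y ^ 2 ≤ 2 / m * ∑ y ∈ U, g y ^ 2 := by
    intro g
    rw [← Finset.sum_subset (subset_univ U) (fun y _ hy => by simp [(hs y).2.2 hy])]
    have : ∑ y ∈ U, s y * g y ^ 2 ≤ 2 * ∑ y ∈ U, g y ^ 2 := by
      rw [Finset.mul_sum]
      exact Finset.sum_le_sum fun y _ => mul_le_mul_of_nonneg_right (hs y).2.1 (sq_nonneg _)
    calc _ ≤ 1 / (m : ℝ) * (2 * ∑ y ∈ U, g y ^ 2) := by gcongr
      _ = _ := by ring
  have qq : ∀ (r : ℝ) (g : ι → ℝ), g ⬝ᵥ (A0 + diagonal (r • s)) *ᵥ g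
      = g ⬝ᵥ A0 *ᵥ g + r * ∑ y, s y * g y ^ 2 := fun r g => by
    rw [q_diag, Finset.mul_sum]
    simp only [Pi.smul_apply, smul_eq_mul, mul_assoc]
  constructor
  · have := range_le (B := fun j : ℕ => A0 + diagonal (((j : ℝ) / m) • s)) (m := m) (n := n)
      (fun j _ => D _) (fun j _ g => by
        rw [qq, qq]
        push_cast
        have := ss g
        rw [add_div, add_mul]
        linarith) (fun j hj => hW _ (adm _ (r01 j hj.le).1 (r01 j hj.le).2)) hκ (by positivity) hh hm2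
      t1 t2 (hn _ (adm _ (r01 0 (Nat.zero_le m)).1 (r01 0 (Nat.zero_le m)).2))
    simpa [div_self m0.ne'] using this
  · have := range_le (B := fun j : ℕ => -(A0 + diagonal ((1 - (j : ℝ) / m) • s))) (m := m) (n := n)
      (U := U) (fun j _ => (D _).neg) (fun j _ g => by
        simp only [neg_mulVec, dotProduct_neg]
        rw [qq, qq]
        push_cast
        have := ss g
        rw [add_div]
        linarith) (fun j hj g hg => hW _ (adm (1 - (j : ℝ) / m) (by linarith [(r01 j hj.le).2])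
          (by linarith [(r01 j hj.le).1])) g (by
            simpa only [neg_mulVec, neg_dotProduct_neg] using hg))
      hκ (by positivity) hh hm2 t1 t2 (by simpa using hn s hs)
    simpa [div_self m0.ne'] using this

open Classical in
theorem explore {A0 : Matrix ι ι ℝ} (hA : A0.IsHermitian) {Θ U : Finset ι} {nr : ι → Finset ι}
    {M K τ ζ w G1 G : ℝ} {n f D m : ℕ}
    (h1 : ∀ s, Adm U s → H1 (A0 + diagonal s) Θ M)
    (h2 : ∀ s, Adm U s → H2 (A0 + diagonal s) Θ U nr K τ ζ)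
    (h3 : ∀ s, Adm U s → H3 (A0 + diagonal s) U w f)
    (hΘ : Θ.card ≤ n) (hn : 0 < n) (hnr : ∀ x, x ∈ nr x) (hD : ∀ x, (nr x).card ≤ D) (hD0 : 0 < D)
    (hm : 0 < m) (hf : m ^ 2 * (2 * n * D) ≤ f)
    (hV : (Fintype.card ι : ℝ) ≤ G) (M0 : 0 ≤ M) (hM : M ≤ G) (K0 : 0 ≤ K) (hK : K ≤ G1)
    (h4 : 4 ^ n ≤ G1) (hG1 : 512 ≤ G1) (hG : G1 ≤ G) (τ0 : 0 ≤ τ) (hτ : τ * G1 ^ 3 ≤ 1)
    (ζ0 : 0 ≤ ζ) (hζ : ζ * G ^ 5 ≤ 1) (w0 : 0 < w) (w1 : w ≤ 1) :
    ((univ.filter fun c : ι → Bool => ¬ NRm (A0 + diagonal (sc U c))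
      (G / (1 / G ^ 4 * ((w / G ^ 6) ^ 2 / 8) ^ (n + 1)))).card : ℝ)
      ≤ (n + 1) * (2 * n * (2 * n * D : ℕ) / m * Fintype.card (ι → Bool)) := by
  have herm : ∀ s : ι → ℝ, (A0 + diagonal s).IsHermitian := fun s =>
    hA.add (isHermitian_diagonal s)
  choose bb ll hDec using fun s => exists_dec (herm s)
  have G5 : 512 ≤ G := hG1.trans hG
  have G0 : 0 < G := by linarith
  have G6 : 1 ≤ G ^ 6 := one_le_pow₀ (by linarith)
  have G4 : 1 ≤ G ^ 4 := one_le_pow₀ (by linarith)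
  set σ : ℝ := 1 / G ^ 4 with hσ
  set a : ℝ := w / G ^ 6 with ha
  have σ0 : 0 < σ := by positivity
  have σ1 : σ ≤ 1 := by rw [hσ, div_le_one (by positivity)]; exact G4
  have a0 : 0 < a := by positivity
  have aw : a ≤ w := div_le_self w0.le G6
  have a1 : a ≤ 1 := aw.trans w1
  have ρ0 : 0 < a ^ 2 / 8 := by positivity
  have ρa : a ^ 2 / 8 ≤ a := by nlinarith
  have ρ1 : a ^ 2 / 8 ≤ 1 := ρa.trans a1
  have τ1 : τ ≤ 1 := by
    have : 1 ≤ G1 ^ 3 := one_le_pow₀ (by linarith)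
    nlinarith
  have hn' : ∀ s, Adm U s → (univ.filter fun i => |ll s i| ≤ 2 * σ).card ≤ n := fun s hs =>
    (count_le (hDec s) (h1 s hs) hV M0 hM G5).trans hΘ
  have hW := fun s hs => win_of (h2 s hs) hV (hK.trans hG) (by linarith) τ1 ζ0 hζ
  have hκ : 6 * (25 / G ^ 5) ≤ σ := by
    rw [hσ, le_div_iff₀ (by positivity), show 6 * (25 / G ^ 5) * G ^ 4 = 150 / G by field_simp; norm_num,
      div_le_one G0]
    linarith
  have hε : (τ + ζ * (G * M)) * G1 ^ 3 ≤ 2 := by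
    have : ζ * (G * M) * G1 ^ 3 ≤ ζ * (G * G) * G ^ 3 := by gcongr
    linarith
  have sp : ∀ (W : Finset ι) (s : ι → ℝ), ∃ P, Adm U s →
      P ⊆ U \ W ∧ P.card ≤ 2 * n ∧ Spans (A0 + diagonal s) Θ (U \ W) P G1 := fun W s => by
    by_cases hs : Adm U s
    · obtain ⟨P, hP⟩ := span2 (h1 s hs) hΘ h4 (U \ W)
      exact ⟨P, fun _ => hP⟩
    · exact ⟨∅, fun h => absurd h hs⟩
  choose P hP using sp
  let nxt : Finset ι → (ι → Bool) → Finset ι := fun W c =>
    (P W (sc (U ∩ W) c)).biUnion fun x => nr x ∩ (U \ W)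
  have hdep : ∀ W c c', (∀ y ∈ W, c y = c' y) → nxt W c = nxt W c' := fun W c c' h => by
    have : sc (U ∩ W) c = sc (U ∩ W) c' := by
      funext y
      unfold sc
      by_cases hy : y ∈ W
      · rw [h y hy]
      · simp [hy]
    simp only [nxt, this]
  have hsub : ∀ W c, ∀ x ∈ nxt W c, x ∈ U \ W := fun W c x hx => by
    obtain ⟨y, -, h⟩ := mem_biUnion.1 hx
    exact (mem_inter.1 h).2
  have hcard : ∀ W c, (nxt W c).card ≤ 2 * n * D := fun W c =>
    (card_biUnion_le_card_mul _ _ D fun x _ => (card_le_card inter_subset_left).trans (hD x)).trans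
      (Nat.mul_le_mul_right _ (hP W _ (adm_sc inter_subset_left c)).2.1)
  have mono : ∀ (t : ℝ) (s s' : ι → ℝ), (∀ y, s y ≤ s' y) →
      NN (ll s') t ≤ NN (ll s) t ∧ NN (-ll s) t ≤ NN (-ll s') t := fun t s s' h => by
    have : ∀ g : ι → ℝ, g ⬝ᵥ (A0 + diagonal s) *ᵥ g ≤ g ⬝ᵥ (A0 + diagonal s') *ᵥ g := fun g => by
      rw [q_diag, q_diag]
      exact add_le_add le_rfl
        (Finset.sum_le_sum fun y _ => mul_le_mul_of_nonneg_right (h y) (sq_nonneg _))
    exact ⟨NN_mono (hDec s) (hDec s') this t, NN_mono (hDec s').neg (hDec s).neg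
      (fun g => by simp only [neg_mulVec, dotProduct_neg]; linarith [this g]) t⟩
  have up : ∀ (c : ι → Bool) (x : ι), c x = false → ∀ y, sc U (flp x c) y
      = sc U c y + if y = x ∧ x ∈ U then 2 else 0 := fun c x hx y => by
    unfold sc
    by_cases hy : y = x
    · subst hy
      simp [flp_self, hx]
    · simp [flp_ne c hy, hy]
  have upq : ∀ (c : ι → Bool) (x : ι), c x = false → x ∈ U → ∀ g : ι → ℝ,
      g ⬝ᵥ (A0 + diagonal (sc U (flp x c))) *ᵥ g
        = g ⬝ᵥ (A0 + diagonal (sc U c)) *ᵥ g + 2 * g x ^ 2 := fun c x hx hU g => by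
    rw [q_diag, q_diag]
    simp [up c x hx, hU, add_mul, Finset.sum_add_distrib, add_assoc]
  have upm : ∀ (c : ι → Bool) (x : ι), c x = false → ∀ y, sc U c y ≤ sc U (flp x c) y :=
    fun c x hx y => by
      rw [up c x hx]
      split_ifs <;> linarith
  have one : ∀ j ≤ n, ((univ.filter fun c : ι → Bool =>
      (∃ i, |ll (sc U c) i| ≤ σ * (a ^ 2 / 8) ^ (n + 1)) ∧ ∀ i, |ll (sc U c) i|
        ≤ σ * (a ^ 2 / 8) ^ (j + 1) ∨ σ * (a ^ 2 / 8) ^ j ≤ |ll (sc U c) i|).card : ℝ)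
      ≤ 2 * n * (2 * n * D : ℕ) / m * Fintype.card (ι → Bool) := by
    intro j hj
    set s := σ * (a ^ 2 / 8) ^ j with hs
    have s0 : 0 < s := by positivity
    have sσ : s ≤ σ := mul_le_of_le_one_right σ0.le (pow_le_one₀ ρ0.le ρ1)
    have tσ : a ^ 2 / 4 * s ≤ σ :=
      (mul_le_of_le_one_left s0.le (by linarith [pow_le_one₀ (n := 2) a0.le a1])).trans sσ
    set t := a ^ 2 / 4 * s with ht
    refine tree hdep (fun W c x hx => (mem_sdiff.1 (hsub W c x hx)).2) hcard (by positivity) hm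
      (fun c => (NN (-ll (sc U c)) t : ℝ) - NN (ll (sc U c)) t - NN (-ll 0) t + NN (ll 0) t - n)
      (fun c => ?_) (fun c x => ?_) _ (fun c hc r hr => ?_)
    · obtain ⟨b1, b2⟩ := range2 hDec hW hn' σ0 (by positivity) hκ (by positivity) tσ
        (adm_sc subset_rfl c)
      obtain ⟨b3, b4⟩ := mono t 0 (sc U c) fun y => (adm_sc subset_rfl c y).1
      have c1 := (Nat.cast_le (α := ℝ)).2 b1
      have c2 := (Nat.cast_le (α := ℝ)).2 b2
      have c3 := (Nat.cast_le (α := ℝ)).2 b3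
      have c4 := (Nat.cast_le (α := ℝ)).2 b4
      push_cast at c1 c2
      rw [abs_le]
      constructor <;> linarith
    · cases hx : c x
      · obtain ⟨b3, b4⟩ := mono t _ _ (upm c x hx)
        have c3 := (Nat.cast_le (α := ℝ)).2 b3
        have c4 := (Nat.cast_le (α := ℝ)).2 b4
        simp only [sg, Bool.false_eq_true, if_false]
        linarith
      · obtain ⟨b3, b4⟩ := mono t _ _ (upm (flp x c) x (by simp [flp_self, hx]))
        rw [flp_flp] at b3 b4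
        have c3 := (Nat.cast_le (α := ℝ)).2 b3
        have c4 := (Nat.cast_le (α := ℝ)).2 b4
        simp only [sg, if_true]
        linarith
    · obtain ⟨⟨i0, hi0⟩, hg⟩ := (mem_filter.1 hc).2
      have e1 : σ * (a ^ 2 / 8) ^ (j + 1) = a ^ 2 / 8 * s := by rw [hs]; ring
      rw [e1] at hg
      have l1 : |ll (sc U c) i0| ≤ a ^ 2 / 8 * s := by
        rw [← e1]
        exact hi0.trans (mul_le_mul_of_nonneg_left (pow_le_pow_of_le_one ρ0.le ρ1 (by omega)) σ0.le)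
      have l2 : |ll (sc U c) i0| ≤ a := by nlinarith
      set W := QQ nxt c r with hWd
      set u := bb (sc U c) i0 with hu
      have u1 : u ⬝ᵥ u = 1 := by simpa using (hDec (sc U c)).orth i0 i0
      obtain ⟨x0, -, hx0⟩ := Finset.exists_max_image univ (fun y => |u y|) ⟨i0, mem_univ _⟩
      have α1 : |u x0| ≤ 1 := by simpa [u1] using abs_le_sqrt u x0
      have α2 : 1 ≤ G * |u x0| := by
        have b := sum_sq_le (U := univ) hV hx0
        have e : ∑ y, u y ^ 2 = u ⬝ᵥ u := Finset.sum_congr rfl fun y _ => pow_two _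
        have : G * |u x0| ^ 2 ≤ G * |u x0| := by
          gcongr
          nlinarith [abs_nonneg (u x0)]
        linarith
      have α0 : 0 < |u x0| := by
        by_contra h
        nlinarith
      have Au : ∀ y, |((A0 + diagonal (sc U c)) *ᵥ u) y| ≤ a * |u x0| := fun y => by
        rw [hu, (hDec _).vec, Pi.smul_apply, smul_eq_mul, abs_mul]
        exact mul_le_mul l2 (hx0 y (mem_univ y)) (abs_nonneg _) a0.le
      obtain ⟨S, S1, S2, S3⟩ := h3 _ (adm_sc subset_rfl c) u _ x0 α0 le_rfl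
        (fun y => (Au y).trans (by gcongr))
      have cW : W.card < S.card := by
        refine (card_QQ hcard c r).trans_lt (lt_of_lt_of_le ?_ (hf.trans S2))
        exact Nat.mul_lt_mul_of_pos_right hr (by positivity)
      obtain ⟨x1, x1S, x1W⟩ := Finset.exists_mem_notMem_of_card_lt_card cW
      have ex : ∃ x ∈ nxt W c, a ≤ |u x| := by
        by_contra hcon
        push Not at hcon
        obtain ⟨P1, -, P3⟩ := hP W _ (adm_sc inter_subset_left c)
        have := found (herm _) (h1 _ (adm_sc inter_subset_left c)) (h2 _ (adm_sc subset_rfl c))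
          (h2 _ (adm_sc inter_subset_left c)) sdiff_subset P1 P3 hnr
          (δ := fun y => sc U c y - sc (U ∩ W) c y) (u := u) (β := a)
          (fun y => by
            have b1 := adm_sc subset_rfl c (U := U) y
            have b2 := adm_sc inter_subset_left c (U := U) (W := U ∩ W) y
            rw [abs_le]
            constructor <;> linarith [b1.1, b1.2.1, b2.1, b2.2.1])
          (fun y hy => by
            unfold sc
            by_cases b1 : y ∈ U
            · have : y ∈ W := by simpa [b1] using hy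
              simp [b1, this]
            · simp [b1])
          (fun φ y => by rw [mv_diag, mv_diag]; ring) M0 hV K0 hK hG1 τ0 ζ0 hε a0.le
          (fun y => (Au y).trans (mul_le_of_le_one_right a0.le α1))
          (fun x hx y hy hy' => (hcon y (mem_biUnion.2 ⟨x, hx, mem_inter.2 ⟨hy, hy'⟩⟩)).le)
          x1 (mem_sdiff.2 ⟨S1 x1S, x1W⟩)
        have b1 := S3 x1 x1S
        have b2 : G1 ^ 4 * a ≤ G ^ 4 * a := by gcongr
        have b3 : G ^ 2 * (G ^ 4 * a) = w := by rw [ha]; field_simp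
        have b4 : G ^ 2 * (w * |u x0|) ≤ w :=
          (mul_le_mul_of_nonneg_left (b1.trans (this.trans b2)) (sq_nonneg G)).trans b3.le
        nlinarith [mul_le_mul_of_nonneg_left α2 (mul_pos G0 w0).le]
      obtain ⟨x, hx, hxa⟩ := ex
      refine ⟨x, hx, ?_⟩
      have xU := (mem_sdiff.1 (hsub W c x hx)).1
      have gap : ∀ r : ℝ, |r| ≤ a ^ 2 / 8 * s ∨ s ≤ |r| → r ≤ a ^ 2 / 8 * s ∨ s ≤ r := by
        intro r h
        rcases h with h | h
        · exact Or.inl ((le_abs_self r).trans h)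
        · rcases le_abs.1 h with h | h
          · exact Or.inr h
          · exact Or.inl (by nlinarith)
      cases hcx : c x
      · obtain ⟨-, b4⟩ := mono t _ _ (upm c x hcx)
        have b3 := pivot (hDec (sc U c)) (hDec (sc U (flp x c))) (fun g => (upq c x hcx xU g).ge) a0 a1
          hxa s0 (sσ.trans σ1) l1 (fun i => gap _ (hg i))
        have c3 := (Nat.cast_le (α := ℝ)).2 (Nat.succ_le_of_lt b3)
        have c4 := (Nat.cast_le (α := ℝ)).2 b4
        push_cast at c3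
        simp only [sg, Bool.false_eq_true, if_false]
        linarith
      · have hcx' : flp x c x = false := by simp [flp_self, hcx]
        obtain ⟨b4, -⟩ := mono t _ _ (upm (flp x c) x hcx')
        rw [flp_flp] at b4
        have b3 := pivot (hDec (sc U c)).neg (hDec (sc U (flp x c))).neg (x := x) (i0 := i0)
          (fun g => by
            have := upq (flp x c) x hcx' xU g
            rw [flp_flp] at this
            simp only [neg_mulVec, dotProduct_neg]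
            linarith) a0 a1 hxa s0 (sσ.trans σ1) (by simpa using l1)
          (fun i => gap _ (by simpa using hg i))
        have c3 := (Nat.cast_le (α := ℝ)).2 (Nat.succ_le_of_lt b3)
        have c4 := (Nat.cast_le (α := ℝ)).2 b4
        push_cast at c3
        simp only [sg, if_true]
        linarith
  refine le_trans (Nat.cast_le.2 (card_le_card (t := (range (n + 1)).biUnion fun j =>
    univ.filter fun c : ι → Bool =>
      (∃ i, |ll (sc U c) i| ≤ σ * (a ^ 2 / 8) ^ (n + 1)) ∧ ∀ i, |ll (sc U c) i|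
        ≤ σ * (a ^ 2 / 8) ^ (j + 1) ∨ σ * (a ^ 2 / 8) ^ j ≤ |ll (sc U c) i|) fun c hc => ?_)) ?_
  · obtain ⟨j, hj, hg⟩ := annulus σ0 ρ0 ρ1 (hn' _ (adm_sc subset_rfl c))
    refine mem_biUnion.2 ⟨j, mem_range.2 (by omega), mem_filter.2 ⟨mem_univ _, ?_, hg⟩⟩
    by_contra h
    push Not at h
    exact (mem_filter.1 hc).2 (nrm_of (hDec _) (by positivity) hV (by linarith) fun i => (h i).le)
  · refine (Nat.cast_le.2 card_biUnion_le).trans ?_
    rw [Nat.cast_sum]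
    refine (Finset.sum_le_card_nsmul _ _ _ fun j hj => one j (by
      have := mem_range.1 hj
      omega)).trans (le_of_eq ?_)
    rw [card_range, nsmul_eq_mul]
    push_cast
    ring

end Pool.Agent.P.MP_d0f69c_mp
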