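import Pool.Agent.P.MP_d0f69c_mp.Wegner

set_option autoImplicit false

open Finset MeasureTheory ProbabilityTheory

namespace Pool.Agent.P.MP_d0f69c_mp

variable {d : ℕ}

/-- the product measure -/
noncomputable def PP (d : ℕ) : Measure (Zd d → Bool) :=
  Measure.infinitePi (fun _ : Zd d => (PMF.uniformOfFintype Bool).toMeasure)

instance (d : ℕ) : IsProbabilityMeasure (PP d) := by
  unfold PP
  infer_instance

/-- the predicate only depends on the sites in `S` -/
def Dep (S : Finset (Zd d)) (p : (Zd d → Bool) → Prop) : Prop :=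
  ∀ ω ω' : Zd d → Bool, (∀ y ∈ S, ω y = ω' y) → p ω → p ω'

/-- extension by `true` -/
noncomputable def extd (S : Finset (Zd d)) (c : S → Bool) (y : Zd d) : Bool :=
  if h : y ∈ S then c ⟨y, h⟩ else true

lemma Dep.iff {S : Finset (Zd d)} {p : (Zd d → Bool) → Prop} (h : Dep S p) (ω : Zd d → Bool) :
    p ω ↔ p (extd S fun y => ω y) := by
  constructor
  · exact h _ _ (fun y hy => by simp [extd, hy])
  · exact h _ _ (fun y hy => by simp [extd, hy])

lemma Dep.not {S : Finset (Zd d)} {p : (Zd d → Bool) → Prop} (h : Dep S p) :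
    Dep S fun ω => ¬ p ω := fun ω ω' e h1 h2 => h1 (h ω' ω (fun y hy => (e y hy).symm) h2)

lemma Dep.shift {S : Finset (Zd d)} {p : (Zd d → Bool) → Prop} (h : Dep S p) (x : Zd d) :
    Dep (S.image fun y => x + y) fun ω => p (sh x ω) := fun _ _ e =>
  h _ _ (fun _ hy => e _ (Finset.mem_image_of_mem _ hy))

lemma meas_prod {S : Finset (Zd d)} {p : (Zd d → Bool) → ℝ → Prop} (h : ∀ E, Dep S fun ω => p ω E)
    (hm : ∀ ω, MeasurableSet {E | p ω E}) :
    MeasurableSet {x : (Zd d → Bool) × ℝ | p x.1 x.2} := by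
  have m1 : Measurable fun x : (S → Bool) × ℝ => p (extd S x.1) x.2 :=
    measurable_from_prod_countable_right (fun c => measurableSet_setOfPred.1 (hm (extd S c)))
  have m2 : Measurable fun x : (Zd d → Bool) × ℝ => ((fun y : S => x.1 y), x.2) := by fun_prop
  have := measurableSet_setOfPred.2 (m1.comp m2)
  convert this using 1
  ext x
  exact (h x.2).iff x.1

lemma Dep.meas {S : Finset (Zd d)} {p : (Zd d → Bool) → Prop} (h : Dep S p) :
    MeasurableSet {ω | p ω} := by
  have m2 : Measurable fun ω : Zd d → Bool => (fun y : S => ω y) := by fun_prop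
  have := m2 (MeasurableSet.of_discrete (s := {c : S → Bool | p (extd S c)}))
  convert this using 1
  ext ω
  exact h.iff ω

lemma Dep.indep {S T : Finset (Zd d)} {p q : (Zd d → Bool) → Prop} (hp : Dep S p) (hq : Dep T q)
    (hST : Disjoint S T) :
    (PP d).real {ω | p ω ∧ q ω} = (PP d).real {ω | p ω} * (PP d).real {ω | q ω} := by
  have h1 : iIndepFun (fun (y : Zd d) (ω : Zd d → Bool) => ω y) (PP d) :=
    iIndepFun_infinitePi (X := fun _ b => b) (fun _ => measurable_id)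
  have h2 := (h1.indepFun_finset S T hST (fun y => measurable_pi_apply y)).measure_inter_preimage_eq_mul
    {c : S → Bool | p (extd S c)} {c : T → Bool | q (extd T c)} MeasurableSet.of_discrete
    MeasurableSet.of_discrete
  have e1 : {ω | p ω} = (fun (ω : Zd d → Bool) (y : S) => ω y) ⁻¹' {c | p (extd S c)} := by
    ext ω
    exact hp.iff ω
  have e2 : {ω | q ω} = (fun (ω : Zd d → Bool) (y : T) => ω y) ⁻¹' {c | q (extd T c)} := by
    ext ω
    exact hq.iff ω
  rw [Set.ofPred_and, e1, e2, measureReal_def, h2, ENNReal.toReal_mul]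
  rfl

lemma map_sh (x : Zd d) : (PP d).map (sh x) = PP d :=
  Measure.map_infinitePi_infinitePi_of_inj
    (P := fun _ : Zd d => (PMF.uniformOfFintype Bool).toMeasure) (add_right_injective x)

lemma meas_sh (x : Zd d) : Measurable (sh x) := by
  unfold sh
  fun_prop

lemma Dep.real_sh {S : Finset (Zd d)} {p : (Zd d → Bool) → Prop} (h : Dep S p) (x : Zd d) :
    (PP d).real {ω | p (sh x ω)} = (PP d).real {ω | p ω} := by
  conv_rhs => rw [← map_sh x, measureReal_def, Measure.map_apply (meas_sh x) h.meas]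
  rfl

lemma dep_Est (E : ℝ) (L : ℕ) (z : Zd d) (g M : ℝ) :
    Dep (box d L) fun ω => Est ω E L z g M := by
  intro ω ω' e h u
  refine (h u).trans (le_of_eq ?_)
  congr 2
  apply Finset.sum_congr rfl
  intro y hy
  simp only [TT, pot, e y hy]

lemma dep_Res (E : ℝ) (L : ℕ) (R : ℝ) : Dep (box d L) fun ω => Res ω E L R :=
  fun ω ω' e h z hz => dep_Est E L z R R ω ω' e (h z hz)

lemma closed_Est (ω : Zd d → Bool) (L : ℕ) (z : Zd d) (g M : ℝ) :
    IsClosed {E | Est ω E L z g M} := by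
  simp only [Est, Set.ofPred_forall]
  refine isClosed_iInter fun u => isClosed_le continuous_const ?_
  unfold TT
  fun_prop

lemma closed_Res (ω : Zd d → Bool) (L : ℕ) (R : ℝ) : IsClosed {E | Res ω E L R} := by
  simp only [Res, Set.ofPred_forall]
  exact isClosed_iInter fun z => isClosed_iInter fun _ => closed_Est ω L z R R

lemma markov {L : ℕ} {R v w : ℝ} (hR : 0 < R) (hv : ((box d L).card : ℝ) ≤ v) (hw : 0 < w) :
    MeasurableSet {E : ℝ | w < (PP d).real {ω | ¬ Res ω E L R}} ∧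
    volume {E : ℝ | w < (PP d).real {ω | ¬ Res ω E L R}}
      ≤ ENNReal.ofReal (2 * (2 * d + 1) * v ^ 2 / R / w) := by
  have hm : MeasurableSet {x : (Zd d → Bool) × ℝ | ¬ Res x.1 x.2 L R} :=
    meas_prod (p := fun ω E => ¬ Res ω E L R) (fun E => (dep_Res E L R).not)
      (fun ω => (closed_Res ω L R).measurableSet.compl)
  have hf : Measurable fun E : ℝ => PP d {ω | ¬ Res ω E L R} :=
    measurable_measure_prodMk_right (μ := PP d) hm
  refine ⟨measurableSet_lt measurable_const hf.ennreal_toReal, ?_⟩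
  have h1 : ∫⁻ E : ℝ, PP d {ω | ¬ Res ω E L R} ≤ ENNReal.ofReal (2 * (2 * d + 1) * v ^ 2 / R) := by
    have a1 := Measure.prod_apply_symm (μ := PP d) (ν := (volume : Measure ℝ)) hm
    have a2 := Measure.prod_apply (μ := PP d) (ν := (volume : Measure ℝ)) hm
    refine (le_of_eq (a1.symm.trans a2)).trans ?_
    refine (lintegral_mono (g := fun _ => ENNReal.ofReal (2 * (2 * d + 1) * v ^ 2 / R))
      fun ω => wegner ω L hR hv).trans ?_
    simp
  have h2 := meas_ge_le_lintegral_div (μ := (volume : Measure ℝ)) hf.aemeasurable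
    (ε := ENNReal.ofReal w) (by simpa using hw) ENNReal.ofReal_ne_top
  rw [ENNReal.ofReal_div_of_pos hw]
  refine le_trans (measure_mono fun E hE => ?_) (h2.trans (ENNReal.div_le_div_right h1 _))
  exact ENNReal.ofReal_le_of_le_toReal (le_of_lt hE)

/-- the good event at scale `L` -/
def Good (ω : Zd d → Bool) (E : ℝ) (L : ℕ) (θ : ℝ) : Prop := Est ω E L 0 (θ ^ 8) (θ⁻¹ ^ 4)

lemma prob_step {E θ v : ℝ} {l : ℕ} (hl : 1 ≤ l) (hθ : 0 < θ) (hθ5 : θ ≤ 1 / 5)
    (hv : ((box d (28 * l)).card : ℝ) ≤ v) (hvθ : v * θ ≤ 1) :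
    (PP d).real {ω | ¬ Good ω E (28 * l) (θ ^ 2)}
      ≤ v ^ 2 * (PP d).real {ω | ¬ Good ω E l θ} ^ 2
        + v * (PP d).real {ω | ¬ Res ω E (2 * l) θ⁻¹}
        + (PP d).real {ω | ¬ Res ω E (28 * l) θ⁻¹} := by
  classical
  have v0 : 0 ≤ v := (Nat.cast_nonneg _).trans hv
  have sub : {ω | ¬ Good ω E (28 * l) (θ ^ 2)} ⊆
      ((⋃ y ∈ box d (28 * l), ⋃ y' ∈ (box d (28 * l)).filter (fun y' => (2 * l : ℝ) < ‖y' - y‖),
        {ω | ¬ Good (sh y ω) E l θ ∧ ¬ Good (sh y' ω) E l θ})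
      ∪ ⋃ c ∈ box d (28 * l), {ω | ¬ Res (sh c ω) E (2 * l) θ⁻¹})
      ∪ {ω | ¬ Res ω E (28 * l) θ⁻¹} := by
    intro ω hω
    by_contra hc
    simp only [Set.mem_union, Set.mem_iUnion, Set.mem_ofPred_eq, not_or, not_exists, not_not,
      Finset.mem_filter, not_and] at hc
    obtain ⟨⟨h1, h2⟩, h3⟩ := hc
    apply hω
    by_cases hb : ∃ c ∈ box d (28 * l), ¬ Good (sh c ω) E l θ
    · obtain ⟨c, hc1, hc2⟩ := hb
      exact step hl hθ hθ5 hv hvθ c (fun y hy hy' => h1 c hc1 y ⟨hy, hy'⟩ hc2) (h2 c hc1) h3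
    · push Not at hb
      have z0 : (0 : Zd d) ∈ box d (28 * l) := mem_box.2 (by simp)
      exact step hl hθ hθ5 hv hvθ 0 (fun y hy _ => hb y hy) (h2 0 z0) h3
  refine (measureReal_mono sub).trans ((measureReal_union_le _ _).trans (add_le_add
    ((measureReal_union_le _ _).trans (add_le_add ?_ ?_)) le_rfl))
  · refine (measureReal_biUnion_finset_le _ _).trans ?_
    rw [pow_two v, mul_assoc]
    refine sum_le_mul (by positivity) hv fun y _ => ?_
    refine (measureReal_biUnion_finset_le _ _).trans ?_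
    refine sum_le_mul (by positivity) (le_trans (by exact_mod_cast Finset.card_filter_le _ _) hv)
      fun y' hy' => le_of_eq ?_
    have hfar := (Finset.mem_filter.1 hy').2
    have D := (dep_Est (d := d) E l 0 (θ ^ 8) (θ⁻¹ ^ 4)).not
    have := (D.shift y).indep (D.shift y') (by
      rw [Finset.disjoint_left]
      intro a ha ha'
      obtain ⟨b, hb, rfl⟩ := Finset.mem_image.1 ha
      obtain ⟨b', hb', e⟩ := Finset.mem_image.1 ha'
      have e2 : y' - y = b - b' := by linear_combination (exp := 1) e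
      rw [e2] at hfar
      linarith [norm_sub_le b b', mem_box.1 hb, mem_box.1 hb'])
    rw [D.real_sh, D.real_sh] at this
    rw [pow_two]
    exact this
  · refine (measureReal_biUnion_finset_le _ _).trans ?_
    exact sum_le_mul (by positivity) hv fun c _ => le_of_eq ((dep_Res E _ _).not.real_sh c)

theorem msa {L0 : ℕ} (hL : 1 ≤ L0) {θ : ℝ} (hθ : 0 < θ)
    (h5 : 5 * (((57 * L0 : ℝ)) ^ d) ^ 5 * θ ≤ 1) :
    ∃ B : Set ℝ, MeasurableSet B ∧
      volume B ≤ ENNReal.ofReal (256 * (2 * d + 1) * ((57 * L0 : ℝ) ^ d) ^ 9 * θ) ∧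
      ∀ E, E ∉ B → (PP d).real {ω | ¬ Good ω E L0 θ} ≤ 1 / (4 * ((57 * L0 : ℝ) ^ d) ^ 4) →
        ∀ k : ℕ, (PP d).real {ω | ¬ Good ω E (28 ^ k * L0) (θ ^ 2 ^ k)} ≤ (1 / 2) ^ (k + 2) := by
  set v0 : ℝ := (57 * L0 : ℝ) ^ d with hv0
  set κ : ℝ := 28 ^ d with hκ
  have hL' : (1 : ℝ) ≤ L0 := by exact_mod_cast hL
  have κ1 : 1 ≤ κ := one_le_pow₀ (by norm_num)
  have κv : κ ≤ v0 := pow_le_pow_left₀ (by norm_num) (by linarith) d
  have v1 : 1 ≤ v0 := κ1.trans κv
  have v5 : 1 ≤ v0 ^ 5 := one_le_pow₀ v1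
  have θ5 : θ ≤ 1 / 5 := by nlinarith
  have κθ : 4 * κ ^ 5 * θ ≤ 1 := by
    have : κ ^ 5 ≤ v0 ^ 5 := pow_le_pow_left₀ (by linarith) κv 5
    nlinarith
  have vθ : v0 * θ ≤ 1 := by
    have : v0 ≤ v0 ^ 5 := by simpa using pow_le_pow_right₀ v1 (by norm_num : 1 ≤ 5)
    nlinarith
  let v : ℕ → ℝ := fun k => v0 * κ ^ k
  let t : ℕ → ℝ := fun k => θ ^ 2 ^ k
  let w : ℕ → ℝ := fun k => (1 / 2) ^ (k + 5) / (v k ^ 3 * κ ^ 4)
  have vk1 : ∀ k, 1 ≤ v k := fun k => one_le_mul_of_one_le_of_one_le v1 (one_le_pow₀ κ1)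
  have w0 : ∀ k, 0 < w k := fun k => by
    have := vk1 k
    simp only [w]
    positivity
  have t0 : ∀ k, 0 < t k := fun k => by simp only [t]; positivity
  have tk : ∀ k, t k ≤ θ * θ ^ k := fun k => by
    rw [← pow_succ']
    exact pow_le_pow_of_le_one hθ.le (by linarith) (Nat.lt_two_pow_self)
  have t5 : ∀ k, t k ≤ 1 / 5 := fun k => by
    have : θ ^ k ≤ 1 := pow_le_one₀ hθ.le (by linarith)
    nlinarith [tk k]
  have κθ1 : κ * θ ≤ 1 := by nlinarith
  have vt : ∀ k, v k * t k ≤ 1 := fun k => by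
    have a : (κ * θ) ^ k ≤ 1 := pow_le_one₀ (by positivity) κθ1
    calc v k * t k ≤ v k * (θ * θ ^ k) := mul_le_mul_of_nonneg_left (tk k) (by linarith [vk1 k])
      _ = (v0 * θ) * (κ * θ) ^ k := by simp only [v]; ring
      _ ≤ 1 * 1 := by gcongr
      _ = 1 := one_mul _
  have l1 : ∀ k : ℕ, 1 ≤ 28 ^ k * L0 := fun k => Nat.mul_pos (by positivity) hL
  have cv : ∀ k : ℕ, ((box d (28 * (28 ^ k * L0))).card : ℝ) ≤ v k := fun k => by
    rw [card_box]
    have a : (1 : ℝ) ≤ 28 ^ k * L0 := by exact_mod_cast l1 k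
    have : v k = (57 * (28 ^ k * L0 : ℝ)) ^ d := by
      simp only [v, hv0, hκ, mul_pow, ← pow_mul, mul_comm d k]
      ring
    rw [this]
    push_cast
    exact pow_le_pow_left₀ (by positivity) (by linarith) d
  have cv2 : ∀ k : ℕ, ((box d (2 * (28 ^ k * L0))).card : ℝ) ≤ v k := fun k =>
    (card_box_le (by omega)).trans (cv k)
  have m1 := fun k => markov (inv_pos.2 (t0 k)) (cv2 k) (w0 k)
  have m2 := fun k => markov (inv_pos.2 (t0 k)) (cv k) (w0 k)
  refine ⟨⋃ k : ℕ, ({E : ℝ | w k < (PP d).real {ω | ¬ Res ω E (2 * (28 ^ k * L0)) (t k)⁻¹}} ∪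
    {E : ℝ | w k < (PP d).real {ω | ¬ Res ω E (28 * (28 ^ k * L0)) (t k)⁻¹}}),
    MeasurableSet.iUnion fun k => (m1 k).1.union (m2 k).1, ?_, ?_⟩
  · refine (measure_iUnion_le _).trans ?_
    set C : ℝ := 128 * (2 * d + 1) * v0 ^ 9 * θ with hC
    have C0 : 0 ≤ C := by positivity
    have b : ∀ k : ℕ, 2 * (2 * (2 * d + 1) * v k ^ 2 / (t k)⁻¹ / w k) ≤ C * (1 / 2) ^ k := by
      intro k
      have := vk1 k
      have := t0 k
      have e : 2 * (2 * (2 * d + 1) * v k ^ 2 / (t k)⁻¹ / w k)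
          = 128 * (2 * d + 1) * v0 ^ 5 * κ ^ 4 * (2 * κ ^ 5) ^ k * t k := by
        simp only [w, v, mul_pow, ← pow_mul, mul_comm 5 k, one_div, inv_pow]
        field_simp
        ring
      rw [e]
      have a1 : κ ^ 4 ≤ v0 ^ 4 := pow_le_pow_left₀ (by linarith) κv 4
      have a2 : (2 * κ ^ 5 * θ) ^ k ≤ (1 / 2) ^ k :=
        pow_le_pow_left₀ (by positivity) (by linarith) k
      calc 128 * (2 * d + 1) * v0 ^ 5 * κ ^ 4 * (2 * κ ^ 5) ^ k * t k
          ≤ 128 * (2 * d + 1) * v0 ^ 5 * v0 ^ 4 * (2 * κ ^ 5) ^ k * (θ * θ ^ k) := by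
            gcongr
            exact tk k
        _ = C * (2 * κ ^ 5 * θ) ^ k := by rw [hC, mul_pow _ θ]; ring
        _ ≤ _ := by gcongr
    have s : Summable fun k : ℕ => C * (1 / 2 : ℝ) ^ k := summable_geometric_two.mul_left C
    refine (ENNReal.tsum_le_tsum (g := fun k => ENNReal.ofReal (C * (1 / 2) ^ k)) fun k => ?_).trans ?_
    · refine (measure_union_le _ _).trans ((add_le_add (m1 k).2 (m2 k).2).trans ?_)
      have := vk1 k
      have := t0 k
      have := w0 k
      rw [← ENNReal.ofReal_add (by positivity) (by positivity), ← two_mul]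
      exact ENNReal.ofReal_le_ofReal (b k)
    · rw [← ENNReal.ofReal_tsum_of_nonneg (fun k => by positivity) s, tsum_mul_left,
        tsum_geometric_two]
      apply ENNReal.ofReal_le_ofReal
      rw [hC]
      linarith
  · intro E hE h0
    simp only [Set.mem_iUnion, Set.mem_union, Set.mem_ofPred_eq, not_exists, not_or, not_lt] at hE
    have key : ∀ k : ℕ, (PP d).real {ω | ¬ Good ω E (28 ^ k * L0) (t k)} * (v k ^ 2 * κ ^ 2)
        ≤ (1 / 2) ^ (k + 2) := by
      intro k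
      induction k with
      | zero =>
        simp only [t, v, pow_zero, one_mul, pow_one, mul_one]
        have a1 : κ ^ 2 ≤ v0 ^ 2 := pow_le_pow_left₀ (by linarith) κv 2
        calc _ ≤ 1 / (4 * v0 ^ 4) * (v0 ^ 2 * v0 ^ 2) := by gcongr
          _ = _ := by field_simp; norm_num
      | succ k ih =>
        have p := prob_step (E := E) (l1 k) (t0 k) (t5 k) (cv k) (vt k)
        have e1 : 28 ^ (k + 1) * L0 = 28 * (28 ^ k * L0) := by ring
        have e2 : t (k + 1) = t k ^ 2 := by simp only [t]; rw [← pow_mul, pow_succ]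
        have e3 : v (k + 1) = v k * κ := by simp only [v]; ring
        rw [e1, e2, e3]
        set q := (PP d).real {ω | ¬ Good ω E (28 ^ k * L0) (t k)} with hq
        have q0 : 0 ≤ q := measureReal_nonneg
        have := vk1 k
        have := w0 k
        have p2 : (PP d).real {ω | ¬ Good ω E (28 * (28 ^ k * L0)) (t k ^ 2)}
            ≤ v k ^ 2 * q ^ 2 + 2 * v k * w k := by
          have a1 := mul_le_mul_of_nonneg_left (hE k).1 (by linarith : 0 ≤ v k)
          have a2 := (hE k).2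
          nlinarith
        have a3 : (q * (v k ^ 2 * κ ^ 2)) ^ 2 ≤ ((1 / 2) ^ (k + 2)) ^ 2 :=
          pow_le_pow_left₀ (by positivity) ih 2
        have a4 : ((1 / 2 : ℝ) ^ (k + 2)) ^ 2 ≤ (1 / 2) ^ (k + 4) := by
          rw [← pow_mul]
          exact pow_le_pow_of_le_one (by norm_num) (by norm_num) (by omega)
        calc _ ≤ (v k ^ 2 * q ^ 2 + 2 * v k * w k) * ((v k * κ) ^ 2 * κ ^ 2) := by gcongr
          _ = (q * (v k ^ 2 * κ ^ 2)) ^ 2 + (1 / 2) ^ (k + 4) := by
            simp only [w]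
            field_simp
            ring
          _ ≤ (1 / 2) ^ (k + 4) + (1 / 2) ^ (k + 4) := by linarith
          _ = _ := by ring
    intro k
    refine le_trans ?_ (key k)
    have := vk1 k
    exact le_mul_of_one_le_right measureReal_nonneg
      (one_le_mul_of_one_le_of_one_le (one_le_pow₀ this) (one_le_pow₀ κ1))

end Pool.Agent.P.MP_d0f69c_mp
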