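import Pool.Agent.P.MP_d0f69c_mp.Hier2
import Pool.Agent.P.MP_d0f69c_mp.Explore2
import Pool.Agent.P.MP_d0f69c_mp.Prob

set_option autoImplicit false

open Finset MeasureTheory Matrix

namespace Pool.Agent.P.MP_d0f69c_mp

variable {d : ℕ}

open Classical in
lemma Dep.real_eq {T : Finset (Zd d)} {p : (Zd d → Bool) → Prop} (h : Dep T p) :
    (PP d).real {ω | p ω}
      = (univ.filter fun c : T → Bool => p (extd T c)).card / Fintype.card (T → Bool) := by
  have e : {ω | p ω} = T.restrict ⁻¹' ↑(univ.filter fun c : T → Bool => p (extd T c)) := by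
    ext ω
    simp only [coe_filter, mem_univ, true_and]
    exact h.iff ω
  rw [e, measureReal_def, ← Measure.map_apply (measurable_restrict T) MeasurableSet.of_discrete, PP,
    Measure.infinitePi_map_restrict, ← sum_measure_singleton]
  simp [div_eq_mul_inv]

/-- resampling on `U` -/
noncomputable def mrg (U : Finset (Zd d)) (ω ω' : Zd d → Bool) (y : Zd d) : Bool :=
  if y ∈ U then ω' y else ω y

lemma fiber {T : Finset (Zd d)} {p : (Zd d → Bool) → Prop} (hp : Dep T p)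
    (U : (Zd d → Bool) → Finset (Zd d))
    (hs : ∀ ω ω', U (mrg (U ω) ω ω') = U ω) {π : ℝ}
    (h : ∀ ω, (PP d).real {ω' | p (mrg (U ω) ω ω')} ≤ π) : (PP d).real {ω | p ω} ≤ π := by
  classical
  have ex : ∀ (W : Finset (Zd d)) (a b : T → Bool),
      extd T (fun y => mrg W (extd T a) (extd T b) y) = mrg W (extd T a) (extd T b) := by
    intro W a b
    funext y
    by_cases hy : y ∈ T <;> simp [extd, mrg, hy]
  let Φ : (T → Bool) × (T → Bool) → (T → Bool) × (T → Bool) := fun x =>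
    (fun y => mrg (U (extd T x.1)) (extd T x.1) (extd T x.2) y,
      fun y => mrg (U (extd T x.1)) (extd T x.2) (extd T x.1) y)
  have inv : Function.Involutive Φ := by
    rintro ⟨a, b⟩
    simp only [Φ, ex, hs]
    congr 1 <;> funext y <;> simp only [mrg] <;> split_ifs <;> simp [extd]
  have V0 : (0 : ℝ) < Fintype.card (T → Bool) := by exact_mod_cast Fintype.card_pos
  have a1 := Equiv.sum_comp inv.toPerm (fun x => if p (extd T x.1) then (1 : ℝ) else 0)
  simp only [Function.Involutive.coe_toPerm, Φ, ex, Fintype.sum_prod_type] at a1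
  rw [Finset.sum_comm (f := fun x _ => if p (extd T x) then (1 : ℝ) else 0), sum_const] at a1
  simp only [sum_boole, card_univ, nsmul_eq_mul] at a1
  have a2 : ∀ a : T → Bool, ((univ.filter fun b : T → Bool =>
      p (mrg (U (extd T a)) (extd T a) (extd T b))).card : ℝ) ≤ π * Fintype.card (T → Bool) := by
    intro a
    have D : Dep T fun ω' => p (mrg (U (extd T a)) (extd T a) ω') := fun ω ω' e =>
      hp _ _ fun y hy => by simp only [mrg, e y hy]
    have := h (extd T a)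
    rwa [D.real_eq, div_le_iff₀ V0] at this
  have a3 := Finset.sum_le_card_nsmul univ _ _ fun a _ => a2 a
  rw [a1, card_univ, nsmul_eq_mul] at a3
  rw [hp.real_eq, div_le_iff₀ V0]
  exact le_of_mul_le_mul_left a3 V0

/-- extension by zero -/
noncomputable def ext0 (Q : Finset (Zd d)) (ψ : Q → ℝ) (y : Zd d) : ℝ :=
  if h : y ∈ Q then ψ ⟨y, h⟩ else 0

lemma ext0_coe {Q : Finset (Zd d)} (ψ : Q → ℝ) (y : Q) : ext0 Q ψ y = ψ y := by simp [ext0]

lemma ext0_out {Q : Finset (Zd d)} (ψ : Q → ℝ) (y : Zd d) (h : y ∉ Q) : ext0 Q ψ y = 0 := dif_neg h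

/-- the matrix of `H - E` on `Q` -/
noncomputable def mat (Q : Finset (Zd d)) (v : Zd d → ℝ) (E : ℝ) : Matrix Q Q ℝ := fun y y' =>
  (if (y' : Zd d) = y then (1 : ℝ) else 0) * (2 * d + v y - E)
    - ∑ i : Fin d, ((if (y' : Zd d) = y + ee i then (1 : ℝ) else 0)
      + (if (y' : Zd d) = y - ee i then (1 : ℝ) else 0))

lemma mat_herm (Q : Finset (Zd d)) (v : Zd d → ℝ) (E : ℝ) : (mat Q v E).IsHermitian := by
  ext y y'
  simp only [Matrix.conjTranspose_apply, star_trivial, mat]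
  congr 1
  · by_cases h : (y : Zd d) = y'
    · simp [h]
    · rw [if_neg h, if_neg (fun h' => h h'.symm)]
      simp
  · apply Finset.sum_congr rfl
    intro i _
    rw [add_comm]
    congr 1
    · exact if_congr (by rw [eq_sub_iff_add_eq, eq_comm]) rfl rfl
    · exact if_congr (by rw [eq_sub_iff_add_eq, eq_comm]) rfl rfl

lemma mat_mv {Q : Finset (Zd d)} (v : Zd d → ℝ) (E : ℝ) (s ψ : Q → ℝ) (y : Q) :
    ((mat Q v E + diagonal s) *ᵥ ψ) y = TV (fun y => v y + ext0 Q s y) E (ext0 Q ψ) y := by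
  have e : ∀ a : Zd d, ∑ y : Q, (if (y : Zd d) = a then (1 : ℝ) else 0) * ψ y = ext0 Q ψ a := by
    intro a
    simp only [← ext0_coe ψ]
    rw [Finset.sum_coe_sort Q (fun y => (if y = a then (1 : ℝ) else 0) * ext0 Q ψ y)]
    simp only [ite_mul, one_mul, zero_mul, Finset.sum_ite_eq']
    split_ifs with h
    · rfl
    · exact (ext0_out ψ a h).symm
  rw [mv_diag]
  simp only [Matrix.mulVec, dotProduct, mat, sub_mul, Finset.sum_sub_distrib, Finset.sum_mul,
    add_mul (if _ then (1 : ℝ) else 0)]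
  rw [Finset.sum_comm]
  simp only [Finset.sum_add_distrib, e, mul_right_comm _ (2 * d + v y - E),
    ← Finset.sum_mul, TV, adj, ext0_coe]
  ring

variable {P : Par} {i : Fin d} {E : ℝ}

theorem wegner2 {ω : Zd d → Bool} {k D N l j0 S0 T L n m : ℕ} {S : ℕ → ℕ} {G G' zs : Zd d}
    {G1 G2 w Ms : ℝ} (E1 : -1 ≤ E) (E2 : E ≤ 4 * d + 1)
    (γ0 : ∀ j, 0 ≤ P.γ j) (hγ : ∀ j, 2 * d * P.γ j ≤ 1 / 2) (M0 : ∀ j, 0 ≤ P.M j)
    (hc : ∀ j ≤ k, P.c j ≤ P.c k) (hc2 : ∀ j, 2 * P.c j ≤ P.c (j + 1))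
    (hS : ∀ j, S j * (4 * P.c j + 1) + 3 * P.c j ≤ 4 * (P.J j * P.c j))
    (hS2 : ∀ j, 4 * (P.J j * P.c j) ≤ P.c (j + 1))
    (hS3 : ∀ j, (2 * d * P.γ j) ^ S j * (4 * (P.M (j + 1) + P.γ (j + 1))) ≤ 2 * (P.M j + P.γ j))
    (hS0 : S0 * (4 * P.c k + 1) + 11 * P.c k ≤ l) (hj0 : j0 < k) (hD : D ≤ k)
    (hT : T ≤ L) (hT2 : 2 * (l + P.c k) + 1 + P.p k ≤ T) (hp : 2 * P.p k ≤ P.c k)
    (w0 : 0 < w) (hw : w * (8 * d + 6) ^ T ≤ 1)
    (hn : N ^ (D + 1) * (4 * P.c (k - D) + 1) ^ d ≤ n) (n0 : 0 < n) (m0 : 0 < m)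
    (hf : m ^ 2 * (2 * n * (2 * P.c (j0 + 1) + 1) ^ d) ≤ P.f k)
    (hV : ((2 * (2 * L) + 1) ^ d : ℝ) ≤ G2) (hM : ∀ j ≤ k, 2 * (P.M j + P.γ j) ≤ G2)
    (hK : 2 * (P.M j0 + P.γ j0) ≤ G1) (h4 : 4 ^ n ≤ G1) (hG1 : 512 ≤ G1) (hG : G1 ≤ G2)
    (hτ : (2 * d * P.γ j0) ^ S j0 * (4 * (P.M (j0 + 1) + P.γ (j0 + 1))) * G1 ^ 3 ≤ 1)
    (hζ : (2 * d * P.γ k) ^ S0 * G2 ^ 5 ≤ 1)
    (hMs : G2 / (1 / G2 ^ 4 * ((w / G2 ^ 6) ^ 2 / 8) ^ (n + 1)) ≤ Ms)
    (hQ : bx G' (2 * L) ⊆ bx G (2 * P.c (k + 1)))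
    (hcov : ∀ j ≤ k, ∀ z ∈ bx G' (2 * L), ∃ g, Cov (bx G' (2 * L)) (P.c j) z g)
    (one : ∀ g ∈ bx G' (2 * L), Bad P i E ω k g → dist g zs ≤ 8 * P.c k)
    (few : ∀ j, k ≤ j + D → j ≤ k → ∀ g ∈ bx G (2 * P.c (k + 1)), Few P i E ω j N g) :
    (PP d).real {ω' | ¬ NR (pot (mrg (Uf P i E ω k l zs (bx G' (2 * L))) ω ω')) E
      (bx G' (2 * L)) Ms}
      ≤ (n + 1) * (2 * n * (2 * n * (2 * P.c (j0 + 1) + 1) ^ d : ℕ) / m) := by
  classical
  set Q := bx G' (2 * L) with hQd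
  set U := Uf P i E ω k l zs Q with hU
  set Θ := Th P i E ω k D Q with hΘ
  have UQ : U ⊆ Q := filter_subset _ _
  let v0 : Zd d → ℝ := fun y => if y ∈ U then -1 else pot ω y
  let U' : Finset Q := univ.filter fun y => y.1 ∈ U
  let Θ' : Finset Q := univ.filter fun y => y.1 ∈ Θ
  have pot1 : ∀ y, |pot ω y| ≤ 1 := fun y => by unfold pot; split_ifs <;> simp
  have va : ∀ s, Adm U' s → ∀ y, y ∉ U → v0 y + ext0 Q s y = pot ω y := fun s hs y hy => by
    simp only [v0, if_neg hy, ext0]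
    split_ifs with h
    · rw [(hs _).2.2 (by simpa [U'] using hy), add_zero]
    · simp
  have v1 : ∀ s, Adm U' s → ∀ y, |v0 y + ext0 Q s y| ≤ 1 := fun s hs y => by
    by_cases hy : y ∈ U
    · have := hs ⟨y, UQ hy⟩
      simp only [v0, if_pos hy, ext0, dif_pos (UQ hy), abs_le]
      constructor <;> linarith [this.1, this.2.1]
    · rw [va s hs y hy]
      exact pot1 y
  have v2 : ∀ s, Adm U' s → ∀ y ∈ Q, y ∈ Fr P i E ω k → v0 y + ext0 Q s y = pot ω y :=
    fun s hs y _ hy => va s hs y fun h => (mem_filter.1 h).2.1 hy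
  have G0 : 0 < G2 := by linarith
  have θ0 : ∀ j, 0 ≤ 2 * d * P.γ j := fun j => by have := γ0 j; positivity
  have M1 : ∀ j, 0 ≤ P.M j + P.γ j := fun j => add_nonneg (M0 j) (γ0 j)
  have cardf : ∀ (A : Finset (Zd d)), (univ.filter fun y : Q => y.1 ∈ A).card ≤ A.card := fun A =>
    card_le_card_of_injOn Subtype.val (fun y hy => by simpa using hy) Subtype.val_injective.injOn
  have w1 : w ≤ 1 := by
    have : (1 : ℝ) ≤ (8 * d + 6) ^ T := one_le_pow₀ (by linarith [Nat.cast_nonneg (α := ℝ) d])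
    nlinarith
  have ex := explore (mat_herm Q v0 E) (Θ := Θ') (U := U')
    (nr := fun x => univ.filter fun y => y.1 ∈ bx x.1 (P.c (j0 + 1))) (M := G2) (f := P.f k)
    (fun s hs ψ a F ha hF h1 h2 z => by
      have := H1Z (D := D) (Mx := G2 / 2) (by positivity) hγ (fun j hj => by linarith [hM j hj])
        (v1 s hs) (v2 s hs) (ext0_out ψ) ha hF
        (fun y hy => by
          have y1 := filter_subset _ _ hy
          rw [ext0_coe ψ ⟨y, y1⟩]
          exact h1 _ (by simpa [Θ'] using hy))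
        (fun y hy => by rw [← mat_mv v0 E s ψ ⟨y, hy⟩]; exact h2 _) z z.2
      rw [ext0_coe] at this
      linarith)
    (fun s hs x hx ψ Fn F a n0 F0 ha h0 h1 h2 => by
      have := H2Z (D := D) γ0 hγ M0 hc hS hS2 hS3 hS0 hj0 hcov one (v1 s hs) (v2 s hs)
        (x := x) (by simpa [U'] using hx) (ext0_out ψ) ha F0 n0
        (fun y hy a1 a2 => by
          rw [← mat_mv v0 E s ψ ⟨y, hy⟩]
          exact h0 _ (by simpa [mem_bx] using a1) (by simpa [Θ'] using a2))
        (fun y hy a2 => by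
          rw [← mat_mv v0 E s ψ ⟨y, hy⟩]
          exact h1 _ (by simpa [Θ'] using a2))
        (fun y => by
          unfold ext0
          split_ifs
          · exact h2 _
          · simpa using ha)
      rwa [ext0_coe] at this)
    (fun s hs u α x0 α0 h0 h1 => by
      obtain ⟨A, A1, A2, A3⟩ := H3Z (ω := ω) (i := i) (l := l) (v := fun y => v0 y + ext0 Q s y)
        (fun y => by
          have := abs_le.1 (v1 s hs y)
          rw [abs_le]
          constructor <;> linarith [this.1, this.2]) hT (by omega) hT2 hp (hcov k le_rfl) one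
        (ext0_out u) w0 hw α0 (x0 := x0) (by rwa [ext0_coe])
        (fun y hy => by rw [← mat_mv v0 E s u ⟨y, hy⟩]; exact h1 _)
      refine ⟨univ.filter fun y => y.1 ∈ A, fun y hy => ?_, A2.trans ?_, fun y hy => ?_⟩
      · simpa [U'] using A1 (mem_filter.1 hy).2
      · refine (card_le_card fun y hy => ?_).trans (card_image_le (f := Subtype.val))
        exact mem_image.2 ⟨⟨y, UQ (A1 hy)⟩, by simpa using hy, rfl⟩
      · simpa [ext0_coe] using A3 y (mem_filter.1 hy).2)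
    ((cardf Θ).trans ((card_Th hD hc2 hQ hcov few).trans hn)) n0
    (fun x => by simpa using self_mem_bx _ _)
    (fun x => (cardf _).trans (card_bx _ _).le) (by positivity) m0 hf
    (by
      rw [Fintype.card_coe, card_bx]
      exact_mod_cast hV) G0.le le_rfl (by linarith [M1 j0]) hK h4 hG1 hG
    (by have := M1 (j0 + 1); have := θ0 j0; positivity) hτ (pow_nonneg (θ0 k) _) hζ w0 w1
  have D : Dep Q fun ω' => ¬ NR (pot (mrg U ω ω')) E Q Ms := fun ω1 ω2 e => by
    have : mrg U ω ω1 = mrg U ω ω2 := by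
      funext y
      unfold mrg
      split_ifs with h
      · exact e y (UQ h)
      · rfl
    simp only [this]
    exact id
  have V0 : (0 : ℝ) < Fintype.card (Q → Bool) := by exact_mod_cast Fintype.card_pos
  rw [D.real_eq, div_le_iff₀ V0, mul_assoc]
  refine le_trans (Nat.cast_le.2 (card_le_card fun c hc => ?_)) ex
  simp only [mem_filter, mem_univ, true_and] at hc ⊢
  refine fun h => hc fun ψ hψ F F0 hF z => ?_
  have e1 : ext0 Q (fun y => ψ y) = ψ := by
    funext y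
    unfold ext0
    split_ifs with h
    · rfl
    · exact (hψ y h).symm
  have e2 : (fun y => v0 y + ext0 Q (sc U' c) y) = pot (mrg U ω (extd Q c)) := by
    funext y
    by_cases hy : y ∈ U
    · simp only [v0, if_pos hy, ext0, dif_pos (UQ hy), sc, pot, mrg, extd, U', mem_filter, mem_univ,
        hy, true_and]
      split_ifs <;> norm_num
    · rw [va _ (adm_sc subset_rfl c) y hy]
      simp [pot, mrg, hy]
  have Ms0 : 0 ≤ Ms := le_trans (by positivity) hMs
  by_cases hz : z ∈ Q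
  · refine (h (fun y => ψ y) F F0 (fun y => ?_) ⟨z, hz⟩).trans (mul_le_mul_of_nonneg_right hMs F0)
    rw [mat_mv, e1, e2]
    exact hF y y.2
  · rw [hψ z hz, abs_zero]
    positivity

end Pool.Agent.P.MP_d0f69c_mp
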