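import Pool.Agent.P.MP_d0f69c_mp.Basic

set_option autoImplicit false

open Finset

namespace Pool.Agent.P.MP_d0f69c_mp

variable {d : ℕ}

/-- `(H - E) u` for a real potential -/
noncomputable def TV (v : Zd d → ℝ) (E : ℝ) (u : Zd d → ℝ) (y : Zd d) : ℝ :=
  (2 * d + v y - E) * u y - adj u y

/-- box with centre `g` and radius `L` -/
noncomputable def bx (g : Zd d) (L : ℕ) : Finset (Zd d) :=
  Fintype.piFinset fun i => Finset.Icc (g i - L) (g i + L)

lemma dist_le_iff {y g : Zd d} {L : ℕ} :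
    dist y g ≤ L ↔ ∀ i, g i - L ≤ y i ∧ y i ≤ g i + L := by
  rw [dist_pi_le_iff (by positivity)]
  apply forall_congr'
  intro i
  rw [Int.dist_eq, abs_le]
  constructor
  · rintro ⟨h1, h2⟩
    have a1 : (g i : ℝ) - L ≤ y i := by linarith
    have a2 : (y i : ℝ) ≤ g i + L := by linarith
    exact ⟨by exact_mod_cast a1, by exact_mod_cast a2⟩
  · rintro ⟨h1, h2⟩
    have a1 : (g i : ℝ) - L ≤ y i := by exact_mod_cast h1
    have a2 : (y i : ℝ) ≤ g i + L := by exact_mod_cast h2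
    constructor <;> linarith

lemma mem_bx' {y g : Zd d} {L : ℕ} : y ∈ bx g L ↔ ∀ i, g i - L ≤ y i ∧ y i ≤ g i + L := by
  simp only [bx, Fintype.mem_piFinset, Finset.mem_Icc]

lemma mem_bx {y g : Zd d} {L : ℕ} : y ∈ bx g L ↔ dist y g ≤ L := mem_bx'.trans dist_le_iff.symm

lemma card_bx (g : Zd d) (L : ℕ) : (bx g L).card = (2 * L + 1) ^ d := by
  rw [bx, Fintype.card_piFinset]
  simp only [Int.card_Icc]
  rw [Finset.prod_congr rfl (g := fun _ => 2 * L + 1) (fun i _ => by omega)]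
  simp

lemma self_mem_bx (g : Zd d) (L : ℕ) : g ∈ bx g L := mem_bx.2 (by simp)

lemma dist_add_ee (y : Zd d) (i : Fin d) : dist (y + ee i) y = 1 := by
  rw [dist_eq_norm, add_sub_cancel_left, norm_ee]

lemma dist_sub_ee (y : Zd d) (i : Fin d) : dist (y - ee i) y = 1 := by
  rw [dist_eq_norm, sub_sub_cancel_left, norm_neg, norm_ee]

lemma dist_lt_succ {y z : Zd d} {c : ℕ} (h : dist y z < c) : dist y z + 1 ≤ c := by
  obtain ⟨c, rfl⟩ : ∃ c', c = c' + 1 := by
    rcases c with _ | c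
    · exact absurd h (by simp)
    · exact ⟨c, rfl⟩
  have : dist y z ≤ c := by
    rw [dist_le_iff]
    intro i
    have a := (dist_le_pi_dist y z i).trans_lt h
    rw [Int.dist_eq, abs_lt] at a
    push_cast at a
    have a1 : (z i : ℝ) - c - 1 < y i := by linarith
    have a2 : (y i : ℝ) < z i + c + 1 := by linarith
    have b1 : z i - c - 1 < y i := by exact_mod_cast a1
    have b2 : y i < z i + c + 1 := by exact_mod_cast a2
    omega
  push_cast
  linarith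

lemma sum_le_mul' {α : Type} {s : Finset α} {f : α → ℝ} {a v : ℝ} (ha : 0 ≤ a)
    (hv : (s.card : ℝ) ≤ v) (h : ∀ y ∈ s, f y ≤ a) : ∑ y ∈ s, f y ≤ v * a := by
  refine (Finset.sum_le_card_nsmul s f a h).trans ?_
  rw [nsmul_eq_mul]
  exact mul_le_mul_of_nonneg_right hv ha

/-- cut-off to a finite set -/
noncomputable def cutS (B : Finset (Zd d)) (u : Zd d → ℝ) (y : Zd d) : ℝ :=
  if y ∈ B then u y else 0

lemma TV_cut (v : Zd d → ℝ) (E : ℝ) {B : Finset (Zd d)} (u : Zd d → ℝ) {y : Zd d} (hy : y ∈ B)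
    {a : ℝ} (ha : 0 ≤ a) (h : ∀ y', dist y' y ≤ 1 → y' ∉ B → |u y'| ≤ a) :
    |TV v E (cutS B u) y| ≤ |TV v E u y| + 2 * d * a := by
  have e : TV v E (cutS B u) y = TV v E u y + ∑ i : Fin d,
      ((u (y + ee i) - cutS B u (y + ee i)) + (u (y - ee i) - cutS B u (y - ee i))) := by
    simp only [TV, adj, Finset.sum_add_distrib, Finset.sum_sub_distrib]
    rw [show cutS B u y = u y from if_pos hy]
    ring
  have k : ∀ y', dist y' y ≤ 1 → |u y' - cutS B u y'| ≤ a := by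
    intro y' h'
    unfold cutS
    split_ifs with hb
    · simpa using ha
    · simpa using h y' h' hb
  rw [e]
  refine (abs_add_le _ _).trans (add_le_add le_rfl ?_)
  refine (Finset.abs_sum_le_sum_abs _ _).trans ?_
  refine (Finset.sum_le_card_nsmul _ _ (2 * a) fun i _ => ?_).trans ?_
  · have a1 := k (y + ee i) (dist_add_ee y i).le
    have a2 := k (y - ee i) (dist_sub_ee y i).le
    linarith [abs_add_le (u (y + ee i) - cutS B u (y + ee i)) (u (y - ee i) - cutS B u (y - ee i))]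
  · simp only [Finset.card_univ, Fintype.card_fin, nsmul_eq_mul]
    linarith

/-- bounds on the Green function of the finite set `B` -/
def Green (v : Zd d → ℝ) (E : ℝ) (B : Finset (Zd d)) (c : ℕ) (γ M : ℝ) : Prop :=
  ∀ ψ : Zd d → ℝ, (∀ y, y ∉ B → ψ y = 0) → ∀ (z : Zd d) (Fn F : ℝ), 0 ≤ Fn → 0 ≤ F →
    (∀ y ∈ B, dist y z < c → |TV v E ψ y| ≤ Fn) → (∀ y ∈ B, |TV v E ψ y| ≤ F) →
    |ψ z| ≤ M * Fn + γ * F

/-- nonresonance -/
def NR (v : Zd d → ℝ) (E : ℝ) (B : Finset (Zd d)) (M : ℝ) : Prop :=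
  ∀ ψ : Zd d → ℝ, (∀ y, y ∉ B → ψ y = 0) → ∀ F : ℝ, 0 ≤ F →
    (∀ y ∈ B, |TV v E ψ y| ≤ F) → ∀ z, |ψ z| ≤ M * F

/-- local estimate at `z` for functions supported in `Λ` -/
def Loc (v : Zd d → ℝ) (E : ℝ) (Λ : Set (Zd d)) (z : Zd d) (ρ θ M : ℝ) : Prop :=
  ∀ ψ : Zd d → ℝ, (∀ y, y ∉ Λ → ψ y = 0) → ∀ a F : ℝ, 0 ≤ a → 0 ≤ F →
    (∀ y, dist y z ≤ ρ → |ψ y| ≤ a) → (∀ y ∈ Λ, dist y z ≤ ρ → |TV v E ψ y| ≤ F) →
    |ψ z| ≤ θ * a + M * F

/-- points of the grid -/
def Grid (c : ℕ) (g : Zd d) : Prop := ∀ i, (c : ℤ) ∣ g i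

/-- the box with centre `g` covers `z` inside `Λ` -/
def Cov (Λ : Set (Zd d)) (c : ℕ) (z g : Zd d) : Prop :=
  Grid c g ∧ (∀ y ∈ bx g (2 * c), y ∈ Λ) ∧ ∀ y ∈ Λ, dist y z ≤ c → y ∈ bx g (2 * c)

lemma Grid.of_dvd {c c' : ℕ} {g : Zd d} (h : Grid c' g) (hc : c ∣ c') : Grid c g :=
  fun i => (Int.natCast_dvd_natCast.2 hc).trans (h i)

lemma Cov.dist_le {Λ : Set (Zd d)} {c : ℕ} {z g : Zd d} (h : Cov Λ c z g) (hz : z ∈ Λ) :
    dist z g ≤ 2 * c := by
  have := mem_bx.1 (h.2.2 z hz (by simp))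
  exact_mod_cast this

lemma Cov.mem {Λ : Set (Zd d)} {c : ℕ} {z g : Zd d} (h : Cov Λ c z g) : g ∈ Λ :=
  h.2.1 g (self_mem_bx _ _)

lemma cov_univ {c : ℕ} (hc : 0 < c) (z : Zd d) : ∃ g, Cov Set.univ c z g := by
  refine ⟨fun i => c * (z i / c), fun i => Dvd.intro _ rfl, fun _ _ => trivial, fun y _ hy => ?_⟩
  rw [mem_bx']
  intro i
  have a := dist_le_iff.1 hy i
  have c0 : (0 : ℤ) < c := by exact_mod_cast hc
  have b1 := Int.mul_ediv_add_emod (z i) c
  have b2 := Int.emod_nonneg (z i) c0.ne'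
  have b3 := Int.emod_lt_of_pos (z i) c0
  push_cast
  omega

lemma cov_bx {c L : ℕ} (hc : 0 < c) (hL : 2 * c ≤ L) (hd : c ∣ L) {G : Zd d} (hG : Grid c G)
    {z : Zd d} (_hz : z ∈ bx G L) : ∃ g, Cov (bx G L : Set (Zd d)) c z g := by
  have c0 : (0 : ℤ) < c := by exact_mod_cast hc
  have hL' : 2 * (c : ℤ) ≤ L := by exact_mod_cast hL
  have hd' : (c : ℤ) ∣ L := Int.natCast_dvd_natCast.2 hd
  refine ⟨fun i => max (G i - L + 2 * c) (min (G i + L - 2 * c) (c * (z i / c))), fun i => ?_,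
    fun y hy => ?_, fun y hy hyz => ?_⟩
  · simp only [max_def, min_def]
    have a1 : (c : ℤ) ∣ G i - L + 2 * c := ((hG i).sub hd').add (Dvd.intro_left _ rfl)
    have a2 : (c : ℤ) ∣ G i + L - 2 * c := ((hG i).add hd').sub (Dvd.intro_left _ rfl)
    have a3 : (c : ℤ) ∣ c * (z i / c) := Dvd.intro _ rfl
    split_ifs <;> assumption
  · rw [Finset.mem_coe, mem_bx']
    intro i
    have := mem_bx'.1 hy i
    push_cast at this
    omega
  · rw [mem_bx']
    intro i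
    have a := dist_le_iff.1 hyz i
    have a' := mem_bx'.1 hy i
    have b1 := Int.mul_ediv_add_emod (z i) c
    have b2 := Int.emod_nonneg (z i) c0.ne'
    have b3 := Int.emod_lt_of_pos (z i) c0
    push_cast
    omega

lemma Green.loc {v : Zd d → ℝ} {E : ℝ} {Λ : Set (Zd d)} {c : ℕ} {z g : Zd d} {γ M : ℝ}
    (h : Green v E (bx g (2 * c)) c γ M) (hc : Cov Λ c z g) (hz : z ∈ Λ) :
    Loc v E Λ z (4 * c + 1) (2 * d * γ) (M + γ) := by
  intro ψ hψ a F ha hF h1 h2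
  have zg := hc.dist_le hz
  have near : ∀ y ∈ bx g (2 * c), dist y z ≤ 4 * c := fun y hy => by
    have := mem_bx.1 hy
    push_cast at this
    linarith [dist_triangle_right y z g]
  have := h (cutS (bx g (2 * c)) ψ) (fun y hy => if_neg hy) z F (F + 2 * d * a) hF (by positivity)
    (fun y hy hyz => by
      have := TV_cut v E ψ hy le_rfl (fun y' h' hb => by
        by_cases hy' : y' ∈ Λ
        · exact absurd (hc.2.2 y' hy' (by
            linarith [dist_triangle y' y z, dist_lt_succ hyz])) hb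
        · simp [hψ y' hy'])
      linarith [h2 y (hc.2.1 y hy) (by linarith [near y hy])])
    (fun y hy => by
      have := TV_cut v E ψ hy ha (fun y' h' _ => h1 y' (by
        linarith [dist_triangle y' y z, near y hy]))
      linarith [h2 y (hc.2.1 y hy) (by linarith [near y hy])])
  rw [show cutS (bx g (2 * c)) ψ z = ψ z from if_pos (hc.2.2 z hz (by simp))] at this
  linarith

lemma Loc.mono {v : Zd d → ℝ} {E : ℝ} {Λ : Set (Zd d)} {z : Zd d} {ρ θ M ρ' θ' M' : ℝ}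
    (h : Loc v E Λ z ρ θ M) (h1 : ρ ≤ ρ') (h2 : θ ≤ θ') (h3 : M ≤ M') : Loc v E Λ z ρ' θ' M' := by
  intro ψ hψ a F ha hF a1 a2
  refine (h ψ hψ a F ha hF (fun y hy => a1 y (hy.trans h1))
    (fun y hy hy' => a2 y hy (hy'.trans h1))).trans ?_
  gcongr

lemma Loc.iter {v : Zd d → ℝ} {E : ℝ} {Λ : Set (Zd d)} {ρ θ M : ℝ} (hρ : 0 ≤ ρ) (hθ : 0 ≤ θ)
    (hθ2 : θ ≤ 1 / 2) (hM : 0 ≤ M) (S : ℕ) : ∀ z ∈ Λ,
    (∀ y ∈ Λ, dist y z ≤ S * ρ → Loc v E Λ y ρ θ M) → Loc v E Λ z (S * ρ) (θ ^ S) (2 * M) := by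
  induction S with
  | zero =>
    intro z _ _ ψ _ a F _ hF h1 _
    have := h1 z (by simp)
    have : 0 ≤ 2 * M * F := by positivity
    simp only [pow_zero]
    linarith
  | succ S ih =>
    intro z hz h ψ hψ a F ha hF h1 h2
    push_cast at h h1 h2
    have S0 : 0 ≤ S * ρ := by positivity
    have := h z hz (by rw [dist_self]; positivity) ψ hψ (θ ^ S * a + 2 * M * F) F (by positivity) hF
      (fun y hy => by
        by_cases hy' : y ∈ Λ
        · exact ih y hy' (fun y' a1 a2 => h y' a1 (by linarith [dist_triangle y' y z])) ψ hψ a F ha hF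
            (fun y' a2 => h1 y' (by linarith [dist_triangle y' y z]))
            (fun y' a1 a2 => h2 y' a1 (by linarith [dist_triangle y' y z]))
        · rw [hψ y hy', abs_zero]
          positivity)
      (fun y a1 a2 => h2 y a1 (by linarith))
    have b : θ * (2 * M * F) ≤ 1 / 2 * (2 * M * F) := by gcongr
    rw [pow_succ]
    linarith

/-- maximum principle -/
lemma maxp {α : Type} (S : Finset α) (g : α → ℝ) {b1 b2 : ℝ} (h1 : 0 ≤ b1) (h2 : 0 ≤ b2)
    (h : ∀ m, (∀ y ∈ S, g y ≤ m) → ∀ y ∈ S, g y ≤ b2 ∨ g y ≤ m / 2 + b1) :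
    ∀ y ∈ S, g y ≤ b2 + 2 * b1 := by
  intro y hy
  obtain ⟨x, hx, hm⟩ := Finset.exists_max_image S g ⟨y, hy⟩
  rcases h (g x) hm x hx with a | a <;> linarith [hm y hy]

lemma card_grid {c : ℕ} (hc : 0 < c) (g : Zd d) (J : ℕ) (A : Finset (Zd d))
    (h : ∀ y ∈ A, Grid c y ∧ y ∈ bx g (J * c)) : A.card ≤ (2 * J + 1) ^ d := by
  have c0 : (0 : ℤ) < c := by exact_mod_cast hc
  rw [← card_bx (0 : Zd d) J]
  refine Finset.card_le_card_of_injOn (fun y i => (y i - g i + J * c) / c - J) (fun y hy => ?_) ?_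
  · rw [Finset.mem_coe, mem_bx']
    intro i
    have a := mem_bx'.1 (h y hy).2 i
    push_cast at a
    have b1 : 0 ≤ (y i - g i + J * c) / c := Int.ediv_nonneg (by omega) c0.le
    have b2 : (y i - g i + J * c) / c ≤ 2 * J := Int.ediv_le_of_le_mul c0 (by linarith)
    simp only [Pi.zero_apply]
    omega
  · intro y hy y' hy' e
    funext i
    obtain ⟨a, ha⟩ := (h y hy).1 i
    obtain ⟨a', ha'⟩ := (h y' hy').1 i
    have e' := congrFun e i
    simp only [ha, ha'] at e'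
    rw [show (c : ℤ) * a - g i + J * c = (-g i + J * c) + c * a by ring,
      show (c : ℤ) * a' - g i + J * c = (-g i + J * c) + c * a' by ring,
      Int.add_mul_ediv_left _ _ c0.ne', Int.add_mul_ediv_left _ _ c0.ne'] at e'
    rw [ha, ha', show a = a' by omega]

end Pool.Agent.P.MP_d0f69c_mp
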