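import Mathlib

set_option autoImplicit false

open Finset Matrix

namespace Pool.Agent.P.MP_d0f69c_mp

variable {ι : Type} [Fintype ι] [DecidableEq ι]

/-- an orthonormal eigenbasis of a real matrix -/
structure Dec (A : Matrix ι ι ℝ) (b : ι → ι → ℝ) (lam : ι → ℝ) : Prop where
  par : ∀ g h : ι → ℝ, g ⬝ᵥ h = ∑ i, (b i ⬝ᵥ g) * (b i ⬝ᵥ h)
  eig : ∀ (i : ι) (g : ι → ℝ), b i ⬝ᵥ A *ᵥ g = lam i * (b i ⬝ᵥ g)
  orth : ∀ i j : ι, b i ⬝ᵥ b j = if i = j then 1 else 0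
  vec : ∀ i : ι, A *ᵥ b i = lam i • b i

lemma exists_dec {A : Matrix ι ι ℝ} (hA : A.IsHermitian) : ∃ b lam, Dec A b lam := by
  have e : ∀ x y : EuclideanSpace ℝ ι, inner ℝ x y = x.ofLp ⬝ᵥ y.ofLp := fun x y => by
    rw [EuclideanSpace.inner_eq_star_dotProduct, star_trivial, dotProduct_comm]
  refine ⟨fun i => (hA.eigenvectorBasis i).ofLp, hA.eigenvalues, fun g h => ?_, fun i g => ?_,
    fun i j => ?_, fun i => hA.mulVec_eigenvectorBasis i⟩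
  · have := hA.eigenvectorBasis.sum_inner_mul_inner (WithLp.toLp 2 g) (WithLp.toLp 2 h)
    simp only [e] at this
    rw [← this]
    exact Finset.sum_congr rfl fun i _ => by rw [dotProduct_comm g]
  · have s : Aᵀ = A := by simpa using hA.eq
    rw [dotProduct_mulVec, ← mulVec_transpose, s, hA.mulVec_eigenvectorBasis, smul_dotProduct,
      smul_eq_mul]
  · rw [← e]
    exact orthonormal_iff_ite.1 hA.eigenvectorBasis.orthonormal i j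

variable {A A' : Matrix ι ι ℝ} {b b' : ι → ι → ℝ} {lam lam' : ι → ℝ}

lemma Dec.neg (D : Dec A b lam) : Dec (-A) b (-lam) :=
  ⟨D.par, fun i g => by rw [neg_mulVec, dotProduct_neg, D.eig]; simp, D.orth,
    fun i => by rw [neg_mulVec, D.vec]; simp⟩

lemma Dec.q (D : Dec A b lam) (g : ι → ℝ) : g ⬝ᵥ A *ᵥ g = ∑ i, lam i * (b i ⬝ᵥ g) ^ 2 := by
  rw [D.par]
  exact Finset.sum_congr rfl fun i _ => by rw [D.eig]; ring

lemma Dec.n (D : Dec A b lam) (g : ι → ℝ) : g ⬝ᵥ g = ∑ i, (b i ⬝ᵥ g) ^ 2 := by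
  rw [D.par]
  exact Finset.sum_congr rfl fun i _ => by ring

lemma Dec.n2 (D : Dec A b lam) (g : ι → ℝ) :
    (A *ᵥ g) ⬝ᵥ (A *ᵥ g) = ∑ i, lam i ^ 2 * (b i ⬝ᵥ g) ^ 2 := by
  rw [D.par]
  exact Finset.sum_congr rfl fun i _ => by rw [D.eig]; ring

omit [DecidableEq ι] in
lemma sq_le_n (g : ι → ℝ) (x : ι) : g x ^ 2 ≤ g ⬝ᵥ g := by
  rw [pow_two]
  exact Finset.single_le_sum (f := fun i => g i * g i) (fun i _ => mul_self_nonneg _) (mem_univ x)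

omit [DecidableEq ι] in
lemma sum_sq_le_n (g : ι → ℝ) (U : Finset ι) : ∑ y ∈ U, g y ^ 2 ≤ g ⬝ᵥ g := by
  simp only [pow_two]
  exact Finset.sum_le_sum_of_subset_of_nonneg (subset_univ U) fun i _ _ => mul_self_nonneg _

omit [DecidableEq ι] in
lemma n_pos {g : ι → ℝ} (h : g ≠ 0) : 0 < g ⬝ᵥ g := by
  obtain ⟨x, hx⟩ := Function.ne_iff.1 h
  exact (pow_pos (abs_pos.2 hx) 2).trans_le (by rw [sq_abs]; exact sq_le_n g x)

omit [DecidableEq ι] in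
lemma exists_orth (S T : Finset ι) (w w' : ι → ι → ℝ) (h : S.card + T.card < Fintype.card ι) :
    ∃ g : ι → ℝ, g ≠ 0 ∧ (∀ i ∈ S, w i ⬝ᵥ g = 0) ∧ ∀ i ∈ T, w' i ⬝ᵥ g = 0 := by
  let L : (ι → ℝ) →ₗ[ℝ] (S → ℝ) × (T → ℝ) :=
    { toFun := fun g => (fun i => w i ⬝ᵥ g, fun i => w' i ⬝ᵥ g)
      map_add' := fun g h => by ext i <;> simp
      map_smul' := fun a g => by ext i <;> simp }
  have := LinearMap.ker_ne_bot_of_finrank_lt (f := L) (by simpa using h)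
  obtain ⟨g, h1, h2⟩ := Submodule.exists_mem_ne_zero_of_ne_bot this
  have h3 : L g = 0 := h1
  exact ⟨g, h2, fun i hi => congrFun (congrArg Prod.fst h3) ⟨i, hi⟩,
    fun i hi => congrFun (congrArg Prod.snd h3) ⟨i, hi⟩⟩

/-- number of eigenvalues below `t` -/
noncomputable def NN (lam : ι → ℝ) (t : ℝ) : ℕ := (univ.filter fun i => lam i < t).card

omit [DecidableEq ι] in
lemma key (b : ι → ι → ℝ) (lam : ι → ℝ) (t : ℝ) (T : Finset ι) (w : ι → ι → ℝ)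
    (h : T.card < NN lam t) :
    ∃ g : ι → ℝ, g ≠ 0 ∧ (∀ i, t ≤ lam i → b i ⬝ᵥ g = 0) ∧ ∀ i ∈ T, w i ⬝ᵥ g = 0 := by
  have := Finset.card_filter_add_card_filter_not (s := (univ : Finset ι)) (fun i => lam i < t)
  obtain ⟨g, h1, h2, h3⟩ := exists_orth (univ.filter fun i => ¬ lam i < t) T b w (by
    rw [card_univ] at this
    unfold NN at h
    omega)
  exact ⟨g, h1, fun i hi => h2 i (by simpa using hi), h3⟩

lemma Dec.q_lt (D : Dec A b lam) {t : ℝ} {g : ι → ℝ} (h0 : g ≠ 0)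
    (h : ∀ i, t ≤ lam i → b i ⬝ᵥ g = 0) : g ⬝ᵥ A *ᵥ g < t * (g ⬝ᵥ g) := by
  have p := n_pos h0
  rw [D.n] at p
  obtain ⟨j, -, hj⟩ := Finset.exists_lt_of_sum_lt (s := univ) (f := fun _ => (0 : ℝ))
    (by simpa using p)
  rw [D.q, D.n, Finset.mul_sum]
  refine Finset.sum_lt_sum (fun i _ => ?_) ⟨j, mem_univ j, ?_⟩
  · by_cases hi : t ≤ lam i
    · simp [h i hi]
    · exact mul_le_mul_of_nonneg_right (not_le.1 hi).le (sq_nonneg _)
  · refine mul_lt_mul_of_pos_right (not_le.1 fun hi => ?_) hj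
    simp [h j hi] at hj

lemma Dec.le_q (D : Dec A b lam) {t : ℝ} {g : ι → ℝ}
    (h : ∀ i, lam i < t → b i ⬝ᵥ g = 0) : t * (g ⬝ᵥ g) ≤ g ⬝ᵥ A *ᵥ g := by
  rw [D.q, D.n, Finset.mul_sum]
  refine Finset.sum_le_sum fun i _ => ?_
  by_cases hi : lam i < t
  · simp [h i hi]
  · exact mul_le_mul_of_nonneg_right (not_lt.1 hi) (sq_nonneg _)

lemma NN_mono (D : Dec A b lam) (D' : Dec A' b' lam')
    (hq : ∀ g, g ⬝ᵥ A *ᵥ g ≤ g ⬝ᵥ A' *ᵥ g) (t : ℝ) : NN lam' t ≤ NN lam t := by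
  by_contra hc
  obtain ⟨g, h0, h1, h2⟩ := key b' lam' t (univ.filter fun i => lam i < t) b (not_le.1 hc)
  have a1 := D'.q_lt h0 h1
  have a2 := D.le_q (t := t) (g := g) fun i hi => h2 i (by simpa using hi)
  linarith [hq g]

lemma pivot (D : Dec A b lam) (D' : Dec A' b' lam') {x i0 : ι} {a s : ℝ}
    (hq : ∀ g, g ⬝ᵥ A *ᵥ g + 2 * g x ^ 2 ≤ g ⬝ᵥ A' *ᵥ g) (ha : 0 < a) (ha1 : a ≤ 1)
    (hx : a ≤ |b i0 x|) (hs : 0 < s) (hs1 : s ≤ 1) (h0 : |lam i0| ≤ a ^ 2 / 8 * s)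
    (hg : ∀ i, lam i ≤ a ^ 2 / 8 * s ∨ s ≤ lam i) :
    NN lam' (a ^ 2 / 4 * s) < NN lam (a ^ 2 / 4 * s) := by
  by_contra hc
  have as : 0 < a ^ 2 * s := by positivity
  have l0 := abs_le.1 h0
  have m0 : i0 ∈ univ.filter fun i => lam i < a ^ 2 / 4 * s := by
    simp only [mem_filter, mem_univ, true_and]
    linarith
  obtain ⟨g, g0, h1, h2⟩ := key b' lam' (a ^ 2 / 4 * s)
    ((univ.filter fun i => lam i < a ^ 2 / 4 * s).erase i0) b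
    ((Finset.card_erase_lt_of_mem m0).trans_le (not_lt.1 hc))
  have a1 := D'.q_lt g0 h1
  set p := b i0 ⬝ᵥ g with hp
  have a2 : s * (g ⬝ᵥ g) - (a ^ 2 / 8 * s + s) * p ^ 2 ≤ g ⬝ᵥ A *ᵥ g := by
    have : (a ^ 2 / 8 * s + s) * p ^ 2
        = ∑ i, if i = i0 then (a ^ 2 / 8 * s + s) * (b i ⬝ᵥ g) ^ 2 else 0 := by simp [hp]
    rw [this, D.q, D.n, Finset.mul_sum, ← Finset.sum_sub_distrib]
    refine Finset.sum_le_sum fun i _ => ?_
    split_ifs with hi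
    · subst hi
      nlinarith [sq_nonneg (b i ⬝ᵥ g)]
    · rcases hg i with h | h
      · rw [h2 i (by
          simp only [mem_erase, mem_filter, mem_univ, true_and]
          exact ⟨hi, by linarith⟩)]
        simp
      · nlinarith [sq_nonneg (b i ⬝ᵥ g)]
  have a3 : (g x - p * b i0 x) ^ 2 ≤ g ⬝ᵥ g - p ^ 2 := by
    have := sq_le_n (g - p • b i0) x
    simp only [Pi.sub_apply, Pi.smul_apply, smul_eq_mul, sub_dotProduct, dotProduct_sub,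
      smul_dotProduct, dotProduct_smul, D.orth, if_true, dotProduct_comm g (b i0), ← hp] at this
    linarith
  have a4 : a ^ 2 ≤ b i0 x ^ 2 := by
    rw [← sq_abs (b i0 x)]
    exact pow_le_pow_left₀ ha.le hx 2
  have a5 : a ^ 2 ≤ 1 := pow_le_one₀ ha.le ha1
  have a6 := hq g
  set n := g ⬝ᵥ g - p ^ 2 with hn
  set P := p * b i0 x with hP
  have a7 : a ^ 2 * p ^ 2 ≤ P ^ 2 := by rw [hP, mul_pow]; nlinarith [sq_nonneg p]
  have n0 : 0 ≤ n := (sq_nonneg _).trans a3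
  have a8 : s / 2 * (g x - P) ^ 2 ≤ (s - a ^ 2 / 4 * s) * n := by
    have : s / 2 ≤ s - a ^ 2 / 4 * s := by nlinarith
    exact mul_le_mul this a3 (sq_nonneg _) (by linarith)
  have a9 : 3 / 8 * s * P ^ 2 ≤ s / 2 * (g x - P) ^ 2 + 2 * g x ^ 2 := by
    nlinarith [mul_nonneg hs.le (sq_nonneg (4 * g x - P)), mul_nonneg (sub_nonneg.2 hs1) (sq_nonneg (g x))]
  have e : g ⬝ᵥ g = n + p ^ 2 := by rw [hn]; ring
  rw [e] at a1 a2
  nlinarith [mul_le_mul_of_nonneg_left a7 hs.le]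

/-- functions in the spectral window are small on `U` -/
def Win (A : Matrix ι ι ℝ) (U : Finset ι) (σ κ : ℝ) : Prop :=
  ∀ g : ι → ℝ, (A *ᵥ g) ⬝ᵥ (A *ᵥ g) ≤ (2 * σ) ^ 2 * (g ⬝ᵥ g) → ∑ y ∈ U, g y ^ 2 ≤ κ * (g ⬝ᵥ g)

lemma drift (D : Dec A b lam) (D' : Dec A' b' lam') {U : Finset ι} {h σ κ t : ℝ}
    (hq : ∀ g, g ⬝ᵥ A' *ᵥ g ≤ g ⬝ᵥ A *ᵥ g + h * ∑ y ∈ U, g y ^ 2) (hW : Win A U σ κ)
    (hκ : 0 < κ) (h0 : 0 < h) (hh : h ≤ σ / 4) (t1 : -σ ≤ t) (t2 : t ≤ σ) :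
    NN lam t ≤ NN lam' (t + 3 * h * κ) := by
  by_contra hc
  obtain ⟨g, g0, h1, h2⟩ := key b lam t (univ.filter fun i => lam' i < t + 3 * h * κ) b'
    (not_le.1 hc)
  have a1 := D'.le_q (t := t + 3 * h * κ) (g := g) fun i hi => h2 i (by simpa using hi)
  set g2 : ι → ℝ := ∑ j ∈ univ.filter fun j => -2 * σ ≤ lam j, (b j ⬝ᵥ g) • b j with hg2
  have c2 : ∀ i, b i ⬝ᵥ g2 = if -2 * σ ≤ lam i then b i ⬝ᵥ g else 0 := fun i => by
    simp [hg2, dotProduct_sum, D.orth]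
  have c1 : ∀ i, b i ⬝ᵥ (g - g2) = if -2 * σ ≤ lam i then 0 else b i ⬝ᵥ g := fun i => by
    rw [dotProduct_sub, c2]
    split_ifs <;> simp
  have σ0 : 0 < σ := by linarith
  have b1 : g ⬝ᵥ g = (g - g2) ⬝ᵥ (g - g2) + g2 ⬝ᵥ g2 := by
    rw [D.n g, D.n (g - g2), D.n g2, ← Finset.sum_add_distrib]
    refine Finset.sum_congr rfl fun i _ => ?_
    rw [c1, c2]
    split_ifs <;> simp
  have b2 : g ⬝ᵥ A *ᵥ g ≤ -2 * σ * ((g - g2) ⬝ᵥ (g - g2)) + t * (g2 ⬝ᵥ g2) := by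
    rw [D.q g, D.n (g - g2), D.n g2, Finset.mul_sum, Finset.mul_sum, ← Finset.sum_add_distrib]
    refine Finset.sum_le_sum fun i _ => ?_
    rw [c1, c2]
    split_ifs with hi
    · by_cases h3 : t ≤ lam i
      · simp [h1 i h3]
      · nlinarith [sq_nonneg (b i ⬝ᵥ g)]
    · nlinarith [sq_nonneg (b i ⬝ᵥ g)]
  have b3 := hW g2 (by
    rw [D.n2, D.n, Finset.mul_sum]
    refine Finset.sum_le_sum fun i _ => ?_
    rw [c2]
    split_ifs with hi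
    · by_cases h3 : t ≤ lam i
      · simp [h1 i h3]
      · exact mul_le_mul_of_nonneg_right (sq_le_sq' (by linarith) (by linarith)) (sq_nonneg _)
    · simp)
  have b4 : ∑ y ∈ U, g y ^ 2 ≤ 2 * ∑ y ∈ U, (g - g2) y ^ 2 + 2 * ∑ y ∈ U, g2 y ^ 2 := by
    rw [Finset.mul_sum, Finset.mul_sum, ← Finset.sum_add_distrib]
    refine Finset.sum_le_sum fun y _ => ?_
    rw [Pi.sub_apply]
    nlinarith [sq_nonneg (g y - 2 * g2 y)]
  have b5 := sum_sq_le_n (g - g2) U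
  have b6 := n_pos g0
  have b7 := hq g
  set n1 := (g - g2) ⬝ᵥ (g - g2)
  set n2 := g2 ⬝ᵥ g2
  have n10 : 0 ≤ n1 := (Finset.sum_nonneg fun _ _ => sq_nonneg _).trans b5
  have n20 : 0 ≤ n2 := Finset.sum_nonneg fun _ _ => mul_self_nonneg _
  have b8 : h * ∑ y ∈ U, g y ^ 2 ≤ h * (2 * n1 + 2 * (κ * n2)) := by gcongr; linarith
  have hκ' : 0 < h * κ := mul_pos h0 hκ
  rw [b1] at a1 b6
  nlinarith [mul_nonneg n10 (show 0 ≤ t + 2 * σ - 2 * h + 2 * (h * κ) by linarith),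
    mul_pos hκ' b6]

lemma window (D : Dec A b lam) (Θ : Finset ι) {σ : ℝ}
    (h : ∀ g : ι → ℝ, (∀ y ∈ Θ, g y = 0) →
      (A *ᵥ g) ⬝ᵥ (A *ᵥ g) ≤ (2 * σ) ^ 2 * (g ⬝ᵥ g) → g = 0) :
    (univ.filter fun i => |lam i| ≤ 2 * σ).card ≤ Θ.card := by
  by_contra hc
  have := Finset.card_filter_add_card_filter_not (s := (univ : Finset ι))
    (fun i => |lam i| ≤ 2 * σ)
  obtain ⟨g, g0, h1, h2⟩ := exists_orth (univ.filter fun i => ¬ |lam i| ≤ 2 * σ) Θ b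
    (fun y => Pi.single y 1) (by rw [card_univ] at this; omega)
  refine g0 (h g (fun y hy => by simpa using h2 y hy) ?_)
  rw [D.n2, D.n, Finset.mul_sum]
  refine Finset.sum_le_sum fun i _ => ?_
  by_cases hi : |lam i| ≤ 2 * σ
  · exact mul_le_mul_of_nonneg_right (sq_le_sq' (abs_le.1 hi).1 (abs_le.1 hi).2) (sq_nonneg _)
  · simp [h1 i (by simpa using hi)]

lemma range_le {B : ℕ → Matrix ι ι ℝ} {bb : ℕ → ι → ι → ℝ} {ll : ℕ → ι → ℝ} {U : Finset ι}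
    {m n : ℕ} {h σ κ t : ℝ} (D : ∀ j ≤ m, Dec (B j) (bb j) (ll j))
    (hq : ∀ j < m, ∀ g, g ⬝ᵥ B (j + 1) *ᵥ g ≤ g ⬝ᵥ B j *ᵥ g + h * ∑ y ∈ U, g y ^ 2)
    (hW : ∀ j < m, Win (B j) U σ κ) (hκ : 0 < κ) (h0 : 0 < h) (hh : h ≤ σ / 4)
    (hm : m * (3 * h * κ) ≤ σ) (t1 : 0 ≤ t) (t2 : t ≤ σ)
    (hn : (univ.filter fun i => |ll 0 i| ≤ 2 * σ).card ≤ n) :
    NN (ll 0) t ≤ NN (ll m) t + n := by
  have e0 : 0 < 3 * h * κ := by positivity
  have a : ∀ j ≤ m, NN (ll 0) (t - m * (3 * h * κ))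
      ≤ NN (ll j) (t - m * (3 * h * κ) + j * (3 * h * κ)) := by
    intro j hj
    induction j with
    | zero => simp
    | succ j ih =>
      have j1 : (j : ℝ) + 1 ≤ m := by exact_mod_cast hj
      have j0 : (0 : ℝ) ≤ j := Nat.cast_nonneg j
      refine (ih (by omega)).trans ((drift (D j (by omega)) (D (j + 1) hj) (hq j hj) (hW j hj) hκ h0 hh
        (by nlinarith) (by nlinarith)).trans (le_of_eq ?_))
      congr 1
      push_cast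
      ring
  have a2 := a m le_rfl
  rw [sub_add_cancel] at a2
  refine le_trans ?_ (add_le_add a2 hn)
  refine le_trans (Finset.card_le_card fun i hi => ?_) (Finset.card_union_le _ _)
  simp only [mem_filter, mem_univ, true_and, mem_union] at hi ⊢
  by_cases h1 : ll 0 i < t - m * (3 * h * κ)
  · exact Or.inl h1
  · exact Or.inr (abs_le.2 ⟨by linarith, by linarith⟩)

end Pool.Agent.P.MP_d0f69c_mp
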