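import Mathlib

set_option autoImplicit false

open Finset

namespace Pool.Agent.P.MP_d0f69c_mp

variable {ι : Type} [Fintype ι] [DecidableEq ι]

/-- flip of one coordinate -/
def flp (x : ι) (c : ι → Bool) : ι → Bool := Function.update c x (!c x)

/-- sign -/
def sg (b : Bool) : ℝ := if b then 1 else -1

/-- the sites queried in the first rounds -/
def QQ (nxt : Finset ι → (ι → Bool) → Finset ι) (c : ι → Bool) : ℕ → Finset ι
  | 0 => ∅
  | t + 1 => QQ nxt c t ∪ nxt (QQ nxt c t) c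

omit [Fintype ι] in
lemma flp_flp (x : ι) (c : ι → Bool) : flp x (flp x c) = c := by
  simp [flp]

omit [Fintype ι] in
lemma flp_self (x : ι) (c : ι → Bool) : flp x c x = !c x := by simp [flp]

omit [Fintype ι] in
lemma flp_ne {x y : ι} (c : ι → Bool) (h : y ≠ x) : flp x c y = c y := by simp [flp, h]

lemma sg_not (b : Bool) : sg (!b) = -sg b := by cases b <;> simp [sg]

lemma abs_sg (b : Bool) : |sg b| = 1 := by cases b <;> simp [sg]

omit [Fintype ι] in
lemma QQ_congr {nxt : Finset ι → (ι → Bool) → Finset ι}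
    (hdep : ∀ W c c', (∀ y ∈ W, c y = c' y) → nxt W c = nxt W c') {c c' : ι → Bool} (t : ℕ)
    (h : ∀ y ∈ QQ nxt c t, c y = c' y) : QQ nxt c' t = QQ nxt c t := by
  induction t with
  | zero => rfl
  | succ t ih =>
    have h' : ∀ y ∈ QQ nxt c t, c y = c' y := fun y hy => h y (mem_union_left _ hy)
    simp only [QQ]
    rw [ih h', hdep _ c c' h']

omit [Fintype ι] in
lemma card_QQ {nxt : Finset ι → (ι → Bool) → Finset ι} {D : ℕ}
    (hcard : ∀ W c, (nxt W c).card ≤ D) (c : ι → Bool) (t : ℕ) : (QQ nxt c t).card ≤ t * D := by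
  induction t with
  | zero => simp [QQ]
  | succ t ih =>
    refine (card_union_le _ _).trans ?_
    have := hcard (QQ nxt c t) c
    rw [add_mul]
    omega

lemma round {nxt : Finset ι → (ι → Bool) → Finset ι}
    (hdep : ∀ W c c', (∀ y ∈ W, c y = c' y) → nxt W c = nxt W c')
    (hdisj : ∀ W c, ∀ x ∈ nxt W c, x ∉ W) (t : ℕ) (F : (ι → Bool) → ℝ) :
    2 * ∑ c, F c * ∑ x ∈ nxt (QQ nxt c t) c, sg (c x)
      = ∑ c, ∑ x ∈ nxt (QQ nxt c t) c, sg (c x) * (F c - F (flp x c)) := by
  have one : ∀ x c, x ∈ nxt (QQ nxt c t) c → x ∈ nxt (QQ nxt (flp x c) t) (flp x c) := by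
    intro x c h
    have e : ∀ y ∈ QQ nxt c t, c y = flp x c y := fun y hy =>
      (flp_ne c fun h' : y = x => hdisj _ _ x h (h' ▸ hy)).symm
    rwa [QQ_congr hdep t e, ← hdep _ _ _ e]
  have two : ∀ x c, x ∈ nxt (QQ nxt (flp x c) t) (flp x c) ↔ x ∈ nxt (QQ nxt c t) c :=
    fun x c => ⟨fun h => by simpa only [flp_flp] using one x _ h, one x c⟩
  have e : ∀ (S : Finset ι) (g : ι → ℝ), ∑ x ∈ S, g x = ∑ x, if x ∈ S then g x else 0 :=
    fun S g => by simp
  simp only [Finset.mul_sum _ _ (F _)]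
  simp only [e (nxt _ _)]
  rw [Finset.sum_comm, Finset.sum_comm (s := univ) (t := univ)
    (f := fun c x => if x ∈ nxt (QQ nxt c t) c then sg (c x) * (F c - F (flp x c)) else 0),
    Finset.mul_sum]
  refine Finset.sum_congr rfl fun x _ => ?_
  have := Equiv.sum_comp (Function.Involutive.toPerm (flp x) (flp_flp x))
    (fun c => if x ∈ nxt (QQ nxt c t) c then F c * sg (c x) else 0)
  simp only [Function.Involutive.coe_toPerm, two, flp_self, sg_not] at this
  rw [two_mul]
  nth_rewrite 2 [← this]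
  rw [← Finset.sum_add_distrib]
  refine Finset.sum_congr rfl fun c _ => ?_
  split_ifs <;> ring

theorem tree {nxt : Finset ι → (ι → Bool) → Finset ι} {D m : ℕ} {B : ℝ}
    (hdep : ∀ W c c', (∀ y ∈ W, c y = c' y) → nxt W c = nxt W c')
    (hdisj : ∀ W c, ∀ x ∈ nxt W c, x ∉ W) (hcard : ∀ W c, (nxt W c).card ≤ D)
    (hD : 0 < D) (hm : 0 < m) (f : (ι → Bool) → ℝ) (hB : ∀ c, |f c| ≤ B)
    (hmono : ∀ c x, 0 ≤ sg (c x) * (f c - f (flp x c))) (S : Finset (ι → Bool))
    (hpiv : ∀ c ∈ S, ∀ t < m ^ 2, ∃ x ∈ nxt (QQ nxt c t) c, 1 ≤ sg (c x) * (f c - f (flp x c))) :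
    (S.card : ℝ) ≤ 2 * B * D / m * Fintype.card (ι → Bool) := by
  let Y : ℕ → (ι → Bool) → ℝ := fun t c => ∑ x ∈ QQ nxt c t, sg (c x)
  have Ys : ∀ t c, Y (t + 1) c = Y t c + ∑ x ∈ nxt (QQ nxt c t) c, sg (c x) := fun t c =>
    Finset.sum_union (Finset.disjoint_right.2 (hdisj _ _))
  set V : ℝ := (Fintype.card (ι → Bool) : ℝ) with hV
  have a1 : ∀ t, ∑ c, Y t c ^ 2 ≤ t * D ^ 2 * V := by
    intro t
    induction t with
    | zero => simp [Y, QQ]
    | succ t ih =>
      have r := round hdep hdisj t (Y t)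
      rw [Finset.sum_eq_zero (s := univ) (f := fun c => ∑ x ∈ nxt (QQ nxt c t) c,
        sg (c x) * (Y t c - Y t (flp x c))) (fun c _ => Finset.sum_eq_zero fun x hx => by
          have e : ∀ y ∈ QQ nxt c t, c y = flp x c y := fun y hy =>
            (flp_ne c fun h' : y = x => hdisj _ _ x hx (h' ▸ hy)).symm
          simp only [Y, QQ_congr hdep t e]
          rw [Finset.sum_congr rfl fun y hy => congrArg sg (e y hy)]
          simp)] at r
      have b : ∑ c, (∑ x ∈ nxt (QQ nxt c t) c, sg (c x)) ^ 2 ≤ D ^ 2 * V := by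
        refine (Finset.sum_le_card_nsmul _ _ ((D : ℝ) ^ 2) fun c _ => ?_).trans ?_
        · rw [← sq_abs]
          refine pow_le_pow_left₀ (abs_nonneg _) ((Finset.abs_sum_le_sum_abs _ _).trans ?_) 2
          simp only [abs_sg, sum_const, nsmul_eq_mul, mul_one]
          exact_mod_cast hcard _ _
        · rw [card_univ, nsmul_eq_mul, mul_comm]
      simp only [Ys, add_sq, Finset.sum_add_distrib, mul_assoc (2 : ℝ), ← Finset.mul_sum]
      push_cast
      linarith
  have a2 : ∀ t ≤ m ^ 2, t * (S.card : ℝ) ≤ 2 * ∑ c, f c * Y t c := by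
    intro t ht
    induction t with
    | zero => simp [Y, QQ]
    | succ t ih =>
      have r := round hdep hdisj t f
      have b : (S.card : ℝ)
          ≤ ∑ c, ∑ x ∈ nxt (QQ nxt c t) c, sg (c x) * (f c - f (flp x c)) := by
        refine le_trans ?_ (Finset.sum_le_sum_of_subset_of_nonneg (subset_univ S)
          fun c _ _ => Finset.sum_nonneg fun x _ => hmono c x)
        rw [Finset.card_eq_sum_ones]
        push_cast
        refine Finset.sum_le_sum fun c hc => ?_
        obtain ⟨x, h1, h2⟩ := hpiv c hc t ht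
        exact h2.trans (Finset.single_le_sum (f := fun x => sg (c x) * (f c - f (flp x c)))
          (fun x _ => hmono c x) h1)
      have := ih (by omega)
      simp only [Ys, mul_add (f _), Finset.sum_add_distrib]
      push_cast
      linarith
  have m0 : (0 : ℝ) < m := by exact_mod_cast hm
  have D0 : (0 : ℝ) < D := by exact_mod_cast hD
  have B0 : 0 ≤ B := (abs_nonneg _).trans (hB fun _ => true)
  have a3 : 2 * ∑ c, f c * Y (m ^ 2) c ≤ ∑ c, B * (m * D + Y (m ^ 2) c ^ 2 / (m * D)) := by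
    rw [Finset.mul_sum]
    refine Finset.sum_le_sum fun c _ => ?_
    have b1 : f c * Y (m ^ 2) c ≤ B * |Y (m ^ 2) c| := by
      refine (le_abs_self _).trans ?_
      rw [abs_mul]
      exact mul_le_mul_of_nonneg_right (hB c) (abs_nonneg _)
    have b2 : 2 * |Y (m ^ 2) c| ≤ m * D + Y (m ^ 2) c ^ 2 / (m * D) := by
      rw [← sub_le_iff_le_add', le_div_iff₀ (by positivity), ← sq_abs (Y (m ^ 2) c)]
      nlinarith [sq_nonneg (m * D - |Y (m ^ 2) c|)]
    nlinarith [mul_le_mul_of_nonneg_left b2 B0]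
  rw [← Finset.mul_sum, Finset.sum_add_distrib, ← Finset.sum_div, sum_const, card_univ,
    nsmul_eq_mul, ← hV] at a3
  have a4 : (∑ c, Y (m ^ 2) c ^ 2) / (m * D) ≤ m * D * V := by
    rw [div_le_iff₀ (by positivity)]
    refine (a1 _).trans (le_of_eq ?_)
    push_cast
    ring
  have a5 := a2 _ le_rfl
  push_cast at a5
  have a6 : B * (V * (m * D) + (∑ c, Y (m ^ 2) c ^ 2) / (m * D))
      ≤ B * (V * (m * D) + m * D * V) := by gcongr
  rw [div_mul_eq_mul_div, le_div_iff₀ m0]
  apply le_of_mul_le_mul_left _ m0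
  linarith

end Pool.Agent.P.MP_d0f69c_mp
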