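import Pool.Agent.P.MP_d0f69c_mp.Count
import Pool.Agent.P.MP_d0f69c_mp.Tree

set_option autoImplicit false

open Finset Matrix

namespace Pool.Agent.P.MP_d0f69c_mp

variable {ι : Type} [Fintype ι] [DecidableEq ι]

/-- global estimate up to the defect set -/
def H1 (A : Matrix ι ι ℝ) (Θ : Finset ι) (M : ℝ) : Prop :=
  ∀ (ψ : ι → ℝ) (a F : ℝ), 0 ≤ a → 0 ≤ F → (∀ y ∈ Θ, |ψ y| ≤ a) → (∀ y, |(A *ᵥ ψ) y| ≤ F) →
    ∀ z, |ψ z| ≤ a + M * F

/-- local estimate at the free sites -/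
def H2 (A : Matrix ι ι ℝ) (Θ U : Finset ι) (nr : ι → Finset ι) (K τ ζ : ℝ) : Prop :=
  ∀ x ∈ U, ∀ (ψ : ι → ℝ) (Fn F a : ℝ), 0 ≤ Fn → 0 ≤ F → 0 ≤ a →
    (∀ y ∈ nr x, y ∉ Θ → |(A *ᵥ ψ) y| ≤ Fn) → (∀ y, y ∉ Θ → |(A *ᵥ ψ) y| ≤ F) →
    (∀ y, |ψ y| ≤ a) → |ψ x| ≤ K * Fn + τ * F + ζ * a

/-- weak unique continuation -/
def H3 (A : Matrix ι ι ℝ) (U : Finset ι) (w : ℝ) (f : ℕ) : Prop :=
  ∀ (u : ι → ℝ) (α : ℝ) (x0 : ι), 0 < α → α ≤ |u x0| → (∀ y, |(A *ᵥ u) y| ≤ w * α) →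
    ∃ S ⊆ U, f ≤ S.card ∧ ∀ x ∈ S, w * α ≤ |u x|

/-- nonresonance -/
def NRm (A : Matrix ι ι ℝ) (M : ℝ) : Prop :=
  ∀ (ψ : ι → ℝ) (F : ℝ), 0 ≤ F → (∀ y, |(A *ᵥ ψ) y| ≤ F) → ∀ z, |ψ z| ≤ M * F

omit [DecidableEq ι] in
lemma dot_le {g h : ι → ℝ} {a c V : ℝ} (ha : 0 ≤ a) (hc : 0 ≤ c) (hV : (Fintype.card ι : ℝ) ≤ V)
    (hg : ∀ y, |g y| ≤ a) (hh : ∀ y, g y = 0 ∨ |h y| ≤ c) : g ⬝ᵥ h ≤ V * (a * c) := by
  refine (Finset.sum_le_card_nsmul _ _ (a * c) fun y _ => ?_).trans ?_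
  · rcases hh y with e | e
    · rw [e, zero_mul]
      positivity
    · refine (le_abs_self _).trans ?_
      rw [abs_mul]
      exact mul_le_mul (hg y) e (abs_nonneg _) ha
  · rw [card_univ, nsmul_eq_mul]
    gcongr

lemma partner {A : Matrix ι ι ℝ} (hA : A.IsHermitian) {Θ : Finset ι} {M V c : ℝ} (h : H1 A Θ M)
    (hM : 0 ≤ M) (hV : (Fintype.card ι : ℝ) ≤ V) (hc : 0 ≤ c) (g : ι → ℝ) (hg : ∀ y, |g y| ≤ c) :
    ∃ w : ι → ℝ, (∀ y, y ∉ Θ → (A *ᵥ w) y = g y) ∧ ∀ z, |w z| ≤ V * M * c := by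
  have s : Aᵀ = A := by simpa using hA.eq
  have sy : ∀ x y : ι → ℝ, x ⬝ᵥ A *ᵥ y = (A *ᵥ x) ⬝ᵥ y := fun x y => by
    rw [dotProduct_mulVec, ← mulVec_transpose, s]
  let P : Matrix ι ι ℝ := diagonal fun y => if y ∈ Θ then 0 else 1
  have hP : ∀ (ψ : ι → ℝ) y, (P *ᵥ ψ) y = if y ∈ Θ then 0 else ψ y := fun ψ y => by
    simp [P, mulVec_diagonal]
  let L : (ι → ℝ) →ₗ[ℝ] (ι → ℝ) := Matrix.mulVecLin (1 - P + P * A * A * P)
  have hL : ∀ (ψ : ι → ℝ) y, L ψ y = if y ∈ Θ then ψ y else (A *ᵥ (A *ᵥ (P *ᵥ ψ))) y := by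
    intro ψ y
    simp only [L, mulVecLin_apply, add_mulVec, sub_mulVec, one_mulVec, ← mulVec_mulVec,
      Pi.add_apply, Pi.sub_apply, hP]
    split_ifs <;> simp
  have pp : ∀ ψ : ι → ℝ, (∀ y ∈ Θ, ψ y = 0) → P *ᵥ ψ = ψ := fun ψ h0 => by
    funext y
    rw [hP]
    split_ifs with hy
    · exact (h0 y hy).symm
    · rfl
  have inj : Function.Injective L := by
    rw [← LinearMap.ker_eq_bot, LinearMap.ker_eq_bot']
    intro ψ h0
    have a1 : ∀ y ∈ Θ, ψ y = 0 := fun y hy => by simpa [hL, hy] using congrFun h0 y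
    have a2 : A *ᵥ ψ = 0 := by
      rw [← dotProduct_self_eq_zero, ← sy]
      refine Finset.sum_eq_zero fun y _ => ?_
      by_cases hy : y ∈ Θ
      · simp [a1 y hy]
      · have := congrFun h0 y
        rw [hL, if_neg hy, pp ψ a1] at this
        simp [this]
    funext z
    simpa using h ψ 0 0 le_rfl le_rfl (fun y hy => by simp [a1 y hy]) (fun y => by simp [a2]) z
  obtain ⟨ψ, hψ⟩ := LinearMap.surjective_of_injective inj (P *ᵥ g)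
  have a1 : ∀ y ∈ Θ, ψ y = 0 := fun y hy => by simpa [hL, hP, hy] using congrFun hψ y
  have a2 : ∀ y, y ∉ Θ → (A *ᵥ (A *ᵥ ψ)) y = g y := fun y hy => by
    have := congrFun hψ y
    rwa [hL, hP, if_neg hy, if_neg hy, pp ψ a1] at this
  refine ⟨A *ᵥ ψ, a2, fun z => ?_⟩
  obtain ⟨x, -, hx⟩ := Finset.exists_max_image univ (fun y => |(A *ᵥ ψ) y|) ⟨z, mem_univ z⟩
  refine (hx z (mem_univ z)).trans ?_
  set m := |(A *ᵥ ψ) x| with hm
  have m0 : 0 ≤ m := abs_nonneg _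
  have a3 := h ψ 0 m le_rfl m0 (fun y hy => by simp [a1 y hy]) (fun y => hx y (mem_univ y))
  have a4 := dot_le (h := A *ᵥ (A *ᵥ ψ)) (by positivity) hc hV a3 (fun y => by
    by_cases hy : y ∈ Θ
    · exact Or.inl (a1 y hy)
    · exact Or.inr (by rw [a2 y hy]; exact hg y))
  have a5 := sq_le_n (A *ᵥ ψ) x
  rw [← sy, ← sq_abs, ← hm] at a5
  have V0 : 0 ≤ V := (Nat.cast_nonneg _).trans hV
  rcases eq_or_lt_of_le m0 with e | e
  · rw [← e]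
    positivity
  · apply le_of_mul_le_mul_left _ e
    linarith

lemma spanner (W : Finset ι) (m : ℕ) : ∀ Φ : Submodule ℝ (ι → ℝ), Module.finrank ℝ Φ ≤ m →
    ∃ P ⊆ W, P.card ≤ m ∧ ∀ φ ∈ Φ, ∀ a : ℝ, 0 ≤ a → (∀ x ∈ P, |φ x| ≤ a) →
      ∀ x ∈ W, |φ x| ≤ (2 ^ m - 1) * a := by
  induction m with
  | zero =>
    intro Φ h
    refine ⟨∅, empty_subset _, le_rfl, fun φ hφ a _ _ x _ => ?_⟩
    rw [Submodule.finrank_eq_zero.1 (Nat.le_zero.1 h), Submodule.mem_bot] at hφ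
    simp [hφ]
  | succ m ih =>
    intro Φ h
    have p1 : (1 : ℝ) ≤ 2 ^ m := one_le_pow₀ (by norm_num)
    by_cases h0 : ∃ φ ∈ Φ, ∃ x ∈ W, φ x ≠ 0
    · obtain ⟨φ0, hφ0, x1, hx1, hne⟩ := h0
      obtain ⟨x0, hx0, hmax⟩ := Finset.exists_max_image W (fun y => |φ0 y|) ⟨x1, hx1⟩
      have ne : φ0 x0 ≠ 0 := abs_pos.1 ((abs_pos.2 hne).trans_le (hmax x1 hx1))
      have lt : Φ ⊓ LinearMap.ker (LinearMap.proj x0 : (ι → ℝ) →ₗ[ℝ] ℝ) < Φ :=
        lt_of_le_of_ne inf_le_left fun e => ne (by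
          have := e.ge hφ0
          exact this.2)
      obtain ⟨P, P1, P2, P3⟩ := ih _ (Nat.le_of_lt_succ
        ((Submodule.finrank_lt_finrank_of_lt lt).trans_le h))
      refine ⟨insert x0 P, insert_subset hx0 P1, (card_insert_le _ _).trans (by omega),
        fun φ hφ a ha hP x hx => ?_⟩
      have b0 := hP x0 (mem_insert_self _ _)
      have b1 : ∀ y ∈ W, |φ x0 / φ0 x0 * φ0 y| ≤ a := fun y hy => by
        rw [abs_mul, abs_div, div_mul_eq_mul_div, div_le_iff₀ (abs_pos.2 ne)]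
        exact mul_le_mul b0 (hmax y hy) (abs_nonneg _) ha
      have := P3 (φ - (φ x0 / φ0 x0) • φ0) ⟨Φ.sub_mem hφ (Φ.smul_mem _ hφ0), by
        simp [div_mul_cancel₀ _ ne]⟩ (2 * a) (by positivity) (fun y hy => by
          simp only [Pi.sub_apply, Pi.smul_apply, smul_eq_mul]
          linarith [abs_sub (φ y) (φ x0 / φ0 x0 * φ0 y), b1 y (P1 hy),
            hP y (mem_insert_of_mem hy)]) x hx
      simp only [Pi.sub_apply, Pi.smul_apply, smul_eq_mul] at this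
      have b2 := abs_sub_abs_le_abs_sub (φ x) (φ x0 / φ0 x0 * φ0 x)
      rw [pow_succ]
      linarith [b1 x hx]
    · push Not at h0
      refine ⟨∅, empty_subset _, Nat.zero_le _, fun φ hφ a ha _ x hx => ?_⟩
      rw [h0 φ hφ x hx, abs_zero, pow_succ]
      exact mul_nonneg (by linarith) ha

/-- `P` spans the solutions off `Θ` on `W` -/
def Spans (A : Matrix ι ι ℝ) (Θ W P : Finset ι) (G : ℝ) : Prop :=
  ∀ φ : ι → ℝ, (∀ y, y ∉ Θ → (A *ᵥ φ) y = 0) → ∀ a : ℝ, 0 ≤ a → (∀ x ∈ P, |φ x| ≤ a) →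
    ∀ x ∈ W, |φ x| ≤ G * a

lemma span2 {A : Matrix ι ι ℝ} {Θ : Finset ι} {M G : ℝ} {n : ℕ} (h : H1 A Θ M) (hn : Θ.card ≤ n)
    (hG : 4 ^ n ≤ G) (W : Finset ι) : ∃ P ⊆ W, P.card ≤ 2 * n ∧ Spans A Θ W P G := by
  let Φ : Submodule ℝ (ι → ℝ) :=
    { carrier := {φ | ∀ y, y ∉ Θ → (A *ᵥ φ) y = 0}
      add_mem' := fun {a b} ha hb y hy => by simp [mulVec_add, ha y hy, hb y hy]
      zero_mem' := fun y _ => by simp
      smul_mem' := fun c a ha y hy => by simp [mulVec_smul, ha y hy] }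
  let L : Φ →ₗ[ℝ] (Θ → ℝ) × (Θ → ℝ) :=
    { toFun := fun φ => (fun y => φ.1 y, fun y => (A *ᵥ φ.1) y)
      map_add' := fun g h => by ext i <;> simp [mulVec_add]
      map_smul' := fun a g => by ext i <;> simp [mulVec_smul] }
  have inj : Function.Injective L := by
    rw [← LinearMap.ker_eq_bot, LinearMap.ker_eq_bot']
    intro φ h0
    ext z
    simpa using h φ.1 0 0 le_rfl le_rfl
      (fun y hy => by simpa [L] using congrFun (congrArg Prod.fst h0) ⟨y, hy⟩) (fun y => by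
        by_cases hy : y ∈ Θ
        · simpa [L] using congrFun (congrArg Prod.snd h0) ⟨y, hy⟩
        · simp [φ.2 y hy]) z
  have := LinearMap.finrank_le_finrank_of_injective inj
  simp only [Module.finrank_prod, Module.finrank_fintype_fun_eq_card, Fintype.card_coe] at this
  obtain ⟨P, P1, P2, P3⟩ := spanner W (2 * n) Φ (by omega)
  refine ⟨P, P1, P2, fun φ hφ a ha hP x hx => (P3 φ hφ a ha hP x hx).trans ?_⟩
  rw [pow_mul]
  exact mul_le_mul_of_nonneg_right (by linarith [show (2 : ℝ) ^ 2 = 4 by norm_num ▸ hG]) ha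

lemma found {A Ar : Matrix ι ι ℝ} (hA : Ar.IsHermitian) {Θ U W P : Finset ι} {nr : ι → Finset ι}
    {M V K τ ζ G β : ℝ} {δ u : ι → ℝ} (h1 : H1 Ar Θ M) (h2 : H2 A Θ U nr K τ ζ)
    (h2r : H2 Ar Θ U nr K τ ζ) (hW : W ⊆ U) (hP : P ⊆ W) (hS : Spans Ar Θ W P G)
    (hnr : ∀ x, x ∈ nr x) (hδ : ∀ y, |δ y| ≤ 2) (hδ0 : ∀ y, y ∉ W → δ y = 0)
    (hd : ∀ φ y, (A *ᵥ φ) y = (Ar *ᵥ φ) y + δ y * φ y) (hM : 0 ≤ M)
    (hV : (Fintype.card ι : ℝ) ≤ V) (K0 : 0 ≤ K) (hK : K ≤ G) (hG : 512 ≤ G) (τ0 : 0 ≤ τ)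
    (ζ0 : 0 ≤ ζ) (hε : (τ + ζ * (V * M)) * G ^ 3 ≤ 2) (β0 : 0 ≤ β)
    (hu : ∀ y, |(A *ᵥ u) y| ≤ β) (hs : ∀ x ∈ P, ∀ y ∈ nr x, y ∈ W → |u y| ≤ β) :
    ∀ x ∈ W, |u x| ≤ G ^ 4 * β := by
  intro x1 hx1
  obtain ⟨x0, hx0, hmax⟩ := Finset.exists_max_image W (fun y => |u y|) ⟨x1, hx1⟩
  refine (hmax x1 hx1).trans ?_
  set b := |u x0| with hb
  have G3 : 1 ≤ G ^ 3 := one_le_pow₀ (by linarith)
  have V0 : 0 ≤ V := (Nat.cast_nonneg _).trans hV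
  by_cases hbβ : b ≤ β
  · exact hbβ.trans (le_mul_of_one_le_left β0 (one_le_pow₀ (by linarith)))
  have βb : β ≤ b := (not_le.1 hbβ).le
  have b0 : 0 ≤ b := abs_nonneg _
  have dd : ∀ (φ : ι → ℝ) (y : ι) (a : ℝ), 0 ≤ a → (y ∈ W → |φ y| ≤ a) → |δ y * φ y| ≤ 2 * a := by
    intro φ y a ha h
    by_cases hy : y ∈ W
    · rw [abs_mul]
      exact mul_le_mul (hδ y) (h hy) (abs_nonneg _) zero_le_two
    · rw [hδ0 y hy, zero_mul, abs_zero]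
      positivity
  have gg : ∀ (y : ι) (a : ℝ), 0 ≤ a → (y ∈ W → |u y| ≤ a) → |(-(Ar *ᵥ u)) y| ≤ β + 2 * a := by
    intro y a ha h
    rw [Pi.neg_apply, abs_neg, show (Ar *ᵥ u) y = (A *ᵥ u) y - δ y * u y by rw [hd]; ring]
    linarith [abs_sub ((A *ᵥ u) y) (δ y * u y), hu y, dd u y a ha h]
  obtain ⟨w, w1, w2⟩ := partner hA h1 hM hV (c := 3 * b) (by positivity) (-(Ar *ᵥ u))
    (fun y => by linarith [gg y b b0 (hmax y)])
  have φ0 : ∀ y, y ∉ Θ → (Ar *ᵥ (u + w)) y = 0 := fun y hy => by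
    simp [mulVec_add, w1 y hy]
  set ε := τ + ζ * (V * M) with hεd
  have ε0 : 0 ≤ ε := by positivity
  have a1 := hS (u + w) φ0 (4 * G * β + 3 * ε * b) (by positivity) (fun x hx => by
    have c1 := h2r x (hW (hP hx)) w (3 * β) (3 * b) (V * M * (3 * b)) (by positivity) (by positivity)
      (by positivity) (fun y hy hy' => by
        rw [w1 y hy']
        linarith [gg y β β0 (hs x hx y hy)])
      (fun y hy => by
        rw [w1 y hy]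
        linarith [gg y b b0 (hmax y)]) w2
    have c2 := hs x hx x (hnr x) (hP hx)
    have c3 := mul_le_mul_of_nonneg_right hK β0
    have c4 : β ≤ G * β := le_mul_of_one_le_left β0 (by linarith)
    rw [Pi.add_apply, hεd]
    linarith [abs_add_le (u x) (w x)])
  set c := G * (4 * G * β + 3 * ε * b) with hc
  have c0 : 0 ≤ c := by positivity
  have a2 : ∀ y, y ∉ Θ → |(A *ᵥ w) y| ≤ 2 * c + β := fun y hy => by
    have e : (A *ᵥ w) y = δ y * (u + w) y - (A *ᵥ u) y := by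
      have := hd (u + w) y
      rw [φ0 y hy, mulVec_add, Pi.add_apply] at this
      linarith
    rw [e]
    linarith [abs_sub (δ y * (u + w) y) ((A *ᵥ u) y), hu y, dd (u + w) y c c0 (a1 y)]
  have a3 := h2 x0 (hW hx0) w (2 * c + β) (2 * c + β) (V * M * (3 * b)) (by positivity)
    (by positivity) (by positivity) (fun y _ hy => a2 y hy) a2 w2
  have a4 := a1 x0 hx0
  have a5 : b ≤ |(u + w) x0| + |w x0| := by
    have := abs_sub ((u + w) x0) (w x0)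
    simpa using this
  have τε : τ ≤ ε := le_add_of_nonneg_right (by positivity)
  have ε2 : ε ≤ 2 := by nlinarith
  have a6 : (K + τ) * (2 * c + β) ≤ 2 * G * (2 * c + β) := by gcongr; linarith
  have a7 : ζ * (V * M * (3 * b)) ≤ 3 * ε * b := by
    rw [hεd]
    nlinarith [mul_nonneg τ0 b0]
  have a8 : c ≤ G * c := le_mul_of_one_le_left c0 (by linarith)
  have a9 : b ≤ 5 * G * c + 2 * G * β + 3 * ε * b := by linarith
  have G2 : 1 ≤ G ^ 2 := one_le_pow₀ (by linarith)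
  have εb : 0 ≤ ε * b := by positivity
  have e1 : ε * b ≤ G ^ 2 * (ε * b) := le_mul_of_one_le_left εb G2
  have e2 : 36 * (G ^ 2 * (ε * b)) ≤ b := by
    have : 36 * (G ^ 2 * ε) ≤ 1 := by nlinarith [mul_nonneg (sq_nonneg G) ε0]
    nlinarith
  have e3 : G * β ≤ G ^ 3 * β := by
    have : G ≤ G ^ 3 := by nlinarith
    gcongr
  have e4 : 44 * (G ^ 3 * β) ≤ G ^ 4 * β := by
    have : 0 ≤ G ^ 3 * β := by positivity
    nlinarith
  rw [hc] at a9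
  linarith

end Pool.Agent.P.MP_d0f69c_mp
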