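import Mathlib

set_option autoImplicit false

namespace Pool.Agent.P.MP_d0f69c_mp

lemma ev_exp {a : ℝ} (ha : 0 < a) (C : ℝ) :
    ∃ n0 : ℝ, 1 ≤ n0 ∧ ∀ n, n0 ≤ n → C * n ^ 2 ≤ Real.exp (a * n) := by
  refine ⟨max 1 (6 * C / a ^ 3), le_max_left _ _, fun n hn => ?_⟩
  have h1 : 1 ≤ n := (le_max_left _ _).trans hn
  have h2 : 6 * C / a ^ 3 ≤ n := (le_max_right _ _).trans hn
  have h3 := Real.pow_div_factorial_le_exp (a * n) (by positivity) 3
  rw [div_le_iff₀ (by positivity)] at h2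
  refine le_trans ?_ h3
  rw [show ((Nat.factorial 3 : ℕ) : ℝ) = 6 by norm_num [Nat.factorial], le_div_iff₀ (by norm_num)]
  nlinarith [mul_le_mul_of_nonneg_right h2 (sq_nonneg n)]

theorem params {d : ℕ} (hd : 1 ≤ d) : ∃ c : ℝ, 0 < c ∧ ∃ δ0 : ℝ, 0 < δ0 ∧ ∀ δ : ℝ, 0 < δ → δ < δ0 →
    ∃ (r L : ℕ) (θ : ℝ), 1 ≤ r ∧ 1 ≤ L ∧ 0 < θ ∧ δ ≤ 1 / (64 * d * r ^ 2) ∧
      5 * ((57 * L : ℝ) ^ d) ^ 5 * θ ≤ 1 ∧
      32 * d * r ^ 2 * ((57 * L : ℝ) ^ d *
        (2 * d * Real.exp (-(1 / (256 * d ^ 2 * r ^ 2)) * (L - 1)))) ≤ θ ^ 8 ∧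
      32 * d * r ^ 2 ≤ θ⁻¹ ^ 4 ∧
      (57 * L : ℝ) ^ d * Real.exp (-(r : ℝ) ^ d / 8) ≤ 1 / (4 * ((57 * L : ℝ) ^ d) ^ 4) ∧
      256 * (2 * d + 1) * ((57 * L : ℝ) ^ d) ^ 9 * θ
        ≤ Real.exp (-Real.exp (c * δ ^ (-(d / 2 : ℝ)))) := by
  have d1 : (1 : ℝ) ≤ d := by exact_mod_cast hd
  set a : ℝ := 1 / (160 * d) with ha
  have a0 : 0 < a := by positivity
  have a1 : a ≤ 1 / 16 := by
    rw [ha]
    exact one_div_le_one_div_of_le (by norm_num) (by linarith)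
  set G : ℝ := (114 : ℝ) ^ d with hG
  have G1 : 1 ≤ G := one_le_pow₀ (by norm_num)
  set C : ℝ := 16384 * (2 * d + 1) * d ^ 2 * G ^ 9 with hC
  obtain ⟨n0, n1, hn0⟩ := ev_exp a0 C
  refine ⟨a * (256 * d : ℝ) ^ (-(d / 2 : ℝ)), by positivity, 1 / (256 * d * n0 ^ 2), by positivity,
    fun δ δ0 δ1 => ?_⟩
  set x : ℝ := 1 / Real.sqrt (64 * d * δ) with hx
  have sq0 : 0 < Real.sqrt (64 * d * δ) := Real.sqrt_pos.2 (by positivity)
  have x0 : 0 < x := by positivity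
  have x2 : x ^ 2 * (64 * d * δ) = 1 := by
    rw [hx, div_pow, Real.sq_sqrt (by positivity)]
    field_simp
  have xn : 2 * n0 ≤ x := by
    rw [lt_div_iff₀ (by positivity)] at δ1
    apply abs_le_of_sq_le_sq' _ x0.le |>.2
    apply le_of_mul_le_mul_right _ (by positivity : 0 < 64 * d * δ)
    nlinarith
  set r : ℕ := ⌊x⌋₊ with hr
  have rx : (r : ℝ) ≤ x := Nat.floor_le x0.le
  have rx2 : x / 2 ≤ r := by
    have := Nat.lt_floor_add_one x
    linarith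
  have r1 : (1 : ℝ) ≤ r := by linarith
  set n : ℝ := (r : ℝ) ^ d with hn
  have rn : (r : ℝ) ≤ n := by simpa using pow_le_pow_right₀ r1 hd
  have nn : n0 ≤ n := by linarith
  have n1' : 1 ≤ n := by linarith
  have key := hn0 n nn
  set e : ℝ := Real.exp (a * n) with he
  have G9 : 1 ≤ G ^ 9 := one_le_pow₀ G1
  have d2 : 1 ≤ (d : ℝ) ^ 2 := one_le_pow₀ d1
  have n2 : 1 ≤ n ^ 2 := one_le_pow₀ n1'
  have r2 : (r : ℝ) ^ 2 ≤ n ^ 2 := pow_le_pow_left₀ (by linarith) rn 2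
  have k1 : 16384 * d ^ 2 * n ^ 2 ≤ e := by
    refine le_trans ?_ key
    rw [hC]
    have : (16384 : ℝ) * d ^ 2 * n ^ 2 * (1 * 1) ≤ 16384 * d ^ 2 * n ^ 2 * ((2 * d + 1) * G ^ 9) := by
      gcongr
      linarith
    linarith
  have k2 : 2 * n ≤ e := by nlinarith
  have e2 : 2 ≤ e := by linarith
  set L : ℕ := ⌈e ^ 2⌉₊ with hL
  have L1 : e ^ 2 ≤ L := Nat.le_ceil _
  have L2 : (L : ℝ) ≤ 2 * e ^ 2 := by
    have := Nat.ceil_lt_add_one (by positivity : 0 ≤ e ^ 2)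
    nlinarith
  have L3 : (1 : ℝ) ≤ L := by nlinarith
  set v : ℝ := (57 * L : ℝ) ^ d with hv
  have v1 : 1 ≤ v := one_le_pow₀ (by linarith)
  have vG : v ≤ G * Real.exp (n / 80) := by
    have : Real.exp (n / 80) = (e ^ 2) ^ d := by
      rw [he, ← Real.exp_nat_mul, ← Real.exp_nat_mul, ha]
      congr 1
      push_cast
      field_simp
      norm_num
    rw [this, hG, ← mul_pow]
    exact pow_le_pow_left₀ (by positivity) (by linarith) d
  set s : ℝ := 1 / (256 * d ^ 2 * r ^ 2) with hs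
  set Y : ℝ := s * (L - 1) / 16 with hY
  have Ye : 2 * e ≤ Y := by
    rw [hY, hs, le_div_iff₀ (by norm_num), div_mul_eq_mul_div, le_div_iff₀ (by positivity)]
    have : (d : ℝ) ^ 2 * r ^ 2 ≤ d ^ 2 * n ^ 2 := by gcongr
    nlinarith
  have en : e ≤ Real.exp (n / 16) := Real.exp_le_exp.2 (by nlinarith)
  have Q : 256 * (2 * d + 1) * d ^ 2 * r ^ 2 * v ^ 9 ≤ Real.exp e := by
    have b1 : v ^ 9 ≤ G ^ 9 * Real.exp n := by
      refine (pow_le_pow_left₀ (by linarith) vG 9).trans ?_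
      rw [mul_pow, ← Real.exp_nat_mul]
      gcongr
      push_cast
      linarith
    have b2 : e ≤ Real.exp n := en.trans (Real.exp_le_exp.2 (by linarith))
    calc 256 * (2 * d + 1) * d ^ 2 * r ^ 2 * v ^ 9
        ≤ 16384 * (2 * d + 1) * d ^ 2 * n ^ 2 * (G ^ 9 * Real.exp n) := by gcongr; norm_num
      _ = C * n ^ 2 * Real.exp n := by rw [hC]; ring
      _ ≤ Real.exp n * Real.exp n := by gcongr; exact key.trans b2
      _ = Real.exp (2 * n) := by rw [← Real.exp_add]; ring_nf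
      _ ≤ _ := Real.exp_le_exp.2 k2
  have dr : 1 ≤ (d : ℝ) ^ 2 * r ^ 2 := one_le_mul_of_one_le_of_one_le d2 (one_le_pow₀ r1)
  have v9 : ∀ j, j ≤ 9 → v ^ j ≤ v ^ 9 := fun j hj => pow_le_pow_right₀ v1 hj
  have eY : Real.exp e ≤ Real.exp Y := Real.exp_le_exp.2 (by linarith)
  have Y0 : 0 ≤ Y := by linarith
  refine ⟨r, L, Real.exp (-Y), by exact_mod_cast r1, by exact_mod_cast L3, Real.exp_pos _,
    ?_, ?_, ?_, ?_, ?_, ?_⟩
  · rw [le_div_iff₀ (by positivity)]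
    have : (r : ℝ) ^ 2 ≤ x ^ 2 := pow_le_pow_left₀ (by linarith) rx 2
    nlinarith [mul_le_mul_of_nonneg_right this (by positivity : 0 ≤ 64 * d * δ)]
  · rw [Real.exp_neg, ← div_eq_mul_inv, div_le_one (Real.exp_pos _)]
    refine le_trans ?_ (Q.trans eY)
    have := v9 5 (by norm_num)
    have : 5 * v ^ 9 * 1 ≤ 256 * (2 * d + 1) * v ^ 9 * (d ^ 2 * r ^ 2) := by
      gcongr
      linarith
    linarith
  · have e1 : Real.exp (-s * (L - 1)) = Real.exp (-Y) ^ 8 * Real.exp (-(8 * Y)) := by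
      rw [← Real.exp_nat_mul, ← Real.exp_add, hY]
      congr 1
      push_cast
      ring
    rw [e1]
    have b1 : 64 * d ^ 2 * r ^ 2 * v * Real.exp (-(8 * Y)) ≤ 1 := by
      rw [Real.exp_neg, ← div_eq_mul_inv, div_le_one (Real.exp_pos _)]
      refine le_trans ?_ (Q.trans (Real.exp_le_exp.2 (by linarith)))
      have := v9 1 (by norm_num)
      rw [pow_one] at this
      gcongr
      linarith
    have b2 : 0 ≤ Real.exp (-Y) ^ 8 := by positivity
    nlinarith [mul_le_mul_of_nonneg_left b1 b2]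
  · rw [← Real.exp_neg, neg_neg, ← Real.exp_nat_mul]
    refine le_trans ?_ (Q.trans (Real.exp_le_exp.2 (by push_cast; linarith)))
    have := v9 0 (by norm_num)
    rw [pow_zero] at this
    have b1 : (d : ℝ) ≤ d ^ 2 := by nlinarith
    calc 32 * d * (r : ℝ) ^ 2 = 32 * d * r ^ 2 * 1 := (mul_one _).symm
      _ ≤ _ := by gcongr; linarith
  · rw [le_div_iff₀ (by positivity)]
    have b1 : v ^ 5 ≤ G ^ 5 * Real.exp (n / 16) := by
      refine (pow_le_pow_left₀ (by linarith) vG 5).trans ?_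
      rw [mul_pow, ← Real.exp_nat_mul]
      gcongr
      push_cast
      linarith
    have b2 : 4 * G ^ 5 ≤ Real.exp (n / 16) := by
      refine le_trans ?_ (key.trans en)
      have : G ^ 5 ≤ G ^ 9 := pow_le_pow_right₀ G1 (by norm_num)
      have : 4 * 1 * 1 * G ^ 9 * 1 ≤ 16384 * (2 * d + 1) * d ^ 2 * G ^ 9 * n ^ 2 := by
        gcongr
        · norm_num
        · linarith
      linarith
    have b3 : Real.exp (n / 16) * Real.exp (n / 16) * Real.exp (-n / 8) = 1 := by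
      rw [← Real.exp_add, ← Real.exp_add, ← Real.exp_zero]
      congr 1
      ring
    calc v * Real.exp (-n / 8) * (4 * v ^ 4) = 4 * v ^ 5 * Real.exp (-n / 8) := by ring
      _ ≤ 4 * (G ^ 5 * Real.exp (n / 16)) * Real.exp (-n / 8) := by gcongr
      _ = 4 * G ^ 5 * Real.exp (n / 16) * Real.exp (-n / 8) := by ring
      _ ≤ Real.exp (n / 16) * Real.exp (n / 16) * Real.exp (-n / 8) := by gcongr
      _ = 1 := b3
  · have b1 : 256 * (2 * d + 1) * v ^ 9 ≤ Real.exp e := by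
      refine le_trans ?_ Q
      have : 256 * (2 * d + 1) * v ^ 9 * 1 ≤ 256 * (2 * d + 1) * v ^ 9 * (d ^ 2 * r ^ 2) := by gcongr
      linarith
    have b2 : (256 * d : ℝ) ^ (-(d / 2 : ℝ)) * δ ^ (-(d / 2 : ℝ)) ≤ n := by
      rw [← Real.mul_rpow (by positivity) δ0.le]
      have : (256 * d * δ : ℝ) = ((x / 2) ^ (2 : ℝ))⁻¹ := by
        rw [Real.rpow_two]
        field_simp
        linarith
      rw [this, Real.inv_rpow (by positivity), ← Real.rpow_neg (by positivity), neg_neg,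
        ← Real.rpow_mul (by positivity), show (2 : ℝ) * (d / 2) = d by ring, Real.rpow_natCast]
      exact pow_le_pow_left₀ (by positivity) rx2 d
    have b3 : Real.exp (a * (256 * d : ℝ) ^ (-(d / 2 : ℝ)) * δ ^ (-(d / 2 : ℝ))) ≤ e := by
      apply Real.exp_le_exp.2
      rw [mul_assoc]
      gcongr
    calc _ ≤ Real.exp e * Real.exp (-Y) := by gcongr
      _ = Real.exp (e - Y) := by rw [← Real.exp_add, sub_eq_add_neg]
      _ ≤ _ := Real.exp_le_exp.2 (by linarith)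

end Pool.Agent.P.MP_d0f69c_mp
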