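import Mathlib

set_option autoImplicit false

open MeasureTheory Filter Topology

namespace Pool.Agent.P.MP_d0f69c_mp

variable {X : Type} [NormedAddCommGroup X] [InnerProductSpace ℂ X] [CompleteSpace X]
  {H : X →L[ℂ] X}

/-- the resolvent -/
noncomputable def GG (H : X →L[ℂ] X) (z : ℂ) : X →L[ℂ] X := Ring.inverse (H - z • (1 : X →L[ℂ] X))

lemma unit_sub (hH : IsSelfAdjoint H) {z : ℂ} (hz : z.im ≠ 0) :
    IsUnit (H - z • (1 : X →L[ℂ] X)) := by
  have h : z ∉ spectrum ℂ H := fun h => hz (hH.im_eq_zero_of_mem_spectrum h)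
  rw [spectrum.notMem_iff, Algebra.algebraMap_eq_smul_one] at h
  simpa using h.neg

lemma GG_eq (hH : IsSelfAdjoint H) {z : ℂ} (hz : z.im ≠ 0) (ψ : X) :
    H (GG H z ψ) - z • GG H z ψ = ψ := by
  have := congrArg (fun A : X →L[ℂ] X => A ψ) (Ring.mul_inverse_cancel _ (unit_sub hH hz))
  simpa [GG] using this

lemma im_GG (hH : IsSelfAdjoint H) {z : ℂ} (hz : z.im ≠ 0) (ψ : X) :
    (inner ℂ ψ (GG H z ψ)).im = z.im * ‖GG H z ψ‖ ^ 2 := by
  set w := GG H z ψ with hw
  have e : ψ = H w - z • w := (GG_eq hH hz ψ).symm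
  have s := (ContinuousLinearMap.isSelfAdjoint_iff_isSymmetric.1 hH).im_inner_apply_self w
  conv_lhs => rw [e, inner_sub_left, inner_smul_left, inner_self_eq_norm_sq_to_K]
  simp only [RCLike.im_to_complex, ContinuousLinearMap.coe_coe] at s
  simp [s, pow_two]

lemma norm_GG_im (hH : IsSelfAdjoint H) {z : ℂ} (hz : 0 < z.im) (ψ : X) :
    z.im * ‖GG H z ψ‖ ≤ ‖ψ‖ := by
  have h1 := im_GG hH hz.ne' ψ
  have h2 : (inner ℂ ψ (GG H z ψ)).im ≤ ‖ψ‖ * ‖GG H z ψ‖ :=
    (Complex.im_le_norm _).trans (norm_inner_le_norm _ _)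
  rcases eq_or_lt_of_le (norm_nonneg (GG H z ψ)) with h | h
  · rw [← h, mul_zero]
    exact norm_nonneg _
  · apply le_of_mul_le_mul_right _ h
    nlinarith

lemma norm_GG_far (hH : IsSelfAdjoint H) {z : ℂ} (hz : z.im ≠ 0) (ψ : X) :
    (‖z‖ - ‖H‖) * ‖GG H z ψ‖ ≤ ‖ψ‖ := by
  have h1 := norm_sub_norm_le (z • GG H z ψ) (H (GG H z ψ))
  rw [norm_sub_rev, GG_eq hH hz, norm_smul] at h1
  have h2 := H.le_opNorm (GG H z ψ)
  linarith

lemma diff_GG (hH : IsSelfAdjoint H) {z : ℂ} (hz : z.im ≠ 0) (χ : X) :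
    DifferentiableAt ℂ (fun z => inner ℂ χ (GG H z χ)) z := by
  have h1 : DifferentiableAt ℂ (fun z : ℂ => H - z • (1 : X →L[ℂ] X)) z := by fun_prop
  have h2 : DifferentiableAt ℂ (GG H) z :=
    (differentiableAt_inverse (𝕜 := ℂ) (unit_sub hH hz)).comp z h1
  have h3 : DifferentiableAt ℂ (fun z => GG H z χ) z := h2.clm_apply (differentiableAt_const χ)
  exact (innerSL ℂ χ).differentiableAt.comp z h3

/-- imaginary part of the Borel transform -/
noncomputable def ss (H : X →L[ℂ] X) (χ : X) (ε E : ℝ) : ℝ :=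
  ε * ‖GG H (E + ε * Complex.I) χ‖ ^ 2

lemma ss_eq (hH : IsSelfAdjoint H) (χ : X) {ε : ℝ} (hε : 0 < ε) (E : ℝ) :
    ss H χ ε E = (inner ℂ χ (GG H (E + ε * Complex.I) χ)).im := by
  rw [im_GG hH (by simpa using hε.ne')]
  simp [ss]

lemma cont_F (hH : IsSelfAdjoint H) (χ : X) {ε : ℝ} (hε : 0 < ε) :
    Continuous fun E : ℝ => inner ℂ χ (GG H (E + ε * Complex.I) χ) := by
  rw [continuous_iff_continuousAt]
  intro E
  exact ContinuousAt.comp (f := fun E : ℝ => (E + ε * Complex.I : ℂ))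
    (diff_GG hH (by simpa using hε.ne') χ).continuousAt (by fun_prop)

lemma cont_ss (hH : IsSelfAdjoint H) (χ : X) {ε : ℝ} (hε : 0 < ε) : Continuous (ss H χ ε) := by
  have : ss H χ ε = fun E : ℝ => (inner ℂ χ (GG H (E + ε * Complex.I) χ)).im :=
    funext (ss_eq hH χ hε)
  rw [this]
  exact Complex.continuous_im.comp (cont_F hH χ hε)

lemma int_ss (hH : IsSelfAdjoint H) (χ : X) {ε R : ℝ} (hε : 0 < ε) (hR : ε ≤ R)
    (hR2 : 2 * ‖H‖ ≤ R) : ∫ E in (-R)..R, ss H χ ε E ≤ 6 * ‖χ‖ ^ 2 := by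
  have R0 : 0 < R := hε.trans_le hR
  set F : ℂ → ℂ := fun z => inner ℂ χ (GG H z χ) with hF
  have h := Complex.integral_boundary_rect_eq_zero_of_differentiableOn F ⟨-R, ε⟩ ⟨R, R⟩ (by
    intro z hz
    have := hz.2
    simp only [Set.mem_preimage, Set.uIcc_of_le hR] at this
    exact (diff_GG hH (hε.trans_le this.1).ne' χ).differentiableWithinAt)
  simp only at h
  have b1 : ‖∫ x : ℝ in (-R)..R, F (x + R * Complex.I)‖ ≤ ‖χ‖ ^ 2 / R * |R - -R| := by
    apply intervalIntegral.norm_integral_le_of_norm_le_const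
    intro x _
    have := norm_GG_im hH (z := x + R * Complex.I) (by simpa using R0) χ
    simp only [Complex.add_im, Complex.ofReal_im, Complex.mul_im, Complex.ofReal_re, Complex.I_im,
      mul_one, Complex.I_re, mul_zero, add_zero, zero_add] at this
    refine (norm_inner_le_norm _ _).trans ?_
    rw [le_div_iff₀ R0]
    nlinarith [norm_nonneg χ]
  have b2 : ∀ a : ℝ, |a| = R →
      ‖∫ y : ℝ in ε..R, F (a + y * Complex.I)‖ ≤ 2 * ‖χ‖ ^ 2 / R * |R - ε| := by
    intro a ha
    apply intervalIntegral.norm_integral_le_of_norm_le_const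
    intro y hy
    rw [Set.uIoc_of_le hR] at hy
    have := norm_GG_far hH (z := a + y * Complex.I) (by simpa using (hε.trans hy.1).ne') χ
    have h2 : R ≤ ‖(a + y * Complex.I : ℂ)‖ := by
      refine le_trans ?_ (Complex.abs_re_le_norm _)
      simp [ha]
    refine (norm_inner_le_norm _ _).trans ?_
    rw [le_div_iff₀ R0]
    have h3 : R / 2 * ‖GG H (a + y * Complex.I) χ‖ ≤ ‖χ‖ :=
      le_trans (mul_le_mul_of_nonneg_right (by linarith) (norm_nonneg _)) this
    nlinarith [norm_nonneg χ]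
  have c1 : ‖χ‖ ^ 2 / R * |R - -R| = 2 * ‖χ‖ ^ 2 := by
    rw [abs_of_pos (by linarith)]
    field_simp
    ring
  have c2 : 2 * ‖χ‖ ^ 2 / R * |R - ε| ≤ 2 * ‖χ‖ ^ 2 := by
    rw [abs_of_nonneg (by linarith), div_mul_eq_mul_div, div_le_iff₀ R0]
    nlinarith [sq_nonneg ‖χ‖]
  have e : ∫ x : ℝ in (-R)..R, F (x + ε * Complex.I) = (∫ x : ℝ in (-R)..R, F (x + R * Complex.I))
      - Complex.I • (∫ y : ℝ in ε..R, F (R + y * Complex.I))
      + Complex.I • ∫ y : ℝ in ε..R, F ((-R : ℝ) + y * Complex.I) := by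
    linear_combination h
  have b3 : ‖∫ x : ℝ in (-R)..R, F (x + ε * Complex.I)‖ ≤ 6 * ‖χ‖ ^ 2 := by
    rw [e]
    refine (norm_add_le _ _).trans ((add_le_add (norm_sub_le _ _) le_rfl).trans ?_)
    rw [norm_smul, norm_smul, Complex.norm_I, one_mul, one_mul]
    have := b2 R (abs_of_pos R0)
    have := b2 (-R) (by rw [abs_neg, abs_of_pos R0])
    linarith
  have e2 : ∫ E in (-R)..R, ss H χ ε E = (∫ x : ℝ in (-R)..R, F (x + ε * Complex.I)).im := by
    have := Complex.imCLM.intervalIntegral_comp_comm (μ := volume)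
      ((cont_F hH χ hε).intervalIntegrable (-R) R)
    simp only [Complex.imCLM_apply] at this
    rw [← this]
    exact intervalIntegral.integral_congr fun E _ => ss_eq hH χ hε E
  rw [e2]
  exact (Complex.im_le_norm _).trans b3

lemma poisson (μ : Measure ℝ) [IsFiniteMeasure μ] {ε : ℝ} (hε : 0 < ε) (E : ℝ) :
    μ (Metric.closedBall E ε) / volume (Metric.closedBall E ε)
      ≤ ENNReal.ofReal (∫ x : ℝ, ((x : ℂ) - (E + ε * Complex.I))⁻¹ ∂μ).im := by
  have hne : ∀ x : ℝ, ε ≤ ‖(x : ℂ) - (E + ε * Complex.I)‖ := by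
    intro x
    refine le_trans ?_ (Complex.abs_im_le_norm _)
    simp [abs_of_pos hε]
  have hi : Integrable (fun x : ℝ => ((x : ℂ) - (E + ε * Complex.I))⁻¹) μ := by
    refine Integrable.of_bound (C := ε⁻¹) (Measurable.aestronglyMeasurable (by fun_prop))
      (ae_of_all _ fun x => ?_)
    rw [norm_inv]
    exact inv_anti₀ hε (hne x)
  have e := integral_im hi
  simp only [RCLike.im_to_complex] at e
  rw [← e, Real.volume_closedBall, ← ofReal_measureReal (measure_ne_top μ _),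
    ← ENNReal.ofReal_div_of_pos (by positivity)]
  apply ENNReal.ofReal_le_ofReal
  have e2 : μ.real (Metric.closedBall E ε) / (2 * ε)
      = ∫ x, (Metric.closedBall E ε).indicator (fun _ => (2 * ε)⁻¹) x ∂μ := by
    rw [integral_indicator_const _ measurableSet_closedBall, smul_eq_mul, div_eq_mul_inv]
  rw [e2]
  refine integral_mono ((integrable_const _).indicator measurableSet_closedBall) hi.im fun x => ?_
  have e3 : (((x : ℂ) - (E + ε * Complex.I))⁻¹).im = ε / ((x - E) ^ 2 + ε ^ 2) := by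
    rw [Complex.inv_im, Complex.normSq_apply]
    simp
    ring
  simp only [e3]
  by_cases hx : x ∈ Metric.closedBall E ε
  · rw [Set.indicator_of_mem hx]
    rw [Metric.mem_closedBall, Real.dist_eq] at hx
    have : (x - E) ^ 2 ≤ ε ^ 2 := by
      rw [← sq_abs]
      exact pow_le_pow_left₀ (abs_nonneg _) hx 2
    rw [inv_eq_one_div, div_le_div_iff₀ (by positivity) (by positivity)]
    nlinarith
  · rw [Set.indicator_of_notMem hx]
    positivity

theorem singular (hH : IsSelfAdjoint H) (ψ : X) (μ : Measure ℝ) [IsFiniteMeasure μ]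
    (hμ : ∀ z : ℂ, z.im ≠ 0 → ∫ x : ℝ, ((x : ℂ) - z)⁻¹ ∂μ = inner ℂ ψ (GG H z ψ))
    {A : Set ℝ} (hA : MeasurableSet A) {ε : ℕ → ℝ} (hε : ∀ k, 0 < ε k) (hε1 : ∀ k, ε k ≤ 1)
    (hε0 : Tendsto ε atTop (𝓝 0))
    (h : ∀ η : ℝ, 0 < η → ∃ φ : X, ‖ψ - φ‖ ≤ η ∧
      ∀ᵐ E : ℝ, E ∈ A → Tendsto (fun k => ss H φ (ε k) E) atTop (𝓝 0)) :
    μ.restrict A ⟂ₘ volume := by
  have key : ∀ n : ℕ, ∀ᵐ E : ℝ, E ∈ A ∩ Set.Ioc (-(2 * ‖H‖ + 1 + n)) (2 * ‖H‖ + 1 + n) →
      μ.rnDeriv volume E = 0 := by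
    intro n
    set R : ℝ := 2 * ‖H‖ + 1 + n with hR
    have n0 : (0 : ℝ) ≤ n := Nat.cast_nonneg n
    have H0 := norm_nonneg H
    rw [← ae_restrict_iff' (hA.inter measurableSet_Ioc)]
    refine (lintegral_eq_zero_iff (Measure.measurable_rnDeriv _ _)).1 ?_
    refine le_antisymm (ENNReal.le_of_forall_pos_le_add fun η hη _ => ?_) bot_le
    rw [zero_add]
    have η0 : (0 : ℝ) < η := hη
    obtain ⟨φ, h1, h2⟩ := h (Real.sqrt (η / 12)) (by positivity)
    set χ := ψ - φ with hχ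
    have h3 : 12 * ‖χ‖ ^ 2 ≤ η := by
      have := pow_le_pow_left₀ (norm_nonneg _) h1 2
      rw [Real.sq_sqrt (by positivity)] at this
      linarith
    have a1 : ∀ᵐ E ∂(volume.restrict (A ∩ Set.Ioc (-R) R)), μ.rnDeriv volume E ≤
        liminf (fun k => ENNReal.ofReal (2 * ss H χ (ε k) E)) atTop := by
      rw [ae_restrict_iff' (hA.inter measurableSet_Ioc)]
      filter_upwards [h2, Besicovitch.ae_tendsto_rnDeriv μ volume] with E e1 e2 hE
      have t1 : Tendsto ε atTop (𝓝[>] 0) :=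
        tendsto_nhdsWithin_iff.2 ⟨hε0, Eventually.of_forall hε⟩
      have t2 : Tendsto (fun k => ENNReal.ofReal (2 * ss H φ (ε k) E)) atTop (𝓝 0) := by
        have := ENNReal.tendsto_ofReal ((e1 hE.1).const_mul 2)
        simpa using this
      rw [← (e2.comp t1).liminf_eq, ← ENNReal.liminf_add_of_left_tendsto_zero t2
        (fun k => ENNReal.ofReal (2 * ss H χ (ε k) E))]
      refine liminf_le_liminf (Eventually.of_forall fun k => ?_)
      refine (poisson μ (hε k) E).trans ?_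
      rw [hμ _ (by simpa using (hε k).ne'), ← ss_eq hH ψ (hε k)]
      refine le_trans (ENNReal.ofReal_le_ofReal ?_) ENNReal.ofReal_add_le
      have : ψ = φ + χ := by rw [hχ]; abel
      simp only [ss]
      conv_lhs => rw [this, map_add]
      have b1 := pow_le_pow_left₀ (norm_nonneg _) (norm_add_le (GG H (E + ε k * Complex.I) φ)
        (GG H (E + ε k * Complex.I) χ)) 2
      nlinarith [hε k, mul_nonneg (hε k).le (sq_nonneg (‖GG H (E + ε k * Complex.I) φ‖ -
        ‖GG H (E + ε k * Complex.I) χ‖))]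
    refine (lintegral_mono_ae a1).trans ?_
    refine (lintegral_mono_set Set.inter_subset_right).trans ?_
    refine (lintegral_liminf_le fun k =>
      ((cont_ss hH χ (hε k)).const_mul 2).measurable.ennreal_ofReal).trans ?_
    refine liminf_le_of_frequently_le' (Frequently.of_forall fun k => ?_)
    have c := (cont_ss hH χ (hε k)).const_mul 2
    rw [← ofReal_integral_eq_lintegral_ofReal (c.integrableOn_Icc.mono_set Set.Ioc_subset_Icc_self)
      (ae_of_all _ fun E => by have := hε k; simp only [ss, Pi.zero_apply]; positivity),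
      ← intervalIntegral.integral_of_le (by linarith), intervalIntegral.integral_const_mul,
      ← ENNReal.ofReal_coe_nnreal]
    apply ENNReal.ofReal_le_ofReal
    have := int_ss hH χ (hε k) (R := R) (by linarith [hε1 k]) (by linarith)
    linarith
  have z : μ.rnDeriv volume =ᵐ[volume.restrict A] 0 := by
    rw [Filter.EventuallyEq, ae_restrict_iff' hA]
    filter_upwards [ae_all_iff.2 key] with E hE hEA
    obtain ⟨n, hn⟩ := exists_nat_ge |E|
    have := abs_le.1 hn
    have H0 := norm_nonneg H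
    exact hE n ⟨hEA, by constructor <;> linarith [this.1, this.2]⟩
  rw [Measure.haveLebesgueDecomposition_add μ volume, Measure.restrict_add,
    restrict_withDensity hA, withDensity_congr_ae z, withDensity_zero, add_zero]
  exact (Measure.mutuallySingular_singularPart μ volume).mono Measure.restrict_le_self le_rfl

end Pool.Agent.P.MP_d0f69c_mp
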