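import Pool.Agent.P.MP_d0f69c_mp.Init
import Pool.Agent.P.MP_d0f69c_mp.Spectral
import Pool.Agent.P.MP_d0f69c_mp.Params

set_option autoImplicit false

open Finset MeasureTheory Filter Topology

namespace Pool.Agent.P.MP_d0f69c_mp

variable {d : ℕ}

/-- the Hilbert space -/
noncomputable abbrev L2 (d : ℕ) := lp (fun _ : Fin d → ℤ => ℂ) 2

/-- `H` is the Anderson operator with potential `ω` -/
def IsOp (ω : Zd d → Bool) (H : L2 d →L[ℂ] L2 d) : Prop :=
  ∀ (u : L2 d) (j : Zd d), (H u) j = -(∑ i : Fin d,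
    ((u (j + ee i) - u j) + (u (j - ee i) - u j))) + (if ω j then (1 : ℂ) else -1) * u j

lemma IsOp.sa {ω : Zd d → Bool} {H : L2 d →L[ℂ] L2 d} (h : IsOp ω H) : IsSelfAdjoint H := by
  rw [ContinuousLinearMap.isSelfAdjoint_iff']
  refine lp.ext_continuousLinearMap (ENNReal.ofNat_ne_top (n := nat_lit 2)) fun x => ?_
  ext y
  simp only [ContinuousLinearMap.comp_apply, lp.singleContinuousLinearMap_apply]
  have e : (ContinuousLinearMap.adjoint H (lp.single 2 x 1)) y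
      = inner ℂ (lp.single 2 y (1 : ℂ) : L2 d) (ContinuousLinearMap.adjoint H (lp.single 2 x 1)) := by
    rw [lp.inner_single_left]
    simp
  rw [e, ContinuousLinearMap.adjoint_inner_right, lp.inner_single_right, h, h]
  simp only [lp.single_apply, Pi.single_apply, RCLike.inner_apply, one_mul, map_add, map_neg,
    map_sum, map_sub, map_mul, apply_ite (starRingEnd ℂ), map_one, map_zero]
  have e1 : ∀ i, (x + ee i = y) = (y - ee i = x) := fun i => by
    rw [sub_eq_iff_eq_add, eq_comm (a := y)]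
  have e2 : ∀ i, (x - ee i = y) = (y + ee i = x) := fun i => by
    rw [sub_eq_iff_eq_add, eq_comm (a := x)]
  simp only [e1, e2, eq_comm (a := x) (b := y)]
  congr 1
  · congr 1
    exact Finset.sum_congr rfl fun i _ => add_comm _ _
  · by_cases hxy : y = x
    · simp [hxy]
    · simp [hxy]

lemma ss_le {ω : Zd d → Bool} {H : L2 d →L[ℂ] L2 d} (h : IsOp ω H) {E θ v : ℝ} {L : ℕ} {x : Zd d}
    (hθ : 0 < θ) (hv : ((box d (L + 1)).card : ℝ) ≤ v) (hvθ : v * θ ≤ 1)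
    (hg : Good (sh x ω) E L θ) : ss H (lp.single 2 x 1) (θ ^ 12) E ≤ 4 * θ ^ 2 := by
  have ε0 : 0 < θ ^ 12 := by positivity
  set ε := θ ^ 12 with hε
  set w := GG H (E + ε * Complex.I) (lp.single 2 x 1) with hw
  have e1 := GG_eq h.sa (z := E + ε * Complex.I) (by simpa using ε0.ne') (lp.single 2 x 1)
  rw [← hw] at e1
  have e2 : ∀ y, TT ω E (fun y => (w y).im) y = ε * (w y).re := by
    intro y
    have a := congrArg (fun f : L2 d => (f y).im) e1
    simp only [lp.coeFn_sub, lp.coeFn_smul, Pi.sub_apply, Pi.smul_apply, h w y, lp.single_apply,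
      Pi.single_apply, smul_eq_mul, Complex.sub_im, Complex.add_im, Complex.neg_im, Complex.im_sum,
      Complex.mul_im, apply_ite Complex.im, apply_ite Complex.re, Complex.one_im, Complex.zero_im,
      Complex.one_re, Complex.neg_re, ite_self, neg_zero, Complex.add_re, Complex.ofReal_re,
      Complex.ofReal_im, Complex.mul_re, Complex.I_re, Complex.I_im, Finset.sum_add_distrib,
      Finset.sum_sub_distrib, Finset.sum_const, Finset.card_univ, Fintype.card_fin,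
      nsmul_eq_mul, Complex.natCast_re, Complex.natCast_im] at a
    simp only [TT, adj, pot, Finset.sum_add_distrib]
    linarith
  have n1 : ∀ y, ‖w y‖ ≤ ‖w‖ := fun y => lp.norm_apply_le_norm two_ne_zero w y
  have e3 := Est.use hg (by positivity) (by positivity) (fun y => (w y).im) (a := ‖w‖)
    (F := ε * ‖w‖) (norm_nonneg _) (by positivity) hv
    (fun y _ => (Complex.abs_im_le_norm _).trans (n1 _)) (fun y _ => by
      rw [e2, abs_mul, abs_of_pos ε0]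
      exact mul_le_mul_of_nonneg_left ((Complex.abs_re_le_norm _).trans (n1 _)) ε0.le)
  have e4 : ε * ‖w‖ ^ 2 = (w x).im := by
    have := ss_eq h.sa (lp.single 2 x 1) ε0 E
    rw [lp.inner_single_left] at this
    simpa [ss] using this
  rw [add_zero] at e3
  have e5 : θ⁻¹ ^ 4 * (v * (ε * ‖w‖)) = θ ^ 8 * (v * ‖w‖) := by
    rw [hε]
    field_simp
  have e6 : θ ^ 8 * (v * ‖w‖) ≤ θ ^ 7 * ‖w‖ := by
    calc θ ^ 8 * (v * ‖w‖) = (v * θ) * (θ ^ 7 * ‖w‖) := by ring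
      _ ≤ 1 * (θ ^ 7 * ‖w‖) := by gcongr
      _ = _ := one_mul _
  have e7 : ε * ‖w‖ ^ 2 ≤ 2 * θ ^ 7 * ‖w‖ := by linarith [le_abs_self (w x).im]
  change ε * ‖w‖ ^ 2 ≤ _
  rw [hε] at e7 ⊢
  nlinarith [sq_nonneg (θ ^ 6 * ‖w‖ - 2 * θ)]

lemma scale {L0 : ℕ} (hL : 1 ≤ L0) {θ : ℝ} (hθ : 0 < θ)
    (h5 : 5 * (((57 * L0 : ℝ)) ^ d) ^ 5 * θ ≤ 1) (k : ℕ) :
    ((box d (28 ^ k * L0 + 1)).card : ℝ) * θ ^ 2 ^ k ≤ 1 ∧ θ ^ 2 ^ k ≤ (1 / 5) ^ (k + 1) := by
  set v0 : ℝ := (57 * L0 : ℝ) ^ d with hv0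
  set κ : ℝ := 28 ^ d with hκ
  have hL' : (1 : ℝ) ≤ L0 := by exact_mod_cast hL
  have κ1 : 1 ≤ κ := one_le_pow₀ (by norm_num)
  have κv : κ ≤ v0 := pow_le_pow_left₀ (by norm_num) (by linarith) d
  have v1 : 1 ≤ v0 := κ1.trans κv
  have v5 : 1 ≤ v0 ^ 5 := one_le_pow₀ v1
  have θ5 : θ ≤ 1 / 5 := by nlinarith
  have vθ : v0 * θ ≤ 1 := by
    have : v0 ≤ v0 ^ 5 := by simpa using pow_le_pow_right₀ v1 (by norm_num : 1 ≤ 5)
    nlinarith
  have tk : θ ^ 2 ^ k ≤ θ ^ (k + 1) :=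
    pow_le_pow_of_le_one hθ.le (by linarith) (Nat.lt_two_pow_self)
  refine ⟨?_, tk.trans (pow_le_pow_left₀ hθ.le θ5 _)⟩
  have κθ1 : κ * θ ≤ 1 := by nlinarith
  have a : (κ * θ) ^ k ≤ 1 := pow_le_one₀ (by positivity) κθ1
  have cv : ((box d (28 ^ k * L0 + 1)).card : ℝ) ≤ v0 * κ ^ k := by
    rw [card_box]
    have a : (1 : ℝ) ≤ 28 ^ k * L0 := one_le_mul_of_one_le_of_one_le (one_le_pow₀ (by norm_num)) hL'
    have : v0 * κ ^ k = (57 * (28 ^ k * L0 : ℝ)) ^ d := by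
      simp only [hv0, hκ, mul_pow, ← pow_mul, mul_comm d k]
      ring
    rw [this]
    push_cast
    exact pow_le_pow_left₀ (by positivity) (by linarith) d
  calc _ ≤ v0 * κ ^ k * θ ^ (k + 1) := by gcongr
    _ = (v0 * θ) * (κ * θ) ^ k := by ring
    _ ≤ 1 * 1 := by gcongr
    _ = 1 := one_mul _

lemma ae_good {A : Set ℝ} (hA : MeasurableSet A) {L : ℕ → ℕ} {t : ℕ → ℝ}
    (h : ∀ E ∈ A, ∀ k, (PP d).real {ω | ¬ Good ω E (L k) (t k)} ≤ (1 / 2) ^ (k + 2)) :
    ∀ᵐ ω ∂(PP d), ∀ᵐ E : ℝ, ∀ x : Zd d, E ∈ A → ∀ᶠ k in atTop, Good (sh x ω) E (L k) (t k) := by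
  simp only [ae_all_iff]
  intro x
  have m : ∀ k, MeasurableSet {p : (Zd d → Bool) × ℝ | Good (sh x p.1) p.2 (L k) (t k)} := fun k =>
    meas_prod (p := fun ω E => Good (sh x ω) E (L k) (t k))
      (fun E => (dep_Est E (L k) 0 _ _).shift x) (fun ω => (closed_Est _ _ _ _ _).measurableSet)
  rw [Measure.ae_ae_comm (p := fun ω E => E ∈ A → ∀ᶠ k in atTop, Good (sh x ω) E (L k) (t k))]
  · refine ae_of_all _ fun E => ?_
    by_cases hE : E ∈ A
    · have := ae_eventually_notMem (μ := PP d)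
        (s := fun k => {ω | ¬ Good (sh x ω) E (L k) (t k)}) (by
          refine ne_top_of_le_ne_top (b := ∑' k : ℕ, ENNReal.ofReal ((1 / 2) ^ k)) ?_
            (ENNReal.tsum_le_tsum fun k => ?_)
          · rw [← ENNReal.ofReal_tsum_of_nonneg (fun k => by positivity) summable_geometric_two]
            exact ENNReal.ofReal_ne_top
          · rw [← ofReal_measureReal (measure_ne_top _ _)]
            apply ENNReal.ofReal_le_ofReal
            refine (le_of_eq ((dep_Est E (L k) 0 _ _).not.real_sh x)).trans ((h E hE k).trans ?_)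
            exact pow_le_pow_of_le_one (by norm_num) (by norm_num) (by omega))
      filter_upwards [this] with ω hω _
      simpa using hω
    · exact ae_of_all _ fun ω h' => absurd h' hE
  · simp only [eventually_atTop]
    rw [measurableSet_setOfPred]
    refine Measurable.imp (measurableSet_setOfPred.1 (measurable_snd hA)) ?_
    exact Measurable.exists fun N => Measurable.forall fun k =>
      Measurable.imp measurable_const (measurableSet_setOfPred.1 (m k))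

theorem main (hd : 1 ≤ d) : ∃ c : ℝ, 0 < c ∧ ∃ δ0 : ℝ, 0 < δ0 ∧ ∀ δ : ℝ, 0 < δ → δ < δ0 →
    ∃ B : Set ℝ, MeasurableSet B ∧
      volume B ≤ ENNReal.ofReal (Real.exp (-Real.exp (c * δ ^ (-(d / 2 : ℝ))))) ∧
      ∀ᵐ ω ∂(PP d), ∀ H : L2 d →L[ℂ] L2 d, IsOp ω H → ∀ (ψ : L2 d) (μ : Measure ℝ),
        IsFiniteMeasure μ →
        (∀ z : ℂ, z.im ≠ 0 → ∫ x : ℝ, ((x : ℂ) - z)⁻¹ ∂μ = inner ℂ ψ (GG H z ψ)) →
        μ.restrict ({E | E ≤ -1 + δ ∨ 4 * d + 1 - δ ≤ E} \ B) ⟂ₘ volume := by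
  obtain ⟨c, c0, δ0, h0, hp⟩ := params hd
  refine ⟨c, c0, δ0, h0, fun δ δ1 δ2 => ?_⟩
  obtain ⟨r, L, θ, r1, L1, θ0, p1, p2, p3, p4, p5, p6⟩ := hp δ δ1 δ2
  obtain ⟨B, B1, B2, B3⟩ := msa (d := d) L1 θ0 p2
  refine ⟨B, B1, B2.trans (ENNReal.ofReal_le_ofReal p6), ?_⟩
  have hA : MeasurableSet ({E : ℝ | E ≤ -1 + δ ∨ 4 * d + 1 - δ ≤ E} \ B) :=
    (measurableSet_Iic.union measurableSet_Ici).diff B1
  have cv : ((box d L).card : ℝ) ≤ (57 * L : ℝ) ^ d := by
    rw [card_box]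
    have a : (1 : ℝ) ≤ L := by exact_mod_cast L1
    push_cast
    exact pow_le_pow_left₀ (by positivity) (by linarith) d
  filter_upwards [ae_good (d := d) hA (L := fun k => 28 ^ k * L) (t := fun k => θ ^ 2 ^ k)
    (fun E hE => B3 E hE.2 ((init hd r1 hE.1 p1 cv p3 p4).trans p5))] with ω hω H hH ψ μ hμ1 hμ2
  have t0 : Tendsto (fun k : ℕ => θ ^ 2 ^ k) atTop (𝓝 0) := by
    refine squeeze_zero (fun k => by positivity) (fun k => (scale L1 θ0 p2 k).2) ?_
    exact (tendsto_pow_atTop_nhds_zero_of_lt_one (by norm_num) (by norm_num)).comp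
      (tendsto_add_atTop_nat 1)
  refine singular hH.sa ψ μ hμ2 hA (ε := fun k => (θ ^ 2 ^ k) ^ 12) (fun k => by positivity)
    (fun k => pow_le_one₀ (by positivity)
      ((scale L1 θ0 p2 k).2.trans (pow_le_one₀ (by norm_num) (by norm_num))))
    (by simpa using t0.pow 12) fun η hη => ?_
  have hs := lp.hasSum_single (ENNReal.ofNat_ne_top (n := nat_lit 2)) ψ
  obtain ⟨s, hs'⟩ := (Metric.tendsto_nhds.1 hs η hη).exists
  refine ⟨∑ i ∈ s, lp.single 2 i (ψ i), by rw [← dist_eq_norm, dist_comm]; exact hs'.le, ?_⟩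
  filter_upwards [hω] with E hE hEA
  have one : ∀ x : Zd d, Tendsto (fun k => ss H (lp.single 2 x 1) ((θ ^ 2 ^ k) ^ 12) E) atTop (𝓝 0) := by
    intro x
    refine squeeze_zero' (Eventually.of_forall fun k => by unfold ss; positivity)
      ((hE x hEA).mono fun k hk => ss_le hH (by positivity) le_rfl (scale L1 θ0 p2 k).1 hk) ?_
    simpa using (t0.pow 2).const_mul 4
  clear hs'
  induction s using Finset.induction_on with
  | empty => simp [ss]
  | insert a s ha ih =>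
    have lim := (((one a).const_mul (‖ψ a‖ ^ 2)).const_mul 2).add (ih.const_mul 2)
    simp only [mul_zero, add_zero] at lim
    refine squeeze_zero (fun k => by unfold ss; positivity) (fun k => ?_) lim
    have e : (lp.single 2 a (ψ a) : L2 d) = ψ a • lp.single 2 a 1 := by
      rw [← lp.single_smul, smul_eq_mul, mul_one]
    rw [Finset.sum_insert ha, e]
    simp only [ss, map_add, map_smul]
    set p := GG H (E + ((θ ^ 2 ^ k) ^ 12 : ℝ) * Complex.I) (lp.single 2 a 1)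
    set q := GG H (E + ((θ ^ 2 ^ k) ^ 12 : ℝ) * Complex.I) (∑ i ∈ s, lp.single 2 i (ψ i))
    have b1 := pow_le_pow_left₀ (norm_nonneg _) (norm_add_le (ψ a • p) q) 2
    rw [norm_smul] at b1
    have ε0 : 0 < (θ ^ 2 ^ k) ^ 12 := by positivity
    nlinarith [mul_nonneg ε0.le (sq_nonneg (‖ψ a‖ * ‖p‖ - ‖q‖))]

theorem main2 (hd : 1 ≤ d) : ∃ B : Set ℝ, MeasurableSet B ∧
    (∃ c : ℝ, 0 < c ∧ ∃ δ0 : ℝ, 0 < δ0 ∧ ∀ δ : ℝ, 0 < δ → δ < δ0 →
      volume (B ∩ {E | E ≤ -1 + δ ∨ 4 * d + 1 - δ ≤ E})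
        ≤ ENNReal.ofReal (Real.exp (-Real.exp (c * δ ^ (-(d / 2 : ℝ)))))) ∧
    ∀ᵐ ω ∂(PP d), ∀ H : L2 d →L[ℂ] L2 d, IsOp ω H → ∀ (ψ : L2 d) (μ : Measure ℝ),
      IsFiniteMeasure μ →
      (∀ z : ℂ, z.im ≠ 0 → ∫ x : ℝ, ((x : ℂ) - z)⁻¹ ∂μ = inner ℂ ψ (GG H z ψ)) →
      μ.restrict Bᶜ ⟂ₘ volume := by
  obtain ⟨c, c0, δ0, h0, hp⟩ := main hd
  choose B B1 B2 B3 using fun q : {q : ℚ // (0 : ℝ) < q ∧ (q : ℝ) < δ0} => hp q.1 q.2.1 q.2.2
  refine ⟨(⋃ q : {q : ℚ // (0 : ℝ) < q ∧ (q : ℝ) < δ0},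
    {E : ℝ | E ≤ -1 + q.1 ∨ 4 * d + 1 - q.1 ≤ E} \ B q)ᶜ,
    (MeasurableSet.iUnion fun q => (measurableSet_Iic.union measurableSet_Ici).diff (B1 q)).compl,
    ⟨c * 2 ^ (-(d / 2 : ℝ)), by positivity, δ0 / 2, by positivity, fun δ δ1 δ2 => ?_⟩, ?_⟩
  · obtain ⟨q, q1, q2⟩ := exists_rat_btwn (by linarith : δ < 2 * δ)
    refine le_trans (measure_mono fun E hE => ?_) ((B2 ⟨q, by linarith, by linarith⟩).trans ?_)
    · by_contra h
      refine hE.1 (Set.mem_iUnion.2 ⟨⟨q, by linarith, by linarith⟩, ?_, h⟩)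
      rcases hE.2 with h' | h'
      · exact Or.inl (by simp only; linarith)
      · exact Or.inr (by simp only; linarith)
    · apply ENNReal.ofReal_le_ofReal
      rw [Real.exp_le_exp, neg_le_neg_iff, Real.exp_le_exp, mul_assoc,
        ← Real.mul_rpow (by norm_num) δ1.le]
      refine mul_le_mul_of_nonneg_left ?_ c0.le
      exact Real.rpow_le_rpow_of_nonpos (by linarith) q2.le (by
        have : (0 : ℝ) ≤ d := Nat.cast_nonneg d
        linarith)
  · filter_upwards [ae_all_iff.2 B3] with ω hω H hH ψ μ h1 h2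
    rw [compl_compl]
    exact (Measure.MutuallySingular.sum_left.2 fun q => hω q H hH ψ μ h1 h2).mono
      Measure.restrict_iUnion_le le_rfl

lemma transport {X : Type} [NormedAddCommGroup X] [InnerProductSpace ℂ X] [CompleteSpace X]
    (b : HilbertBasis (Zd d) ℂ X) (H : X →L[ℂ] X) {ω : Zd d → Bool}
    (h : ∀ (u : X) (j : Zd d), inner ℂ (b j) (H u) = -(∑ i : Fin d,
      ((inner ℂ (b (j + ee i)) u - inner ℂ (b j) u) + (inner ℂ (b (j - ee i)) u - inner ℂ (b j) u)))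
      + (if ω j then (1 : ℂ) else -1) * inner ℂ (b j) u) :
    ∃ H' : L2 d →L[ℂ] L2 d, IsOp ω H' ∧ ∀ (ψ : X) (z : ℂ), z.im ≠ 0 →
      inner ℂ ψ (GG H z ψ) = inner ℂ (b.repr ψ) (GG H' z (b.repr ψ)) := by
  let H' : L2 d →L[ℂ] L2 d := (b.repr.toContinuousLinearEquiv : X →L[ℂ] L2 d).comp
    (H.comp (b.repr.symm.toContinuousLinearEquiv : L2 d →L[ℂ] X))
  have e : ∀ x : X, H' (b.repr x) = b.repr (H x) := fun x => by simp [H']
  have op : IsOp ω H' := by
    intro u j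
    obtain ⟨x, rfl⟩ := b.repr.surjective u
    rw [e]
    simp only [b.repr_apply_apply]
    exact h x j
  have sa : IsSelfAdjoint H := by
    rw [ContinuousLinearMap.isSelfAdjoint_iff_isSymmetric]
    intro x y
    have := ContinuousLinearMap.isSelfAdjoint_iff_isSymmetric.1 op.sa (b.repr x) (b.repr y)
    simp only [ContinuousLinearMap.coe_coe, e, LinearIsometryEquiv.inner_map_map] at this
    exact this
  refine ⟨H', op, fun ψ z hz => ?_⟩
  have e1 := congrArg b.repr (GG_eq sa hz ψ)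
  rw [map_sub, map_smul, ← e] at e1
  have e2 := congrArg (fun A : L2 d →L[ℂ] L2 d => A (b.repr (GG H z ψ)))
    (Ring.inverse_mul_cancel _ (unit_sub op.sa hz))
  simp only [ContinuousLinearMap.mul_apply, ContinuousLinearMap.sub_apply,
    ContinuousLinearMap.smul_apply, ContinuousLinearMap.one_apply, e1] at e2
  rw [← b.repr.inner_map_map, ← e2]
  rfl

end Pool.Agent.P.MP_d0f69c_mp
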