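import Pool.Agent.P.MP_d0f69c_mp.Init2
import Pool.Agent.P.MP_d0f69c_mp.Final

set_option autoImplicit false

open Finset MeasureTheory Filter Topology

namespace Pool.Agent.P.MP_d0f69c_mp

variable {d : ℕ}

/-- a priori estimate at `x` -/
def Est2 (ω : Zd d → Bool) (E : ℝ) (x : Zd d) (L : ℕ) (θ M : ℝ) : Prop :=
  ∀ u : Zd d → ℝ, |u x| ≤ θ * ∑ y ∈ bx x L, |u y| + M * ∑ y ∈ bx x L, |TT ω E u y|

lemma dep_Est2 (E : ℝ) (x : Zd d) (L : ℕ) (θ M : ℝ) : Dep (bx x L) fun ω => Est2 ω E x L θ M := by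
  intro ω ω' e h u
  refine (h u).trans (le_of_eq ?_)
  congr 2
  apply Finset.sum_congr rfl
  intro y hy
  simp only [TT, pot, e y hy]

lemma closed_Est2 (ω : Zd d → Bool) (x : Zd d) (L : ℕ) (θ M : ℝ) :
    IsClosed {E | Est2 ω E x L θ M} := by
  simp only [Est2, Set.ofPred_forall]
  refine isClosed_iInter fun u => isClosed_le continuous_const ?_
  unfold TT
  fun_prop

lemma Loc.est2 {ω : Zd d → Bool} {E : ℝ} {x : Zd d} {L : ℕ} {θ M : ℝ}
    (h : Loc (pot ω) E Set.univ x L θ M) : Est2 ω E x L θ M := fun u =>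
  h u (fun _ hy => absurd trivial hy) _ _ (Finset.sum_nonneg fun _ _ => abs_nonneg _)
    (Finset.sum_nonneg fun _ _ => abs_nonneg _)
    (fun _ hy => Finset.single_le_sum (f := fun y => |u y|) (fun _ _ => abs_nonneg _) (mem_bx.2 hy))
    (fun _ _ hy => Finset.single_le_sum (f := fun y => |TT ω E u y|) (fun _ _ => abs_nonneg _)
      (mem_bx.2 hy))

lemma ss_le2 {ω : Zd d → Bool} {H : L2 d →L[ℂ] L2 d} (h : IsOp ω H) {E θ M V : ℝ} {L : ℕ}
    {x : Zd d} (hθ : 0 < θ) (hM : 0 ≤ M) (hv : ((bx x L).card : ℝ) ≤ V)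
    (hg : Est2 ω E x L θ M) : ss H (lp.single 2 x 1) θ E ≤ θ * (V * (1 + M)) ^ 2 := by
  set w := GG H (E + θ * Complex.I) (lp.single 2 x 1) with hw
  have e1 := GG_eq h.sa (z := E + θ * Complex.I) (by simpa using hθ.ne') (lp.single 2 x 1)
  rw [← hw] at e1
  have e2 : ∀ y, TT ω E (fun y => (w y).im) y = θ * (w y).re := by
    intro y
    have a := congrArg (fun f : L2 d => (f y).im) e1
    simp only [lp.coeFn_sub, lp.coeFn_smul, Pi.sub_apply, Pi.smul_apply, h w y, lp.single_apply,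
      Pi.single_apply, smul_eq_mul, Complex.sub_im, Complex.add_im, Complex.neg_im, Complex.im_sum,
      Complex.mul_im, apply_ite Complex.im, apply_ite Complex.re, Complex.one_im, Complex.zero_im,
      Complex.one_re, Complex.neg_re, ite_self, neg_zero, Complex.add_re, Complex.ofReal_re,
      Complex.ofReal_im, Complex.mul_re, Complex.I_re, Complex.I_im, Finset.sum_add_distrib,
      Finset.sum_sub_distrib, Finset.sum_const, Finset.card_univ, Fintype.card_fin,
      nsmul_eq_mul, Complex.natCast_re, Complex.natCast_im] at a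
    simp only [TT, adj, pot, Finset.sum_add_distrib]
    linarith
  have n1 : ∀ y, ‖w y‖ ≤ ‖w‖ := fun y => lp.norm_apply_le_norm two_ne_zero w y
  have e3 := hg fun y => (w y).im
  have a1 := sum_le_mul (f := fun y => |(w y).im|) (norm_nonneg w) hv
    fun y _ => (Complex.abs_im_le_norm _).trans (n1 _)
  have a2 := sum_le_mul (f := fun y => |TT ω E (fun y => (w y).im) y|) (a := θ * ‖w‖)
    (by positivity) hv fun y _ => by
      rw [e2, abs_mul, abs_of_pos hθ]
      exact mul_le_mul_of_nonneg_left ((Complex.abs_re_le_norm _).trans (n1 _)) hθ.le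
  have e4 : θ * ‖w‖ ^ 2 = (w x).im := by
    have := ss_eq h.sa (lp.single 2 x 1) hθ E
    rw [lp.inner_single_left] at this
    simpa [ss] using this
  have e7 : θ * ‖w‖ ^ 2 ≤ θ * (V * (1 + M) * ‖w‖) := by
    linarith [le_abs_self (w x).im, mul_le_mul_of_nonneg_left a1 hθ.le,
      mul_le_mul_of_nonneg_left a2 hM]
  have e8 := le_of_mul_le_mul_left e7 hθ
  change θ * ‖w‖ ^ 2 ≤ _
  refine mul_le_mul_of_nonneg_left ?_ hθ.le
  nlinarith [sq_nonneg (‖w‖ - V * (1 + M))]

lemma ae_good2 {A : Set ℝ} (hA : MeasurableSet A) {L : ℕ → ℕ} {t M : ℕ → ℝ}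
    (h : ∀ E ∈ A, ∀ k x, (PP d).real {ω | ¬ Est2 ω E x (L k) (t k) (M k)} ≤ (1 / 2) ^ k) :
    ∀ᵐ ω ∂(PP d), ∀ᵐ E : ℝ, ∀ x : Zd d, E ∈ A → ∀ᶠ k in atTop, Est2 ω E x (L k) (t k) (M k) := by
  simp only [ae_all_iff]
  intro x
  have m : ∀ k, MeasurableSet {p : (Zd d → Bool) × ℝ | Est2 p.1 p.2 x (L k) (t k) (M k)} := fun k =>
    meas_prod (p := fun ω E => Est2 ω E x (L k) (t k) (M k))
      (fun E => dep_Est2 E x _ _ _) (fun ω => (closed_Est2 _ _ _ _ _).measurableSet)
  rw [Measure.ae_ae_comm (p := fun ω E => E ∈ A → ∀ᶠ k in atTop, Est2 ω E x (L k) (t k) (M k))]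
  · refine ae_of_all _ fun E => ?_
    by_cases hE : E ∈ A
    · have := ae_eventually_notMem (μ := PP d)
        (s := fun k => {ω | ¬ Est2 ω E x (L k) (t k) (M k)}) (by
          refine ne_top_of_le_ne_top (b := ∑' k : ℕ, ENNReal.ofReal ((1 / 2) ^ k)) ?_
            (ENNReal.tsum_le_tsum fun k => ?_)
          · rw [← ENNReal.ofReal_tsum_of_nonneg (fun k => by positivity) summable_geometric_two]
            exact ENNReal.ofReal_ne_top
          · rw [← ofReal_measureReal (measure_ne_top _ _)]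
            exact ENNReal.ofReal_le_ofReal (h E hE k x))
      filter_upwards [this] with ω hω _
      simpa using hω
    · exact ae_of_all _ fun ω h' => absurd h' hE
  · simp only [eventually_atTop]
    rw [measurableSet_setOfPred]
    refine Measurable.imp (measurableSet_setOfPred.1 (measurable_snd hA)) ?_
    exact Measurable.exists fun N => Measurable.forall fun k =>
      Measurable.imp measurable_const (measurableSet_setOfPred.1 (m k))

/-- conditions for the last step -/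
structure OkF (d : ℕ) (P : Par) (X : Aux) : Prop where
  f1 : ∀ k, 0 < P.γ k
  f2 : ∀ k, X.q k ≤ (1 / 2) ^ k
  f3 : ∀ k, 2 * d * P.γ k * ((2 * (4 * P.c k + 1 : ℕ) + 1) ^ d * (1 + (P.M k + P.γ k))) ^ 2
    ≤ (1 / 2) ^ k

theorem main3 (hd : 1 ≤ d) {P : Par} {X : Aux} {r : ℕ} (h : Ok d P X) (h0 : Ok0 d P X r)
    (hF : OkF d P X) {δ : ℝ} (δ1 : δ ≤ 1) (hδ : δ ≤ 1 / (64 * d * r ^ 2)) :
    ∀ᵐ ω ∂(PP d), ∀ H : L2 d →L[ℂ] L2 d, IsOp ω H → ∀ (ψ : L2 d) (μ : Measure ℝ),
      IsFiniteMeasure μ →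
      (∀ z : ℂ, z.im ≠ 0 → ∫ x : ℝ, ((x : ℂ) - z)⁻¹ ∂μ = inner ℂ ψ (GG H z ψ)) →
      μ.restrict (Set.Icc (-1) (-1 + δ) ∪ Set.Icc (4 * d + 1 - δ) (4 * d + 1)) ⟂ₘ volume := by
  have hA : MeasurableSet (Set.Icc (-1) (-1 + δ) ∪ Set.Icc (4 * d + 1 - δ) (4 * (d : ℝ) + 1)) :=
    measurableSet_Icc.union measurableSet_Icc
  have d1 : (1 : ℝ) ≤ d := by exact_mod_cast hd
  have θ0 : ∀ k, 0 < 2 * d * P.γ k := fun k => by have := hF.f1 k; positivity
  have M1 : ∀ k, 0 ≤ P.M k + P.γ k := fun k => add_nonneg (h.M0 k) (h.γ0 k)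
  have lim : Tendsto (fun k : ℕ => (1 / 2 : ℝ) ^ k) atTop (𝓝 0) :=
    tendsto_pow_atTop_nhds_zero_of_lt_one (by norm_num) (by norm_num)
  filter_upwards [ae_good2 (d := d) hA (L := fun k => 4 * P.c k + 1) (t := fun k => 2 * d * P.γ k)
    (M := fun k => P.M k + P.γ k) (fun E hE k x => by
      obtain ⟨g, hg⟩ := cov_univ (h.c0 k) x
      refine le_trans (measureReal_mono fun ω hω => ?_) ((msa2 (i := ⟨0, hd⟩) (E := E) h h0 hd
        (by rcases hE with a | a <;> linarith [a.1]) (by rcases hE with a | a <;> linarith [a.2])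
        (hE.imp And.right And.left) hδ k g).trans (hF.f2 k))
      by_contra hb
      refine hω (Loc.est2 ?_)
      push_cast
      exact loc_of_cov hg trivial hb (fun y => by unfold pot; split_ifs <;> simp) fun _ _ _ => rfl)]
    with ω hω H hH ψ μ hμ1 hμ2
  refine singular hH.sa ψ μ hμ2 hA (ε := fun k => 2 * d * P.γ k) θ0
    (fun k => by linarith [h.γ1 k]) (squeeze_zero (fun k => (θ0 k).le) (fun k => le_trans
      (le_mul_of_one_le_right (θ0 k).le (one_le_pow₀ (one_le_mul_of_one_le_of_one_le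
        (one_le_pow₀ (by linarith [Nat.cast_nonneg (α := ℝ) (4 * P.c k + 1)]))
        (by linarith [M1 k])))) (hF.f3 k)) lim) fun η hη => ?_
  have hs := lp.hasSum_single (ENNReal.ofNat_ne_top (n := nat_lit 2)) ψ
  obtain ⟨s, hs'⟩ := (Metric.tendsto_nhds.1 hs η hη).exists
  refine ⟨∑ i ∈ s, lp.single 2 i (ψ i), by rw [← dist_eq_norm, dist_comm]; exact hs'.le, ?_⟩
  filter_upwards [hω] with E hE hEA
  have one : ∀ x : Zd d, Tendsto (fun k => ss H (lp.single 2 x 1) (2 * d * P.γ k) E) atTop (𝓝 0) := by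
    intro x
    refine squeeze_zero' (Eventually.of_forall fun k => by have := θ0 k; unfold ss; positivity)
      ((hE x hEA).mono fun k hk => (ss_le2 hH (θ0 k) (M1 k) ?_ hk).trans (hF.f3 k)) lim
    rw [card_bx]
    push_cast
    exact le_rfl
  clear hs'
  induction s using Finset.induction_on with
  | empty => simp [ss]
  | insert a s ha ih =>
    have lim := (((one a).const_mul (‖ψ a‖ ^ 2)).const_mul 2).add (ih.const_mul 2)
    simp only [mul_zero, add_zero] at lim
    refine squeeze_zero (fun k => by have := θ0 k; unfold ss; positivity) (fun k => ?_) lim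
    have e : (lp.single 2 a (ψ a) : L2 d) = ψ a • lp.single 2 a 1 := by
      rw [← lp.single_smul, smul_eq_mul, mul_one]
    rw [Finset.sum_insert ha, e]
    simp only [ss, map_add, map_smul]
    set p := GG H (E + (2 * d * P.γ k : ℝ) * Complex.I) (lp.single 2 a 1)
    set q := GG H (E + (2 * d * P.γ k : ℝ) * Complex.I) (∑ i ∈ s, lp.single 2 i (ψ i))
    have b1 := pow_le_pow_left₀ (norm_nonneg _) (norm_add_le (ψ a • p) q) 2
    rw [norm_smul] at b1
    have ε0 := θ0 k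
    nlinarith [mul_nonneg ε0.le (sq_nonneg (‖ψ a‖ * ‖p‖ - ‖q‖))]

end Pool.Agent.P.MP_d0f69c_mp
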