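import Pool.Agent.P.MP_d0f69c_mp.Core

set_option autoImplicit false

open Finset

namespace Pool.Agent.P.MP_d0f69c_mp

variable {d : ℕ}

/-- a chain that is monotone in the direction `i` -/
def Chain (i : Fin d) (x : ℕ → Zd d) : Prop :=
  ∃ σ : ℤ, (σ = 1 ∨ σ = -1) ∧ ∀ t, dist (x (t + 1)) (x t) ≤ 2 ∧ 1 ≤ σ * (x (t + 1) i - x t i)

lemma Chain.shift {i : Fin d} {x : ℕ → Zd d} (h : Chain i x) (a : ℕ) : Chain i fun t => x (a + t) := by
  obtain ⟨σ, h1, h2⟩ := h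
  exact ⟨σ, h1, fun t => h2 (a + t)⟩

lemma Chain.le {i : Fin d} {x : ℕ → Zd d} (h : Chain i x) (a s : ℕ) :
    dist (x (a + s)) (x a) ≤ 2 * s := by
  obtain ⟨σ, -, h2⟩ := h
  induction s with
  | zero => simp
  | succ s ih =>
    push_cast
    linarith [dist_triangle (x (a + (s + 1))) (x (a + s)) (x a), show
      dist (x (a + (s + 1))) (x (a + s)) ≤ 2 from (h2 (a + s)).1]

lemma Chain.ge {i : Fin d} {x : ℕ → Zd d} (h : Chain i x) (a s : ℕ) :
    (s : ℝ) ≤ dist (x (a + s)) (x a) := by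
  obtain ⟨σ, h1, h2⟩ := h
  have : (s : ℤ) ≤ σ * (x (a + s) i - x a i) := by
    induction s with
    | zero => simp
    | succ s ih =>
      have := (h2 (a + s)).2
      push_cast
      rw [← add_assoc]
      linarith
  refine le_trans ?_ (dist_le_pi_dist _ _ i)
  rw [Int.dist_eq]
  have b : (s : ℤ) ≤ |x (a + s) i - x a i| := by
    rcases h1 with rfl | rfl
    · exact le_abs.2 (Or.inl (by linarith))
    · exact le_abs.2 (Or.inr (by linarith))
  exact_mod_cast b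

lemma Chain.far {i : Fin d} {x : ℕ → Zd d} (h : Chain i x) {z : Zd d} {R : ℝ} {a b : ℕ}
    (ha : dist (x a) z ≤ R) (hb : a + 2 * R < b) : R < dist (x b) z := by
  have R0 : 0 ≤ R := dist_nonneg.trans ha
  obtain ⟨s, rfl⟩ := Nat.exists_eq_add_of_le (show a ≤ b by
    have : (a : ℝ) ≤ b := by linarith
    exact_mod_cast this)
  push_cast at hb
  linarith [h.ge a s, dist_triangle_right (x (a + s)) (x a) z]

open Classical in
/-- number of free points on a chain -/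
noncomputable def cnt (F : Set (Zd d)) (x : ℕ → Zd d) (p : ℕ) : ℕ :=
  ∑ t ∈ range p, if x t ∈ F then 0 else 1

lemma cnt_add (F : Set (Zd d)) (x : ℕ → Zd d) (a b : ℕ) :
    cnt F x (a + b) = cnt F x a + cnt F (fun t => x (a + t)) b := Finset.sum_range_add _ _ _

lemma cnt_congr {F F' : Set (Zd d)} {x : ℕ → Zd d} {p : ℕ} (h : ∀ t < p, x t ∈ F' → x t ∈ F) :
    cnt F x p ≤ cnt F' x p := by
  refine Finset.sum_le_sum fun t ht => ?_
  split_ifs with h1 h2 h2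
  · rfl
  · exact zero_le_one
  · exact absurd (h t (mem_range.1 ht) h2) h1
  · rfl

lemma cnt_blocks {F : Set (Zd d)} {x : ℕ → Zd d} {p f a J p' : ℕ} (hp : a + J * p ≤ p')
    (h : ∀ b < J, f ≤ cnt F (fun t => x (a + b * p + t)) p) : J * f ≤ cnt F x p' := by
  have : ∀ b ≤ J, b * f ≤ cnt F x (a + b * p) := by
    intro b hb
    induction b with
    | zero => simp
    | succ b ih =>
      rw [add_mul, add_mul, one_mul, one_mul, ← add_assoc, cnt_add]
      exact add_le_add (ih (by omega)) (h b hb)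
  obtain ⟨s, rfl⟩ := Nat.exists_eq_add_of_le hp
  rw [cnt_add]
  exact (this J le_rfl).trans (Nat.le_add_right _ _)

/-- chains in `B` meet many free points -/
def Sparse (i : Fin d) (F : Set (Zd d)) (B : Finset (Zd d)) (p f : ℕ) : Prop :=
  ∀ x : ℕ → Zd d, Chain i x → (∀ t < p, x t ∈ B) → f ≤ cnt F x p

lemma sparse0 (i : Fin d) {F : Set (Zd d)} {B : Finset (Zd d)} {p f : ℕ} (hp : f * 8 ≤ p)
    (h : ∀ y ∈ B, y ∈ F → 2 ≤ y i % 8) : Sparse i F B p f := by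
  intro x hx hB
  refine (cnt_blocks (F := {y | 2 ≤ y i % 8}) (a := 0) (f := 1) (by simpa using hp)
    fun b _ => ?_).trans' (by simp) |>.trans (cnt_congr fun t ht => h _ (hB t ht))
  obtain ⟨σ, h1, h2⟩ := (hx.shift (0 + b * 8))
  set y := fun t => x (0 + b * 8 + t) with hy
  by_contra hc
  have a : ∀ t < 8, 2 ≤ y t i % 8 := by
    intro t ht
    by_contra h3
    refine hc (le_trans ?_ (Finset.single_le_sum (fun _ _ => Nat.zero_le _) (mem_range.2 ht)))
    exact (if_neg h3).ge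
  have b : ∀ t, 1 ≤ σ * (y (t + 1) i - y t i) ∧ y t i - 2 ≤ y (t + 1) i ∧ y (t + 1) i ≤ y t i + 2 :=
    fun t => ⟨(h2 t).2, (dist_le_iff (L := 2)).1 (by exact_mod_cast (h2 t).1) i⟩
  have a0 := a 0 (by norm_num)
  have a1 := a 1 (by norm_num)
  have a2 := a 2 (by norm_num)
  have a3 := a 3 (by norm_num)
  have a4 := a 4 (by norm_num)
  have a5 := a 5 (by norm_num)
  have a6 := a 6 (by norm_num)
  have b0 := b 0
  have b1 := b 1
  have b2 := b 2
  have b3 := b 3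
  have b4 := b 4
  have b5 := b 5
  simp only [Nat.reduceAdd] at b0 b1 b2 b3 b4 b5
  rcases h1 with rfl | rfl <;> omega

/-- parameters of the multiscale analysis -/
structure Par where
  c : ℕ → ℕ
  J : ℕ → ℕ
  p : ℕ → ℕ
  f : ℕ → ℕ
  γ : ℕ → ℝ
  M : ℕ → ℝ

variable (P : Par) (i : Fin d) (E : ℝ)

/-- good box relative to the frozen set `F` -/
def GdOf (F : Set (Zd d)) (ω : Zd d → Bool) (k : ℕ) (g : Zd d) : Prop :=
  (∀ v : Zd d → ℝ, (∀ y, |v y| ≤ 1) → (∀ y ∈ bx g (2 * P.c k), y ∈ F → v y = pot ω y) →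
    Green v E (bx g (2 * P.c k)) (P.c k) (P.γ k) (P.M k)) ∧
  Sparse i F (bx g (2 * P.c k)) (P.p k) (P.f k)

/-- frozen sites -/
def Fr (ω : Zd d → Bool) : ℕ → Set (Zd d)
  | 0 => {y | 2 ≤ y i % 8}
  | k + 1 => Fr ω k ∪ {y | ∃ g, Grid (P.c k) g ∧ ¬ GdOf P i E (Fr ω k) ω k g ∧
      dist y g ≤ 4 * (P.J k * P.c k)}

/-- good box -/
def Gd (ω : Zd d → Bool) (k : ℕ) (g : Zd d) : Prop := GdOf P i E (Fr P i E ω k) ω k g

/-- bad centre -/
def Bad (ω : Zd d → Bool) (k : ℕ) (g : Zd d) : Prop := Grid (P.c k) g ∧ ¬ Gd P i E ω k g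

variable {P i E}

lemma mem_Fr_succ {ω : Zd d → Bool} {k : ℕ} {y : Zd d} : y ∈ Fr P i E ω (k + 1) ↔
    y ∈ Fr P i E ω k ∨ ∃ g, Bad P i E ω k g ∧ dist y g ≤ 4 * (P.J k * P.c k) := by
  simp only [Fr, Bad, Gd, Set.mem_union, Set.mem_ofPred_eq, and_assoc]

lemma Fr_mono (ω : Zd d → Bool) {j k : ℕ} (h : j ≤ k) : Fr P i E ω j ⊆ Fr P i E ω k := by
  induction k, h using Nat.le_induction with
  | base => exact subset_rfl
  | succ k _ ih => exact ih.trans Set.subset_union_left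

lemma GdOf.congr {F F' : Set (Zd d)} {ω ω' : Zd d → Bool} {k : ℕ} {g : Zd d}
    (h : GdOf P i E F ω k g) (h1 : ∀ y ∈ bx g (2 * P.c k), y ∈ F ↔ y ∈ F')
    (h2 : ∀ y ∈ bx g (2 * P.c k), y ∈ F → ω y = ω' y) : GdOf P i E F' ω' k g :=
  ⟨fun v v1 v2 => h.1 v v1 fun y hy hF => by
      rw [v2 y hy ((h1 y hy).1 hF), pot, pot, h2 y hy hF],
    fun x hx hB => (h.2 x hx hB).trans (cnt_congr fun t ht => (h1 _ (hB t ht)).2)⟩

lemma Gd_of_Fr {ω ω' : Zd d → Bool} {k : ℕ}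
    (H : ∀ y, (∀ y' ∈ Fr P i E ω k, dist y' y ≤ 2 * P.c k → ω y' = ω' y') →
      (y ∈ Fr P i E ω k ↔ y ∈ Fr P i E ω' k)) {g : Zd d}
    (h : ∀ y' ∈ Fr P i E ω k, dist y' g ≤ 4 * P.c k → ω y' = ω' y') :
    Gd P i E ω k g ↔ Gd P i E ω' k g := by
  have c0 : (0 : ℝ) ≤ P.c k := Nat.cast_nonneg _
  have b : ∀ y ∈ bx g (2 * P.c k), dist y g ≤ 2 * P.c k := fun y hy => by
    simpa using mem_bx.1 hy
  have h1 : ∀ y ∈ bx g (2 * P.c k), y ∈ Fr P i E ω k ↔ y ∈ Fr P i E ω' k := fun y hy =>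
    H y fun y' a1 a2 => h y' a1 (by linarith [dist_triangle y' y g, b y hy])
  have h2 : ∀ y ∈ bx g (2 * P.c k), y ∈ Fr P i E ω k → ω y = ω' y := fun y hy a1 =>
    h y a1 (by linarith [b y hy])
  exact ⟨fun a => a.congr h1 h2,
    fun a => a.congr (fun y hy => (h1 y hy).symm) fun y hy a1 => (h2 y hy ((h1 y hy).2 a1)).symm⟩

lemma Fr_congr (hP : ∀ k, 4 * (P.J k * P.c k) + 4 * P.c k ≤ P.c (k + 1)) {ω ω' : Zd d → Bool}
    (k : ℕ) : ∀ y, (∀ y' ∈ Fr P i E ω k, dist y' y ≤ 2 * P.c k → ω y' = ω' y') →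
      (y ∈ Fr P i E ω k ↔ y ∈ Fr P i E ω' k) := by
  induction k with
  | zero => exact fun y _ => Iff.rfl
  | succ k ih =>
    intro y h
    have c1 : 4 * (P.J k * P.c k : ℝ) + 4 * P.c k ≤ P.c (k + 1) := by exact_mod_cast hP k
    have c0 : (0 : ℝ) ≤ P.c k := Nat.cast_nonneg _
    have c2 : 0 ≤ (P.J k * P.c k : ℝ) := by positivity
    rw [mem_Fr_succ, mem_Fr_succ]
    refine or_congr (ih y fun y' a1 a2 => h y' (Or.inl a1) (by linarith))
      (exists_congr fun g => and_congr_left fun hg => and_congr_right fun _ => not_congr ?_)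
    exact Gd_of_Fr ih fun y' a1 a2 => h y' (Or.inl a1) (by
      linarith [dist_triangle_right y' y g])

lemma Bad_congr (hP : ∀ k, 4 * (P.J k * P.c k) + 4 * P.c k ≤ P.c (k + 1)) {ω ω' : Zd d → Bool}
    {k : ℕ} {g : Zd d} (h : ∀ y' ∈ Fr P i E ω k, dist y' g ≤ 4 * P.c k → ω y' = ω' y') :
    Bad P i E ω k g ↔ Bad P i E ω' k g :=
  and_congr_right fun _ => not_congr (Gd_of_Fr (Fr_congr hP k) h)

lemma loc_of_cov {ω : Zd d → Bool} {k : ℕ} {Λ : Set (Zd d)} {z g : Zd d} {v : Zd d → ℝ}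
    (hc : Cov Λ (P.c k) z g) (hz : z ∈ Λ) (hg : ¬ Bad P i E ω k g) (v1 : ∀ y, |v y| ≤ 1)
    (v2 : ∀ y ∈ Λ, y ∈ Fr P i E ω k → v y = pot ω y) :
    Loc v E Λ z (4 * P.c k + 1) (2 * d * P.γ k) (P.M k + P.γ k) := by
  have : Gd P i E ω k g := by
    by_contra h
    exact hg ⟨hc.1, h⟩
  exact (this.1 v v1 fun y hy => v2 y (hc.2.1 y hy)).loc hc hz

lemma sparse_of_cov {ω : Zd d → Bool} {k : ℕ} {Λ : Set (Zd d)} {g : Zd d} {x : ℕ → Zd d}
    (hx : Chain i x) (hc : Cov Λ (P.c k) (x 0) g) (hg : ¬ Bad P i E ω k g)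
    (hp : 2 * P.p k ≤ P.c k) (hΛ : ∀ t < P.p k, x t ∈ Λ) :
    P.f k ≤ cnt (Fr P i E ω k) x (P.p k) := by
  have : Gd P i E ω k g := by
    by_contra h
    exact hg ⟨hc.1, h⟩
  refine this.2 x hx fun t ht => hc.2.2 _ (hΛ t ht) ?_
  have a := hx.le 0 t
  have b : (2 * t : ℝ) ≤ P.c k := by exact_mod_cast (by omega : 2 * t ≤ P.c k)
  rw [zero_add] at a
  linarith

lemma sparse_step {ω : Zd d → Bool} {k I J : ℕ} {G z : Zd d} (c0 : 0 < P.c k)
    (hd : P.c k ∣ P.c (k + 1)) (hG : Grid (P.c (k + 1)) G)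
    (hP : 4 * (P.J k * P.c k) + 4 * P.c k ≤ P.c (k + 1)) (hp : 2 * P.p k ≤ P.c k) (p0 : 0 < P.p k)
    (hI : 2 * (4 * (P.J k * P.c k) + 10 * P.c k) ≤ I * P.p k)
    (hJ : (J + I) * P.p k + J * P.p k ≤ P.p (k + 1)) (hf : P.f (k + 1) ≤ J * P.f k)
    (one : ∀ g ∈ bx G (3 * P.c (k + 1)), Bad P i E ω k g → dist g z ≤ 8 * P.c k) :
    Sparse i (Fr P i E ω (k + 1)) (bx G (2 * P.c (k + 1))) (P.p (k + 1)) (P.f (k + 1)) := by
  intro x hx hB
  have c1 : 4 * (P.J k * P.c k : ℝ) + 4 * P.c k ≤ P.c (k + 1) := by exact_mod_cast hP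
  have c2 : (0 : ℝ) ≤ P.c k := Nat.cast_nonneg _
  have c3 : 0 ≤ (P.J k * P.c k : ℝ) := by positivity
  set R : ℝ := 4 * (P.J k * P.c k) + 10 * P.c k with hR
  have blk : ∀ a, a + P.p k ≤ P.p (k + 1) → R < dist (x a) z →
      P.f k ≤ cnt (Fr P i E ω (k + 1)) (fun t => x (a + t)) (P.p k) := by
    intro a ha hfar
    obtain ⟨g, hg⟩ := cov_bx c0 (L := 2 * P.c (k + 1)) (by omega) (Dvd.dvd.mul_left hd 2)
      (hG.of_dvd hd) (hB a (by omega))
    have g1 := hg.dist_le (hB a (by omega))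
    have g2 := mem_bx.1 hg.mem
    push_cast at g2
    refine (sparse_of_cov (ω := ω) (E := E) (hx.shift a) hg (fun hb => ?_) hp
      fun t ht => hB _ (by omega)).trans (cnt_congr fun t ht h => ?_)
    · have := one g (mem_bx.2 (by push_cast; linarith)) hb
      linarith [dist_triangle (x a) g z]
    · refine (mem_Fr_succ.1 h).resolve_right ?_
      rintro ⟨g', b1, b2⟩
      have b3 := mem_bx.1 (hB (a + t) (by omega))
      push_cast at b3
      have b4 := one g' (mem_bx.2 (by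
        push_cast
        linarith [dist_triangle_left g' G (x (a + t))])) b1
      have b5 := hx.le a t
      have b6 : (2 * t : ℝ) ≤ P.c k := by exact_mod_cast (by omega : 2 * t ≤ P.c k)
      linarith [dist_triangle4 (x a) (x (a + t)) g' z, dist_comm (x a) (x (a + t))]
  refine hf.trans ?_
  by_cases h : ∀ b < J, R < dist (x (0 + b * P.p k)) z
  · refine cnt_blocks (a := 0) (p := P.p k) (by omega) fun b hb => blk _ ?_ (h b hb)
    have := Nat.mul_le_mul_right (P.p k) (show b + 1 ≤ J from hb)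
    rw [add_mul] at this
    omega
  · push Not at h
    obtain ⟨b0, h1, h2⟩ := h
    refine cnt_blocks hJ fun b hb => blk _ ?_ (hx.far h2 ?_)
    · have := Nat.mul_le_mul_right (P.p k) (show b + 1 ≤ J from hb)
      rw [add_mul] at this
      omega
    · have a1 := Nat.mul_lt_mul_of_pos_right h1 p0
      have : 0 + b0 * P.p k + 2 * (4 * (P.J k * P.c k) + 10 * P.c k)
          < (J + I) * P.p k + b * P.p k := by
        rw [add_mul]
        omega
      rw [hR]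
      exact_mod_cast this

lemma loc_res {v : Zd d → ℝ} {Λ : Set (Zd d)} {z zs G : Zd d} {c c2 S : ℕ} {ρ θ M Ms : ℝ}
    (hρ : 0 ≤ ρ) (hθ : 0 ≤ θ) (hθ2 : θ ≤ 1 / 2) (hM : 0 ≤ M)
    (hS : S * ρ + 10 * c ≤ c2) (hc : Cov Λ c2 zs G) (hz : z ∈ Λ) (hz2 : dist z zs ≤ 10 * c)
    (h1 : ∀ y ∈ Λ, 10 * c < dist y zs → Loc v E Λ y ρ θ M) (h2 : NR v E (bx G (2 * c2)) Ms) :
    Loc v E Λ z (5 * c2 + 1) (2 * d * Ms * θ ^ S) (Ms * (1 + 4 * d * M)) := by
  intro ψ hψ a F ha hF b1 b2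
  have S0 : 0 ≤ S * ρ := by positivity
  have c0 : (0 : ℝ) ≤ c := Nat.cast_nonneg _
  have zQ := hc.2.2 z hz (by linarith)
  have near : ∀ y ∈ bx G (2 * c2), dist y z ≤ 4 * c2 := fun y hy => by
    have a1 := mem_bx.1 hy
    have a2 := mem_bx.1 zQ
    push_cast at a1 a2
    linarith [dist_triangle_right y z G]
  have := h2 (cutS (bx G (2 * c2)) ψ) (fun y hy => if_neg hy) (F + 2 * d * (θ ^ S * a + 2 * M * F))
    (by positivity) (fun y hy => by
      have := TV_cut v E ψ hy (a := θ ^ S * a + 2 * M * F) (by positivity) (fun y' h' hb => by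
        by_cases hy' : y' ∈ Λ
        · have far : (c2 : ℝ) < dist y' zs := not_le.1 fun h => hb (hc.2.2 y' hy' h)
          have := near y hy
          exact Loc.iter hρ hθ hθ2 hM S y' hy' (fun w w1 w2 => h1 w w1 (by
            linarith [dist_triangle_left y' zs w])) ψ hψ a F ha hF
            (fun w w2 => b1 w (by linarith [dist_triangle4 w y' y z]))
            (fun w w1 w2 => b2 w w1 (by linarith [dist_triangle4 w y' y z]))
        · rw [hψ y' hy', abs_zero]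
          positivity)
      linarith [b2 y (hc.2.1 y hy) (by linarith [near y hy])]) z
  rw [show cutS (bx G (2 * c2)) ψ z = ψ z from if_pos zQ] at this
  linarith

lemma green_step {v : Zd d → ℝ} {B : Finset (Zd d)} {zs : Zd d} {c' S : ℕ}
    {r R ρ θ M ρs Ms γ' M' : ℝ} (hρ : 0 ≤ ρ) (hθ : 0 ≤ θ) (hθ2 : θ ≤ 1 / 2) (hM : 0 ≤ M)
    (hMs : M ≤ Ms) (r0 : 0 ≤ r) (hS : S * ρ + r ≤ R) (ρs0 : 0 ≤ ρs) (hR : 3 * R + ρs < c')
    (hγ : θ ^ S * (2 * Ms) ≤ γ') (hM' : 4 * Ms ≤ M')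
    (h1 : ∀ y ∈ B, r < dist y zs → Loc v E B y ρ θ M) (h2 : ∀ y ∈ B, Loc v E B y ρs (1 / 2) Ms) :
    Green v E B c' γ' M' := by
  intro ψ hψ z Fn F n0 F0 hn hF
  have S0 : 0 ≤ S * ρ := by positivity
  have Ms0 : 0 ≤ Ms := hM.trans hMs
  have γ0 : 0 ≤ γ' := le_trans (by positivity) hγ
  have ext : ∀ (T : Finset (Zd d)) (m : ℝ), 0 ≤ m → (∀ y ∈ T, |ψ y| ≤ m) →
      ∀ y, (y ∈ B → y ∈ T) → |ψ y| ≤ m := fun T m m0 h y hy => by
    by_cases hB : y ∈ B
    · exact h y (hy hB)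
    · rwa [hψ y hB, abs_zero]
  have glob := ext B _ (by positivity) (maxp B (fun y => |ψ y|) (b1 := Ms * F) (by positivity) le_rfl
    (fun m hm y hy => Or.inr (by
      have m0 := (abs_nonneg _).trans (hm y hy)
      have := h2 y hy ψ hψ m F m0 F0 (fun w _ => ext B m m0 hm w id) (fun w w1 _ => hF w w1)
      linarith)))
  have far : ∀ y ∈ B, R < dist y zs → dist y z ≤ 2 * R + ρs →
      |ψ y| ≤ θ ^ S * (0 + 2 * (Ms * F)) + 2 * M * Fn := fun y hy a1 a2 =>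
    Loc.iter hρ hθ hθ2 hM S y hy (fun w w1 w2 => h1 w w1 (by
      linarith [dist_triangle_left y zs w])) ψ hψ _ Fn (by positivity) n0 (fun w _ => glob w id)
      (fun w w1 w2 => hn w w1 (by linarith [dist_triangle w y z]))
  have e1 : θ ^ S * (0 + 2 * (Ms * F)) ≤ γ' * F := by
    linarith [mul_le_mul_of_nonneg_right hγ F0]
  have e2 := mul_le_mul_of_nonneg_right hM' n0
  have e3 := mul_le_mul_of_nonneg_right hMs n0
  have e4 := mul_nonneg Ms0 n0
  by_cases hz : z ∈ B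
  swap
  · rw [hψ z hz, abs_zero]
    exact add_nonneg (mul_nonneg (by linarith) n0) (mul_nonneg γ0 F0)
  by_cases hzs : R < dist z zs
  · linarith [far z hz hzs (by rw [dist_self]; linarith)]
  push Not at hzs
  have := maxp (B.filter fun y => dist y zs ≤ R + ρs) (fun y => |ψ y|) (b1 := Ms * Fn)
    (b2 := θ ^ S * (0 + 2 * (Ms * F)) + 2 * M * Fn) (by positivity) (by positivity)
    (fun m hm y hy => by
      obtain ⟨y1, y2⟩ := mem_filter.1 hy
      by_cases hys : R < dist y zs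
      · exact Or.inl (far y y1 hys (by linarith [dist_triangle_right y z zs]))
      · push Not at hys
        have m0 := (abs_nonneg _).trans (hm y hy)
        have := h2 y y1 ψ hψ m Fn m0 n0 (fun w w2 => ext _ m m0 hm w fun w1 =>
          mem_filter.2 ⟨w1, by linarith [dist_triangle w y zs]⟩)
          (fun w w1 w2 => hn w w1 (by
            linarith [dist_triangle w y z, dist_triangle_right y z zs]))
        exact Or.inr (by linarith)) z (mem_filter.2 ⟨hz, by linarith⟩)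
  linarith

end Pool.Agent.P.MP_d0f69c_mp
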