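import Pool.Agent.P.MP_d0f69c_mp.Hier

set_option autoImplicit false

open Finset

namespace Pool.Agent.P.MP_d0f69c_mp

variable {d : ℕ}

lemma cone {v : Zd d → ℝ} {E : ℝ} (hv : ∀ y, |2 * d + v y - E| ≤ 2 * d + 2) (u : Zd d → ℝ)
    (i : Fin d) {σ : ℤ} (hσ : σ = 1 ∨ σ = -1) (y : Zd d) :
    ∃ y' : Zd d, (dist y' y ≤ 2 ∧ 1 ≤ σ * (y' i - y i)) ∧
      |u y| ≤ (4 * d + 3) * |u y'| + |TV v E u (y + σ • ee i)| := by
  set w := y + σ • ee i with hw
  have w1 : dist w y = 1 := by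
    rcases hσ with rfl | rfl
    · simpa [hw] using norm_ee i
    · simpa [hw] using norm_ee i
  have w2 : σ * (w i - y i) = 1 := by
    rcases hσ with rfl | rfl <;> simp [hw, ee]
  have mem : ∀ z, dist z w ≤ 1 → 0 ≤ σ * (z i - w i) →
      z ∈ (bx y 2).filter fun z => 1 ≤ σ * (z i - y i) := fun z h1 h2 =>
    mem_filter.2 ⟨mem_bx.2 (by push_cast; linarith [dist_triangle z w y]), by linarith⟩
  obtain ⟨y', h1, h2⟩ := Finset.exists_max_image _ (fun z => |u z|) ⟨w, mem w (by simp) (by simp)⟩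
  refine ⟨y', ⟨by exact_mod_cast mem_bx.1 (mem_filter.1 h1).1, (mem_filter.1 h1).2⟩, ?_⟩
  set m := |u y'| with hm
  have m0 : 0 ≤ m := abs_nonneg _
  have a1 : |(2 * d + v w - E) * u w| ≤ (2 * d + 2) * m := by
    rw [abs_mul]
    exact mul_le_mul (hv w) (h2 w (mem w (by simp) (by simp))) (abs_nonneg _) (by positivity)
  have a2 : |∑ j ∈ univ.erase i, (u (w + ee j) + u (w - ee j))| ≤ d * (2 * m) := by
    refine (Finset.abs_sum_le_sum_abs _ _).trans (sum_le_mul' (by positivity) ?_ fun j hj => ?_)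
    · exact_mod_cast (card_le_univ _).trans (Fintype.card_fin d).le
    · have hj' : i ≠ j := (ne_of_mem_erase hj).symm
      have b1 := h2 _ (mem (w + ee j) (dist_add_ee w j).le (by simp [ee, hj']))
      have b2 := h2 _ (mem (w - ee j) (dist_sub_ee w j).le (by simp [ee, hj']))
      linarith [abs_add_le (u (w + ee j)) (u (w - ee j))]
  have a3 : ∃ z, |u z| ≤ m ∧ u (w + ee i) + u (w - ee i) = u y + u z := by
    rcases hσ with rfl | rfl
    · exact ⟨w + ee i, h2 _ (mem _ (dist_add_ee w i).le (by simp [ee])), by simp [hw, add_comm]⟩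
    · exact ⟨w - ee i, h2 _ (mem _ (dist_sub_ee w i).le (by simp [ee])), by simp [hw]⟩
  obtain ⟨z, z1, z2⟩ := a3
  have e : u y = (2 * d + v w - E) * u w - TV v E u w - u z
      - ∑ j ∈ univ.erase i, (u (w + ee j) + u (w - ee j)) := by
    rw [TV, adj, ← Finset.add_sum_erase _ _ (mem_univ i), z2]
    ring
  rw [e]
  refine (abs_sub _ _).trans ?_
  linarith [abs_sub ((2 * d + v w - E) * u w - TV v E u w) (u z),
    abs_sub ((2 * d + v w - E) * u w) (TV v E u w)]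

lemma chain_ex {v : Zd d → ℝ} {E : ℝ} (hv : ∀ y, |2 * d + v y - E| ≤ 2 * d + 2) (i : Fin d)
    {G : Zd d} {L T : ℕ} (hT : T ≤ L) {u : Zd d → ℝ} (hu : ∀ y, y ∉ bx G (2 * L) → u y = 0)
    {w α : ℝ} (w0 : 0 < w) (hw : w * (8 * d + 6) ^ T ≤ 1) (α0 : 0 < α) {x0 : Zd d}
    (h0 : α ≤ |u x0|) (hF : ∀ y ∈ bx G (2 * L), |TV v E u y| ≤ w * α) :
    ∃ x : ℕ → Zd d, Chain i x ∧ ∀ t ≤ T, w * α ≤ |u (x t)| ∧ x t ∈ bx G (2 * L) := by
  obtain ⟨σ, hσ, s2⟩ : ∃ σ : ℤ, (σ = 1 ∨ σ = -1) ∧ σ * (x0 i - G i) ≤ 0 := by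
    rcases le_total (x0 i) (G i) with h | h
    · exact ⟨1, Or.inl rfl, by linarith⟩
    · exact ⟨-1, Or.inr rfl, by linarith⟩
  choose nx n1 n2 using cone hv u i hσ
  have hx : Chain i fun t => nx^[t] x0 :=
    ⟨σ, hσ, fun t => by simp only [Function.iterate_succ_apply']; exact n1 _⟩
  have C1 : (2 : ℝ) ≤ 8 * d + 6 := by linarith [Nat.cast_nonneg (α := ℝ) d]
  have inQ : ∀ (t : ℕ) (y : Zd d), α ≤ (8 * d + 6) ^ t * |u y| → y ∈ bx G (2 * L) := fun t y h => by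
    by_contra hc
    rw [hu y hc, abs_zero, mul_zero] at h
    linarith
  have key : ∀ t ≤ T, α ≤ (8 * d + 6) ^ t * |u (nx^[t] x0)| := by
    intro t ht
    induction t with
    | zero => simpa using h0
    | succ t ih =>
      have a := ih (by omega)
      have b := mem_bx'.1 (inQ t _ a)
      have c := (dist_le_iff (L := 2 * t)).1 (by simpa using hx.le 0 t) i
      rw [Function.iterate_succ_apply']
      set y := nx^[t] x0
      have e := hF (y + σ • ee i) (mem_bx'.2 fun j => by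
        have bj := b j
        by_cases hj : j = i
        · subst hj
          simp only [ee, Pi.add_apply, Pi.smul_apply, Pi.single_eq_same, smul_eq_mul, mul_one]
          push_cast at bj c ⊢
          rcases hσ with rfl | rfl <;> omega
        · simpa [ee, hj] using bj)
      have f1 : w * (2 * (8 * d + 6) ^ t) ≤ 1 := by
        refine le_trans ?_ hw
        have : (8 * d + 6 : ℝ) ^ (t + 1) ≤ (8 * d + 6) ^ T := pow_le_pow_right₀ (by linarith) ht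
        have : 2 * (8 * d + 6 : ℝ) ^ t ≤ (8 * d + 6) ^ (t + 1) := by
          rw [pow_succ']
          gcongr
        gcongr
        linarith
      have f2 : 2 * (w * α) ≤ |u y| := by
        nlinarith [mul_le_mul_of_nonneg_left a w0.le,
          mul_le_mul_of_nonneg_right f1 (abs_nonneg (u y))]
      have f3 : |u y| ≤ (8 * d + 6) * |u (nx y)| := by linarith [n2 y]
      rw [pow_succ, mul_assoc]
      exact a.trans (by gcongr)
  refine ⟨_, hx, fun t ht => ⟨?_, inQ t _ (key t ht)⟩⟩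
  have : w * (8 * d + 6) ^ t ≤ 1 := by
    refine le_trans ?_ hw
    gcongr
    linarith
  nlinarith [mul_le_mul_of_nonneg_left (key t ht) w0.le,
    mul_le_mul_of_nonneg_right this (abs_nonneg (u (nx^[t] x0)))]

variable (P : Par) (i : Fin d) (E : ℝ)

open Classical in
/-- hereditary defects -/
noncomputable def Th (ω : Zd d → Bool) (k D : ℕ) (Q : Finset (Zd d)) : Finset (Zd d) :=
  Q.filter fun z => ∀ j, k ≤ j + D → j ≤ k → ∀ g, Cov Q (P.c j) z g → Bad P i E ω j g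

open Classical in
/-- free sites far from the bad centre -/
noncomputable def Uf (ω : Zd d → Bool) (k l : ℕ) (zs : Zd d) (Q : Finset (Zd d)) : Finset (Zd d) :=
  Q.filter fun z => z ∉ Fr P i E ω k ∧ (l : ℝ) < dist z zs

open Classical in
/-- few bad centres -/
def Few (ω : Zd d → Bool) (j N : ℕ) (g : Zd d) : Prop :=
  ((bx g (3 * P.c (j + 1))).filter (Bad P i E ω j)).card < N

variable {P i E}

lemma H1Z {ω : Zd d → Bool} {k D : ℕ} {Q : Finset (Zd d)} {v : Zd d → ℝ} {Mx : ℝ} (M0 : 0 ≤ Mx)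
    (hγ : ∀ j, 2 * d * P.γ j ≤ 1 / 2) (hM : ∀ j ≤ k, P.M j + P.γ j ≤ Mx)
    (v1 : ∀ y, |v y| ≤ 1) (v2 : ∀ y ∈ Q, y ∈ Fr P i E ω k → v y = pot ω y)
    {ψ : Zd d → ℝ} (hψ : ∀ y, y ∉ Q → ψ y = 0) {a F : ℝ} (ha : 0 ≤ a) (F0 : 0 ≤ F)
    (h1 : ∀ y ∈ Th P i E ω k D Q, |ψ y| ≤ a) (h2 : ∀ y ∈ Q, |TV v E ψ y| ≤ F) :
    ∀ z ∈ Q, |ψ z| ≤ a + 2 * (Mx * F) := by
  refine maxp Q (fun y => |ψ y|) (by positivity) ha fun m hm y hy => ?_
  by_cases hT : y ∈ Th P i E ω k D Q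
  · exact Or.inl (h1 y hT)
  · simp only [Th, mem_filter, hy, true_and, not_forall] at hT
    obtain ⟨j, -, j2, g, g1, g2⟩ := hT
    have m0 := (abs_nonneg _).trans (hm y hy)
    have := (loc_of_cov g1 hy g2 v1 fun w w1 w2 => v2 w w1 (Fr_mono ω j2 w2)).mono le_rfl (hγ j)
      (hM j j2) ψ hψ m F m0 F0 (fun w _ => by
        by_cases hw : w ∈ Q
        · exact hm w hw
        · rwa [hψ w hw, abs_zero]) (fun w w1 _ => h2 w w1)
    exact Or.inr (by linarith)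

lemma card_Th {ω : Zd d → Bool} {k D N : ℕ} {Q : Finset (Zd d)} {G : Zd d} (hD : D ≤ k)
    (hc : ∀ j, 2 * P.c j ≤ P.c (j + 1)) (hQ : Q ⊆ bx G (2 * P.c (k + 1)))
    (hcov : ∀ j ≤ k, ∀ z ∈ Q, ∃ g, Cov Q (P.c j) z g)
    (few : ∀ j, k ≤ j + D → j ≤ k → ∀ g ∈ bx G (2 * P.c (k + 1)), Few P i E ω j N g) :
    (Th P i E ω k D Q).card ≤ N ^ (D + 1) * (4 * P.c (k - D) + 1) ^ d := by
  classical
  have key : ∀ t ≤ D + 1, ∃ B ⊆ bx G (2 * P.c (k + 1)), B.card ≤ N ^ t ∧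
      ∀ z ∈ Th P i E ω k D Q, ∃ g ∈ B, dist z g ≤ 2 * P.c (k + 1 - t) := by
    intro t ht
    induction t with
    | zero =>
      refine ⟨{G}, by simpa using self_mem_bx _ _, by simp, fun z hz => ⟨G, mem_singleton_self _, ?_⟩⟩
      simpa using mem_bx.1 (hQ (mem_filter.1 hz).1)
    | succ t ih =>
      obtain ⟨B, B1, B2, B3⟩ := ih (by omega)
      obtain ⟨j, rfl⟩ : ∃ j, k = j + t := ⟨k - t, by omega⟩
      rw [show j + t + 1 - t = j + 1 by omega] at B3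
      rw [show j + t + 1 - (t + 1) = j by omega]
      refine ⟨(B.biUnion fun g => (bx g (3 * P.c (j + 1))).filter (Bad P i E ω j))
        ∩ bx G (2 * P.c (j + t + 1)), inter_subset_right, ?_, fun z hz => ?_⟩
      · refine (card_le_card inter_subset_left).trans ((card_biUnion_le_card_mul _ _ N
          fun g hg => (few j (by omega) (by omega) g (B1 hg)).le).trans ?_)
        rw [pow_succ]
        exact Nat.mul_le_mul_right _ B2
      · obtain ⟨z1, z2⟩ := mem_filter.1 hz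
        obtain ⟨g, hg⟩ := hcov j (by omega) z z1
        obtain ⟨g', g1, g2⟩ := B3 z hz
        have g3 := hg.dist_le z1
        have c1 : (2 * P.c j : ℝ) ≤ P.c (j + 1) := by exact_mod_cast hc j
        refine ⟨g, mem_inter.2 ⟨mem_biUnion.2 ⟨g', g1, mem_filter.2 ⟨mem_bx.2 ?_,
          z2 j (by omega) (by omega) g hg⟩⟩, hQ hg.mem⟩, g3⟩
        push_cast
        linarith [dist_triangle_left g g' z]
  obtain ⟨B, -, B2, B3⟩ := key (D + 1) le_rfl
  rw [show k + 1 - (D + 1) = k - D by omega] at B3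
  refine (card_le_card (t := B.biUnion fun g => bx g (2 * P.c (k - D))) fun z hz => ?_).trans
    ((card_biUnion_le_card_mul _ _ _ fun g _ => le_of_eq ?_).trans (Nat.mul_le_mul_right _ B2))
  · obtain ⟨g, g1, g2⟩ := B3 z hz
    exact mem_biUnion.2 ⟨g, g1, mem_bx.2 (by exact_mod_cast g2)⟩
  · rw [card_bx]
    congr 1
    ring

lemma H2Z {ω : Zd d → Bool} {k D l j0 S0 : ℕ} {S : ℕ → ℕ} {Q : Finset (Zd d)} {v : Zd d → ℝ}
    {zs x : Zd d} (γ0 : ∀ j, 0 ≤ P.γ j) (hγ : ∀ j, 2 * d * P.γ j ≤ 1 / 2) (M0 : ∀ j, 0 ≤ P.M j)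
    (hc : ∀ j ≤ k, P.c j ≤ P.c k)
    (hS : ∀ j, S j * (4 * P.c j + 1) + 3 * P.c j ≤ 4 * (P.J j * P.c j))
    (hS2 : ∀ j, 4 * (P.J j * P.c j) ≤ P.c (j + 1))
    (hS3 : ∀ j, (2 * d * P.γ j) ^ S j * (4 * (P.M (j + 1) + P.γ (j + 1))) ≤ 2 * (P.M j + P.γ j))
    (hS0 : S0 * (4 * P.c k + 1) + 11 * P.c k ≤ l) (hj0 : j0 < k)
    (hcov : ∀ j ≤ k, ∀ z ∈ Q, ∃ g, Cov Q (P.c j) z g)
    (one : ∀ g ∈ Q, Bad P i E ω k g → dist g zs ≤ 8 * P.c k)
    (v1 : ∀ y, |v y| ≤ 1) (v2 : ∀ y ∈ Q, y ∈ Fr P i E ω k → v y = pot ω y)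
    (hx : x ∈ Uf P i E ω k l zs Q) {ψ : Zd d → ℝ} (hψ : ∀ y, y ∉ Q → ψ y = 0) {a F Fn : ℝ}
    (ha : 0 ≤ a) (F0 : 0 ≤ F) (n0 : 0 ≤ Fn)
    (h0 : ∀ y ∈ Q, dist y x ≤ P.c (j0 + 1) → y ∉ Th P i E ω k D Q → |TV v E ψ y| ≤ Fn)
    (h1 : ∀ y ∈ Q, y ∉ Th P i E ω k D Q → |TV v E ψ y| ≤ F) (h2 : ∀ y, |ψ y| ≤ a) :
    |ψ x| ≤ 2 * (P.M j0 + P.γ j0) * Fn
      + (2 * d * P.γ j0) ^ S j0 * (4 * (P.M (j0 + 1) + P.γ (j0 + 1))) * F
      + (2 * d * P.γ k) ^ S0 * a := by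
  classical
  obtain ⟨x1, x2, x3⟩ := mem_filter.1 hx
  have s0 : (S0 * (4 * P.c k + 1) + 11 * P.c k : ℝ) ≤ l := by exact_mod_cast hS0
  have θ0 : ∀ j, 0 ≤ 2 * d * P.γ j := fun j => by have := γ0 j; positivity
  have M1 : ∀ j, 0 ≤ P.M j + P.γ j := fun j => add_nonneg (M0 j) (γ0 j)
  have top : ∀ y ∈ Q, dist y x ≤ S0 * (4 * P.c k + 1) + P.c k →
      ∀ g, Cov Q (P.c k) y g → ¬ Bad P i E ω k g := fun y hy a1 g hg hb => by
    linarith [one g hg.mem hb, hg.dist_le hy, dist_triangle4 x y g zs, dist_comm x y]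
  have nT : ∀ y ∈ Q, dist y x ≤ S0 * (4 * P.c k + 1) + P.c k → y ∉ Th P i E ω k D Q :=
    fun y hy a1 hT => by
      obtain ⟨g, hg⟩ := hcov k le_rfl y hy
      exact top y hy a1 g hg ((mem_filter.1 hT).2 k (by omega) le_rfl g hg)
  set ζ := (2 * d * P.γ k) ^ S0 with hζ
  have ζ0 : 0 ≤ ζ := pow_nonneg (θ0 k) _
  have p0 : (0 : ℝ) ≤ S0 * (4 * P.c k + 1) := by positivity
  have down : ∀ j < k, (∀ y ∈ Q, dist y x ≤ P.c (j + 1) →
      |ψ y| ≤ ζ * a + 4 * (P.M (j + 1) + P.γ (j + 1)) * F) → ∀ y ∈ Q, dist y x ≤ P.c j →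
      ∀ Fn, 0 ≤ Fn → (∀ y ∈ Q, dist y x ≤ P.c (j + 1) → y ∉ Th P i E ω k D Q → |TV v E ψ y| ≤ Fn) →
      |ψ y| ≤ (2 * d * P.γ j) ^ S j * (ζ * a + 4 * (P.M (j + 1) + P.γ (j + 1)) * F)
        + 2 * (P.M j + P.γ j) * Fn := by
    intro j hj ih y hy hyx Fn n0 hn
    have s1 : (S j * (4 * P.c j + 1) + 3 * P.c j : ℝ) ≤ 4 * (P.J j * P.c j) := by
      exact_mod_cast hS j
    have s2 : (4 * (P.J j * P.c j) : ℝ) ≤ P.c (j + 1) := by exact_mod_cast hS2 j
    have s3 : (P.c (j + 1) : ℝ) ≤ P.c k := by exact_mod_cast hc (j + 1) hj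
    have c0 : (0 : ℝ) ≤ P.c j := Nat.cast_nonneg _
    have := M1 (j + 1)
    refine Loc.iter (v := v) (E := E) (Λ := Q) (ρ := 4 * P.c j + 1) (by positivity) (θ0 j) (hγ j)
      (M1 j) (S j) y hy (fun w w1 w2 => ?_) ψ hψ _ Fn (by positivity) n0 (fun w w2 => ?_)
      (fun w w1 w2 => hn w w1 (by linarith [dist_triangle w y x])
        (nT w w1 (by linarith [dist_triangle w y x])))
    · obtain ⟨g, hg⟩ := hcov j hj.le w w1
      refine loc_of_cov hg w1 (fun hb => x2 (Fr_mono ω hj (mem_Fr_succ.2 (Or.inr ⟨g, hb, ?_⟩)))) v1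
        fun w w1 w2 => v2 w w1 (Fr_mono ω hj.le w2)
      linarith [hg.dist_le w1, dist_triangle4 x y w g, dist_comm x y, dist_comm y w]
    · by_cases w1 : w ∈ Q
      · exact ih w w1 (by linarith [dist_triangle w y x])
      · rw [hψ w w1, abs_zero]
        positivity
  have claim : ∀ t j, j + t = k → ∀ y ∈ Q, dist y x ≤ P.c j →
      |ψ y| ≤ ζ * a + 4 * (P.M j + P.γ j) * F := by
    intro t
    induction t with
    | zero =>
      rintro j rfl y hy hyx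
      have := Loc.iter (v := v) (E := E) (Λ := Q) (ρ := 4 * P.c j + 1) (by positivity) (θ0 j) (hγ j)
        (M1 j) S0 y hy (fun w w1 w2 => by
          obtain ⟨g, hg⟩ := hcov j le_rfl w w1
          exact loc_of_cov hg w1 (top w w1 (by
            simp only [add_zero]
            linarith [dist_triangle w y x]) g hg) v1 v2)
        ψ hψ a F ha F0 (fun w _ => h2 w) (fun w w1 w2 => h1 w w1 (nT w w1 (by
          simp only [add_zero]
          linarith [dist_triangle w y x])))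
      simp only [add_zero] at hζ
      rw [← hζ] at this
      nlinarith [mul_nonneg (M1 j) F0]
    | succ t ih =>
      intro j hj y hy hyx
      have b1 := down j (by omega) (ih (j + 1) (by omega)) y hy hyx F F0 fun w w1 _ => h1 w w1
      have b2 : (2 * d * P.γ j) ^ S j ≤ 1 := pow_le_one₀ (θ0 j) (by linarith [hγ j])
      nlinarith [mul_le_mul_of_nonneg_right (hS3 j) F0,
        mul_le_mul_of_nonneg_right b2 (mul_nonneg ζ0 ha)]
  have b1 := down j0 hj0 (claim (k - (j0 + 1)) (j0 + 1) (by omega)) x x1 (by simp) Fn n0 h0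
  have b2 : (2 * d * P.γ j0) ^ S j0 ≤ 1 := pow_le_one₀ (θ0 j0) (by linarith [hγ j0])
  nlinarith [mul_le_mul_of_nonneg_right b2 (mul_nonneg ζ0 ha)]

lemma H3Z {ω : Zd d → Bool} {k l L T : ℕ} {G zs : Zd d} {v : Zd d → ℝ}
    (hv : ∀ y, |2 * d + v y - E| ≤ 2 * d + 2) (hT : T ≤ L) (hl : 10 * P.c k ≤ l)
    (hT2 : 2 * (l + P.c k) + 1 + P.p k ≤ T) (hp : 2 * P.p k ≤ P.c k)
    (hcov : ∀ z ∈ bx G (2 * L), ∃ g, Cov (bx G (2 * L)) (P.c k) z g)
    (one : ∀ g ∈ bx G (2 * L), Bad P i E ω k g → dist g zs ≤ 8 * P.c k)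
    {u : Zd d → ℝ} (hu : ∀ y, y ∉ bx G (2 * L) → u y = 0)
    {w α : ℝ} (w0 : 0 < w) (hw : w * (8 * d + 6) ^ T ≤ 1) (α0 : 0 < α) {x0 : Zd d}
    (h0 : α ≤ |u x0|) (hF : ∀ y ∈ bx G (2 * L), |TV v E u y| ≤ w * α) :
    ∃ S ⊆ Uf P i E ω k l zs (bx G (2 * L)), P.f k ≤ S.card ∧ ∀ x ∈ S, w * α ≤ |u x| := by
  classical
  obtain ⟨x, hx, h⟩ := chain_ex hv i hT hu w0 hw α0 h0 hF
  obtain ⟨a, a1, a2⟩ : ∃ a, a + P.p k ≤ T ∧ (l + P.c k : ℝ) < dist (x a) zs := by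
    by_cases h1 : (l + P.c k : ℝ) < dist (x 0) zs
    · exact ⟨0, by omega, h1⟩
    · exact ⟨2 * (l + P.c k) + 1, hT2, hx.far (not_lt.1 h1) (by push_cast; linarith)⟩
  have l1 : (10 * P.c k : ℝ) ≤ l := by exact_mod_cast hl
  have c0 : (0 : ℝ) ≤ P.c k := Nat.cast_nonneg _
  obtain ⟨g, hg⟩ := hcov _ (h a (by omega)).2
  have b := sparse_of_cov (ω := ω) (E := E) (hx.shift a) hg (fun hb => by
    linarith [one g hg.mem hb, hg.dist_le (h a (by omega)).2, dist_triangle (x a) g zs]) hp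
    fun t ht => (h _ (by omega)).2
  refine ⟨((range (P.p k)).filter fun t => x (a + t) ∉ Fr P i E ω k).image fun t => x (a + t),
    fun y hy => ?_, b.trans (le_of_eq ?_), fun y hy => ?_⟩
  · obtain ⟨t, t1, rfl⟩ := mem_image.1 hy
    obtain ⟨t2, t3⟩ := mem_filter.1 t1
    have t4 := mem_range.1 t2
    refine mem_filter.2 ⟨(h _ (by omega)).2, t3, ?_⟩
    have b6 : (2 * t : ℝ) ≤ P.c k := by exact_mod_cast (by omega : 2 * t ≤ P.c k)
    linarith [hx.le a t, dist_triangle_left (x a) zs (x (a + t))]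
  · rw [card_image_of_injective, card_filter]
    · exact Finset.sum_congr rfl fun t _ => by split_ifs <;> rfl
    · have : ∀ s t, s ≤ t → x (a + s) = x (a + t) → s = t := fun s t hst e => by
        obtain ⟨r, rfl⟩ := Nat.exists_eq_add_of_le hst
        have := hx.ge (a + s) r
        rw [add_assoc, ← e, dist_self] at this
        have : r = 0 := by exact_mod_cast le_antisymm this (Nat.cast_nonneg r)
        omega
      intro s t e
      rcases le_total s t with h | h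
      · exact this s t h e
      · exact (this t s h e.symm).symm
  · obtain ⟨t, t1, rfl⟩ := mem_image.1 hy
    have t4 := mem_range.1 (mem_filter.1 t1).1
    exact (h _ (by omega)).1

end Pool.Agent.P.MP_d0f69c_mp
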