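import Pool.Agent.P.MP_d0f69c_mp.Prob

set_option autoImplicit false

open Finset MeasureTheory ProbabilityTheory

namespace Pool.Agent.P.MP_d0f69c_mp

variable {d : ℕ}

/-- squared norm of the difference in direction `h` -/
noncomputable def DD (W : Zd d → ℝ) (h : Zd d) : ℝ := ∑' x, (W (x + h) - W x) ^ 2

lemma hasSum_shift {f : Zd d → ℝ} {a : ℝ} (hf : HasSum f a) (h : Zd d) :
    HasSum (fun x => f (x + h)) a := (Equiv.addRight h).hasSum_iff.2 hf

lemma hasSum_DD {W : Zd d → ℝ} (hW : Summable fun x => W x ^ 2) (h : Zd d) :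
    HasSum (fun x => (W (x + h) - W x) ^ 2) (DD W h) := by
  apply Summable.hasSum
  refine Summable.of_nonneg_of_le (fun _ => sq_nonneg _) (fun x => ?_)
    (((hasSum_shift hW.hasSum h).summable.mul_left 2).add (hW.mul_left 2))
  nlinarith [sq_nonneg (W (x + h) + W x)]

lemma DD_nonneg (W : Zd d → ℝ) (h : Zd d) : 0 ≤ DD W h := tsum_nonneg fun _ => sq_nonneg _

lemma DD_sum {W : Zd d → ℝ} (hW : Summable fun x => W x ^ 2) {ι : Type} (s : Finset ι)
    (g : ι → Zd d) : DD W (∑ j ∈ s, g j) ≤ s.card * ∑ j ∈ s, DD W (g j) := by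
  classical
  induction s using Finset.induction_on with
  | empty => simp [DD]
  | insert a s ha ih =>
    rw [Finset.sum_insert ha, Finset.sum_insert ha, Finset.card_insert_of_notMem ha]
    rcases s.eq_empty_or_nonempty with rfl | hs
    · simp
    have N0 : (0 : ℝ) < s.card := by exact_mod_cast hs.card_pos
    set N : ℝ := (s.card : ℝ) with hN
    set G := ∑ j ∈ s, g j with hG
    have key : N * DD W (g a + G) ≤ N * (N + 1) * DD W (g a) + (N + 1) * DD W G := by
      refine hasSum_le (fun x => ?_) ((hasSum_DD hW _).mul_left N)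
        (((hasSum_shift (hasSum_DD hW (g a)) G).mul_left (N * (N + 1))).add
          ((hasSum_DD hW G).mul_left (N + 1)))
      rw [show x + (g a + G) = x + G + g a by abel]
      nlinarith [sq_nonneg (N * (W (x + G + g a) - W (x + G)) - (W (x + G) - W x))]
    push_cast
    have h2 : (N + 1) * DD W G ≤ (N + 1) * (N * ∑ j ∈ s, DD W (g j)) := by gcongr
    apply le_of_mul_le_mul_left _ N0
    linarith

/-- the cube `[0, r) ^ d` -/
noncomputable def cube (d r : ℕ) : Finset (Zd d) :=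
  Fintype.piFinset fun _ : Fin d => Finset.Ico (0 : ℤ) r

lemma card_cube (d r : ℕ) : (cube d r).card = r ^ d := by
  rw [cube, Fintype.card_piFinset]
  simp

lemma DD_cube {W : Zd d → ℝ} (hW : Summable fun x => W x ^ 2) {r : ℕ} {h : Zd d}
    (hh : h ∈ cube d r) : DD W h ≤ d * r ^ 2 * ∑ i, DD W (ee i) := by
  have h1 := DD_sum hW univ (fun i : Fin d => (Pi.single i (h i) : Zd d))
  rw [Finset.univ_sum_single, Finset.card_univ, Fintype.card_fin] at h1
  refine h1.trans ?_
  rw [mul_assoc, Finset.mul_sum _ _ ((r : ℝ) ^ 2)]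
  refine mul_le_mul_of_nonneg_left (Finset.sum_le_sum fun i _ => ?_) (Nat.cast_nonneg d)
  have hi := Finset.mem_Ico.1 (Fintype.mem_piFinset.1 hh i)
  obtain ⟨n, hn⟩ := Int.eq_ofNat_of_zero_le hi.1
  have h2 := DD_sum hW (range n) (fun _ => ee i)
  have e : (Pi.single i (h i) : Zd d) = ∑ _j ∈ range n, ee i := by
    rw [Finset.sum_const, Finset.card_range, ee, ← Pi.single_smul, hn]
    simp
  rw [e]
  refine h2.trans ?_
  rw [Finset.sum_const, Finset.card_range, nsmul_eq_mul, ← mul_assoc]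
  have : (n : ℝ) ≤ r := by
    have := hi.2
    rw [hn] at this
    exact_mod_cast this.le
  have := DD_nonneg W (ee i)
  rw [pow_two]
  gcongr

lemma poincare {W χ : Zd d → ℝ} {r : ℕ} (hr : 1 ≤ r) (hW : Summable fun x => W x ^ 2)
    (h0 : ∀ y, 0 ≤ χ y) (h1 : ∀ y, χ y ≤ 1)
    (hd : ∀ x, W x ≠ 0 → (r : ℝ) ^ d / 4 ≤ ∑ h ∈ cube d r, χ (x + h)) :
    ∑' x, W x ^ 2 ≤ 8 * ∑' x, χ x * W x ^ 2 + 8 * d * r ^ 2 * ∑ i, DD W (ee i) := by
  have hX : Summable fun x => χ x * W x ^ 2 :=
    Summable.of_nonneg_of_le (fun x => mul_nonneg (h0 x) (sq_nonneg _))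
      (fun x => mul_le_of_le_one_left (sq_nonneg _) (h1 x)) hW
  have key : (r : ℝ) ^ d / 4 * ∑' x, W x ^ 2
      ≤ ∑ h ∈ cube d r, (2 * ∑' x, χ x * W x ^ 2 + 2 * DD W h) := by
    refine hasSum_le (fun x => ?_) (hW.hasSum.mul_left _) (hasSum_sum fun h _ =>
      ((hasSum_shift hX.hasSum h).mul_left 2).add ((hasSum_DD hW h).mul_left 2))
    by_cases hx : W x = 0
    · rw [hx]
      simp only [ne_eq, OfNat.ofNat_ne_zero, not_false_eq_true, zero_pow, mul_zero]
      exact Finset.sum_nonneg fun h _ => by have := h0 (x + h); positivity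
    · refine (mul_le_mul_of_nonneg_right (hd x hx) (sq_nonneg _)).trans ?_
      rw [Finset.sum_mul]
      refine Finset.sum_le_sum fun h _ => ?_
      nlinarith [mul_nonneg (h0 (x + h)) (sq_nonneg (W (x + h) + (W (x + h) - W x))),
        mul_nonneg (sub_nonneg.2 (h1 (x + h))) (sq_nonneg (W (x + h) - W x))]
  have k2 : ∑ h ∈ cube d r, (2 * ∑' x, χ x * W x ^ 2 + 2 * DD W h)
      ≤ (r : ℝ) ^ d * (2 * ∑' x, χ x * W x ^ 2 + 2 * (d * r ^ 2 * ∑ i, DD W (ee i))) := by
    refine (Finset.sum_le_card_nsmul _ _ _ fun h hh =>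
      add_le_add le_rfl (mul_le_mul_of_nonneg_left (DD_cube hW hh) zero_le_two)).trans ?_
    rw [card_cube, nsmul_eq_mul]
    push_cast
    exact le_rfl
  have r0 : (0 : ℝ) < (r : ℝ) ^ d := by positivity
  apply le_of_mul_le_mul_left _ r0
  linarith

theorem combes {ω : Zd d → Bool} {E δ v : ℝ} {χ : Zd d → ℝ} {r L : ℕ} (hd1 : 1 ≤ d) (hr : 1 ≤ r)
    (h0 : ∀ y, 0 ≤ χ y) (h1 : ∀ y, χ y ≤ 1)
    (hdiag : ∀ y, 2 * d + 2 * χ y - δ ≤ |2 * d + pot ω y - E|)
    (hδ : δ ≤ 1 / (64 * d * r ^ 2)) (hv : ((box d L).card : ℝ) ≤ v)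
    (hd : ∀ x ∈ box d L, (r : ℝ) ^ d / 4 ≤ ∑ h ∈ cube d r, χ (x + h)) :
    Est ω E L 0 (32 * d * r ^ 2 * (v * (2 * d * Real.exp (-(1 / (256 * d ^ 2 * r ^ 2)) * (L - 1)))))
      (32 * d * r ^ 2) := by
  intro u
  have d1 : (1 : ℝ) ≤ d := by exact_mod_cast hd1
  have r1 : (1 : ℝ) ≤ r := by exact_mod_cast hr
  have dr : 1 ≤ (d : ℝ) * r ^ 2 := one_le_mul_of_one_le_of_one_le d1 (one_le_pow₀ r1)
  set s : ℝ := 1 / (256 * d ^ 2 * r ^ 2) with hs
  have s0 : 0 < s := by positivity
  have s1 : s ≤ 1 := by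
    rw [hs, div_le_one (by positivity)]
    nlinarith
  set S := ∑ y ∈ shell d L, |u y| with hS
  set F := ∑ y ∈ box d L, |TT ω E u y| with hF
  have S0 : 0 ≤ S := Finset.sum_nonneg fun _ _ => abs_nonneg _
  let w : Zd d → ℝ := fun y => Real.exp (-s * ‖y‖)
  let U := cut L u
  let W : Zd d → ℝ := fun y => w y * |U y|
  have w0 : ∀ y, 0 < w y := fun y => Real.exp_pos _
  have W0 : ∀ y, 0 ≤ W y := fun y => mul_nonneg (w0 y).le (abs_nonneg _)
  have Wz : ∀ y, y ∉ box d L → W y = 0 := fun y hy => by simp [W, U, cut, hy]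
  have hW : Summable fun x => W x ^ 2 :=
    summable_of_ne_finset_zero (s := box d L) fun y hy => by simp [Wz y hy]
  have hX : Summable fun x => χ x * W x ^ 2 :=
    summable_of_ne_finset_zero (s := box d L) fun y hy => by simp [Wz y hy]
  have hY : HasSum (fun y => W y * (w y * |TT ω E U y|))
      (∑ y ∈ box d L, W y * (w y * |TT ω E U y|)) :=
    hasSum_sum_of_ne_finset_zero fun y hy => by simp [Wz y hy]
  set N := ∑' x, W x ^ 2 with hN
  set X := ∑' x, χ x * W x ^ 2 with hXd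
  set D := ∑ i, DD W (ee i) with hD
  have N0 : 0 ≤ N := tsum_nonneg fun _ => sq_nonneg _
  have X0 : 0 ≤ X := tsum_nonneg fun x => mul_nonneg (h0 x) (sq_nonneg _)
  have D0 : 0 ≤ D := Finset.sum_nonneg fun _ _ => DD_nonneg _ _
  have P := poincare hr hW h0 h1 (fun x hx => hd x (by by_contra h; exact hx (Wz x h)))
  have ww : ∀ y y' : Zd d, ‖y'‖ ≤ ‖y‖ + 1 → w y * |U y'| ≤ (1 + 2 * s) * W y' := by
    intro y y' h
    have a1 : w y ≤ Real.exp s * w y' := by
      simp only [w]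
      rw [← Real.exp_add]
      apply Real.exp_le_exp.2
      nlinarith
    have a2 : Real.exp s ≤ 1 + 2 * s := by
      have := Real.abs_exp_sub_one_le (x := s) (by rw [abs_of_pos s0]; exact s1)
      rw [abs_of_pos s0] at this
      linarith [le_abs_self (Real.exp s - 1)]
    have := w0 y'
    simp only [W]
    rw [← mul_assoc]
    apply mul_le_mul_of_nonneg_right _ (abs_nonneg _)
    nlinarith
  have key : 2 * d * N + 2 * X - δ * N ≤ (∑ y ∈ box d L, W y * (w y * |TT ω E U y|)) +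
      ∑ i : Fin d, ((1 + 2 * s) * (N + (1 / 2) * N + (1 / 2) * N) - (1 / 2) * DD W (ee i)) := by
    refine hasSum_le (fun y => ?_)
      (((hW.hasSum.mul_left (2 * (d : ℝ))).add (hX.hasSum.mul_left 2)).sub (hW.hasSum.mul_left δ))
      (hY.add (hasSum_sum fun i _ => (((hW.hasSum.add
        ((hasSum_shift hW.hasSum (ee i)).mul_left (1 / 2))).add
        ((hasSum_shift hW.hasSum (-ee i)).mul_left (1 / 2))).mul_left (1 + 2 * s)).sub
        ((hasSum_DD hW (ee i)).mul_left (1 / 2))))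
    have a1 : (2 * d + 2 * χ y - δ) * |U y| ≤ |TT ω E U y| +
        ∑ i : Fin d, (|U (y + ee i)| + |U (y - ee i)|) := by
      refine (mul_le_mul_of_nonneg_right (hdiag y) (abs_nonneg _)).trans ?_
      rw [← abs_mul]
      have e : (2 * d + pot ω y - E) * U y = TT ω E U y + adj U y := by simp [TT]
      rw [e]
      refine (abs_add_le _ _).trans (add_le_add le_rfl ?_)
      exact (Finset.abs_sum_le_sum_abs _ _).trans (Finset.sum_le_sum fun i _ => abs_add_le _ _)
    have a2 := mul_le_mul_of_nonneg_left a1 (mul_nonneg (W0 y) (w0 y).le)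
    have a3 : W y * w y * ∑ i : Fin d, (|U (y + ee i)| + |U (y - ee i)|) ≤ ∑ i : Fin d,
        ((1 + 2 * s) * (W y ^ 2 + 1 / 2 * W (y + ee i) ^ 2 + 1 / 2 * W (y + -ee i) ^ 2)
          - 1 / 2 * (W (y + ee i) - W y) ^ 2) := by
      rw [Finset.mul_sum]
      refine Finset.sum_le_sum fun i _ => ?_
      rw [← sub_eq_add_neg]
      have b1 := mul_le_mul_of_nonneg_left
        (ww y (y + ee i) (by linarith [norm_add_le y (ee i), norm_ee i])) (W0 y)
      have b2 := mul_le_mul_of_nonneg_left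
        (ww y (y - ee i) (by linarith [norm_sub_le y (ee i), norm_ee i])) (W0 y)
      nlinarith [sq_nonneg (W (y - ee i) - W y), mul_nonneg s0.le (sq_nonneg (W (y - ee i) - W y)),
        mul_nonneg s0.le (sq_nonneg (W (y + ee i) - W y))]
    have a4 : W y * w y * ((2 * d + 2 * χ y - δ) * |U y|)
        = 2 * d * W y ^ 2 + 2 * (χ y * W y ^ 2) - δ * W y ^ 2 := by
      simp only [W]
      ring
    linarith
  rw [Finset.sum_sub_distrib, Finset.sum_const, ← Finset.mul_sum, ← hD, Finset.card_univ,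
    Fintype.card_fin, nsmul_eq_mul] at key
  rw [← hN, ← hXd, ← hD] at P
  set Γ := ∑ y ∈ box d L, w y * |TT ω E U y| with hΓ
  have Γ0 : 0 ≤ Γ := Finset.sum_nonneg fun y _ => mul_nonneg (w0 y).le (abs_nonneg _)
  have Wn : ∀ y, W y ≤ Real.sqrt N := fun y =>
    Real.le_sqrt_of_sq_le (hW.le_tsum y fun _ _ => sq_nonneg _)
  have Yb : ∑ y ∈ box d L, W y * (w y * |TT ω E U y|) ≤ Real.sqrt N * Γ := by
    rw [hΓ, Finset.mul_sum]
    exact Finset.sum_le_sum fun y _ =>
      mul_le_mul_of_nonneg_right (Wn y) (mul_nonneg (w0 y).le (abs_nonneg _))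
  have c1 : 16 * (d * r ^ 2) * (δ + 4 * d * s) ≤ 1 / 2 := by
    have a1 : 16 * (d * r ^ 2) * δ ≤ 16 * (d * r ^ 2) * (1 / (64 * d * r ^ 2)) := by gcongr
    have a2 : 16 * ((d : ℝ) * r ^ 2) * (1 / (64 * d * r ^ 2)) = 1 / 4 := by field_simp; norm_num
    have a3 : 16 * ((d : ℝ) * r ^ 2) * (4 * d * s) = 1 / 4 := by rw [hs]; field_simp; norm_num
    linarith
  have c2 : D / 2 + 2 * X ≤ Real.sqrt N * Γ + (δ + 4 * d * s) * N := by linarith
  have c3 : N ≤ 16 * (d * r ^ 2) * (D / 2 + 2 * X) := by nlinarith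
  have c4 : N ≤ 32 * d * r ^ 2 * (Real.sqrt N * Γ) := by
    have a1 := mul_le_mul_of_nonneg_left c2 (by positivity : 0 ≤ 16 * ((d : ℝ) * r ^ 2))
    have a2 := mul_le_mul_of_nonneg_right c1 N0
    nlinarith
  have c5 : Real.sqrt N ≤ 32 * d * r ^ 2 * Γ := by
    rcases eq_or_lt_of_le (Real.sqrt_nonneg N) with h | h
    · rw [← h]
      positivity
    · apply le_of_mul_le_mul_left _ h
      rw [Real.mul_self_sqrt N0]
      linarith
  have z0 : (0 : Zd d) ∈ box d L := mem_box.2 (by simp)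
  have c6 : |u 0| = W 0 := by simp [W, w, U, cut, z0]
  have c7 : Γ ≤ F + v * (2 * d * Real.exp (-s * (L - 1)) * S) := by
    have : ∀ y ∈ box d L, w y * |TT ω E U y|
        ≤ |TT ω E u y| + 2 * d * Real.exp (-s * (L - 1)) * S := by
      intro y hy
      have w1 : w y ≤ 1 := Real.exp_le_one_iff.2 (by nlinarith [norm_nonneg y])
      by_cases hy2 : ‖y‖ ≤ L - 1
      · have e : TT ω E U y = TT ω E u y := by
          simp only [TT, adj, U, cut, if_pos hy]
          congr 1
          apply Finset.sum_congr rfl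
          intro i _
          rw [if_pos (mem_box.2 (by linarith [norm_add_le y (ee i), norm_ee i])),
            if_pos (mem_box.2 (by linarith [norm_sub_le y (ee i), norm_ee i]))]
        rw [e]
        have : 0 ≤ 2 * d * Real.exp (-s * (L - 1)) * S := by positivity
        nlinarith [abs_nonneg (TT ω E u y)]
      · have w2 : w y ≤ Real.exp (-s * (L - 1)) := Real.exp_le_exp.2 (by nlinarith)
        have a1 := mul_le_mul_of_nonneg_left (abs_TT_cut ω E u hy) (w0 y).le
        have a2 : w y * (2 * d * S) ≤ Real.exp (-s * (L - 1)) * (2 * d * S) := by gcongr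
        nlinarith [abs_nonneg (TT ω E u y)]
    refine (Finset.sum_le_sum this).trans ?_
    rw [Finset.sum_add_distrib]
    exact add_le_add le_rfl (sum_le_mul (by positivity) hv (fun _ _ => le_rfl))
  rw [c6]
  refine (Wn 0).trans (c5.trans ?_)
  refine (mul_le_mul_of_nonneg_left c7 (by positivity)).trans (le_of_eq ?_)
  ring

/-- indicator of the sites with value `b` -/
noncomputable def chi (ω : Zd d → Bool) (b : Bool) (y : Zd d) : ℝ := if ω y = b then 1 else 0

lemma hoeff (b : Bool) {r : ℕ} (hr : 1 ≤ r) :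
    (PP d).real {ω | ¬ (r : ℝ) ^ d / 4 ≤ ∑ h ∈ cube d r, chi ω b h} ≤ Real.exp (-(r : ℝ) ^ d / 8) := by
  let f : Bool → ℝ := fun a => if a = b then -1 / 2 else 1 / 2
  have h1 : iIndepFun (fun (y : Zd d) (ω : Zd d → Bool) => f (ω y)) (PP d) :=
    iIndepFun_infinitePi (X := fun _ a => f a) (fun _ => Measurable.of_discrete)
  have h2 : ∀ y : Zd d, HasSubgaussianMGF (fun ω : Zd d → Bool => f (ω y))
      ((‖(1 / 2 : ℝ) - (-1 / 2)‖₊ / 2) ^ 2) (PP d) := by
    intro y
    apply hasSubgaussianMGF_of_mem_Icc_of_integral_eq_zero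
    · exact ((Measurable.of_discrete (f := f)).comp
        (measurable_pi_apply (X := fun _ : Zd d => Bool) y)).aemeasurable
    · refine ae_of_all _ fun ω => ?_
      simp only [f]
      split_ifs <;> norm_num
    · have := integral_map (μ := PP d) (φ := fun ω : Zd d → Bool => ω y)
        (measurable_pi_apply y).aemeasurable (f := f) Measurable.of_discrete.aestronglyMeasurable
      rw [← this, PP, Measure.infinitePi_map_eval, PMF.integral_eq_sum]
      cases b <;> simp [f] <;> norm_num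
  have r0 : (0 : ℝ) < (r : ℝ) ^ d := by positivity
  have h3 := HasSubgaussianMGF.measure_sum_ge_le_of_iIndepFun h1 (s := cube d r) (fun y _ => h2 y)
    (ε := (r : ℝ) ^ d / 4) (by positivity)
  refine le_trans (measureReal_mono fun ω hω => ?_) (h3.trans (le_of_eq ?_))
  · simp only [Set.mem_ofPred_eq, not_le] at hω ⊢
    have e : ∑ y ∈ cube d r, f (ω y) = (r : ℝ) ^ d / 2 - ∑ h ∈ cube d r, chi ω b h := by
      have : ∀ y, f (ω y) = 1 / 2 - chi ω b y := by
        intro y
        simp only [f, chi]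
        split_ifs <;> norm_num
      simp only [this, Finset.sum_sub_distrib, Finset.sum_const, card_cube, nsmul_eq_mul]
      push_cast
      ring
    rw [e]
    linarith
  · congr 1
    simp only [Finset.sum_const, card_cube, nsmul_eq_mul]
    push_cast
    norm_num
    field_simp
    norm_num

theorem init {E δ θ v : ℝ} {r L : ℕ} (hd1 : 1 ≤ d) (hr : 1 ≤ r)
    (hE : E ≤ -1 + δ ∨ 4 * d + 1 - δ ≤ E) (hδ : δ ≤ 1 / (64 * d * r ^ 2))
    (hv : ((box d L).card : ℝ) ≤ v)
    (g1 : 32 * d * r ^ 2 * (v * (2 * d * Real.exp (-(1 / (256 * d ^ 2 * r ^ 2)) * (L - 1)))) ≤ θ ^ 8)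
    (g2 : 32 * d * r ^ 2 ≤ θ⁻¹ ^ 4) :
    (PP d).real {ω | ¬ Good ω E L θ} ≤ v * Real.exp (-(r : ℝ) ^ d / 8) := by
  obtain ⟨b, hb⟩ : ∃ b : Bool, ∀ (ω : Zd d → Bool) (y : Zd d),
      2 * d + 2 * chi ω b y - δ ≤ |2 * d + pot ω y - E| := by
    rcases hE with h | h
    · refine ⟨true, fun ω y => le_trans ?_ (le_abs_self _)⟩
      simp only [chi, pot]
      split_ifs <;> linarith
    · refine ⟨false, fun ω y => le_trans ?_ (neg_le_abs _)⟩
      simp only [chi, pot]
      cases ω y <;> simp <;> linarith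
  have D : Dep (cube d r) fun ω => ¬ (r : ℝ) ^ d / 4 ≤ ∑ h ∈ cube d r, chi ω b h := by
    intro ω ω' e h
    rwa [Finset.sum_congr rfl (fun y hy => show chi ω' b y = chi ω b y by simp [chi, e y hy])]
  have sub : {ω | ¬ Good ω E L θ} ⊆ ⋃ x ∈ box d L,
      {ω | ¬ (r : ℝ) ^ d / 4 ≤ ∑ h ∈ cube d r, chi (sh x ω) b h} := by
    intro ω hω
    by_contra hc
    simp only [Set.mem_iUnion, Set.mem_ofPred_eq, not_exists, not_not] at hc
    refine hω ((combes hd1 hr (χ := chi ω b) (fun y => ?_) (fun y => ?_) (hb ω) hδ hv hc).mono g1 g2)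
    · unfold chi
      split_ifs <;> norm_num
    · unfold chi
      split_ifs <;> norm_num
  refine (measureReal_mono sub (measure_ne_top _ _)).trans
    ((measureReal_biUnion_finset_le _ _).trans ?_)
  exact sum_le_mul (Real.exp_pos _).le hv fun x _ => (le_of_eq (D.real_sh x)).trans (hoeff b hr)

end Pool.Agent.P.MP_d0f69c_mp
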