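import Pool.Agent.P.MP_d0f69c_mp.Prob2
import Pool.Agent.P.MP_d0f69c_mp.Init

set_option autoImplicit false

open Finset MeasureTheory ProbabilityTheory

namespace Pool.Agent.P.MP_d0f69c_mp

variable {d : ℕ}

theorem combes2 {v χ : Zd d → ℝ} {E δ V : ℝ} {r c : ℕ} {B : Finset (Zd d)} (hd1 : 1 ≤ d)
    (hr : 1 ≤ r) (h0 : ∀ y, 0 ≤ χ y) (h1 : ∀ y, χ y ≤ 1)
    (hdiag : ∀ y ∈ B, 2 * d + 2 * χ y - δ ≤ |2 * d + v y - E|)
    (hδ : δ ≤ 1 / (64 * d * r ^ 2)) (hv : (B.card : ℝ) ≤ V)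
    (hd : ∀ x ∈ B, (r : ℝ) ^ d / 4 ≤ ∑ h ∈ cube d r, χ (x + h)) :
    Green v E B c (32 * d * r ^ 2 * (V * Real.exp (-(1 / (256 * d ^ 2 * r ^ 2)) * c)))
      (32 * d * r ^ 2 * V) := by
  intro U hU z Fn F n0 F0 hn hF
  have d1 : (1 : ℝ) ≤ d := by exact_mod_cast hd1
  have r1 : (1 : ℝ) ≤ r := by exact_mod_cast hr
  have dr : 1 ≤ (d : ℝ) * r ^ 2 := one_le_mul_of_one_le_of_one_le d1 (one_le_pow₀ r1)
  set s : ℝ := 1 / (256 * d ^ 2 * r ^ 2) with hs
  have s0 : 0 < s := by positivity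
  have s1 : s ≤ 1 := by
    rw [hs, div_le_one (by positivity)]
    nlinarith
  let w : Zd d → ℝ := fun y => Real.exp (-s * dist y z)
  let W : Zd d → ℝ := fun y => w y * |U y|
  have w0 : ∀ y, 0 < w y := fun y => Real.exp_pos _
  have W0 : ∀ y, 0 ≤ W y := fun y => mul_nonneg (w0 y).le (abs_nonneg _)
  have Wz : ∀ y, y ∉ B → W y = 0 := fun y hy => by simp [W, hU y hy]
  have hW : Summable fun x => W x ^ 2 :=
    summable_of_ne_finset_zero (s := B) fun y hy => by simp [Wz y hy]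
  have hX : Summable fun x => χ x * W x ^ 2 :=
    summable_of_ne_finset_zero (s := B) fun y hy => by simp [Wz y hy]
  have hY : HasSum (fun y => W y * (w y * |TV v E U y|))
      (∑ y ∈ B, W y * (w y * |TV v E U y|)) :=
    hasSum_sum_of_ne_finset_zero fun y hy => by simp [Wz y hy]
  set N := ∑' x, W x ^ 2 with hN
  set X := ∑' x, χ x * W x ^ 2 with hXd
  set D := ∑ i, DD W (ee i) with hD
  have N0 : 0 ≤ N := tsum_nonneg fun _ => sq_nonneg _
  have X0 : 0 ≤ X := tsum_nonneg fun x => mul_nonneg (h0 x) (sq_nonneg _)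
  have D0 : 0 ≤ D := Finset.sum_nonneg fun _ _ => DD_nonneg _ _
  have P := poincare hr hW h0 h1 (fun x hx => hd x (by by_contra h; exact hx (Wz x h)))
  have ww : ∀ y y' : Zd d, dist y' y ≤ 1 → w y * |U y'| ≤ (1 + 2 * s) * W y' := by
    intro y y' h
    have a1 : w y ≤ Real.exp s * w y' := by
      simp only [w]
      rw [← Real.exp_add]
      apply Real.exp_le_exp.2
      nlinarith [dist_triangle y' y z]
    have a2 : Real.exp s ≤ 1 + 2 * s := by
      have := Real.abs_exp_sub_one_le (x := s) (by rw [abs_of_pos s0]; exact s1)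
      rw [abs_of_pos s0] at this
      linarith [le_abs_self (Real.exp s - 1)]
    have := w0 y'
    simp only [W]
    rw [← mul_assoc]
    apply mul_le_mul_of_nonneg_right _ (abs_nonneg _)
    nlinarith
  have key : 2 * d * N + 2 * X - δ * N ≤ (∑ y ∈ B, W y * (w y * |TV v E U y|)) +
      ∑ i : Fin d, ((1 + 2 * s) * (N + (1 / 2) * N + (1 / 2) * N) - (1 / 2) * DD W (ee i)) := by
    refine hasSum_le (fun y => ?_)
      (((hW.hasSum.mul_left (2 * (d : ℝ))).add (hX.hasSum.mul_left 2)).sub (hW.hasSum.mul_left δ))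
      (hY.add (hasSum_sum fun i _ => (((hW.hasSum.add
        ((hasSum_shift hW.hasSum (ee i)).mul_left (1 / 2))).add
        ((hasSum_shift hW.hasSum (-ee i)).mul_left (1 / 2))).mul_left (1 + 2 * s)).sub
        ((hasSum_DD hW (ee i)).mul_left (1 / 2))))
    have a1 : (2 * d + 2 * χ y - δ) * |U y| ≤ |TV v E U y| +
        ∑ i : Fin d, (|U (y + ee i)| + |U (y - ee i)|) := by
      have a0 : (2 * d + 2 * χ y - δ) * |U y| ≤ |2 * d + v y - E| * |U y| := by
        by_cases hy : y ∈ B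
        · exact mul_le_mul_of_nonneg_right (hdiag y hy) (abs_nonneg _)
        · simp [hU y hy]
      refine a0.trans ?_
      rw [← abs_mul]
      have e : (2 * d + v y - E) * U y = TV v E U y + adj U y := by simp [TV]
      rw [e]
      refine (abs_add_le _ _).trans (add_le_add le_rfl ?_)
      exact (Finset.abs_sum_le_sum_abs _ _).trans (Finset.sum_le_sum fun i _ => abs_add_le _ _)
    have a2 := mul_le_mul_of_nonneg_left a1 (mul_nonneg (W0 y) (w0 y).le)
    have a3 : W y * w y * ∑ i : Fin d, (|U (y + ee i)| + |U (y - ee i)|) ≤ ∑ i : Fin d,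
        ((1 + 2 * s) * (W y ^ 2 + 1 / 2 * W (y + ee i) ^ 2 + 1 / 2 * W (y + -ee i) ^ 2)
          - 1 / 2 * (W (y + ee i) - W y) ^ 2) := by
      rw [Finset.mul_sum]
      refine Finset.sum_le_sum fun i _ => ?_
      rw [← sub_eq_add_neg]
      have b1 := mul_le_mul_of_nonneg_left (ww y (y + ee i) (dist_add_ee y i).le) (W0 y)
      have b2 := mul_le_mul_of_nonneg_left (ww y (y - ee i) (dist_sub_ee y i).le) (W0 y)
      nlinarith [sq_nonneg (W (y - ee i) - W y), mul_nonneg s0.le (sq_nonneg (W (y - ee i) - W y)),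
        mul_nonneg s0.le (sq_nonneg (W (y + ee i) - W y))]
    have a4 : W y * w y * ((2 * d + 2 * χ y - δ) * |U y|)
        = 2 * d * W y ^ 2 + 2 * (χ y * W y ^ 2) - δ * W y ^ 2 := by
      simp only [W]
      ring
    linarith
  rw [Finset.sum_sub_distrib, Finset.sum_const, ← Finset.mul_sum, ← hD, Finset.card_univ,
    Fintype.card_fin, nsmul_eq_mul] at key
  rw [← hN, ← hXd, ← hD] at P
  set Γ := ∑ y ∈ B, w y * |TV v E U y| with hΓ
  have Γ0 : 0 ≤ Γ := Finset.sum_nonneg fun y _ => mul_nonneg (w0 y).le (abs_nonneg _)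
  have Wn : ∀ y, W y ≤ Real.sqrt N := fun y =>
    Real.le_sqrt_of_sq_le (hW.le_tsum y fun _ _ => sq_nonneg _)
  have Yb : ∑ y ∈ B, W y * (w y * |TV v E U y|) ≤ Real.sqrt N * Γ := by
    rw [hΓ, Finset.mul_sum]
    exact Finset.sum_le_sum fun y _ =>
      mul_le_mul_of_nonneg_right (Wn y) (mul_nonneg (w0 y).le (abs_nonneg _))
  have c1 : 16 * (d * r ^ 2) * (δ + 4 * d * s) ≤ 1 / 2 := by
    have a1 : 16 * (d * r ^ 2) * δ ≤ 16 * (d * r ^ 2) * (1 / (64 * d * r ^ 2)) := by gcongr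
    have a2 : 16 * ((d : ℝ) * r ^ 2) * (1 / (64 * d * r ^ 2)) = 1 / 4 := by field_simp; norm_num
    have a3 : 16 * ((d : ℝ) * r ^ 2) * (4 * d * s) = 1 / 4 := by rw [hs]; field_simp; norm_num
    linarith
  have c2 : D / 2 + 2 * X ≤ Real.sqrt N * Γ + (δ + 4 * d * s) * N := by linarith
  have c3 : N ≤ 16 * (d * r ^ 2) * (D / 2 + 2 * X) := by nlinarith
  have c4 : N ≤ 32 * d * r ^ 2 * (Real.sqrt N * Γ) := by
    have a1 := mul_le_mul_of_nonneg_left c2 (by positivity : 0 ≤ 16 * ((d : ℝ) * r ^ 2))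
    have a2 := mul_le_mul_of_nonneg_right c1 N0
    nlinarith
  have c5 : Real.sqrt N ≤ 32 * d * r ^ 2 * Γ := by
    rcases eq_or_lt_of_le (Real.sqrt_nonneg N) with h | h
    · rw [← h]
      positivity
    · apply le_of_mul_le_mul_left _ h
      rw [Real.mul_self_sqrt N0]
      linarith
  have c6 : |U z| = W z := by simp [W, w]
  have c7 : Γ ≤ V * (Fn + Real.exp (-s * c) * F) := by
    refine sum_le_mul (by positivity) hv fun y hy => ?_
    have e0 : 0 ≤ Real.exp (-s * c) * F := by positivity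
    by_cases hy2 : dist y z < c
    · have w1 : w y ≤ 1 := Real.exp_le_one_iff.2 (by nlinarith [dist_nonneg (x := y) (y := z)])
      nlinarith [abs_nonneg (TV v E U y), hn y hy hy2]
    · have w2 : w y ≤ Real.exp (-s * c) := Real.exp_le_exp.2 (by nlinarith)
      linarith [mul_le_mul w2 (hF y hy) (abs_nonneg _) (Real.exp_pos _).le]
  rw [c6]
  refine (Wn z).trans (c5.trans ?_)
  refine (mul_le_mul_of_nonneg_left c7 (by positivity)).trans (le_of_eq ?_)
  ring

lemma hoeff2 (b : Bool) (A : Finset (Zd d)) {R : ℝ} (R0 : 0 < R) (h3 : 3 * R ≤ 4 * A.card)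
    (h4 : A.card ≤ R) :
    (PP d).real {ω | ¬ R / 4 ≤ ∑ h ∈ A, chi ω b h} ≤ Real.exp (-R / 32) := by
  let f : Bool → ℝ := fun a => if a = b then -1 / 2 else 1 / 2
  have h1 : iIndepFun (fun (y : Zd d) (ω : Zd d → Bool) => f (ω y)) (PP d) :=
    iIndepFun_infinitePi (X := fun _ a => f a) (fun _ => Measurable.of_discrete)
  have h2 : ∀ y : Zd d, HasSubgaussianMGF (fun ω : Zd d → Bool => f (ω y))
      ((‖(1 / 2 : ℝ) - (-1 / 2)‖₊ / 2) ^ 2) (PP d) := by
    intro y
    apply hasSubgaussianMGF_of_mem_Icc_of_integral_eq_zero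
    · exact ((Measurable.of_discrete (f := f)).comp
        (measurable_pi_apply (X := fun _ : Zd d => Bool) y)).aemeasurable
    · refine ae_of_all _ fun ω => ?_
      simp only [f]
      split_ifs <;> norm_num
    · have := integral_map (μ := PP d) (φ := fun ω : Zd d → Bool => ω y)
        (measurable_pi_apply y).aemeasurable (f := f) Measurable.of_discrete.aestronglyMeasurable
      rw [← this, PP, Measure.infinitePi_map_eval, PMF.integral_eq_sum]
      cases b <;> simp [f] <;> norm_num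
  have h3' := HasSubgaussianMGF.measure_sum_ge_le_of_iIndepFun h1 (s := A) (fun y _ => h2 y)
    (ε := R / 8) (by positivity)
  refine le_trans (measureReal_mono fun ω hω => ?_) (h3'.trans ?_)
  · simp only [Set.mem_ofPred_eq, not_le] at hω ⊢
    have e : ∑ y ∈ A, f (ω y) = (A.card : ℝ) / 2 - ∑ h ∈ A, chi ω b h := by
      have : ∀ y, f (ω y) = 1 / 2 - chi ω b y := by
        intro y
        simp only [f, chi]
        split_ifs <;> norm_num
      simp only [this, Finset.sum_sub_distrib, Finset.sum_const, nsmul_eq_mul]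
      ring
    rw [e]
    linarith
  · apply Real.exp_le_exp.2
    simp only [Finset.sum_const, nsmul_eq_mul]
    push_cast
    norm_num
    have A0 : (0 : ℝ) < A.card := by linarith
    rw [div_le_div_iff₀ (by positivity) (by positivity)]
    nlinarith

lemma card_free (i : Fin d) {r : ℕ} (hr : 8 ∣ r) (x : Zd d) :
    3 * r ^ d ≤ 4 * ((cube d r).filter fun h => 2 ≤ (x i + h i) % 8).card := by
  obtain ⟨m, rfl⟩ := hr
  have one : ∀ m : ℕ, 6 * m ≤ ((Ico (0 : ℤ) (8 * m : ℕ)).filter fun t => 2 ≤ (x i + t) % 8).card := by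
    intro m
    have := card_le_card_of_injOn (s := range m ×ˢ range 6)
      (t := (Ico (0 : ℤ) (8 * m : ℕ)).filter fun t => 2 ≤ (x i + t) % 8)
      (fun p => 8 * (p.1 : ℤ) + (2 + p.2 - x i) % 8) (fun p hp => by
        simp only [coe_product, coe_range, Set.mem_prod, Set.mem_Iio] at hp
        simp only [coe_filter, mem_Ico, Set.mem_ofPred_eq]
        push_cast
        omega) (fun p hp q hq e => by
        simp only [coe_product, coe_range, Set.mem_prod, Set.mem_Iio] at hp hq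
        simp only at e
        exact Prod.ext (by omega) (by omega))
    rw [card_product, card_range, card_range] at this
    omega
  have e : (cube d (8 * m)).filter (fun h => 2 ≤ (x i + h i) % 8) = Fintype.piFinset
      (Function.update (fun _ => Ico (0 : ℤ) (8 * m : ℕ)) i
        ((Ico (0 : ℤ) (8 * m : ℕ)).filter fun t => 2 ≤ (x i + t) % 8)) := by
    rw [cube, Fintype.piFinset_update_eq_filter_piFinset_mem _ _ (filter_subset _ _)]
    ext h
    simp only [mem_filter, Fintype.mem_piFinset, and_congr_right_iff]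
    exact fun a => ⟨fun b => ⟨a i, b⟩, fun b => b.2⟩
  rw [e, Fintype.card_piFinset, ← Finset.mul_prod_erase _ _ (mem_univ i), Function.update_self,
    Finset.prod_congr rfl (g := fun _ => 8 * m) (fun j hj => by
      rw [Function.update_of_ne (ne_of_mem_erase hj), Int.card_Ico]
      omega),
    prod_const, card_erase_of_mem (mem_univ i), card_univ, Fintype.card_fin]
  obtain ⟨e', rfl⟩ : ∃ e, d = e + 1 := ⟨d - 1, by have := i.pos; omega⟩
  rw [Nat.add_sub_cancel, pow_succ]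
  nlinarith [Nat.mul_le_mul_right ((8 * m) ^ e') (one m)]

/-- indicator of the favourable frozen sites -/
noncomputable def chi2 (i : Fin d) (ω : Zd d → Bool) (b : Bool) (y : Zd d) : ℝ :=
  if 2 ≤ y i % 8 then chi ω b y else 0

lemma hoeff3 (i : Fin d) (b : Bool) {r : ℕ} (hr : 1 ≤ r) (h8 : 8 ∣ r) (x : Zd d) :
    (PP d).real {ω | ¬ (r : ℝ) ^ d / 4 ≤ ∑ h ∈ cube d r, chi2 i ω b (x + h)}
      ≤ Real.exp (-(r : ℝ) ^ d / 32) := by
  have inj : Function.Injective fun h : Zd d => x + h := add_right_injective x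
  refine le_trans (le_of_eq ?_) (hoeff2 b (((cube d r).filter fun h => 2 ≤ (x i + h i) % 8).image
    fun h => x + h) (by positivity) ?_ ?_)
  · simp only [sum_image inj.injOn, sum_filter, chi2, Pi.add_apply]
  · rw [card_image_of_injective _ inj]
    exact_mod_cast card_free i h8 x
  · rw [card_image_of_injective _ inj]
    exact_mod_cast (card_filter_le _ _).trans (card_cube d r).le

variable {P : Par} {X : Aux} {i : Fin d} {E : ℝ}

/-- conditions for the initial scales -/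
structure Ok0 (d : ℕ) (P : Par) (X : Aux) (r : ℕ) : Prop where
  r1 : 1 ≤ r
  r8 : 8 ∣ r
  i1 : ∀ k ≤ X.D, 32 * d * r ^ 2 * ((2 * (2 * P.c k : ℕ) + 1) ^ d
    * Real.exp (-(1 / (256 * d ^ 2 * r ^ 2)) * P.c k)) ≤ P.γ k
  i2 : ∀ k ≤ X.D, (32 * d * r ^ 2 * (2 * (2 * P.c k : ℕ) + 1) ^ d : ℝ) ≤ P.M k
  i3 : ∀ k ≤ X.D, P.f k * 8 ≤ P.p k
  i4 : ∀ k ≤ X.D, (2 * (4 * P.c k : ℕ) + 1) ^ d * Real.exp (-(r : ℝ) ^ d / 32) ≤ X.q k

lemma init2 (h : Ok d P X) {r : ℕ} (h0 : Ok0 d P X r) (hd : 1 ≤ d) {δ : ℝ}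
    (hE : E ≤ -1 + δ ∨ 4 * d + 1 - δ ≤ E) (hδ : δ ≤ 1 / (64 * d * r ^ 2)) {k : ℕ} (hk : k ≤ X.D)
    (g : Zd d) : (PP d).real {ω | Bad P i E ω k g} ≤ X.q k := by
  obtain ⟨b, hb⟩ : ∃ b : Bool, ∀ (ω : Zd d → Bool) (y : Zd d) (t : ℝ), |t| ≤ 1 →
      (2 ≤ y i % 8 → t = pot ω y) → 2 * d + 2 * chi2 i ω b y - δ ≤ |2 * d + t - E| := by
    rcases hE with h | h
    · refine ⟨true, fun ω y t t1 t2 => le_trans ?_ (le_abs_self _)⟩
      have := abs_le.1 t1
      simp only [chi2, chi, pot] at t2 ⊢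
      split_ifs with a1 a2
      · rw [t2 a1, if_pos a2]
        linarith
      · linarith
      · linarith
    · refine ⟨false, fun ω y t t1 t2 => le_trans ?_ (neg_le_abs _)⟩
      have := abs_le.1 t1
      simp only [chi2, chi, pot] at t2 ⊢
      split_ifs with a1 a2
      · rw [t2 a1, if_neg (by simp [a2])]
        linarith
      · linarith
      · linarith
  have gd : ∀ (ω : Zd d → Bool), ∀ j ≤ X.D, (∀ y, (∀ x, dist x y ≤ 2 * P.c j →
      (r : ℝ) ^ d / 4 ≤ ∑ h ∈ cube d r, chi2 i ω b (x + h)) → (y ∈ Fr P i E ω j ↔ 2 ≤ y i % 8)) →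
      ∀ g, (∀ x, dist x g ≤ 4 * P.c j → (r : ℝ) ^ d / 4 ≤ ∑ h ∈ cube d r, chi2 i ω b (x + h)) →
      Gd P i E ω j g := by
    intro ω j hj H g hg
    have c0 : (0 : ℝ) ≤ P.c j := Nat.cast_nonneg _
    have a : ∀ y ∈ bx g (2 * P.c j), dist y g ≤ 2 * P.c j := fun y hy => by
      simpa using mem_bx.1 hy
    have a2 : ∀ y ∈ bx g (2 * P.c j), y ∈ Fr P i E ω j ↔ 2 ≤ y i % 8 := fun y hy =>
      H y fun x hx => hg x (by linarith [dist_triangle x y g, a y hy])
    refine ⟨fun v v1 v2 ψ hψ z Fn F n0 F0 hn hF => ?_, sparse0 i (h0.i3 j hj) fun y hy => (a2 y hy).1⟩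
    refine (combes2 (χ := chi2 i ω b) (V := (2 * (2 * P.c j : ℕ) + 1) ^ d) hd h0.r1
      (fun y => ?_) (fun y => ?_) (fun y hy => hb ω y _ (v1 y) fun t => v2 y hy ((a2 y hy).2 t)) hδ
      (by rw [card_bx]; push_cast; exact le_rfl) (fun x hx => hg x (by linarith [a x hx]))
      ψ hψ z Fn F n0 F0 hn hF).trans (add_le_add (mul_le_mul_of_nonneg_right (h0.i2 j hj) n0)
        (mul_le_mul_of_nonneg_right (h0.i1 j hj) F0))
    · unfold chi2 chi
      split_ifs <;> norm_num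
    · unfold chi2 chi
      split_ifs <;> norm_num
  have fr : ∀ (ω : Zd d → Bool), ∀ j ≤ X.D, ∀ y, (∀ x, dist x y ≤ 2 * P.c j →
      (r : ℝ) ^ d / 4 ≤ ∑ h ∈ cube d r, chi2 i ω b (x + h)) → (y ∈ Fr P i E ω j ↔ 2 ≤ y i % 8) := by
    intro ω j hj
    induction j with
    | zero => exact fun y _ => Iff.rfl
    | succ j ih =>
      intro y hy
      have c1 : 4 * (P.J j * P.c j : ℝ) + 4 * P.c j ≤ P.c (j + 1) := by exact_mod_cast h.cP j
      have c0 : (0 : ℝ) ≤ P.c j := Nat.cast_nonneg _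
      have c2 : 0 ≤ (P.J j * P.c j : ℝ) := by positivity
      rw [mem_Fr_succ, ih (by omega) y fun x hx => hy x (by linarith), or_iff_left]
      rintro ⟨g, g1, g2⟩
      exact g1.2 (gd ω j (by omega) (ih (by omega)) g fun x hx => hy x (by
        linarith [dist_triangle_right x y g]))
  refine (measureReal_mono (s₂ := ⋃ x ∈ bx g (4 * P.c k),
    {ω | ¬ (r : ℝ) ^ d / 4 ≤ ∑ h ∈ cube d r, chi2 i ω b (x + h)}) (fun ω hω => ?_)
    (measure_ne_top _ _)).trans ((measureReal_biUnion_finset_le _ _).trans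
      ((sum_le_mul (Real.exp_pos _).le ?_ fun x _ => hoeff3 i b h0.r1 h0.r8 x).trans (h0.i4 k hk)))
  · by_contra hc
    simp only [Set.mem_iUnion, Set.mem_ofPred_eq, not_exists, not_not] at hc
    exact hω.2 (gd ω k hk (fr ω k hk) g fun x hx => hc x (mem_bx.2 (by exact_mod_cast hx)))
  · rw [card_bx]
    push_cast
    exact le_rfl

theorem msa2 (h : Ok d P X) {r : ℕ} (h0 : Ok0 d P X r) (hd : 1 ≤ d) {δ : ℝ}
    (E1 : -1 ≤ E) (E2 : E ≤ 4 * d + 1)
    (hE : E ≤ -1 + δ ∨ 4 * d + 1 - δ ≤ E) (hδ : δ ≤ 1 / (64 * d * r ^ 2)) (k : ℕ) :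
    ∀ g : Zd d, (PP d).real {ω | Bad P i E ω k g} ≤ X.q k := by
  induction k using Nat.strong_induction_on with
  | _ k ih =>
    intro g
    by_cases hk : k ≤ X.D
    · exact init2 h h0 hd hE hδ hk g
    · obtain ⟨k, rfl⟩ : ∃ j, k = j + 1 := ⟨k - 1, by omega⟩
      exact prob_step2 h hd E1 E2 (by omega) (fun j hj => ih j (by omega)) g

end Pool.Agent.P.MP_d0f69c_mp
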