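import Mathlib

set_option autoImplicit false

open Finset Matrix

namespace Pool.Agent.P.MP_d0f69c_mp.NW

variable {ι : Type} [Fintype ι] [DecidableEq ι]

/-- real hopping matrix plus complex potential -/
noncomputable def MM (A : Matrix ι ι ℝ) (W : ι → ℂ) : Matrix ι ι ℂ :=
  fun a b => (A a b : ℂ) + if a = b then W a else 0

/-- the Green function -/
noncomputable def GG (A : Matrix ι ι ℝ) (W : ι → ℂ) : Matrix ι ι ℂ := (MM A W)⁻¹

variable {A : Matrix ι ι ℝ} {W : ι → ℂ}

lemma MM_mv (A : Matrix ι ι ℝ) (W u : ι → ℂ) (a : ι) :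
    (MM A W *ᵥ u) a = ∑ b, (A a b : ℂ) * u b + W a * u a := by
  simp only [MM, mulVec, dotProduct, add_mul, Finset.sum_add_distrib, ite_mul, zero_mul,
    Finset.sum_ite_eq, Finset.mem_univ, if_true]

lemma im_conj_mul (w u : ℂ) : ((starRingEnd ℂ) u * (w * u)).im = w.im * ‖u‖ ^ 2 := by
  rw [← Complex.normSq_eq_norm_sq, Complex.normSq_apply]
  simp
  ring

lemma form (hA : ∀ a b, A a b = A b a) (W u : ι → ℂ) (O : Finset ι) :
    ∑ a ∈ O, ((starRingEnd ℂ) (u a) * (MM A W *ᵥ u) a).im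
      = ∑ a ∈ O, (W a).im * ‖u a‖ ^ 2
        + ∑ a ∈ O, ∑ b ∈ Oᶜ, A a b * ((starRingEnd ℂ) (u a) * u b).im := by
  have e : ∀ a, ((starRingEnd ℂ) (u a) * (MM A W *ᵥ u) a).im = (W a).im * ‖u a‖ ^ 2
      + (∑ b ∈ O, A a b * ((starRingEnd ℂ) (u a) * u b).im
        + ∑ b ∈ Oᶜ, A a b * ((starRingEnd ℂ) (u a) * u b).im) := by
    intro a
    rw [MM_mv, mul_add, Complex.add_im, im_conj_mul, Finset.sum_add_sum_compl, add_comm,
      Finset.mul_sum, Complex.im_sum]
    congr 1
    refine Finset.sum_congr rfl fun b _ => ?_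
    simp
    ring
  have z : ∑ a ∈ O, ∑ b ∈ O, A a b * ((starRingEnd ℂ) (u a) * u b).im = 0 := by
    have : ∑ a ∈ O, ∑ b ∈ O, A a b * ((starRingEnd ℂ) (u a) * u b).im
        = -∑ a ∈ O, ∑ b ∈ O, A a b * ((starRingEnd ℂ) (u a) * u b).im := by
      conv_lhs => rw [Finset.sum_comm]
      rw [← Finset.sum_neg_distrib]
      refine Finset.sum_congr rfl fun a _ => ?_
      rw [← Finset.sum_neg_distrib]
      refine Finset.sum_congr rfl fun b _ => ?_
      rw [hA b a]
      simp
      ring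
    linarith
  simp only [e, Finset.sum_add_distrib, z, zero_add]

lemma form_univ (hA : ∀ a b, A a b = A b a) (W u : ι → ℂ) :
    ∑ a, ((starRingEnd ℂ) (u a) * (MM A W *ᵥ u) a).im = ∑ a, (W a).im * ‖u a‖ ^ 2 := by
  rw [form hA]
  simp

lemma unit_det (hA : ∀ a b, A a b = A b a) (hW : ∀ a, (W a).im < 0) : IsUnit (MM A W).det := by
  rw [isUnit_iff_ne_zero]
  intro h
  obtain ⟨u, hu, h0⟩ := Matrix.exists_mulVec_eq_zero_iff.2 h
  have e := form_univ hA W u
  rw [h0] at e
  simp only [Pi.zero_apply, mul_zero, Complex.zero_im, Finset.sum_const_zero] at e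
  apply hu
  funext a
  have := (Finset.sum_eq_zero_iff_of_nonpos fun a _ =>
    mul_nonpos_of_nonpos_of_nonneg (hW a).le (sq_nonneg ‖u a‖)).1 e.symm a (Finset.mem_univ a)
  rcases mul_eq_zero.1 this with h1 | h1
  · exact absurd h1 (hW a).ne
  · simpa using h1

lemma MG (hA : ∀ a b, A a b = A b a) (hW : ∀ a, (W a).im < 0) (χ : ι → ℂ) :
    MM A W *ᵥ (GG A W *ᵥ χ) = χ := by
  rw [mulVec_mulVec, GG, mul_nonsing_inv _ (unit_det hA hW), one_mulVec]

lemma GM (hA : ∀ a b, A a b = A b a) (hW : ∀ a, (W a).im < 0) (u : ι → ℂ) :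
    GG A W *ᵥ (MM A W *ᵥ u) = u := by
  rw [mulVec_mulVec, GG, nonsing_inv_mul _ (unit_det hA hW), one_mulVec]

lemma GG_symm (hA : ∀ a b, A a b = A b a) (W : ι → ℂ) (a b : ι) : GG A W a b = GG A W b a := by
  have e : (MM A W)ᵀ = MM A W := by
    ext a b
    simp only [transpose_apply, MM, hA a b]
    by_cases h : a = b
    · subst h; rfl
    · rw [if_neg h, if_neg (Ne.symm h)]
  have := transpose_nonsing_inv (MM A W)
  rw [e] at this
  exact congrFun (congrFun this b) a

lemma col (G : Matrix ι ι ℂ) (a y : ι) : (G *ᵥ Pi.single a 1) y = G y a := by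
  simp

/-- the quadratic form `Im ⟨χ, G χ⟩` -/
noncomputable def qq (A : Matrix ι ι ℝ) (W : ι → ℂ) (χ : ι → ℂ) : ℝ :=
  (∑ a, (starRingEnd ℂ) (χ a) * (GG A W *ᵥ χ) a).im

lemma qq_eq (hA : ∀ a b, A a b = A b a) (hW : ∀ a, (W a).im < 0) (χ : ι → ℂ) :
    qq A W χ = ∑ y, -(W y).im * ‖(GG A W *ᵥ χ) y‖ ^ 2 := by
  have e := form_univ hA W (GG A W *ᵥ χ)
  rw [MG hA hW] at e
  simp only [neg_mul, Finset.sum_neg_distrib]
  rw [← e, qq, Complex.im_sum, ← Finset.sum_neg_distrib]
  refine Finset.sum_congr rfl fun a _ => ?_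
  simp
  ring

lemma qq_single (A : Matrix ι ι ℝ) (W : ι → ℂ) (a : ι) :
    qq A W (Pi.single a 1) = (GG A W a a).im := by
  rw [qq, Finset.sum_eq_single a]
  · simp
  · intro b _ hb
    simp [hb]
  · simp

lemma ward (hA : ∀ a b, A a b = A b a) (hW : ∀ a, (W a).im < 0) (a : ι) :
    (GG A W a a).im = ∑ y, -(W y).im * ‖GG A W y a‖ ^ 2 := by
  rw [← qq_single, qq_eq hA hW]
  simp only [col]

lemma ward_le (hA : ∀ a b, A a b = A b a) (hW : ∀ a, (W a).im < 0) (a y : ι) :
    -(W y).im * ‖GG A W y a‖ ^ 2 ≤ (GG A W a a).im := by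
  rw [ward hA hW]
  exact Finset.single_le_sum (f := fun y => -(W y).im * ‖GG A W y a‖ ^ 2)
    (fun y _ => mul_nonneg (by linarith [hW y]) (sq_nonneg _)) (Finset.mem_univ y)

lemma diag_le (hA : ∀ a b, A a b = A b a) (hW : ∀ a, (W a).im < 0) (a : ι) {e : ℝ}
    (he : e ≤ -(W a).im) : e * ‖GG A W a a‖ ≤ 1 := by
  have h1 := ward_le hA hW a a
  have h2 := Complex.im_le_norm (GG A W a a)
  rcases eq_or_lt_of_le (norm_nonneg (GG A W a a)) with h | h
  · rw [← h]; simp
  · have : e * ‖GG A W a a‖ ^ 2 ≤ ‖GG A W a a‖ :=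
      (mul_le_mul_of_nonneg_right he (sq_nonneg _)).trans (h1.trans h2)
    nlinarith

lemma entry_le (hA : ∀ a b, A a b = A b a) {η : ℝ} (hη : 0 < η) (hW : ∀ a, (W a).im ≤ -η)
    (a b : ι) : ‖GG A W a b‖ ≤ η⁻¹ := by
  have hW' : ∀ a, (W a).im < 0 := fun a => by linarith [hW a]
  have h1 := ward_le hA hW' b a
  have h2 := Complex.im_le_norm (GG A W b b)
  have h3 := diag_le hA hW' b (e := η) (by linarith [hW b])
  have h4 : η * ‖GG A W a b‖ ^ 2 ≤ ‖GG A W b b‖ :=
    (mul_le_mul_of_nonneg_right (by linarith [hW a]) (sq_nonneg _)).trans (h1.trans h2)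
  have h5 : (η * ‖GG A W a b‖) ^ 2 ≤ 1 := by nlinarith
  have h6 : η * ‖GG A W a b‖ ≤ 1 := by nlinarith [mul_nonneg hη.le (norm_nonneg (GG A W a b))]
  rw [← one_div, le_div_iff₀ hη]
  linarith

lemma diag_im_gt (hA : ∀ a b, A a b = A b a) (hW : ∀ a, (W a).im < 0) (a : ι) {e : ℝ}
    (he : e < -(W a).im) : e * ‖GG A W a a‖ ^ 2 < (GG A W a a).im := by
  have h1 := ward_le hA hW a a
  rcases eq_or_lt_of_le (norm_nonneg (GG A W a a)) with h | h
  · exfalso
    have h0 : GG A W a a = 0 := norm_eq_zero.1 h.symm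
    have z : GG A W *ᵥ Pi.single a 1 = 0 := by
      funext y
      have := ward_le hA hW a y
      rw [h0, Complex.zero_im] at this
      have h3 : ‖GG A W y a‖ ^ 2 ≤ 0 := by
        by_contra hc
        push Not at hc
        nlinarith [hW y]
      rw [col]
      simpa using pow_eq_zero_iff (two_ne_zero) |>.1 (le_antisymm h3 (sq_nonneg _))
    have := congrFun (MG hA hW (Pi.single a 1)) a
    rw [z] at this
    simp at this
  · exact (mul_lt_mul_of_pos_right he (by positivity)).trans_le h1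

/-- rank one perturbation formula -/
lemma rank_one (hA : ∀ a b, A a b = A b a) (hW : ∀ a, (W a).im < 0) (x : ι) (s : ℂ)
    (hW' : ∀ a, (Function.update W x (W x + s) a).im < 0) :
    1 + s * GG A W x x ≠ 0 ∧ ∀ a b, GG A (Function.update W x (W x + s)) a b
      = GG A W a b - s / (1 + s * GG A W x x) * (GG A W a x * GG A W x b) := by
  set W' := Function.update W x (W x + s) with hWd
  have k : ∀ a b, GG A W a b = GG A W' a b + s * GG A W' x b * GG A W a x := by
    intro a b
    have e1 : MM A W *ᵥ (GG A W' *ᵥ Pi.single b 1)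
        = Pi.single b 1 - (s * GG A W' x b) • Pi.single x 1 := by
      funext y
      have := congrFun (MG hA hW' (Pi.single b 1)) y
      rw [MM_mv] at this ⊢
      rw [Pi.sub_apply, ← this]
      by_cases h : y = x
      · subst h
        simp [hWd]
        ring
      · simp [hWd, h]
    have e2 := congrFun (GM hA hW (GG A W' *ᵥ Pi.single b 1)) a
    rw [e1, mulVec_sub, mulVec_smul] at e2
    simp only [Pi.sub_apply, Pi.smul_apply, col, smul_eq_mul] at e2
    linear_combination e2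
  have n : 1 + s * GG A W x x ≠ 0 := by
    intro h
    have := k x x
    have z : GG A W x x = 0 := by linear_combination this + GG A W' x x * h
    rw [z] at h
    simp at h
  refine ⟨n, fun a b => ?_⟩
  have h1 := k a b
  have h2 := k x b
  field_simp
  linear_combination (-(1 + s * GG A W x x)) * h1 + s * GG A W a x * h2

lemma meas_GG (A : Matrix ι ι ℝ) (a b : ι) : Measurable fun W : ι → ℂ => GG A W a b := by
  have c : Continuous fun W : ι → ℂ => MM A W := by
    refine continuous_matrix fun a b => ?_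
    simp only [MM]
    split_ifs <;> fun_prop
  have e : (fun W : ι → ℂ => GG A W a b)
      = fun W => ((MM A W).det)⁻¹ * (MM A W).adjugate a b := by
    funext W
    simp [GG, Matrix.inv_def]
  rw [e]
  exact c.matrix_det.measurable.inv.mul (c.matrix_adjugate.matrix_elem a b).measurable

lemma diff_det {N : ℂ → Matrix ι ι ℂ} (h : ∀ a b, Differentiable ℂ fun z => N z a b) :
    Differentiable ℂ fun z => (N z).det := by
  simp only [Matrix.det_apply']
  refine Differentiable.fun_sum fun σ _ => Differentiable.const_mul ?_ _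
  exact Differentiable.fun_finsetProd fun i _ => h _ _

lemma diff_GG (hA : ∀ a b, A a b = A b a) (hW : ∀ a, (W a).im ≤ 0) (a b : ι) {z : ℂ}
    (hz : 0 < z.im) : DifferentiableAt ℂ (fun z => GG A (fun y => W y - z) a b) z := by
  have c : ∀ a b, Differentiable ℂ fun z => MM A (fun y => W y - z) a b := by
    intro a b
    simp only [MM]
    split_ifs <;> fun_prop
  have e : (fun z => GG A (fun y => W y - z) a b)
      = fun z => ((MM A fun y => W y - z).det)⁻¹ * (MM A fun y => W y - z).adjugate a b := by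
    funext W
    simp [GG, Matrix.inv_def]
  rw [e]
  refine DifferentiableAt.mul (DifferentiableAt.fun_inv (diff_det c z) ?_) ?_
  · exact (unit_det hA fun y => by simp only [Complex.sub_im]; linarith [hW y]).ne_zero
  · simp only [Matrix.adjugate_apply]
    refine diff_det (fun i j => ?_) z
    simp only [Matrix.updateRow_apply]
    split_ifs
    · fun_prop
    · exact c _ _

end Pool.Agent.P.MP_d0f69c_mp.NW
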