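import Pool.Agent.P.MP_d0f69c_mp.NW1

set_option autoImplicit false
set_option linter.unusedSectionVars false

open Finset Matrix MeasureTheory Filter Topology ProbabilityTheory
open scoped NNReal

namespace Pool.Agent.P.MP_d0f69c_mp.NW

lemma sub_ne {a : ℂ} (ha : 0 < a.im) (t : ℝ) : (t : ℂ) - a ≠ 0 := by
  intro h
  have := congrArg Complex.im h
  simp at this
  linarith

lemma int_pole {a : ℂ} (ha : 0 < a.im) : Integrable fun t : ℝ => (‖(t : ℂ) - a‖ ^ 2)⁻¹ := by
  set C : ℝ := 2 + (1 + 2 * a.re ^ 2) / a.im ^ 2 with hC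
  refine (integrable_inv_one_add_sq.const_mul C).mono' (Measurable.aestronglyMeasurable
    (by fun_prop)) (ae_of_all _ fun t => ?_)
  have e : ‖(t : ℂ) - a‖ ^ 2 = (t - a.re) ^ 2 + a.im ^ 2 := by
    rw [← Complex.normSq_eq_norm_sq, Complex.normSq_apply]
    simp
    ring
  rw [Real.norm_eq_abs, abs_of_nonneg (by positivity), e, ← div_eq_mul_inv, inv_eq_one_div,
    div_le_div_iff₀ (by positivity) (by positivity)]
  have h1 : (1 + 2 * a.re ^ 2) / a.im ^ 2 * a.im ^ 2 = 1 + 2 * a.re ^ 2 := by field_simp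
  have h2 : 0 ≤ (1 + 2 * a.re ^ 2) / a.im ^ 2 * (t - a.re) ^ 2 := by positivity
  nlinarith [sq_nonneg (t - 2 * a.re), sq_nonneg a.im]

lemma tend_pole {a : ℂ} {l : Filter ℝ} (hl : Tendsto (fun t : ℝ => |t|) l atTop) :
    Tendsto (fun t : ℝ => ((t : ℂ) - a)⁻¹) l (𝓝 0) := by
  refine tendsto_inv₀_cobounded.comp ?_
  rw [← tendsto_norm_atTop_iff_cobounded]
  refine tendsto_atTop_mono (fun t => ?_) (tendsto_atTop_add_const_right _ (-‖a‖) hl)
  have := norm_sub_norm_le (t : ℂ) a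
  rwa [Complex.norm_real, Real.norm_eq_abs] at this

lemma two_poles {a b : ℂ} (ha : 0 < a.im) (hb : 0 < b.im) :
    Integrable (fun t : ℝ => (((t : ℂ) - a) * ((t : ℂ) - b))⁻¹) ∧
      ∫ t : ℝ, (((t : ℂ) - a) * ((t : ℂ) - b))⁻¹ = 0 := by
  have hi : Integrable (fun t : ℝ => (((t : ℂ) - a) * ((t : ℂ) - b))⁻¹) := by
    refine ((int_pole ha).add (int_pole hb)).mono' (Measurable.aestronglyMeasurable
      (by fun_prop)) (ae_of_all _ fun t => ?_)
    simp only [norm_inv, norm_mul, Pi.add_apply, mul_inv, ← inv_pow]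
    nlinarith [sq_nonneg (‖(t : ℂ) - a‖⁻¹ - ‖(t : ℂ) - b‖⁻¹),
      mul_nonneg (inv_nonneg.2 (norm_nonneg ((t : ℂ) - a))) (inv_nonneg.2 (norm_nonneg ((t : ℂ) - b)))]
  refine ⟨hi, ?_⟩
  have d : ∀ (c : ℂ) (t : ℝ), HasDerivAt (fun t : ℝ => (t : ℂ) - c) 1 t := fun c t =>
    (Complex.ofRealCLM.hasDerivAt (x := t)).sub_const c
  by_cases h : a = b
  · subst h
    have := integral_of_hasDerivAt_of_tendsto (f := fun t : ℝ => -((t : ℂ) - a)⁻¹)
      (f' := fun t : ℝ => (((t : ℂ) - a) * ((t : ℂ) - a))⁻¹) (fun t => by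
        have := ((d a t).fun_inv (sub_ne ha t)).fun_neg
        refine this.congr_deriv ?_
        field_simp) hi (tend_pole tendsto_abs_atBot_atTop).neg (tend_pole tendsto_abs_atTop_atTop).neg
    simpa using this
  · have hab : a - b ≠ 0 := sub_ne_zero.2 h
    have sl : ∀ t : ℝ, 1 + (b - a) * ((t : ℂ) - b)⁻¹ ∈ Complex.slitPlane := by
      intro t
      have e : 1 + (b - a) * ((t : ℂ) - b)⁻¹ = ((t : ℂ) - a) * ((t : ℂ) - b)⁻¹ := by
        field_simp [sub_ne hb t]
        ring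
      rw [e]
      set r := ((t : ℂ) - a) * ((t : ℂ) - b)⁻¹ with hr
      have e2 : (t : ℂ) - a = r * ((t : ℂ) - b) := by
        rw [hr]
        field_simp [sub_ne hb t]
      have e3 := congrArg Complex.im e2
      simp only [Complex.sub_im, Complex.ofReal_im, Complex.mul_im] at e3
      by_contra hc
      rw [Complex.mem_slitPlane_iff] at hc
      push Not at hc
      rw [hc.2] at e3
      nlinarith [hc.1]
    have tl : ∀ l : Filter ℝ, Tendsto (fun t : ℝ => |t|) l atTop → Tendsto (fun t : ℝ =>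
        (a - b)⁻¹ * Complex.log (1 + (b - a) * ((t : ℂ) - b)⁻¹)) l (𝓝 0) := by
      intro l hl
      have t1 : Tendsto (fun t : ℝ => 1 + (b - a) * ((t : ℂ) - b)⁻¹) l (𝓝 1) := by
        simpa using ((tend_pole (a := b) hl).const_mul (b - a)).const_add 1
      have t2 := ((continuousAt_clog (x := 1) (by simp)).tendsto.comp t1).const_mul (a - b)⁻¹
      simpa using t2
    have := integral_of_hasDerivAt_of_tendsto
      (f := fun t : ℝ => (a - b)⁻¹ * Complex.log (1 + (b - a) * ((t : ℂ) - b)⁻¹))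
      (f' := fun t : ℝ => (((t : ℂ) - a) * ((t : ℂ) - b))⁻¹) (fun t => by
        have h1 := ((((d b t).fun_inv (sub_ne hb t)).const_mul
          (b - a)).const_add 1).clog_real (sl t)
        refine (h1.const_mul (a - b)⁻¹).congr_deriv ?_
        have e : 1 + (b - a) * ((t : ℂ) - b)⁻¹ = ((t : ℂ) - a) * ((t : ℂ) - b)⁻¹ := by
          field_simp [sub_ne hb t]
          ring
        rw [e]
        field_simp [sub_ne hb t, sub_ne ha t]
        ring) hi (tl _ tendsto_abs_atBot_atTop) (tl _ tendsto_abs_atTop_atTop)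
    simpa using this

/-- the scattering amplitude of one revealed site -/
noncomputable def tau (ε : ℝ) (γ : ℂ) (t : ℝ) : ℂ :=
  ((t : ℂ) + ε * Complex.I) / (1 + ((t : ℂ) + ε * Complex.I) * γ)

lemma cauchy_tau (ε : ℝ≥0) {γ : ℂ} (h : ε * ‖γ‖ ^ 2 < γ.im) :
    Integrable (tau ε γ) (cauchyMeasure 0 ε) ∧ ∫ t, tau ε γ t ∂(cauchyMeasure 0 ε) = 0 := by
  by_cases h0 : ε = 0
  · subst h0
    rw [cauchyMeasure_zero_scale]
    refine ⟨integrable_dirac (by simp), ?_⟩
    rw [integral_dirac]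
    simp [tau]
  have ε0 : (0 : ℝ) < ε := by positivity
  have γ0 : γ ≠ 0 := by
    rintro rfl
    simp at h
  have hw : 0 < (-(ε * Complex.I) - γ⁻¹ : ℂ).im := by
    have n0 : 0 < Complex.normSq γ := Complex.normSq_pos.2 γ0
    rw [← Complex.normSq_eq_norm_sq, ← lt_div_iff₀ n0] at h
    simp only [Complex.sub_im, Complex.neg_im, Complex.mul_im, Complex.ofReal_re, Complex.I_im,
      Complex.ofReal_im, Complex.I_re, Complex.inv_im, neg_div]
    linarith
  have hb : 0 < ((ε : ℝ) * Complex.I : ℂ).im := by simpa using ε0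
  obtain ⟨i1, i2⟩ := two_poles hw hb
  have e : (fun t : ℝ => (cauchyPDF 0 ε t).toReal • tau ε γ t) = fun t : ℝ =>
      ((Real.pi : ℂ)⁻¹ * (ε : ℝ) * γ⁻¹) * (((t : ℂ) - (-(ε * Complex.I) - γ⁻¹))
        * ((t : ℂ) - (ε : ℝ) * Complex.I))⁻¹ := by
    funext t
    rw [cauchyPDF, ENNReal.toReal_ofReal (cauchyPDF_pos 0 h0 t).le, cauchyPDFReal, tau,
      Complex.real_smul]
    have n1 := sub_ne hw t
    have n2 := sub_ne hb t
    have n3 : (t : ℂ) + (ε : ℝ) * Complex.I ≠ 0 := by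
      intro h
      have := congrArg Complex.im h
      simp at this
      exact h0 this
    have e1 : 1 + ((t : ℂ) + (ε : ℝ) * Complex.I) * γ
        = γ * ((t : ℂ) - (-(ε * Complex.I) - γ⁻¹)) := by
      field_simp
      ring
    have e2 : (((t - 0) ^ 2 + (ε : ℝ) ^ 2 : ℝ) : ℂ)
        = ((t : ℂ) + (ε : ℝ) * Complex.I) * ((t : ℂ) - (ε : ℝ) * Complex.I) := by
      push_cast
      linear_combination (((ε : ℝ) : ℂ)) ^ 2 * Complex.I_sq
    rw [e1, Complex.ofReal_mul, Complex.ofReal_mul, Complex.ofReal_inv, Complex.ofReal_inv, e2]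
    field_simp
  have f : ∀ᵐ t : ℝ, cauchyPDF 0 ε t < ⊤ := ae_of_all _ fun t => ENNReal.ofReal_lt_top
  rw [cauchyMeasure_of_scale_ne_zero 0 h0,
    integrable_withDensity_iff_integrable_smul' (measurable_cauchyPDF 0 ε) f,
    integral_withDensity_eq_integral_toReal_smul (measurable_cauchyPDF 0 ε) f, e,
    integral_const_mul, i2, mul_zero]
  exact ⟨i1.const_mul _, rfl⟩

lemma tau_ge {ε : ℝ} (h0 : 0 ≤ ε) {γ : ℂ} (h : ε * ‖γ‖ ≤ 1) (t : ℝ)
    (n : 1 + ((t : ℂ) + ε * Complex.I) * γ ≠ 0) : ε ^ 2 / 4 ≤ ‖tau ε γ t‖ ^ 2 := by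
  set s := (t : ℂ) + ε * Complex.I with hs
  have h1 : ε ≤ ‖s‖ := by
    refine le_trans ?_ (Complex.im_le_norm s)
    simp [hs]
  have h2 : ‖1 + s * γ‖ ≤ 1 + ‖s‖ * ‖γ‖ := by
    simpa using norm_add_le 1 (s * γ)
  have h3 : ε / 2 ≤ ‖tau ε γ t‖ := by
    rw [tau, norm_div, le_div_iff₀ (norm_pos_iff.2 n)]
    nlinarith [norm_nonneg s, norm_nonneg γ, mul_le_mul_of_nonneg_left h2 h0,
      mul_le_mul_of_nonneg_left h (norm_nonneg s)]
  nlinarith

variable {ι : Type} [Fintype ι] [DecidableEq ι] {A : Matrix ι ι ℝ} {W : ι → ℂ}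

/-- squared Euclidean norm -/
noncomputable def n2 (v : ι → ℂ) : ℝ := ∑ a, ‖v a‖ ^ 2

lemma n2_eq (v : ι → ℂ) : n2 v = ‖(WithLp.toLp 2 v : EuclideanSpace ℂ ι)‖ ^ 2 := by
  rw [EuclideanSpace.norm_sq_eq, n2]

lemma n2_nonneg (v : ι → ℂ) : 0 ≤ n2 v := Finset.sum_nonneg fun _ _ => sq_nonneg _

lemma cs (u v : ι → ℂ) : ‖∑ a, (starRingEnd ℂ) (u a) * v a‖
    ≤ ‖(WithLp.toLp 2 u : EuclideanSpace ℂ ι)‖ * ‖(WithLp.toLp 2 v : EuclideanSpace ℂ ι)‖ := by
  refine le_trans (le_of_eq ?_) (norm_inner_le_norm (𝕜 := ℂ) _ _)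
  rw [PiLp.inner_apply]
  congr 1
  refine Finset.sum_congr rfl fun a _ => ?_
  simp [mul_comm]

lemma res_le (hA : ∀ a b, A a b = A b a) {η : ℝ} (hη : 0 < η) (hW : ∀ a, (W a).im ≤ -η)
    (χ : ι → ℂ) : η * ‖(WithLp.toLp 2 (GG A W *ᵥ χ) : EuclideanSpace ℂ ι)‖
      ≤ ‖(WithLp.toLp 2 χ : EuclideanSpace ℂ ι)‖ := by
  have hW' : ∀ a, (W a).im < 0 := fun a => by linarith [hW a]
  have h1 : η * n2 (GG A W *ᵥ χ) ≤ qq A W χ := by
    rw [qq_eq hA hW', n2, Finset.mul_sum]
    exact Finset.sum_le_sum fun y _ =>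
      mul_le_mul_of_nonneg_right (by linarith [hW y]) (sq_nonneg _)
  have h2 := (Complex.im_le_norm _).trans (cs χ (GG A W *ᵥ χ))
  rw [n2_eq] at h1
  rcases eq_or_lt_of_le (norm_nonneg (WithLp.toLp 2 (GG A W *ᵥ χ) : EuclideanSpace ℂ ι)) with h | h
  · rw [← h, mul_zero]
    positivity
  · have : qq A W χ ≤ _ := h2
    nlinarith

lemma qq_nonneg (hA : ∀ a b, A a b = A b a) (hW : ∀ a, (W a).im < 0) (χ : ι → ℂ) :
    0 ≤ qq A W χ := by
  rw [qq_eq hA hW]
  exact Finset.sum_nonneg fun y _ => mul_nonneg (by linarith [hW y]) (sq_nonneg _)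

lemma int_qq (hA : ∀ a b, A a b = A b a) (hW : ∀ a, (W a).im ≤ 0) (χ : ι → ℂ) {η : ℝ}
    (hη : 0 < η) (r : ℝ) : ∫⁻ E in Set.Ioc (-r) r,
      ENNReal.ofReal (qq A (fun y => W y - (E + η * Complex.I)) χ) ≤ ENNReal.ofReal (6 * n2 χ) := by
  set K := ‖Matrix.toEuclideanCLM (n := ι) (𝕜 := ℂ) (MM A W)‖ with hK
  have K0 : 0 ≤ K := norm_nonneg _
  set R := |r| + η + 2 * K with hR
  have r0 := abs_nonneg r
  have R0 : 0 < R := by positivity
  have hηR : η ≤ R := by linarith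
  set N := ‖(WithLp.toLp 2 χ : EuclideanSpace ℂ ι)‖ with hN
  have N0 : 0 ≤ N := norm_nonneg _
  set F : ℂ → ℂ := fun z => ∑ a, (starRingEnd ℂ) (χ a) * (GG A (fun y => W y - z) *ᵥ χ) a with hF
  have dF : ∀ z : ℂ, 0 < z.im → DifferentiableAt ℂ F z := by
    intro z hz
    simp only [hF, mulVec, dotProduct]
    exact DifferentiableAt.fun_sum fun a _ => DifferentiableAt.const_mul
      (DifferentiableAt.fun_sum fun b _ => (diff_GG hA hW a b hz).mul_const _) _
  have h := Complex.integral_boundary_rect_eq_zero_of_differentiableOn F ⟨-R, η⟩ ⟨R, R⟩ (by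
    intro z hz
    have := hz.2
    simp only [Set.mem_preimage, Set.uIcc_of_le hηR] at this
    exact (dF z (hη.trans_le this.1)).differentiableWithinAt)
  simp only at h
  have b1 : ‖∫ x : ℝ in (-R)..R, F (x + R * Complex.I)‖ ≤ N ^ 2 / R * |R - -R| := by
    apply intervalIntegral.norm_integral_le_of_norm_le_const
    intro x _
    have := res_le (W := fun y => W y - (x + R * Complex.I)) hA R0
      (fun a => by simpa using hW a) χ
    refine (cs _ _).trans ?_
    rw [le_div_iff₀ R0]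
    nlinarith
  have b2 : ∀ a : ℝ, |a| = R →
      ‖∫ y : ℝ in η..R, F (a + y * Complex.I)‖ ≤ 2 * N ^ 2 / R * |R - η| := by
    intro a ha
    apply intervalIntegral.norm_integral_le_of_norm_le_const
    intro y hy
    rw [Set.uIoc_of_le hηR] at hy
    set z := (a + y * Complex.I : ℂ) with hz
    have h2 : R ≤ ‖z‖ := by
      refine le_trans ?_ (Complex.abs_re_le_norm _)
      simp [hz, ha]
    set w := GG A (fun y => W y - z) *ᵥ χ with hw
    have e : z • (WithLp.toLp 2 w : EuclideanSpace ℂ ι)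
        = Matrix.toEuclideanCLM (n := ι) (𝕜 := ℂ) (MM A W) (WithLp.toLp 2 w) - WithLp.toLp 2 χ := by
      rw [toEuclideanCLM_toLp]
      ext j
      have := congrFun (MG (W := fun y => W y - z) hA
        (fun a => by simp only [hz]; simp; linarith [hW a, hy.1]) χ) j
      rw [← hw, MM_mv] at this
      simp only [PiLp.smul_apply, PiLp.sub_apply, smul_eq_mul, MM_mv]
      linear_combination -this
    have h3 := norm_sub_le (Matrix.toEuclideanCLM (n := ι) (𝕜 := ℂ) (MM A W) (WithLp.toLp 2 w))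
      (WithLp.toLp 2 χ)
    rw [← e, norm_smul] at h3
    have h4 := (Matrix.toEuclideanCLM (n := ι) (𝕜 := ℂ) (MM A W)).le_opNorm (WithLp.toLp 2 w)
    have w0 := norm_nonneg (WithLp.toLp 2 w : EuclideanSpace ℂ ι)
    have h5 : R / 2 * ‖(WithLp.toLp 2 w : EuclideanSpace ℂ ι)‖ ≤ N := by nlinarith
    refine (cs _ _).trans ?_
    rw [le_div_iff₀ R0]
    nlinarith
  have c1 : N ^ 2 / R * |R - -R| = 2 * N ^ 2 := by
    rw [abs_of_pos (by linarith)]
    field_simp
    ring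
  have c2 : 2 * N ^ 2 / R * |R - η| ≤ 2 * N ^ 2 := by
    rw [abs_of_nonneg (by linarith), div_mul_eq_mul_div, div_le_iff₀ R0]
    nlinarith [sq_nonneg N]
  have e : ∫ x : ℝ in (-R)..R, F (x + η * Complex.I) = (∫ x : ℝ in (-R)..R, F (x + R * Complex.I))
      - Complex.I • (∫ y : ℝ in η..R, F (R + y * Complex.I))
      + Complex.I • ∫ y : ℝ in η..R, F ((-R : ℝ) + y * Complex.I) := by
    linear_combination h
  have b3 : ‖∫ x : ℝ in (-R)..R, F (x + η * Complex.I)‖ ≤ 6 * N ^ 2 := by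
    rw [e]
    refine (norm_add_le _ _).trans ((add_le_add (norm_sub_le _ _) le_rfl).trans ?_)
    rw [norm_smul, norm_smul, Complex.norm_I, one_mul, one_mul]
    have := b2 R (abs_of_pos R0)
    have := b2 (-R) (by rw [abs_neg, abs_of_pos R0])
    linarith
  have cF : Continuous fun E : ℝ => F (E + η * Complex.I) := by
    rw [continuous_iff_continuousAt]
    intro E
    exact ContinuousAt.comp (f := fun E : ℝ => (E + η * Complex.I : ℂ))
      (dF _ (by simpa using hη)).continuousAt (by fun_prop)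
  have e2 : ∫ E in (-R)..R, (F (E + η * Complex.I)).im
      = (∫ x : ℝ in (-R)..R, F (x + η * Complex.I)).im := by
    have := Complex.imCLM.intervalIntegral_comp_comm (μ := volume) (cF.intervalIntegrable (-R) R)
    simpa only [Complex.imCLM_apply] using this
  have c := Complex.continuous_im.comp cF
  have sub : Set.Ioc (-r) r ⊆ Set.Ioc (-R) R :=
    Set.Ioc_subset_Ioc (by linarith [le_abs_self r]) (by linarith [le_abs_self r])
  refine (lintegral_mono_set sub).trans ?_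
  have := ofReal_integral_eq_lintegral_ofReal (μ := volume.restrict (Set.Ioc (-R) R))
    (f := fun E : ℝ => qq A (fun y => W y - (E + η * Complex.I)) χ)
    (c.integrableOn_Icc.mono_set Set.Ioc_subset_Icc_self)
    (ae_of_all _ fun E => qq_nonneg hA (fun a => by simp; linarith [hW a]) χ)
  rw [← this, ← intervalIntegral.integral_of_le (by linarith), n2_eq]
  apply ENNReal.ofReal_le_ofReal
  exact (le_of_eq e2).trans ((Complex.im_le_norm _).trans b3)

end Pool.Agent.P.MP_d0f69c_mp.NW
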