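import Pool.Agent.P.MP_d0f69c_mp.NW2

set_option autoImplicit false
set_option linter.unusedSectionVars false

open Finset Matrix MeasureTheory Filter Topology ProbabilityTheory
open scoped NNReal

namespace Pool.Agent.P.MP_d0f69c_mp.NW

variable {ι : Type} [Fintype ι] [DecidableEq ι] {A : Matrix ι ι ℝ} {W : ι → ℂ}

/-- the flux that is not reflected into the lead at `o` -/
noncomputable def YY (A : Matrix ι ι ℝ) (W : ι → ℂ) (o : ι) : ℝ :=
  (GG A W o o).im - ‖GG A W o o‖ ^ 2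

/-- the supermartingale -/
noncomputable def Psi (A : Matrix ι ι ℝ) (ε : ι → ℝ≥0) (η : ℝ) (B : Finset ι) (o : ι)
    (T : Finset ι) (W : ι → ℂ) : ℝ :=
  YY A W o - η * ∑ y ∈ B, (GG A W y y).im - ∑ y ∈ T, (ε y : ℝ) ^ 2 / 4 * ‖GG A W y o‖ ^ 4

lemma sq_sub (u v : ℂ) : ‖u - v‖ ^ 2 = ‖u‖ ^ 2 - 2 * ((starRingEnd ℂ) u * v).re + ‖v‖ ^ 2 := by
  simp only [← Complex.normSq_eq_norm_sq, Complex.normSq_apply]
  simp
  ring

lemma four_sub (u v : ℂ) :
    ‖u‖ ^ 4 - 4 * ‖u‖ ^ 2 * ((starRingEnd ℂ) u * v).re ≤ ‖u - v‖ ^ 4 := by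
  have e := sq_sub u v
  have : ‖u - v‖ ^ 4 = (‖u - v‖ ^ 2) ^ 2 := by ring
  nlinarith [sq_nonneg (‖u - v‖ ^ 2 - ‖u‖ ^ 2), mul_nonneg (sq_nonneg ‖u‖) (sq_nonneg ‖v‖)]

lemma int_G {Ω : Type} [MeasurableSpace Ω] (P : Measure Ω) [IsFiniteMeasure P]
    (hA : ∀ a b, A a b = A b a) {V : Ω → ι → ℂ} (hm : Measurable V) {η : ℝ} (hη : 0 < η)
    (hV : ∀ ω a, (V ω a).im ≤ -η) (a b : ι) {f : ℂ → ℝ} (hf : Continuous f) :
    Integrable (fun ω => f (GG A (V ω) a b)) P := by
  obtain ⟨C, hC⟩ := (isCompact_closedBall (0 : ℂ) η⁻¹).exists_bound_of_continuousOn hf.continuousOn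
  exact Integrable.of_bound (hf.measurable.comp ((meas_GG A a b).comp hm)).aestronglyMeasurable C
    (ae_of_all _ fun ω => hC _ (by simpa using entry_le hA hη (hV ω) a b))

lemma int_Psi {Ω : Type} [MeasurableSpace Ω] (P : Measure Ω) [IsFiniteMeasure P]
    (hA : ∀ a b, A a b = A b a) {V : Ω → ι → ℂ} (hm : Measurable V) {η : ℝ} (hη : 0 < η)
    (hV : ∀ ω a, (V ω a).im ≤ -η) (ε : ι → ℝ≥0) (η' : ℝ) (B : Finset ι) (o : ι) (T : Finset ι) :
    Integrable (fun ω => Psi A ε η' B o T (V ω)) P := by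
  refine Integrable.sub (Integrable.sub ?_ (Integrable.const_mul ?_ _)) ?_
  · exact int_G P hA hm hη hV o o (f := fun z => z.im - ‖z‖ ^ 2) (by fun_prop)
  · exact integrable_finsetSum _ fun y _ => int_G P hA hm hη hV y y Complex.continuous_im
  · exact integrable_finsetSum _ fun y _ =>
      int_G P hA hm hη hV y o (f := fun z => (ε y : ℝ) ^ 2 / 4 * ‖z‖ ^ 4) (by fun_prop)

lemma step0 (hA : ∀ a b, A a b = A b a) {η : ℝ} (hη : 0 < η) (hW : ∀ a, (W a).im ≤ -η)
    (ε : ι → ℝ≥0) (η' : ℝ) (B : Finset ι) (o x : ι) (hx : (W x).im + ε x ≤ -η)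
    {T : Finset ι} (hT : x ∉ T) :
    ∫ t : ℝ, Psi A ε η' B o T (Function.update W x (W x + (t + (ε x : ℝ) * Complex.I)))
      ∂(cauchyMeasure 0 (ε x)) ≤ Psi A ε η' B o (insert x T) W := by
  have hW' : ∀ a, (W a).im < 0 := fun a => by linarith [hW a]
  have hV : ∀ (t : ℝ) a, (Function.update W x (W x + (t + (ε x : ℝ) * Complex.I)) a).im ≤ -η := by
    intro t a
    by_cases h : a = x
    · subst h
      simpa using hx
    · rw [Function.update_of_ne h]
      exact hW a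
  set G := GG A W with hG
  obtain ⟨i1, i2⟩ := cauchy_tau (ε x) (γ := G x x) (diag_im_gt hA hW' x (by linarith))
  set β : ℂ := Complex.I * (G o x * G x o) + 2 * (starRingEnd ℂ) (G o o) * (G o x * G x o)
    - η' * ∑ y ∈ B, Complex.I * (G y x * G x y) + ∑ y ∈ T, (((ε y : ℝ) ^ 2 / 4 * (4 * ‖G y o‖ ^ 2) : ℝ)
      : ℂ) * ((starRingEnd ℂ) (G y o) * (G y x * G x o)) with hβ
  have i3 : Integrable (fun t => (β * tau (ε x) (G x x) t).re) (cauchyMeasure 0 (ε x)) :=
    (i1.const_mul β).re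
  have i4 : ∫ t, (β * tau (ε x) (G x x) t).re ∂(cauchyMeasure 0 (ε x)) = 0 := by
    have := integral_re (i1.const_mul β)
    simp only [RCLike.re_to_complex] at this
    rw [this, integral_const_mul, i2]
    simp
  have key : ∀ t : ℝ, Psi A ε η' B o T (Function.update W x (W x + (t + (ε x : ℝ) * Complex.I)))
      ≤ Psi A ε η' B o (insert x T) W + (β * tau (ε x) (G x x) t).re := by
    intro t
    obtain ⟨n, r⟩ := rank_one hA hW' x (t + (ε x : ℝ) * Complex.I)
      (fun a => by linarith [hV t a])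
    have l := tau_ge (ε x).2 (γ := G x x) (diag_le hA hW' x (by
      show ((ε x : ℝ)) ≤ _
      linarith)) t n
    simp only [Psi, YY, r, Finset.sum_insert hT]
    change (G o o - tau (ε x) (G x x) t * (G o x * G x o)).im
      - ‖G o o - tau (ε x) (G x x) t * (G o x * G x o)‖ ^ 2
      - η' * ∑ y ∈ B, (G y y - tau (ε x) (G x x) t * (G y x * G x y)).im
      - ∑ y ∈ T, (ε y : ℝ) ^ 2 / 4 * ‖G y o - tau (ε x) (G x x) t * (G y x * G x o)‖ ^ 4 ≤ _
    change (ε x : ℝ) ^ 2 / 4 ≤ ‖tau (ε x) (G x x) t‖ ^ 2 at l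
    set τ := tau (ε x) (G x x) t
    have a1 : ∑ y ∈ B, (G y y - τ * (G y x * G x y)).im
        = ∑ y ∈ B, (G y y).im + ((∑ y ∈ B, Complex.I * (G y x * G x y)) * τ).re := by
      rw [Finset.sum_mul, Complex.re_sum, ← Finset.sum_add_distrib]
      refine Finset.sum_congr rfl fun y _ => ?_
      simp
      ring
    have a2 : ∑ y ∈ T, (ε y : ℝ) ^ 2 / 4 * ‖G y o‖ ^ 4 - ((∑ y ∈ T, (((ε y : ℝ) ^ 2 / 4 *
        (4 * ‖G y o‖ ^ 2) : ℝ) : ℂ) * ((starRingEnd ℂ) (G y o) * (G y x * G x o))) * τ).re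
        ≤ ∑ y ∈ T, (ε y : ℝ) ^ 2 / 4 * ‖G y o - τ * (G y x * G x o)‖ ^ 4 := by
      rw [Finset.sum_mul, Complex.re_sum, ← Finset.sum_sub_distrib]
      refine Finset.sum_le_sum fun y _ => ?_
      have := mul_le_mul_of_nonneg_left (four_sub (G y o) (τ * (G y x * G x o)))
        (show 0 ≤ (ε y : ℝ) ^ 2 / 4 by positivity)
      rw [mul_assoc, Complex.re_ofReal_mul, show (starRingEnd ℂ) (G y o) * (G y x * G x o) * τ
        = (starRingEnd ℂ) (G y o) * (τ * (G y x * G x o)) by ring]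
      linarith
    have a3 : (ε x : ℝ) ^ 2 / 4 * ‖G x o‖ ^ 4 ≤ ‖τ * (G o x * G x o)‖ ^ 2 := by
      have s : G o x = G x o := GG_symm hA W o x
      rw [s, norm_mul, norm_mul, mul_pow]
      have := mul_le_mul_of_nonneg_right l (show 0 ≤ ‖G x o‖ ^ 4 by positivity)
      linarith
    have a4 : (β * τ).re = -(τ * (G o x * G x o)).im
        + 2 * ((starRingEnd ℂ) (G o o) * (τ * (G o x * G x o))).re
        - η' * ((∑ y ∈ B, Complex.I * (G y x * G x y)) * τ).re
        + ((∑ y ∈ T, (((ε y : ℝ) ^ 2 / 4 * (4 * ‖G y o‖ ^ 2) : ℝ) : ℂ)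
          * ((starRingEnd ℂ) (G y o) * (G y x * G x o))) * τ).re := by
      rw [hβ]
      generalize (∑ y ∈ T, (((ε y : ℝ) ^ 2 / 4 * (4 * ‖G y o‖ ^ 2) : ℝ) : ℂ)
          * ((starRingEnd ℂ) (G y o) * (G y x * G x o))) = p
      generalize (∑ y ∈ B, Complex.I * (G y x * G x y)) = q
      generalize G o x * G x o = d
      simp
      ring
    rw [a1, a4, sq_sub, Complex.sub_im]
    linarith
  refine (integral_mono (int_Psi _ hA ?_ hη hV ε η' B o T) ((integrable_const _).add i3) key).trans ?_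
  · exact (measurable_update W).comp (by fun_prop)
  · simp only [Pi.add_apply]
    rw [integral_add (integrable_const _) i3, i4]
    simp

lemma resample {Z : Type} [DecidableEq Z] (ν : Z → Measure ℝ) [∀ z, IsProbabilityMeasure (ν z)]
    (x : Z) : MeasurePreserving (fun p : (Z → ℝ) × ℝ => Function.update p.1 x p.2)
      ((Measure.infinitePi ν).prod (ν x)) (Measure.infinitePi ν) := by
  refine ⟨measurable_update', Measure.eq_infinitePi ν fun s t ht => ?_⟩
  rw [Measure.map_apply measurable_update' (MeasurableSet.pi s.countable_toSet fun i _ => ht i)]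
  by_cases h : x ∈ s
  · have e : (fun p : (Z → ℝ) × ℝ => Function.update p.1 x p.2) ⁻¹' Set.pi s t
        = Set.pi (s.erase x) t ×ˢ t x := by
      ext p
      simp only [Set.mem_preimage, Set.mem_pi, Finset.mem_coe, Set.mem_prod, Finset.mem_erase]
      constructor
      · intro H
        refine ⟨fun i hi => ?_, by simpa using H x h⟩
        have := H i hi.2
        rwa [Function.update_of_ne hi.1] at this
      · intro H i hi
        by_cases e : i = x
        · subst e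
          simpa using H.2
        · rw [Function.update_of_ne e]
          exact H.1 i ⟨e, hi⟩
    rw [e, Measure.prod_prod, Measure.infinitePi_pi _ (fun i _ => ht i), Finset.prod_erase_mul _ _ h]
  · have e : (fun p : (Z → ℝ) × ℝ => Function.update p.1 x p.2) ⁻¹' Set.pi s t
        = Set.pi s t ×ˢ Set.univ := by
      ext p
      simp only [Set.mem_preimage, Set.mem_pi, Finset.mem_coe, Set.mem_prod, Set.mem_univ, and_true]
      refine forall_congr' fun i => forall_congr' fun hi => ?_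
      rw [Function.update_of_ne (by rintro rfl; exact h hi)]
    rw [e, Measure.prod_prod, Measure.infinitePi_pi _ (fun i _ => ht i), measure_univ, mul_one]

variable {Z : Type} [DecidableEq Z]

/-- the potential with the noise revealed outside `U` -/
noncomputable def WU (e : ι → Z) (ε : Z → ℝ≥0) (w : ι → ℂ) (U : Finset ι) (c : Z → ℝ) : ι → ℂ :=
  fun y => w y + if y ∈ U then -((ε (e y) : ℝ) * Complex.I) else (c (e y) : ℂ)

lemma meas_WU (e : ι → Z) (ε : Z → ℝ≥0) (w : ι → ℂ) (U : Finset ι) :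
    Measurable (WU e ε w U) := by
  refine measurable_pi_lambda _ fun y => ?_
  simp only [WU]
  split_ifs <;> fun_prop

lemma im_WU (e : ι → Z) (ε : Z → ℝ≥0) (w : ι → ℂ) (U : Finset ι) (c : Z → ℝ) (y : ι) :
    (WU e ε w U c y).im = (w y).im - if y ∈ U then (ε (e y) : ℝ) else 0 := by
  simp only [WU]
  split_ifs <;> simp [sub_eq_add_neg]

lemma im_WU_le (e : ι → Z) (ε : Z → ℝ≥0) {w : ι → ℂ} {η : ℝ} (hw : ∀ a, (w a).im ≤ -η)
    (U : Finset ι) (c : Z → ℝ) (y : ι) : (WU e ε w U c y).im ≤ -η := by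
  rw [im_WU]
  have := hw y
  have := (ε (e y)).2
  split_ifs <;> linarith

/-- the law of the noise -/
noncomputable abbrev PP (ε : Z → ℝ≥0) : Measure (Z → ℝ) :=
  Measure.infinitePi fun z => cauchyMeasure 0 (ε z)

lemma step1 (hA : ∀ a b, A a b = A b a) {e : ι → Z} (he : Function.Injective e) (ε : Z → ℝ≥0)
    {w : ι → ℂ} {η : ℝ} (hη : 0 < η) (hw : ∀ a, (w a).im ≤ -η) (η' : ℝ) (B : Finset ι) (o : ι)
    {U T : Finset ι} {x : ι} (hx : x ∈ U) (hT : x ∉ T) :
    ∫ c, Psi A (fun y => ε (e y)) η' B o T (WU e ε w (U.erase x) c) ∂(PP ε)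
      ≤ ∫ c, Psi A (fun y => ε (e y)) η' B o (insert x T) (WU e ε w U c) ∂(PP ε) := by
  have i := fun U T => int_Psi (PP ε) hA (meas_WU e ε w U) hη (im_WU_le e ε hw U)
    (fun y => ε (e y)) η' B o T
  have mp : MeasurePreserving _ ((PP ε).prod _) (PP ε) :=
    resample (fun z => cauchyMeasure 0 (ε z)) (e x)
  have i2 := (mp.integrable_comp (i (U.erase x) T).1).2 (i (U.erase x) T)
  have e1 := integral_map mp.measurable.aemeasurable
    (f := fun c => Psi A (fun y => ε (e y)) η' B o T (WU e ε w (U.erase x) c))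
    (by rw [mp.map_eq]; exact (i _ _).1)
  rw [mp.map_eq] at e1
  rw [e1]
  refine (le_of_eq (integral_prod _ i2)).trans ?_
  refine integral_mono i2.integral_prod_left (i _ _) fun c => ?_
  refine le_trans (le_of_eq ?_) (step0 hA hη (im_WU_le e ε hw U c) (fun y => ε (e y)) η' B o x
    (by rw [im_WU, if_pos hx]; linarith [hw x]) hT)
  refine integral_congr_ae (ae_of_all _ fun t => ?_)
  simp only [Function.comp]
  congr 1
  funext y
  by_cases h : y = x
  · subst h
    simp [WU, hx]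
    ring
  · simp [WU, h, he.ne h]

lemma reveal (hA : ∀ a b, A a b = A b a) {e : ι → Z} (he : Function.Injective e) (ε : Z → ℝ≥0)
    {w : ι → ℂ} {η : ℝ} (hη : 0 < η) (hw : ∀ a, (w a).im ≤ -η) (η' : ℝ) (B : Finset ι) (o : ι)
    {U : Finset ι} (S : Finset ι) : ∀ T : Finset ι, S ⊆ U → Disjoint S T →
    ∫ c, Psi A (fun y => ε (e y)) η' B o T (WU e ε w (U \ S) c) ∂(PP ε)
      ≤ ∫ c, Psi A (fun y => ε (e y)) η' B o (S ∪ T) (WU e ε w U c) ∂(PP ε) := by
  induction S using Finset.induction_on with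
  | empty => intro T _ _; simp
  | insert x S hx ih =>
    intro T h1 h2
    rw [Finset.disjoint_insert_left] at h2
    rw [Finset.sdiff_insert, Finset.insert_union, ← Finset.union_insert]
    refine (step1 hA he ε hη hw η' B o (Finset.mem_sdiff.2 ⟨h1 (Finset.mem_insert_self _ _), hx⟩)
      h2.1).trans (ih _ ((Finset.subset_insert _ _).trans h1) ?_)
    rw [Finset.disjoint_insert_right]
    exact ⟨hx, h2.2⟩

end Pool.Agent.P.MP_d0f69c_mp.NW
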