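import Pool.Agent.P.MP_d0f69c_mp.NW3

set_option autoImplicit false
set_option linter.unusedSectionVars false

open Finset Matrix MeasureTheory Filter Topology ProbabilityTheory
open scoped NNReal

namespace Pool.Agent.P.MP_d0f69c_mp.NW

variable {ι : Type} [Fintype ι] [DecidableEq ι] {A : Matrix ι ι ℝ} {W : ι → ℂ}

lemma YY_eq (hA : ∀ a b, A a b = A b a) (hW : ∀ a, (W a).im < 0) (o : ι) :
    YY A W o = ∑ y, (-(W y).im - if y = o then 1 else 0) * ‖GG A W y o‖ ^ 2 := by
  simp only [YY, ward hA hW o, sub_mul, Finset.sum_sub_distrib, ite_mul, one_mul, zero_mul,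
    Finset.sum_ite_eq', Finset.mem_univ, if_true]

lemma YY_nonneg (hA : ∀ a b, A a b = A b a) (hW : ∀ a, (W a).im < 0) {o : ι}
    (ho : (W o).im ≤ -1) : 0 ≤ YY A W o := by
  have := ward_le hA hW o o
  rw [YY]
  nlinarith [sq_nonneg ‖GG A W o o‖]

lemma YY_le (A : Matrix ι ι ℝ) (W : ι → ℂ) (o : ι) : YY A W o ≤ 1 / 4 := by
  have := Complex.im_le_norm (GG A W o o)
  rw [YY]
  nlinarith [sq_nonneg (‖GG A W o o‖ - 1 / 2)]

lemma im_diag_nonneg (hA : ∀ a b, A a b = A b a) (hW : ∀ a, (W a).im < 0) (y : ι) :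
    0 ≤ (GG A W y y).im := by
  rw [← qq_single]
  exact qq_nonneg hA hW _

lemma flux (hA : ∀ a b, A a b = A b a) (hrow : ∀ a, ∑ b, |A a b| ≤ 4) {η : ℝ} (hη : 0 < η)
    (ε : ι → ℝ≥0) {o : ι} {U O S B : Finset ι}
    (hW : ∀ y, -(W y).im = η + (if y = o then 1 else 0) + if y ∈ U then (ε y : ℝ) else 0)
    (ho : o ∉ O) (h1 : ∀ a ∈ O, ∀ b, b ∉ O → A a b ≠ 0 → a ∈ S ∧ b ∈ S)
    (h2 : ∀ y ∈ U, y ∉ O → y ∈ S) (h3 : ∀ y, y ∉ O → y ∈ B) :
    YY A W o - η * ∑ y ∈ B, (GG A W y y).im ≤ ∑ y ∈ S, ((ε y : ℝ) + 4) * ‖GG A W y o‖ ^ 2 := by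
  have hW' : ∀ a, (W a).im < 0 := by
    intro a
    have := hW a
    have := (ε a).coe_nonneg
    split_ifs at * <;> linarith
  set u : ι → ℂ := fun y => GG A W y o with hu
  have f := form hA W u O
  have m : MM A W *ᵥ u = Pi.single o 1 := by
    rw [← MG hA hW' (Pi.single o 1)]
    congr 1
    funext y
    rw [col]
  rw [m, Finset.sum_eq_zero (fun a ha => by
    rw [Pi.single_eq_of_ne (by rintro rfl; exact ho ha)]
    simp)] at f
  have b1 : ∑ a ∈ O, ∑ b ∈ Oᶜ, A a b * ((starRingEnd ℂ) (u a) * u b).im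
      ≤ ∑ y ∈ S, 4 * ‖u y‖ ^ 2 := by
    set g : ι → ℝ := fun y => if y ∈ S then ‖u y‖ ^ 2 / 2 else 0 with hg
    have g0 : ∀ y, 0 ≤ g y := fun y => by simp only [hg]; positivity
    calc _ ≤ ∑ a ∈ O, ∑ b ∈ Oᶜ, |A a b| * (g a + g b) := by
          refine Finset.sum_le_sum fun a ha => Finset.sum_le_sum fun b hb => ?_
          by_cases h : A a b = 0
          · simp [h]
          · obtain ⟨p1, p2⟩ := h1 a ha b (Finset.mem_compl.1 hb) h
            refine (le_abs_self _).trans ?_
            rw [abs_mul]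
            refine mul_le_mul_of_nonneg_left ((Complex.abs_im_le_norm _).trans ?_) (abs_nonneg _)
            simp only [hg, if_pos p1, if_pos p2, norm_mul, Complex.norm_conj]
            nlinarith [sq_nonneg (‖u a‖ - ‖u b‖)]
      _ ≤ ∑ a, ∑ b, |A a b| * (g a + g b) := by
          have n : ∀ a b, 0 ≤ |A a b| * (g a + g b) := fun a b =>
            mul_nonneg (abs_nonneg _) (add_nonneg (g0 a) (g0 b))
          refine (Finset.sum_le_sum fun a _ => Finset.sum_le_univ_sum_of_nonneg (n a)).trans ?_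
          exact Finset.sum_le_univ_sum_of_nonneg fun a => Finset.sum_nonneg fun b _ => n a b
      _ = ∑ a, (∑ b, |A a b|) * g a + ∑ a, (∑ b, |A a b|) * g a := by
          simp only [mul_add, Finset.sum_add_distrib, Finset.sum_mul]
          congr 1
          rw [Finset.sum_comm]
          simp only [hA]
      _ ≤ ∑ a, 4 * g a + ∑ a, 4 * g a := by
          have := Finset.sum_le_sum fun a (_ : a ∈ Finset.univ) =>
            mul_le_mul_of_nonneg_right (hrow a) (g0 a)
          linarith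
      _ = _ := by
          rw [← Finset.sum_add_distrib, ← Finset.sum_filter_add_sum_filter_not _ (· ∈ S),
            Finset.sum_eq_zero (s := Finset.univ.filter (· ∉ S)), add_zero, Finset.filter_univ_mem]
          · refine Finset.sum_congr rfl fun y hy => ?_
            simp only [hg, if_pos hy]
            ring
          · intro y hy
            simp only [hg, if_neg (Finset.mem_filter.1 hy).2]
            ring
  have b2 : ∑ y ∈ O, (-(W y).im - if y = o then 1 else 0) * ‖u y‖ ^ 2
      = -∑ a ∈ O, (W a).im * ‖u a‖ ^ 2 := by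
    rw [← Finset.sum_neg_distrib]
    refine Finset.sum_congr rfl fun y hy => ?_
    rw [if_neg (by rintro rfl; exact ho hy)]
    ring
  have b3 : ∑ y ∈ Oᶜ, (-(W y).im - if y = o then 1 else 0) * ‖u y‖ ^ 2
      ≤ η * ∑ y ∈ B, (GG A W y y).im + ∑ y ∈ S, (ε y : ℝ) * ‖u y‖ ^ 2 := by
    calc _ ≤ ∑ y ∈ Oᶜ, (η * (GG A W y y).im + if y ∈ S then (ε y : ℝ) * ‖u y‖ ^ 2 else 0) := by
          refine Finset.sum_le_sum fun y hy => ?_
          have w := ward_le hA hW' y o
          have w2 := hW o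
          rw [if_pos rfl] at w2
          have w3 : ‖u y‖ ^ 2 ≤ (GG A W y y).im := by
            refine le_trans ?_ w
            rw [GG_symm hA W o y]
            refine le_mul_of_one_le_left (sq_nonneg _) ?_
            have := (ε o).coe_nonneg
            split_ifs at w2 <;> linarith
          rw [hW y, add_right_comm, add_sub_cancel_right, add_mul]
          refine add_le_add (mul_le_mul_of_nonneg_left w3 hη.le) ?_
          by_cases h : y ∈ U
          · rw [if_pos h, if_pos (h2 y h (Finset.mem_compl.1 hy))]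
          · rw [if_neg h, zero_mul]
            positivity
      _ ≤ _ := by
          rw [Finset.sum_add_distrib, ← Finset.mul_sum]
          refine add_le_add (mul_le_mul_of_nonneg_left (Finset.sum_le_sum_of_subset_of_nonneg
            (fun y hy => h3 y (Finset.mem_compl.1 hy)) fun y _ _ => im_diag_nonneg hA hW' y) hη.le) ?_
          rw [← Finset.sum_filter]
          exact Finset.sum_le_sum_of_subset_of_nonneg (fun y hy => (Finset.mem_filter.1 hy).2)
            fun y _ _ => by positivity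
  rw [YY_eq hA hW', ← Finset.sum_add_sum_compl O]
  simp only [add_mul, Finset.sum_add_distrib]
  linarith

lemma square {a e θ p : ℝ} (h0 : 0 ≤ a) (h1 : a ≤ 1) (he : a ≤ e) (hθ : 0 ≤ θ) :
    θ * a ^ 2 * (2 * ((e + 4) * p ^ 2) - 100 * θ) ≤ e ^ 2 / 4 * p ^ 4 := by
  have h : a * (e + 4) ≤ 5 * e := by nlinarith
  have h2 := mul_le_mul_of_nonneg_left h (show 0 ≤ θ * a * p ^ 2 by positivity)
  nlinarith [sq_nonneg (e * p ^ 2 / 2 - 10 * θ * a)]

lemma tele (y : ℕ → ℝ) (R0 n : ℕ) : ∑ R ∈ Finset.Ico R0 (R0 + n), (y R - y (R + 2))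
    = y R0 + y (R0 + 1) - y (R0 + n) - y (R0 + n + 1) := by
  induction n with
  | zero => simp
  | succ n ih =>
    rw [← add_assoc, Finset.sum_Ico_succ_top (by omega), ih]
    ring

variable {Z : Type} [DecidableEq Z]

/-- the main estimate, at a fixed energy and in finite volume -/
theorem core (hA : ∀ a b, A a b = A b a) (hrow : ∀ a, ∑ b, |A a b| ≤ 4) (ρ : ι → ℕ)
    (hρ : ∀ a b, A a b ≠ 0 → ρ a ≤ ρ b + 1)
    (hcard : ∀ R : ℕ, 1 ≤ R → (Finset.univ.filter fun y => ρ y = R ∨ ρ y = R + 1).card ≤ 24 * R)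
    {e : ι → Z} (he : Function.Injective e) (ε : Z → ℝ≥0) {a : ℕ → ℝ} (a0 : ∀ R, 0 ≤ a R)
    (a1 : ∀ R, a R ≤ 1) (haε : ∀ R y, ρ y = R ∨ ρ y = R + 1 → a R ≤ ε (e y))
    {w : ι → ℂ} {η : ℝ} (hη : 0 < η) {o : ι} (hw : ∀ y, -(w y).im = η + if y = o then 1 else 0)
    {R0 n : ℕ} (h0 : ρ o < R0) {δ : ℝ} (hδ : 0 < δ)
    (hN : 24 ≤ δ ^ 2 * ∑ R ∈ Finset.Ico R0 (R0 + n), a R ^ 2 / R) :
    ∫ c, Psi A (fun y => ε (e y)) η (Finset.univ.filter fun y => ρ y ≤ R0 + n) o ∅
      (WU e ε w ∅ c) ∂(PP ε) ≤ 51 * δ := by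
  set B := Finset.univ.filter fun y => ρ y ≤ R0 + n with hB
  have hw' : ∀ y, (w y).im ≤ -η := by
    intro y
    have := hw y
    split_ifs at this <;> linarith
  set U : ℕ → Finset ι := fun R => Finset.univ.filter fun y => R ≤ ρ y with hU
  set y : ℕ → ℝ := fun R => ∫ c, Psi A (fun y => ε (e y)) η B o ∅ (WU e ε w (U R) c) ∂(PP ε)
    with hy
  set yi := ∫ c, Psi A (fun y => ε (e y)) η B o ∅ (WU e ε w ∅ c) ∂(PP ε) with hyi
  have i := fun U T => int_Psi (PP ε) hA (meas_WU e ε w U) hη (im_WU_le e ε hw' U)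
    (fun y => ε (e y)) η B o T
  have l1 : ∀ R, yi ≤ y R := by
    intro R
    have := reveal hA he ε hη hw' η B o (U := U R) (U R) ∅ subset_rfl (by simp)
    rw [Finset.sdiff_self] at this
    refine this.trans (integral_mono (i _ _) (i _ _) fun c => ?_)
    simp only [Psi, Finset.sum_empty]
    have : 0 ≤ ∑ y ∈ U R ∪ ∅, (ε (e y) : ℝ) ^ 2 / 4 * ‖GG A (WU e ε w (U R) c) y o‖ ^ 4 :=
      Finset.sum_nonneg fun _ _ => by positivity
    linarith
  have l2 : ∀ R, y R ≤ 1 / 4 := by
    intro R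
    refine (integral_mono (i _ _) (integrable_const (1 / 4 : ℝ)) fun c => ?_).trans (by simp)
    simp only [Psi, Finset.sum_empty]
    have := YY_le A (WU e ε w (U R) c) o
    have : 0 ≤ η * ∑ y ∈ B, (GG A (WU e ε w (U R) c) y y).im :=
      mul_nonneg hη.le (Finset.sum_nonneg fun y _ => im_diag_nonneg hA
        (fun a => by linarith [im_WU_le e ε hw' (U R) c a]) y)
    linarith
  have l3 : ∀ R ∈ Finset.Ico R0 (R0 + n),
      a R ^ 2 / R * (δ / 24 * (2 * yi - 100 * δ)) ≤ y R - y (R + 2) := by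
    intro R hR
    rw [Finset.mem_Ico] at hR
    have R1 : 1 ≤ R := by omega
    have R2 : (0 : ℝ) < R := by exact_mod_cast R1
    set S := Finset.univ.filter fun y => ρ y = R ∨ ρ y = R + 1 with hS
    have r := reveal hA he ε hη hw' η B o (U := U R) S ∅ (fun y hy => by
      simp only [hS, hU, Finset.mem_filter, Finset.mem_univ, true_and] at hy ⊢
      omega) (by simp)
    have e1 : U R \ S = U (R + 2) := by
      ext y
      simp only [hS, hU, Finset.mem_sdiff, Finset.mem_filter, Finset.mem_univ, true_and]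
      omega
    rw [e1, Finset.union_empty] at r
    set θ := δ / (24 * R) with hθ
    have θ0 : 0 ≤ θ := by positivity
    have p : ∀ c, Psi A (fun y => ε (e y)) η B o S (WU e ε w (U R) c)
        ≤ (1 - 2 * (θ * a R ^ 2)) * Psi A (fun y => ε (e y)) η B o ∅ (WU e ε w (U R) c)
          + θ * a R ^ 2 * (100 * δ) := by
      intro c
      have f := flux (W := WU e ε w (U R) c) hA hrow hη (fun y => ε (e y)) (o := o) (U := U R)
        (O := U (R + 1)) (S := S) (B := B) (fun y => by rw [im_WU, ← hw y]; ring)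
        (by simp only [hU, Finset.mem_filter, Finset.mem_univ, true_and]; omega)
        (fun a ha b hb hab => by
          have := hρ a b hab
          simp only [hS, hU, Finset.mem_filter, Finset.mem_univ, true_and] at ha hb ⊢
          omega)
        (fun y ha hb => by
          simp only [hS, hU, Finset.mem_filter, Finset.mem_univ, true_and] at ha hb ⊢
          omega)
        (fun y hb => by
          simp only [hB, hU, Finset.mem_filter, Finset.mem_univ, true_and] at hb ⊢
          omega)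
      have s := Finset.sum_le_sum fun y (hy : y ∈ S) => square (p := ‖GG A (WU e ε w (U R) c) y o‖)
        (a0 R) (a1 R) (haε R y (Finset.mem_filter.1 hy).2) θ0
      rw [← Finset.mul_sum, Finset.sum_sub_distrib, ← Finset.mul_sum, Finset.sum_const,
        nsmul_eq_mul] at s
      have c1 : (S.card : ℝ) * (100 * θ) ≤ 100 * δ := by
        have : (S.card : ℝ) ≤ 24 * R := by exact_mod_cast hcard R R1
        refine (mul_le_mul_of_nonneg_right this (by positivity)).trans (le_of_eq ?_)
        rw [hθ]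
        field_simp
      have t0 : 0 ≤ θ * a R ^ 2 := by positivity
      simp only [Psi, Finset.sum_empty, sub_zero]
      nlinarith [mul_le_mul_of_nonneg_left f t0, mul_le_mul_of_nonneg_left c1 t0]
    have q := r.trans (integral_mono (i _ _) (((i _ _).const_mul _).add (integrable_const _)) p)
    simp only [Pi.add_apply] at q
    rw [integral_add ((i _ _).const_mul _) (integrable_const _), integral_const_mul] at q
    simp only [integral_const, probReal_univ, smul_eq_mul, one_mul] at q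
    change y (R + 2) ≤ (1 - 2 * (θ * a R ^ 2)) * y R + θ * a R ^ 2 * (100 * δ) at q
    have e2 : a R ^ 2 / R * (δ / 24 * (2 * yi - 100 * δ)) = θ * a R ^ 2 * (2 * yi - 100 * δ) := by
      rw [hθ]
      field_simp
    rw [e2]
    nlinarith [mul_le_mul_of_nonneg_left (l1 R) (show 0 ≤ θ * a R ^ 2 by positivity)]
  have s := Finset.sum_le_sum l3
  rw [tele, ← Finset.sum_mul] at s
  by_contra hc
  push Not at hc
  set N := ∑ R ∈ Finset.Ico R0 (R0 + n), a R ^ 2 / R
  have N0 : 0 ≤ N := Finset.sum_nonneg fun R _ => by positivity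
  have t : N * (δ / 24 * (2 * δ)) ≤ N * (δ / 24 * (2 * yi - 100 * δ)) :=
    mul_le_mul_of_nonneg_left (mul_le_mul_of_nonneg_left (by linarith) (by positivity)) N0
  nlinarith [l1 (R0 + n), l1 (R0 + n + 1), l2 R0, l2 (R0 + 1)]

end Pool.Agent.P.MP_d0f69c_mp.NW
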