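import Pool.Agent.P.MP_d0f69c_mp.NW4

set_option autoImplicit false
set_option linter.unusedSectionVars false

open Finset Matrix MeasureTheory Filter Topology ProbabilityTheory
open scoped NNReal

namespace Pool.Agent.P.MP_d0f69c_mp.NW

variable {ι : Type} [Fintype ι] [DecidableEq ι] {A : Matrix ι ι ℝ}

/-- real potential minus the spectral parameter -/
noncomputable def W0 (V : ι → ℝ) (η E : ℝ) : ι → ℂ := fun y => (V y : ℂ) - (E + η * Complex.I)

/-- the same with a lead of strength `s` at `o` -/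
noncomputable def WL (V : ι → ℝ) (o : ι) (s η E : ℝ) : ι → ℂ :=
  fun y => ((V y : ℂ) - if y = o then s * Complex.I else 0) - (E + η * Complex.I)

lemma im_W0 (V : ι → ℝ) (η E : ℝ) (y : ι) : (W0 V η E y).im = -η := by simp [W0]

lemma im_WL (V : ι → ℝ) (o : ι) (s η E : ℝ) (y : ι) :
    -(WL V o s η E y).im = η + if y = o then s else 0 := by
  simp only [WL]
  split_ifs <;> simp

lemma im_WL_lt (V : ι → ℝ) (o : ι) {s η : ℝ} (hs : 0 ≤ s) (hη : 0 < η) (E : ℝ) (y : ι) :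
    (WL V o s η E y).im < 0 := by
  have := im_WL V o s η E y
  split_ifs at this <;> linarith

lemma lead (hA : ∀ a b, A a b = A b a) (V : ι → ℝ) (o : ι) {s η : ℝ} (hs : 0 ≤ s) (hη : 0 < η)
    (E : ℝ) : ∃ D : ℝ, 0 < D ∧ D ≤ (1 + s * ‖GG A (W0 V η E) o o‖) ^ 2 ∧
      D * (GG A (WL V o s η E) o o).im
        = (GG A (W0 V η E) o o).im + s * ‖GG A (W0 V η E) o o‖ ^ 2 ∧
      D * ‖GG A (WL V o s η E) o o‖ ^ 2 = ‖GG A (W0 V η E) o o‖ ^ 2 := by
  have e : WL V o s η E = Function.update (W0 V η E) o (W0 V η E o + -(s * Complex.I)) := by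
    funext y
    by_cases h : y = o
    · subst h
      simp [WL, W0]
      ring
    · simp [WL, W0, h]
  obtain ⟨n, r⟩ := rank_one (W := W0 V η E) hA (fun a => by rw [im_W0]; linarith) o
    (-(s * Complex.I)) (by rw [← e]; exact im_WL_lt V o hs hη E)
  rw [← e] at r
  set γ := GG A (W0 V η E) o o
  set d := 1 + -(s * Complex.I) * γ with hd
  have g : GG A (WL V o s η E) o o = γ / d := by
    rw [r o o]
    field_simp
    rw [hd]
    ring
  refine ⟨‖d‖ ^ 2, by positivity, ?_, ?_, ?_⟩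
  · refine pow_le_pow_left₀ (norm_nonneg _) ((norm_add_le _ _).trans (le_of_eq ?_)) 2
    simp [abs_of_nonneg hs]
  · have : Complex.normSq d ≠ 0 := (Complex.normSq_pos.2 n).ne'
    rw [g, Complex.div_im, ← Complex.normSq_eq_norm_sq, ← Complex.normSq_eq_norm_sq,
      Complex.normSq_apply γ]
    field_simp
    simp [hd]
    ring
  · have : ‖d‖ ≠ 0 := norm_ne_zero_iff.2 n
    rw [g, norm_div]
    field_simp

lemma YL_nonneg (hA : ∀ a b, A a b = A b a) (V : ι → ℝ) (o : ι) {η : ℝ} (hη : 0 < η) (E : ℝ) :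
    0 ≤ YY A (WL V o 1 η E) o := by
  refine YY_nonneg hA (im_WL_lt V o zero_le_one hη E) ?_
  have := im_WL V o 1 η E o
  rw [if_pos rfl] at this
  linarith

lemma min_le (hA : ∀ a b, A a b = A b a) (V : ι → ℝ) {δ η : ℝ} (hδ : 0 < δ) (hη : 0 < η) (E : ℝ)
    (F : Finset ι) {p C : ℝ} (hp : 0 ≤ p) (hC : 0 ≤ C) :
    min 1 (p + C * ∑ x ∈ F, (GG A (W0 V η E) x x).im) ≤ p
      + C * (1 + δ⁻¹) ^ 2 * ∑ x ∈ F, YY A (WL V x 1 η E) x
      + ∑ x ∈ F, 4 * δ * qq A (WL V x δ η E) (Pi.single x 1) := by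
  have n1 : 0 ≤ C * (1 + δ⁻¹) ^ 2 * ∑ x ∈ F, YY A (WL V x 1 η E) x :=
    mul_nonneg (by positivity) (Finset.sum_nonneg fun x _ => YL_nonneg hA V x hη E)
  have n2 : ∀ x ∈ F, 0 ≤ 4 * δ * qq A (WL V x δ η E) (Pi.single x 1) := fun x _ =>
    mul_nonneg (by positivity) (qq_nonneg hA (im_WL_lt V x hδ.le hη E) _)
  have n3 := fun x => im_diag_nonneg (W := W0 V η E) hA (fun a => by rw [im_W0]; linarith) x
  by_cases h : ∃ x ∈ F, 1 ≤ δ * ‖GG A (W0 V η E) x x‖
  · obtain ⟨x, hx, h⟩ := h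
    obtain ⟨D, d0, d1, d2, -⟩ := lead hA V x hδ.le hη E
    have s := Finset.single_le_sum n2 hx
    rw [qq_single] at s
    have : 1 ≤ 4 * δ * (GG A (WL V x δ η E) x x).im := by
      refine le_of_mul_le_mul_left ?_ d0
      have e : D * (4 * δ * (GG A (WL V x δ η E) x x).im)
          = 4 * δ * (GG A (W0 V η E) x x).im + 4 * (δ * ‖GG A (W0 V η E) x x‖) ^ 2 := by
        linear_combination 4 * δ * d2
      have := mul_nonneg hδ.le (n3 x)
      nlinarith
    linarith [min_le_left 1 (p + C * ∑ x ∈ F, (GG A (W0 V η E) x x).im)]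
  · push Not at h
    have : ∑ x ∈ F, (GG A (W0 V η E) x x).im ≤ (1 + δ⁻¹) ^ 2 * ∑ x ∈ F, YY A (WL V x 1 η E) x := by
      rw [Finset.mul_sum]
      refine Finset.sum_le_sum fun x hx => ?_
      obtain ⟨D, d0, d1, d2, d3⟩ := lead hA V x zero_le_one hη E
      have e : (GG A (W0 V η E) x x).im = D * YY A (WL V x 1 η E) x := by
        rw [YY]
        linarith
      rw [e]
      refine mul_le_mul_of_nonneg_right (d1.trans (pow_le_pow_left₀ (by positivity) ?_ 2))
        (YL_nonneg hA V x hη E)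
      have := (lt_inv_mul_iff₀ hδ).2 (h x hx)
      linarith
    have := mul_le_mul_of_nonneg_left this hC
    have := Finset.sum_nonneg n2
    linarith [min_le_right 1 (p + C * ∑ x ∈ F, (GG A (W0 V η E) x x).im)]

lemma qq_W0 (hA : ∀ a b, A a b = A b a) (V : ι → ℝ) {η : ℝ} (hη : 0 < η) (E : ℝ) (χ : ι → ℂ) :
    qq A (W0 V η E) χ = η * n2 (GG A (W0 V η E) *ᵥ χ) := by
  rw [qq_eq hA (fun a => by rw [im_W0]; linarith), n2, Finset.mul_sum]
  simp only [im_W0, neg_neg]

lemma qq_fin (hA : ∀ a b, A a b = A b a) (V : ι → ℝ) {η : ℝ} (hη : 0 < η) (E : ℝ) (F : Finset ι)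
    {φ : ι → ℂ} (hφ : ∀ x, x ∉ F → φ x = 0) :
    qq A (W0 V η E) φ ≤ n2 φ * ∑ x ∈ F, (GG A (W0 V η E) x x).im := by
  set G := GG A (W0 V η E) with hG
  have e : ∑ x ∈ F, (G x x).im = η * ∑ y, ∑ x ∈ F, ‖G y x‖ ^ 2 := by
    rw [Finset.sum_comm, Finset.mul_sum]
    refine Finset.sum_congr rfl fun x _ => ?_
    rw [hG, ward hA (fun a => by rw [im_W0]; linarith), Finset.mul_sum]
    simp only [im_W0, neg_neg]
  rw [qq_W0 hA V hη, e, mul_left_comm, n2, Finset.mul_sum _ _ (n2 φ)]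
  refine mul_le_mul_of_nonneg_left (Finset.sum_le_sum fun y _ => ?_) hη.le
  have e2 : (G *ᵥ φ) y = ∑ x ∈ F, G y x * φ x := by
    simp only [mulVec, dotProduct]
    exact (Finset.sum_subset (Finset.subset_univ F) fun x _ hx => by simp [hφ x hx]).symm
  rw [e2]
  refine (pow_le_pow_left₀ (norm_nonneg _) (norm_sum_le _ _) 2).trans ?_
  simp only [norm_mul]
  refine (Finset.sum_mul_sq_le_sq_mul_sq _ _ _).trans ?_
  rw [mul_comm]
  exact mul_le_mul_of_nonneg_right (Finset.sum_le_univ_sum_of_nonneg fun _ => sq_nonneg _)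
    (Finset.sum_nonneg fun _ _ => sq_nonneg _)

lemma meas_qq {Ω : Type} [MeasurableSpace Ω] (A : Matrix ι ι ℝ) {V : Ω → ι → ℂ}
    (hm : Measurable V) (χ : ι → ℂ) : Measurable fun ω => qq A (V ω) χ := by
  simp only [qq, mulVec, dotProduct]
  exact Complex.measurable_im.comp (Finset.measurable_sum _ fun a _ => Measurable.const_mul
    (Finset.measurable_sum _ fun b _ => ((meas_GG A a b).comp hm).mul_const _) _)

lemma meas_YY {Ω : Type} [MeasurableSpace Ω] (A : Matrix ι ι ℝ) {V : Ω → ι → ℂ}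
    (hm : Measurable V) (o : ι) : Measurable fun ω => YY A (V ω) o := by
  have := (meas_GG A o o).comp hm
  exact (Complex.measurable_im.comp this).sub (this.norm.pow_const 2)

lemma meas_W0 (V : ι → ℝ) (η : ℝ) : Measurable (W0 V η) := by
  refine measurable_pi_lambda _ fun y => ?_
  simp only [W0]
  fun_prop

lemma meas_WL (V : ι → ℝ) (o : ι) (s η : ℝ) : Measurable (WL V o s η) := by
  refine measurable_pi_lambda _ fun y => ?_
  simp only [WL]
  fun_prop

lemma int_WL (hA : ∀ a b, A a b = A b a) (V : ι → ℝ) (o y : ι) {s η : ℝ} (hs : 0 ≤ s)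
    (hη : 0 < η) (r : ℝ) : ∫⁻ E in Set.Ioc (-r) r,
      ENNReal.ofReal (qq A (WL V o s η E) (Pi.single y 1)) ≤ 6 := by
  have := int_qq (W := fun y => (V y : ℂ) - if y = o then s * Complex.I else 0) hA
    (fun a => by split_ifs <;> simp [hs]) (Pi.single y 1) hη r
  refine this.trans (le_of_eq ?_)
  rw [n2, Finset.sum_eq_single y (fun b _ hb => by simp [hb]) (by simp)]
  simp

/-- the integrated unreflected flux -/
noncomputable def ZZ (A : Matrix ι ι ℝ) (V : ι → ℝ) (F : Finset ι) (η r : ℝ) : ENNReal :=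
  ∫⁻ E in Set.Ioc (-r) r, ENNReal.ofReal (∑ x ∈ F, YY A (WL V x 1 η E) x)

lemma int_min (hA : ∀ a b, A a b = A b a) (V : ι → ℝ) {δ η : ℝ} (hδ : 0 < δ) (hη : 0 < η) (r : ℝ)
    (F : Finset ι) {φ : ι → ℂ} (hφ : ∀ x, x ∉ F → φ x = 0) (χ : ι → ℂ) {C : ℝ} (hC : n2 φ ≤ C) :
    ∫⁻ E in Set.Ioc (-r) r, ENNReal.ofReal (min 1 (3 * qq A (W0 V η E) χ + 3 * qq A (W0 V η E) φ))
      ≤ ENNReal.ofReal (18 * n2 χ + 24 * δ * F.card)
        + ENNReal.ofReal (3 * C * (1 + δ⁻¹) ^ 2) * ZZ A V F η r := by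
  have C0 : 0 ≤ C := (n2_nonneg φ).trans hC
  have p : ∀ E : ℝ, ENNReal.ofReal (min 1 (3 * qq A (W0 V η E) χ + 3 * qq A (W0 V η E) φ))
      ≤ ENNReal.ofReal 3 * ENNReal.ofReal (qq A (W0 V η E) χ)
        + ∑ x ∈ F, ENNReal.ofReal (4 * δ) * ENNReal.ofReal (qq A (WL V x δ η E) (Pi.single x 1))
        + ENNReal.ofReal (3 * C * (1 + δ⁻¹) ^ 2)
          * ENNReal.ofReal (∑ x ∈ F, YY A (WL V x 1 η E) x) := by
    intro E
    have hW : ∀ a, (W0 V η E a).im < 0 := fun a => by rw [im_W0]; linarith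
    have q1 := qq_nonneg hA hW χ
    have m := min_le hA V hδ hη E F (p := 3 * qq A (W0 V η E) χ) (C := 3 * C) (by positivity)
      (by positivity)
    have f := (qq_fin hA V hη E F hφ).trans (mul_le_mul_of_nonneg_right hC
      (Finset.sum_nonneg fun x _ => im_diag_nonneg hA hW x))
    have m2 : min 1 (3 * qq A (W0 V η E) χ + 3 * qq A (W0 V η E) φ)
        ≤ min 1 (3 * qq A (W0 V η E) χ + 3 * C * ∑ x ∈ F, (GG A (W0 V η E) x x).im) :=
      min_le_min le_rfl (by linarith)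
    simp only [← ENNReal.ofReal_mul (show (0 : ℝ) ≤ 4 * δ by positivity)]
    rw [← ENNReal.ofReal_mul (by positivity), ← ENNReal.ofReal_mul (by positivity),
      ← ENNReal.ofReal_sum_of_nonneg fun x _ =>
        mul_nonneg (by positivity) (qq_nonneg hA (im_WL_lt V x hδ.le hη E) _)]
    refine le_trans ?_ (add_le_add (le_of_eq (ENNReal.ofReal_add (by positivity)
      (Finset.sum_nonneg fun x _ =>
        mul_nonneg (by positivity) (qq_nonneg hA (im_WL_lt V x hδ.le hη E) _)))) le_rfl)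
    refine le_trans (ENNReal.ofReal_le_ofReal ?_) ENNReal.ofReal_add_le
    linarith
  refine (lintegral_mono p).trans ?_
  have m1 := (meas_qq A (meas_W0 V η) χ).ennreal_ofReal
  have m2 := fun x => (meas_qq A (meas_WL V x δ η) (Pi.single x 1)).ennreal_ofReal
  rw [lintegral_add_left
    ((m1.const_mul _).fun_add (Finset.measurable_sum _ fun x _ => (m2 x).const_mul _)),
    lintegral_add_left (m1.const_mul _), lintegral_finsetSum _ fun x _ => (m2 x).const_mul _,
    lintegral_const_mul _ m1, lintegral_const_mul _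
      (Finset.measurable_sum _ fun x _ => meas_YY A (meas_WL V x 1 η) x).ennreal_ofReal]
  refine add_le_add ?_ le_rfl
  rw [ENNReal.ofReal_add (mul_nonneg (by norm_num) (n2_nonneg _)) (by positivity)]
  refine add_le_add ?_ ?_
  · refine (mul_le_mul_right (int_qq (W := fun y => (V y : ℂ)) hA (by simp) χ hη r) _).trans ?_
    rw [← ENNReal.ofReal_mul (by norm_num)]
    exact ENNReal.ofReal_le_ofReal (by linarith)
  · refine (Finset.sum_le_card_nsmul _ _ (ENNReal.ofReal (24 * δ)) fun x _ => ?_).trans ?_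
    · rw [lintegral_const_mul _ (m2 x)]
      refine (mul_le_mul_right (int_WL hA V x x hδ.le hη r) _).trans ?_
      rw [← ENNReal.ofReal_ofNat 6, ← ENNReal.ofReal_mul (by positivity)]
      exact ENNReal.ofReal_le_ofReal (by linarith)
    · rw [nsmul_eq_mul, ENNReal.ofReal_mul (p := 24 * δ) (by positivity), ENNReal.ofReal_natCast,
        mul_comm]

lemma n2_three (a b c : ι → ℂ) : n2 (a + b + c) ≤ 3 * (n2 a + n2 b + n2 c) := by
  simp only [n2, ← Finset.sum_add_distrib, Finset.mul_sum]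
  refine Finset.sum_le_sum fun y _ => ?_
  have := pow_le_pow_left₀ (norm_nonneg _) (norm_add₃_le (a := a y) (b := b y) (c := c y)) 2
  simp only [Pi.add_apply]
  nlinarith [sq_nonneg (‖a y‖ - ‖b y‖), sq_nonneg (‖a y‖ - ‖c y‖), sq_nonneg (‖b y‖ - ‖c y‖)]

lemma approx (hA : ∀ a b, A a b = A b a) (V : ι → ℝ) {η : ℝ} (hη : 0 < η) (E : ℝ)
    {u φ χ b : ι → ℂ} (h : MM A (W0 V η E) *ᵥ u = χ + φ + b) :
    (∑ a, (starRingEnd ℂ) ((χ + φ) a) * u a).im ≤ 3 * qq A (W0 V η E) χ + 3 * qq A (W0 V η E) φ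
      + (3 / η * n2 b + √(n2 b) * √(n2 u)) := by
  have hW : ∀ a, (W0 V η E a).im < 0 := fun a => by rw [im_W0]; linarith
  have e : u = GG A (W0 V η E) *ᵥ (χ + φ + b) := by rw [← h, GM hA hW]
  have e1 : qq A (W0 V η E) (χ + φ + b) = (∑ a, (starRingEnd ℂ) ((χ + φ) a) * u a).im
      + (∑ a, (starRingEnd ℂ) (b a) * u a).im := by
    rw [qq, ← e, ← Complex.add_im, ← Finset.sum_add_distrib]
    simp only [Pi.add_apply, map_add, add_mul]
  have e2 := (Complex.abs_im_le_norm _).trans (cs b u)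
  have e3 := res_le (W := W0 V η E) hA hη (fun a => (im_W0 V η E a).le) b
  have e4 : η * n2 (GG A (W0 V η E) *ᵥ b) ≤ 1 / η * n2 b := by
    have := pow_le_pow_left₀ (by positivity) e3 2
    rw [mul_pow, ← n2_eq, ← n2_eq] at this
    rw [one_div, ← div_eq_inv_mul, le_div_iff₀ hη]
    linarith
  have e5 := mul_le_mul_of_nonneg_left (n2_three (GG A (W0 V η E) *ᵥ χ) (GG A (W0 V η E) *ᵥ φ)
    (GG A (W0 V η E) *ᵥ b)) hη.le
  rw [← mulVec_add, ← mulVec_add, ← qq_W0 hA V hη, e1] at e5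
  rw [qq_W0 hA V hη, qq_W0 hA V hη, n2_eq u, Real.sqrt_sq (norm_nonneg _)]
  conv_rhs => enter [2, 2, 1]; rw [n2_eq, Real.sqrt_sq (norm_nonneg _)]
  have := (abs_le.1 e2).1
  have e6 : 3 / η * n2 b = 3 * (1 / η * n2 b) := by ring
  linarith

variable {Z : Type} [DecidableEq Z]

lemma meas_WL2 (e : ι → Z) (v : ι → ℝ) (o : ι) (s η : ℝ) :
    Measurable fun p : (Z → ℝ) × ℝ => WL (fun y => v y + p.1 (e y)) o s η p.2 := by
  refine measurable_pi_lambda _ fun y => ?_
  simp only [WL]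
  fun_prop

lemma meas_ZZ (A : Matrix ι ι ℝ) (e : ι → Z) (v : ι → ℝ) (F : Finset ι) (η r : ℝ) :
    Measurable fun c : Z → ℝ => ZZ A (fun y => v y + c (e y)) F η r :=
  (Finset.measurable_sum _ fun x _ =>
    meas_YY A (meas_WL2 e v x 1 η) x).ennreal_ofReal.lintegral_prod_right'

/-- the main estimate integrated over the energy -/
theorem core2 (hA : ∀ a b, A a b = A b a) (hrow : ∀ a, ∑ b, |A a b| ≤ 4) (ρ : ι → ℕ)
    (hρ : ∀ a b, A a b ≠ 0 → ρ a ≤ ρ b + 1)
    (hcard : ∀ R : ℕ, 1 ≤ R → (Finset.univ.filter fun y => ρ y = R ∨ ρ y = R + 1).card ≤ 24 * R)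
    {e : ι → Z} (he : Function.Injective e) (ε : Z → ℝ≥0) {a : ℕ → ℝ} (a0 : ∀ R, 0 ≤ a R)
    (a1 : ∀ R, a R ≤ 1) (haε : ∀ R y, ρ y = R ∨ ρ y = R + 1 → a R ≤ ε (e y))
    (v : ι → ℝ) {η : ℝ} (hη : 0 < η) {F : Finset ι} {R0 n : ℕ} (h0 : ∀ o ∈ F, ρ o < R0) {δ : ℝ}
    (hδ : 0 < δ) (hN : 24 ≤ δ ^ 2 * ∑ R ∈ Finset.Ico R0 (R0 + n), a R ^ 2 / R) {r : ℝ} (hr : 0 ≤ r) :
    ∫⁻ c, ZZ A (fun y => v y + c (e y)) F η r ∂(PP ε) ≤ ENNReal.ofReal (F.card * (51 * δ * (2 * r)
      + η * ((Finset.univ.filter fun y => ρ y ≤ R0 + n).card * 6))) := by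
  set B := Finset.univ.filter fun y => ρ y ≤ R0 + n with hB
  have mY := fun x => (meas_YY A (meas_WL2 e v x 1 η) x).ennreal_ofReal
  have mq := fun x y => (meas_qq A (meas_WL2 e v x 1 η) (Pi.single y 1)).ennreal_ofReal
  have e1 : ∀ c : Z → ℝ, ZZ A (fun y => v y + c (e y)) F η r = ∑ x ∈ F, ∫⁻ E in Set.Ioc (-r) r,
      ENNReal.ofReal (YY A (WL (fun y => v y + c (e y)) x 1 η E) x) := by
    intro c
    rw [ZZ, ← lintegral_finsetSum _ fun x _ => (meas_YY A (meas_WL _ x 1 η) x).ennreal_ofReal]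
    exact lintegral_congr fun E => ENNReal.ofReal_sum_of_nonneg fun x _ => YL_nonneg hA _ x hη E
  simp only [e1]
  rw [lintegral_finsetSum _ fun x _ => (mY x).lintegral_prod_right',
    ENNReal.ofReal_mul (Nat.cast_nonneg _), ENNReal.ofReal_natCast, ← nsmul_eq_mul]
  refine Finset.sum_le_card_nsmul _ _ _ fun o ho => ?_
  rw [lintegral_lintegral_swap (mY o).aemeasurable]
  have p : ∀ E : ℝ, ∫⁻ c, ENNReal.ofReal (YY A (WL (fun y => v y + c (e y)) o 1 η E) o) ∂(PP ε)
      ≤ ENNReal.ofReal (51 * δ) + ∫⁻ c, ENNReal.ofReal η * ∑ y ∈ B, ENNReal.ofReal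
        (qq A (WL (fun y => v y + c (e y)) o 1 η E) (Pi.single y 1)) ∂(PP ε) := by
    intro E
    have k := core hA hrow ρ hρ hcard he ε a0 a1 haε (w := WL v o 1 η E) hη (im_WL v o 1 η E)
      (h0 o ho) hδ hN
    have e2 : ∀ c, WU e ε (WL v o 1 η E) ∅ c = WL (fun y => v y + c (e y)) o 1 η E := by
      intro c
      funext y
      simp [WU, WL]
      ring
    have hm : Measurable fun c : Z → ℝ => WL (fun y => v y + c (e y)) o 1 η E :=
      (meas_WL2 e v o 1 η).comp measurable_prodMk_right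
    have hb : ∀ (c : Z → ℝ) y, (WL (fun y => v y + c (e y)) o 1 η E y).im ≤ -η := by
      intro c y
      have := im_WL (fun y => v y + c (e y)) o 1 η E y
      split_ifs at this <;> linarith
    have i1 : Integrable (fun c : Z → ℝ => YY A (WL (fun y => v y + c (e y)) o 1 η E) o) (PP ε) :=
      int_G _ hA hm hη hb o o (f := fun z => z.im - ‖z‖ ^ 2) (by fun_prop)
    have i2 : Integrable (fun c : Z → ℝ =>
        η * ∑ y ∈ B, (GG A (WL (fun y => v y + c (e y)) o 1 η E) y y).im) (PP ε) :=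
      (integrable_finsetSum _ fun y _ => int_G _ hA hm hη hb y y Complex.continuous_im).const_mul _
    have n1 := fun (c : Z → ℝ) y => im_diag_nonneg hA
      (im_WL_lt (fun y => v y + c (e y)) o zero_le_one hη E) y
    simp only [e2, Psi, Finset.sum_empty, sub_zero] at k
    rw [integral_sub i1 i2] at k
    simp only [qq_single, ← ENNReal.ofReal_sum_of_nonneg fun y _ => n1 _ y,
      ← ENNReal.ofReal_mul hη.le]
    rw [← ofReal_integral_eq_lintegral_ofReal i1 (ae_of_all _ fun c => YL_nonneg hA _ o hη E),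
      ← ofReal_integral_eq_lintegral_ofReal i2 (ae_of_all _ fun c =>
        mul_nonneg hη.le (Finset.sum_nonneg fun y _ => n1 c y))]
    exact (ENNReal.ofReal_le_ofReal (by linarith)).trans ENNReal.ofReal_add_le
  refine (lintegral_mono p).trans ?_
  rw [lintegral_add_left measurable_const, ← lintegral_lintegral_swap
    ((Finset.measurable_sum _ fun y _ => mq o y).const_mul _).aemeasurable,
    ENNReal.ofReal_add (by positivity) (by positivity)]
  refine add_le_add (le_of_eq ?_) ?_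
  · rw [setLIntegral_const, Real.volume_Ioc, ← ENNReal.ofReal_mul (by positivity)]
    congr 1
    ring
  · refine (lintegral_mono (g := fun _ => ENNReal.ofReal (η * (B.card * 6))) fun c => ?_).trans
      (by simp)
    have m := fun y => (meas_qq A (meas_WL (fun y => v y + c (e y)) o 1 η)
      (Pi.single y 1)).ennreal_ofReal
    simp only
    rw [lintegral_const_mul _ (Finset.measurable_sum _ fun y _ => m y),
      lintegral_finsetSum _ fun y _ => m y, ENNReal.ofReal_mul hη.le]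
    refine mul_le_mul_right ((Finset.sum_le_card_nsmul _ _ 6 fun y _ =>
      int_WL hA _ o y zero_le_one hη r).trans (le_of_eq ?_)) _
    rw [nsmul_eq_mul, ENNReal.ofReal_mul (Nat.cast_nonneg _), ENNReal.ofReal_natCast]
    simp

end Pool.Agent.P.MP_d0f69c_mp.NW
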