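import Pool.Agent.P.MP_d0f69c_mp.NW5

set_option autoImplicit false

open Finset Matrix MeasureTheory Filter Topology ProbabilityTheory
open scoped NNReal

namespace Pool.Agent.P.MP_d0f69c_mp.NW

/-- the square lattice -/
abbrev Z2 := Fin 2 → ℤ

/-- sup norm -/
def rad (x : Z2) : ℕ := max (x 0).natAbs (x 1).natAbs

/-- box -/
noncomputable def bx (L : ℕ) : Finset Z2 := Fintype.piFinset fun _ => Finset.Icc (-(L : ℤ)) L

lemma mem_bx {L : ℕ} {x : Z2} : x ∈ bx L ↔ rad x ≤ L := by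
  simp only [bx, Fintype.mem_piFinset, Finset.mem_Icc, rad, Fin.forall_fin_two]
  omega

lemma card_bx (L : ℕ) : (bx L).card = (2 * L + 1) ^ 2 := by
  rw [bx, Fintype.card_piFinset]
  simp only [Int.card_Icc, Finset.prod_const, Finset.card_univ, Fintype.card_fin]
  congr 1
  omega

lemma tend_bx : Tendsto bx atTop atTop :=
  tendsto_atTop_finset_of_monotone (fun _ _ h _ hx => mem_bx.2 ((mem_bx.1 hx).trans h))
    fun x => ⟨rad x, mem_bx.2 le_rfl⟩

/-- hopping matrix of the box -/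
noncomputable def AA (L : ℕ) : Matrix (bx L) (bx L) ℝ := fun a b =>
  -∑ i : Fin 2, ((if (b : Z2) = a.1 + Pi.single i 1 then 1 else 0)
    + (if (b : Z2) = a.1 - Pi.single i 1 then 1 else 0))

lemma AA_symm (L : ℕ) (a b : bx L) : AA L a b = AA L b a := by
  simp only [AA]
  congr 1
  refine Finset.sum_congr rfl fun i _ => ?_
  rw [add_comm]
  congr 1
  · exact if_congr (by rw [eq_sub_iff_add_eq, eq_comm]) rfl rfl
  · exact if_congr (by rw [eq_sub_iff_add_eq, eq_comm]) rfl rfl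

lemma sum_pick {K : Type} [Semiring K] (s : Finset Z2) (p : Z2) (u : Z2 → K) :
    ∑ b : s, (if (b : Z2) = p then 1 else 0) * u b = if p ∈ s then u p else 0 := by
  rw [Finset.sum_coe_sort s (fun b => (if b = p then (1 : K) else 0) * u b)]
  simp only [ite_mul, one_mul, zero_mul, Finset.sum_ite_eq']

lemma AA_row (L : ℕ) (a : bx L) : ∑ b, |AA L a b| ≤ 4 := by
  have e : ∀ b, |AA L a b| = ∑ i : Fin 2, ((if (b : Z2) = a.1 + Pi.single i 1 then 1 else 0) * 1
      + (if (b : Z2) = a.1 - Pi.single i 1 then (1 : ℝ) else 0) * 1) := by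
    intro b
    simp only [AA, mul_one]
    rw [abs_neg, abs_of_nonneg (Finset.sum_nonneg fun i _ => by positivity)]
  simp only [e]
  rw [Finset.sum_comm]
  simp only [Finset.sum_add_distrib, sum_pick (bx L) _ fun _ => (1 : ℝ), Fin.sum_univ_two]
  split_ifs <;> norm_num

lemma AA_rad (L : ℕ) (a b : bx L) (h : AA L a b ≠ 0) : rad a ≤ rad b + 1 := by
  by_contra hc
  apply h
  rw [AA, neg_eq_zero]
  refine Finset.sum_eq_zero fun i _ => ?_
  rw [if_neg, if_neg, add_zero]
  all_goals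
    intro e
    have e0 := congrFun e 0
    have e1 := congrFun e 1
    simp only [rad] at hc
    fin_cases i <;> simp at e0 e1 <;> omega

lemma card_sub (L : ℕ) (p : bx L → Prop) [DecidablePred p] (s : Finset Z2)
    (h : ∀ y, p y → (y : Z2) ∈ s) : (Finset.univ.filter p).card ≤ s.card :=
  Finset.card_le_card_of_injOn Subtype.val (fun y hy => h y (Finset.mem_filter.1 hy).2)
    Subtype.val_injective.injOn

lemma card_shell (L R : ℕ) (hR : 1 ≤ R) :
    (Finset.univ.filter fun y : bx L => rad y = R ∨ rad y = R + 1).card ≤ 24 * R := by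
  refine (card_sub L _ (bx (R + 1) \ bx (R - 1)) fun y hy => ?_).trans ?_
  · rw [Finset.mem_sdiff, mem_bx, mem_bx]
    omega
  · rw [Finset.card_sdiff_of_subset fun x hx => mem_bx.2 ((mem_bx.1 hx).trans (by omega)),
      card_bx, card_bx]
    obtain ⟨k, rfl⟩ := Nat.exists_eq_add_of_le hR
    rw [Nat.add_sub_cancel_left, Nat.sub_le_iff_le_add]
    nlinarith

/-- the sites of the small box -/
noncomputable def FF (L N : ℕ) : Finset (bx L) := Finset.univ.filter fun y => rad y ≤ N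

lemma card_FF (L N : ℕ) : ((FF L N).card : ℝ) ≤ (2 * N + 1) ^ 2 := by
  have := card_sub L (fun y => rad y ≤ N) (bx N) fun y hy => mem_bx.2 hy
  rw [card_bx] at this
  exact_mod_cast this

/-- unreflected flux in the box -/
noncomputable def ZB (V : Z2 → ℝ) (N r k L : ℕ) : ENNReal :=
  ZZ (AA L) (fun y => 4 + V y) (FF L N) (1 / (k + 1)) r

theorem prob (v : Z2 → ℝ) (ε : Z2 → ℝ≥0) {a : ℕ → ℝ} (a0 : ∀ R, 0 ≤ a R) (a1 : ∀ R, a R ≤ 1)
    (haε : ∀ R y, rad y = R ∨ rad y = R + 1 → a R ≤ ε y)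
    (hdiv : ¬ Summable fun R : ℕ => a R ^ 2 / R) :
    ∀ᵐ c ∂(PP ε), ∀ N r : ℕ,
      liminf (fun k => liminf (fun L => ZB (v + c) N r k L) atTop) atTop = 0 := by
  rw [ae_all_iff]
  intro N
  rw [ae_all_iff]
  intro r
  have e : ∀ (c : Z2 → ℝ) k L, ZB (v + c) N r k L = ZZ (AA L)
      (fun y => (fun y : bx L => 4 + v y) y + c (Subtype.val y)) (FF L N) (1 / (k + 1)) r := by
    intro c k L
    simp only [ZB, Pi.add_apply, add_assoc]
  have m : ∀ k L, Measurable fun c : Z2 → ℝ => ZB (v + c) N r k L := by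
    intro k L
    simp only [e]
    exact meas_ZZ _ _ _ _ _ _
  have m2 : ∀ k, Measurable fun c : Z2 → ℝ => liminf (fun L => ZB (v + c) N r k L) atTop :=
    fun k => Measurable.liminf (m k)
  refine (lintegral_eq_zero_iff (Measurable.liminf m2)).1 ?_
  refine le_antisymm (ENNReal.le_of_forall_pos_le_add fun θ hθ _ => ?_) bot_le
  rw [zero_add]
  have θ0 : (0 : ℝ) < θ := hθ
  set M : ℝ := (2 * N + 1) ^ 2 with hM
  have M0 : 0 < M := by positivity
  set δ : ℝ := θ / (2 * M * (102 * (r + 1))) with hδ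
  have δ0 : 0 < δ := by positivity
  obtain ⟨n, hn⟩ : ∃ n, 24 ≤ δ ^ 2 * ∑ R ∈ Finset.Ico (N + 1) (N + 1 + n), a R ^ 2 / R := by
    have t := (not_summable_iff_tendsto_nat_atTop_of_nonneg fun R => by positivity).1 hdiv
    obtain ⟨n, h1, h2⟩ := ((t.eventually_ge_atTop (24 / δ ^ 2 +
      ∑ R ∈ Finset.range (N + 1), a R ^ 2 / R)).and (eventually_ge_atTop (N + 1))).exists
    refine ⟨n - (N + 1), ?_⟩
    rw [Nat.add_sub_cancel' h2, Finset.sum_Ico_eq_sub _ h2, ← div_le_iff₀' (by positivity)]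
    linarith
  set K : ℝ := (2 * (N + 1 + n : ℕ) + 1) ^ 2 * 6 with hK
  refine (lintegral_liminf_le m2).trans (liminf_le_of_frequently_le' ?_)
  have t := (tendsto_one_div_add_atTop_nhds_zero_nat (𝕜 := ℝ)).const_mul (M * K)
  rw [mul_zero] at t
  refine ((t.eventually_le_const (half_pos θ0)).mono fun k hk => ?_).frequently
  refine (lintegral_liminf_le (m k)).trans
    (liminf_le_of_frequently_le' (Frequently.of_forall fun L => ?_))
  simp only [e]
  have η0 : (0 : ℝ) < 1 / (k + 1) := by positivity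
  refine (core2 (AA_symm L) (AA_row L) (fun y => rad y) (AA_rad L) (card_shell L)
    Subtype.val_injective ε a0 a1 (fun R y => haε R y) _ η0 (R0 := N + 1)
    (fun o ho => Nat.lt_succ_of_le (Finset.mem_filter.1 ho).2) δ0 hn (Nat.cast_nonneg r)).trans ?_
  rw [← ENNReal.ofReal_coe_nnreal]
  apply ENNReal.ofReal_le_ofReal
  have c1 := card_FF L N
  have c2 : ((Finset.univ.filter fun y : bx L => rad y ≤ N + 1 + n).card : ℝ) * 6 ≤ K :=
    mul_le_mul_of_nonneg_right (card_FF L (N + 1 + n)) (by norm_num)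
  have c3 : M * (51 * δ * (2 * (r + 1))) = θ / 2 := by
    rw [hδ]
    field_simp
    ring
  refine (mul_le_mul c1 (add_le_add le_rfl (mul_le_mul_of_nonneg_left c2 η0.le)) (by positivity)
    M0.le).trans ?_
  nlinarith [mul_pos M0 δ0]

lemma tail_tend {f : Z2 → ℝ} (hf : Summable f) :
    Tendsto (fun L => ∑' y, f y - ∑ y ∈ bx L, f y) atTop (𝓝 0) := by
  have := (hf.hasSum.comp tend_bx).const_sub (∑' y, f y)
  simpa using this

lemma tail_le {f : Z2 → ℝ} (hf : Summable f) (h0 : ∀ y, 0 ≤ f y) (s t : Finset Z2) {g : Z2 → Z2}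
    (hg : Function.Injective g) :
    ∑ a : s, (if g a ∈ t then 0 else f (g a)) ≤ ∑' y, f y - ∑ y ∈ t, f y := by
  rw [Finset.sum_coe_sort s fun a => if g a ∈ t then 0 else f (g a),
    ← Finset.sum_image (f := fun y => if y ∈ t then 0 else f y) hg.injOn]
  have e : ∑ y ∈ s.image g, (if y ∈ t then 0 else f y) = ∑ y ∈ s.image g \ t, f y := by
    rw [Finset.sdiff_eq_filter, Finset.sum_filter]
    exact Finset.sum_congr rfl fun y _ => by split_ifs <;> rfl
  rw [e, le_sub_iff_add_le, ← Finset.sum_union Finset.sdiff_disjoint]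
  exact hf.sum_le_tsum _ fun y _ => h0 y

/-- `u` solves `(H - z) u = ψ` -/
def Solves (V : Z2 → ℝ) (z : ℂ) (u ψ : Z2 → ℂ) : Prop :=
  ∀ j, -(∑ i : Fin 2, ((u (j + Pi.single i 1) - u j) + (u (j - Pi.single i 1) - u j)))
    + V j * u j - z * u j = ψ j

/-- the part of `ψ` outside the small box -/
noncomputable def chi (ψ : Z2 → ℂ) (N L : ℕ) : bx L → ℂ :=
  fun y => if (y : Z2) ∈ bx N then 0 else ψ y

/-- the part of `ψ` inside the small box -/
noncomputable def phi (ψ : Z2 → ℂ) (N L : ℕ) : bx L → ℂ :=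
  fun y => if (y : Z2) ∈ bx N then ψ y else 0

lemma fin_vol {V : Z2 → ℝ} {η E : ℝ} (hη : 0 < η) {u ψ : Z2 → ℂ}
    (hu : Summable fun j => ‖u j‖ ^ 2) (hψ : Summable fun j => ‖ψ j‖ ^ 2)
    (h : Solves V (E + η * Complex.I) u ψ) (N : ℕ) :
    ENNReal.ofReal (min 1 (∑' j, (starRingEnd ℂ) (ψ j) * u j).im) ≤ liminf (fun L =>
      ENNReal.ofReal (min 1 (3 * qq (AA L) (W0 (fun y => 4 + V y) η E) (chi ψ N L)
        + 3 * qq (AA L) (W0 (fun y => 4 + V y) η E) (phi ψ N L)))) atTop := by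
  have hs : Summable fun j => (starRingEnd ℂ) (ψ j) * u j := by
    refine Summable.of_norm_bounded (hψ.add hu) fun j => ?_
    rw [norm_mul, Complex.norm_conj]
    nlinarith [sq_nonneg (‖ψ j‖ - ‖u j‖), mul_nonneg (norm_nonneg (ψ j)) (norm_nonneg (u j))]
  set τ : ℕ → ℝ := fun L => ∑' y, ‖u y‖ ^ 2 - ∑ y ∈ bx L, ‖u y‖ ^ 2 with hτ
  have t1 : Tendsto τ atTop (𝓝 0) := tail_tend hu
  have t2 : Tendsto (fun L => ENNReal.ofReal (min 1 ((∑ j ∈ bx L, (starRingEnd ℂ) (ψ j) * u j).im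
      - (3 / η * (16 * τ L) + √(16 * τ L) * √(∑' y, ‖u y‖ ^ 2))))) atTop
      (𝓝 (ENNReal.ofReal (min 1 (∑' j, (starRingEnd ℂ) (ψ j) * u j).im))) := by
    refine ENNReal.tendsto_ofReal (Tendsto.min tendsto_const_nhds ?_)
    have := ((Complex.continuous_im.tendsto _).comp (hs.hasSum.comp tend_bx)).sub
      (((t1.const_mul 16).const_mul (3 / η)).add
        ((t1.const_mul 16).sqrt.mul_const √(∑' y, ‖u y‖ ^ 2)))
    simpa using this
  rw [← t2.liminf_eq]
  refine liminf_le_liminf (Eventually.of_forall fun L => ENNReal.ofReal_le_ofReal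
    (min_le_min le_rfl ?_))
  set o : Z2 → ℂ := fun p => if p ∈ bx L then 0 else u p with ho
  set b : bx L → ℂ := fun a => ∑ i : Fin 2,
    (o (a.1 + Pi.single i 1) + o (a.1 - Pi.single i 1)) with hb
  have e0 : chi ψ N L + phi ψ N L = fun y : bx L => ψ y := by
    funext y
    simp only [chi, phi, Pi.add_apply]
    split_ifs <;> simp
  have e1 : MM (AA L) (W0 (fun y => 4 + V y) η E) *ᵥ (fun y : bx L => u y)
      = chi ψ N L + phi ψ N L + b := by
    funext a
    have e2 : ∑ y : bx L, (AA L a y : ℂ) * u y = -∑ i : Fin 2,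
        ((u (a.1 + Pi.single i 1) - o (a.1 + Pi.single i 1))
          + (u (a.1 - Pi.single i 1) - o (a.1 - Pi.single i 1))) := by
      have : ∀ p, u p - o p = ∑ y : bx L, (if (y : Z2) = p then 1 else 0) * u y := by
        intro p
        rw [sum_pick]
        simp only [ho]
        split_ifs <;> simp
      simp only [this, ← Finset.sum_add_distrib]
      rw [Finset.sum_comm, ← Finset.sum_neg_distrib]
      refine Finset.sum_congr rfl fun y _ => ?_
      simp only [AA, Fin.sum_univ_two]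
      push_cast [apply_ite ((↑) : ℝ → ℂ)]
      ring
    rw [MM_mv, e2, e0, Pi.add_apply, ← h a]
    simp only [hb, W0, Fin.sum_univ_two]
    push_cast
    ring
  have ap := approx (AA_symm L) _ hη E e1
  rw [e0, Finset.sum_coe_sort (bx L) fun j => (starRingEnd ℂ) (ψ j) * u j] at ap
  have l1 : n2 b ≤ 16 * τ L := by
    have q : ∀ g : Z2 → Z2, Function.Injective g → ∑ a : bx L, ‖o (g a)‖ ^ 2 ≤ τ L := by
      intro g hg
      refine le_trans (le_of_eq (Finset.sum_congr rfl fun a _ => ?_))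
        (tail_le hu (fun _ => sq_nonneg _) (bx L) (bx L) hg)
      simp only [ho]
      split_ifs <;> simp
    have q1 := q _ (add_left_injective (Pi.single 0 1))
    have q2 := q _ (add_left_injective (Pi.single 1 1))
    have q3 := q (· - Pi.single 0 1) sub_left_injective
    have q4 := q (· - Pi.single 1 1) sub_left_injective
    have : n2 b ≤ ∑ a : bx L, 4 * (‖o (a.1 + Pi.single 0 1)‖ ^ 2 + ‖o (a.1 + Pi.single 1 1)‖ ^ 2
        + ‖o (a.1 - Pi.single 0 1)‖ ^ 2 + ‖o (a.1 - Pi.single 1 1)‖ ^ 2) := by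
      refine Finset.sum_le_sum fun a _ => ?_
      simp only [hb, Fin.sum_univ_two]
      generalize o (a.1 + Pi.single 0 1) = p1
      generalize o (a.1 + Pi.single 1 1) = p2
      generalize o (a.1 - Pi.single 0 1) = p3
      generalize o (a.1 - Pi.single 1 1) = p4
      have := pow_le_pow_left₀ (norm_nonneg _) ((norm_add_le (p1 + p3) (p2 + p4)).trans
        (add_le_add (norm_add_le _ _) (norm_add_le _ _))) 2
      nlinarith [sq_nonneg (‖p1‖ - ‖p2‖), sq_nonneg (‖p1‖ - ‖p3‖), sq_nonneg (‖p1‖ - ‖p4‖),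
        sq_nonneg (‖p2‖ - ‖p3‖), sq_nonneg (‖p2‖ - ‖p4‖), sq_nonneg (‖p3‖ - ‖p4‖)]
    simp only [← Finset.mul_sum, Finset.sum_add_distrib] at this
    linarith
  have l2 : n2 (fun y : bx L => u y) ≤ ∑' y, ‖u y‖ ^ 2 := by
    rw [n2, Finset.sum_coe_sort (bx L) fun j => ‖u j‖ ^ 2]
    exact hu.sum_le_tsum _ fun _ _ => sq_nonneg _
  have l3 := mul_le_mul (Real.sqrt_le_sqrt l1) (Real.sqrt_le_sqrt l2) (Real.sqrt_nonneg _)
    (Real.sqrt_nonneg _)
  have l4 := mul_le_mul_of_nonneg_left l1 (show 0 ≤ 3 / η by positivity)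
  linarith

end Pool.Agent.P.MP_d0f69c_mp.NW
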