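import Pool.Agent.P.MP_d0f69c_mp.NW6

set_option autoImplicit false

open Finset Matrix MeasureTheory Filter Topology ProbabilityTheory
open scoped NNReal

namespace Pool.Agent.P.MP_d0f69c_mp.NW

lemma poisson (μ : Measure ℝ) [IsFiniteMeasure μ] {ε : ℝ} (hε : 0 < ε) (E : ℝ) :
    μ (Metric.closedBall E ε) / volume (Metric.closedBall E ε)
      ≤ ENNReal.ofReal (∫ x : ℝ, ((x : ℂ) - (E + ε * Complex.I))⁻¹ ∂μ).im := by
  have hne : ∀ x : ℝ, ε ≤ ‖(x : ℂ) - (E + ε * Complex.I)‖ := by
    intro x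
    refine le_trans ?_ (Complex.abs_im_le_norm _)
    simp [abs_of_pos hε]
  have hi : Integrable (fun x : ℝ => ((x : ℂ) - (E + ε * Complex.I))⁻¹) μ := by
    refine Integrable.of_bound (C := ε⁻¹) (Measurable.aestronglyMeasurable (by fun_prop))
      (ae_of_all _ fun x => ?_)
    rw [norm_inv]
    exact inv_anti₀ hε (hne x)
  have e := integral_im hi
  simp only [RCLike.im_to_complex] at e
  rw [← e, Real.volume_closedBall, ← ofReal_measureReal (measure_ne_top μ _),
    ← ENNReal.ofReal_div_of_pos (by positivity)]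
  apply ENNReal.ofReal_le_ofReal
  have e2 : μ.real (Metric.closedBall E ε) / (2 * ε)
      = ∫ x, (Metric.closedBall E ε).indicator (fun _ => (2 * ε)⁻¹) x ∂μ := by
    rw [integral_indicator_const _ measurableSet_closedBall, smul_eq_mul, div_eq_mul_inv]
  rw [e2]
  refine integral_mono ((integrable_const _).indicator measurableSet_closedBall) hi.im fun x => ?_
  have e3 : (((x : ℂ) - (E + ε * Complex.I))⁻¹).im = ε / ((x - E) ^ 2 + ε ^ 2) := by
    rw [Complex.inv_im, Complex.normSq_apply]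
    simp
    ring
  simp only [e3]
  by_cases hx : x ∈ Metric.closedBall E ε
  · rw [Set.indicator_of_mem hx]
    rw [Metric.mem_closedBall, Real.dist_eq] at hx
    have : (x - E) ^ 2 ≤ ε ^ 2 := by
      rw [← sq_abs]
      exact pow_le_pow_left₀ (abs_nonneg _) hx 2
    rw [inv_eq_one_div, div_le_div_iff₀ (by positivity) (by positivity)]
    nlinarith
  · rw [Set.indicator_of_notMem hx]
    positivity

theorem det {V : Z2 → ℝ}
    (hZ : ∀ N r : ℕ, liminf (fun k => liminf (fun L => ZB V N r k L) atTop) atTop = 0)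
    {ψ : Z2 → ℂ} (hψ : Summable fun j => ‖ψ j‖ ^ 2) (μ : Measure ℝ) [IsFiniteMeasure μ]
    (hμ : ∀ z : ℂ, z.im ≠ 0 → ∃ u : Z2 → ℂ, (Summable fun j => ‖u j‖ ^ 2) ∧ Solves V z u ψ ∧
      ∫ x : ℝ, ((x : ℂ) - z)⁻¹ ∂μ = ∑' j, (starRingEnd ℂ) (ψ j) * u j) : μ ⟂ₘ volume := by
  have η0 : ∀ k : ℕ, (0 : ℝ) < 1 / (k + 1) := fun k => by positivity
  have key : ∀ r : ℕ, ∀ᵐ E : ℝ, E ∈ Set.Ioc (-(r : ℝ)) r → min 1 (μ.rnDeriv volume E) = 0 := by
    intro r
    rw [← ae_restrict_iff' measurableSet_Ioc]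
    refine (lintegral_eq_zero_iff (measurable_const.min (Measure.measurable_rnDeriv _ _))).1 ?_
    refine le_antisymm (ENNReal.le_of_forall_pos_le_add fun θ hθ _ => ?_) bot_le
    rw [zero_add]
    have θ0 : (0 : ℝ) < θ := hθ
    obtain ⟨N, hN⟩ := ((tail_tend hψ).eventually_le_const (show 0 < (θ : ℝ) / 54 by positivity)).exists
    set δ : ℝ := θ / (72 * (2 * N + 1) ^ 2) with hδ
    have δ0 : 0 < δ := by positivity
    set C := ∑' j, ‖ψ j‖ ^ 2 with hC
    have C0 : 0 ≤ C := tsum_nonneg fun _ => sq_nonneg _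
    set K := 3 * C * (1 + δ⁻¹) ^ 2 with hK
    have K0 : 0 ≤ K := by positivity
    set κ : ℝ := θ / (3 * (K + 1)) with hκ
    have κ0 : 0 < κ := by positivity
    have a1 : ∀ᵐ E ∂(volume.restrict (Set.Ioc (-(r : ℝ)) r)), min 1 (μ.rnDeriv volume E) ≤
        liminf (fun k : ℕ => ENNReal.ofReal (min 1 (∫ x : ℝ,
          ((x : ℂ) - (E + (1 / (k + 1) : ℝ) * Complex.I))⁻¹ ∂μ).im)) atTop := by
      refine ae_restrict_of_ae ?_
      filter_upwards [Besicovitch.ae_tendsto_rnDeriv μ volume] with E e2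
      have t1 : Tendsto (fun k : ℕ => (1 / (k + 1) : ℝ)) atTop (𝓝[>] 0) :=
        tendsto_nhdsWithin_iff.2 ⟨tendsto_one_div_add_atTop_nhds_zero_nat, Eventually.of_forall η0⟩
      rw [← ((tendsto_const_nhds (x := (1 : ENNReal))).min (e2.comp t1)).liminf_eq]
      refine liminf_le_liminf (Eventually.of_forall fun k => ?_)
      rw [ENNReal.ofReal_mono.map_min, ENNReal.ofReal_one]
      exact min_le_min le_rfl (poisson μ (η0 k) E)
    refine (lintegral_mono_ae a1).trans ((lintegral_liminf_le fun k => ?_).trans ?_)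
    · refine (measurable_const.min (Complex.measurable_im.comp ?_)).ennreal_ofReal
      exact (StronglyMeasurable.integral_prod_right (ν := μ) (f := fun E x : ℝ =>
        ((x : ℂ) - (E + (1 / (k + 1) : ℝ) * Complex.I))⁻¹)
        (Measurable.stronglyMeasurable (by fun_prop))).measurable
    have f1 := frequently_lt_of_liminf_lt (h := (hZ N r).trans_lt (ENNReal.ofReal_pos.2 κ0))
    refine liminf_le_of_frequently_le' (f1.mono fun k hk => ?_)
    have a2 : ∀ E : ℝ, ENNReal.ofReal (min 1 (∫ x : ℝ,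
        ((x : ℂ) - (E + (1 / (k + 1) : ℝ) * Complex.I))⁻¹ ∂μ).im) ≤ liminf (fun L => ENNReal.ofReal
          (min 1 (3 * qq (AA L) (W0 (fun y => 4 + V y) (1 / (k + 1)) E) (chi ψ N L)
            + 3 * qq (AA L) (W0 (fun y => 4 + V y) (1 / (k + 1)) E) (phi ψ N L)))) atTop := by
      intro E
      obtain ⟨u, h1, h2, h3⟩ := hμ (E + (1 / (k + 1) : ℝ) * Complex.I)
        (by simpa only [Complex.add_im, Complex.ofReal_im, Complex.mul_im, Complex.ofReal_re,
          Complex.I_im, Complex.I_re, mul_one, mul_zero, add_zero, zero_add] using (η0 k).ne')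
      rw [h3]
      exact fin_vol (η0 k) h1 hψ h2 N
    refine (lintegral_mono a2).trans ((lintegral_liminf_le fun L => ?_).trans ?_)
    · exact (measurable_const.min (((meas_qq _ (meas_W0 _ _) _).const_mul _).add
        ((meas_qq _ (meas_W0 _ _) _).const_mul _))).ennreal_ofReal
    refine liminf_le_of_frequently_le' ((frequently_lt_of_liminf_lt (h := hk)).mono fun L hL => ?_)
    have b1 : n2 (phi ψ N L) ≤ C := by
      refine le_trans (Finset.sum_le_sum fun y _ => ?_) (le_trans (le_of_eq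
        (Finset.sum_coe_sort (bx L) fun j => ‖ψ j‖ ^ 2)) (hψ.sum_le_tsum _ fun _ _ => sq_nonneg _))
      simp only [phi]
      split_ifs <;> simp
    have b2 : n2 (chi ψ N L) ≤ θ / 54 := by
      refine le_trans (le_of_eq (Finset.sum_congr rfl fun a _ => ?_)) ((tail_le hψ
        (fun _ => sq_nonneg _) (bx L) (bx N) Function.injective_id).trans hN)
      simp only [chi, id]
      split_ifs <;> simp
    refine (int_min (AA_symm L) _ δ0 (η0 k) r (FF L N) (fun x hx => ?_) _ b1).trans ?_
    · simp only [FF, Finset.mem_filter, Finset.mem_univ, true_and] at hx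
      simp only [phi, mem_bx, if_neg hx]
    refine (add_le_add le_rfl (mul_le_mul_right hL.le _)).trans ?_
    rw [← ENNReal.ofReal_mul K0, ← ENNReal.ofReal_add (by have := n2_nonneg (chi ψ N L); positivity)
      (by positivity), ← ENNReal.ofReal_coe_nnreal]
    apply ENNReal.ofReal_le_ofReal
    have c1 : 24 * δ * (2 * N + 1) ^ 2 = θ / 3 := by
      rw [hδ]
      field_simp
      ring
    have c2 : (K + 1) * κ = θ / 3 := by
      rw [hκ]
      field_simp
    have c3 := mul_le_mul_of_nonneg_left (card_FF L N) (show 0 ≤ 24 * δ by positivity)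
    linarith
  have z : μ.rnDeriv volume =ᵐ[volume] 0 := by
    filter_upwards [ae_all_iff.2 key] with E hE
    obtain ⟨n, hn⟩ := exists_nat_gt |E|
    have := abs_lt.1 hn
    simpa using hE n ⟨this.1, this.2.le⟩
  rw [Measure.haveLebesgueDecomposition_add μ volume, withDensity_congr_ae z, withDensity_zero,
    add_zero]
  exact Measure.mutuallySingular_singularPart μ volume

end Pool.Agent.P.MP_d0f69c_mp.NW
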