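import Pool.Agent.P.MP_d0f69c_mp.Prob2

set_option autoImplicit false

open Finset MeasureTheory Matrix

namespace Pool.Agent.P.MP_d0f69c_mp

variable {d : ℕ}

lemma TV_shift (v : Zd d → ℝ) (E e : ℝ) (u : Zd d → ℝ) (y : Zd d) :
    TV v e u y = TV v E u y + (E - e) * u y := by
  simp only [TV]
  ring

lemma Loc.shift {v : Zd d → ℝ} {E e : ℝ} {Λ : Set (Zd d)} {z : Zd d} {ρ θ M t : ℝ}
    (h : Loc v e Λ z ρ θ M) (ht : |E - e| ≤ t) : Loc v E Λ z ρ (θ + M * t) M := by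
  intro ψ hψ a F ha hF h1 h2
  have t0 : 0 ≤ t := (abs_nonneg _).trans ht
  have := h ψ hψ a (F + t * a) ha (by positivity) h1 fun y a1 a2 => by
    rw [TV_shift v E e]
    refine (abs_add_le _ _).trans (add_le_add (h2 y a1 a2) ?_)
    rw [abs_mul]
    exact mul_le_mul ht (h1 y a2) (abs_nonneg _) t0
  linarith

/-- there is a quasi-mode in the box of radius `R` -/
def Act (ω : Zd d → Bool) (e : ℝ) (R : ℕ) (η : ℝ) : Prop :=
  ∃ φ : Zd d → ℝ, (∀ y, y ∉ bx (0 : Zd d) R → φ y = 0) ∧ φ ≠ 0 ∧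
    ∑ y ∈ bx 0 R, TV (pot ω) e φ y ^ 2 ≤ η ^ 2 * ∑ y ∈ bx 0 R, φ y ^ 2

lemma dep_Act (e : ℝ) (R : ℕ) (η : ℝ) : Dep (bx (0 : Zd d) R) fun ω => Act ω e R η := by
  rintro ω ω' h ⟨φ, h1, h2, h3⟩
  refine ⟨φ, h1, h2, le_trans (le_of_eq ?_) h3⟩
  exact Finset.sum_congr rfl fun y hy => by simp only [TV, pot, h y hy]

lemma mat_mv0 {Q : Finset (Zd d)} (v : Zd d → ℝ) (E : ℝ) (ψ : Q → ℝ) (y : Q) :
    (mat Q v E *ᵥ ψ) y = TV v E (ext0 Q ψ) y := by
  have := mat_mv v E 0 ψ y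
  rw [mv_diag] at this
  simpa [TV, ext0_coe] using this

lemma ext0_res {Q : Finset (Zd d)} {ψ : Zd d → ℝ} (hψ : ∀ y, y ∉ Q → ψ y = 0) :
    ext0 Q (fun y => ψ y) = ψ := by
  funext y
  unfold ext0
  split_ifs with h
  · rfl
  · exact (hψ y h).symm

lemma act_eig {ω : Zd d → Bool} {E e η : ℝ} {R : ℕ} {b : bx (0 : Zd d) R → bx (0 : Zd d) R → ℝ}
    {lam : bx (0 : Zd d) R → ℝ} (D : Dec (mat (bx 0 R) (pot ω) E) b lam) (hη : 0 ≤ η)
    (h : Act ω e R η) : ∃ i, |lam i - (e - E)| ≤ η := by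
  obtain ⟨φ, h1, h2, h3⟩ := h
  by_contra hc
  push Not at hc
  set ψ : bx (0 : Zd d) R → ℝ := fun y => φ y with hψ
  have p0 : ψ ≠ 0 := fun h => h2 (by
    rw [← ext0_res h1, ← hψ, h]
    funext y
    simp [ext0])
  have p := n_pos p0
  rw [D.n] at p
  obtain ⟨j, -, hj⟩ := Finset.exists_lt_of_sum_lt (s := univ) (f := fun _ => (0 : ℝ))
    (g := fun i => (b i ⬝ᵥ ψ) ^ 2) (by rw [sum_const_zero]; exact p)
  have e1 : ∑ y ∈ bx 0 R, φ y ^ 2 = ∑ i, (b i ⬝ᵥ ψ) ^ 2 := by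
    rw [← D.n, ← Finset.sum_coe_sort]
    exact Finset.sum_congr rfl fun y _ => pow_two _
  have e2 : ∑ y ∈ bx 0 R, TV (pot ω) e φ y ^ 2 = ∑ i, ((lam i - (e - E)) * (b i ⬝ᵥ ψ)) ^ 2 := by
    have := D.n (mat (bx 0 R) (pot ω) E *ᵥ ψ - (e - E) • ψ)
    simp only [dotProduct_sub (b _), dotProduct_smul (e - E) (b _), D.eig, smul_eq_mul,
      ← sub_mul] at this
    rw [← this, ← Finset.sum_coe_sort]
    refine Finset.sum_congr rfl fun y _ => ?_
    rw [Pi.sub_apply, mat_mv0, hψ, ext0_res h1, TV_shift _ E e]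
    simp only [Pi.smul_apply, smul_eq_mul]
    ring
  have k : ∀ i, η ^ 2 < (lam i - (e - E)) ^ 2 := fun i => by
    rw [← sq_abs (lam i - _)]
    exact pow_lt_pow_left₀ (hc i) hη two_ne_zero
  rw [e1, e2, Finset.mul_sum] at h3
  refine absurd h3 (not_le.2 (Finset.sum_lt_sum (fun i _ => ?_) ⟨j, mem_univ j, ?_⟩))
  · rw [mul_pow]
    exact mul_le_mul_of_nonneg_right (k i).le (sq_nonneg _)
  · rw [mul_pow]
    exact mul_lt_mul_of_pos_right (k j) hj

lemma card_net {ι : Type} {W : Finset ι} {x : ι → ℝ} {η : ℝ} (hη : 0 < η) {A : Finset ℤ}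
    (h : ∀ n ∈ A, ∃ i ∈ W, |x i - n * η| ≤ 2 * η) : A.card ≤ W.card * 5 := by
  classical
  refine (card_le_card (t := W.biUnion fun i => Icc (⌈x i / η⌉ - 2) (⌈x i / η⌉ + 2))
    fun n hn => ?_).trans (card_biUnion_le_card_mul _ _ 5 fun i _ => by simp; omega)
  obtain ⟨i, h1, h2⟩ := h n hn
  refine mem_biUnion.2 ⟨i, h1, mem_Icc.2 ⟨?_, ?_⟩⟩
  · have : ⌈x i / η⌉ ≤ n + 2 := Int.ceil_le.2 (by
      rw [div_le_iff₀ hη]
      push_cast
      linarith [(abs_le.1 h2).2])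
    omega
  · have a := Int.le_ceil (x i / η)
    have : (n : ℝ) - 2 ≤ x i / η := by
      rw [le_div_iff₀ hη]
      linarith [(abs_le.1 h2).1]
    have : (n : ℝ) ≤ ⌈x i / η⌉ + 2 := by linarith
    exact_mod_cast this

lemma card_act (ω : Zd d → Bool) {η : ℝ} (hη : 0 < η) (R : ℕ) {A : Finset ℤ}
    (h : ∀ n ∈ A, Act ω (n * η) R (2 * η)) : A.card ≤ (2 * R + 1) ^ d * 5 := by
  obtain ⟨b, lam, D⟩ := exists_dec (mat_herm (bx (0 : Zd d) R) (pot ω) 0)
  have := card_net (W := univ) (x := lam) hη fun n hn => by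
    obtain ⟨i, hi⟩ := act_eig D (by positivity) (h n hn)
    exact ⟨i, mem_univ _, by simpa using hi⟩
  rwa [card_univ, Fintype.card_coe, card_bx] at this

open Classical in
lemma union_indep {α : Type} (A : Finset α) {X Y : α → (Zd d → Bool) → Prop}
    {S T : Finset (Zd d)} (hX : ∀ a, Dep S (X a)) (hY : ∀ a, Dep T (Y a)) (hST : Disjoint S T)
    {n p : ℝ} (p0 : 0 ≤ p) (hn : ∀ ω, ((A.filter fun a => X a ω).card : ℝ) ≤ n)
    (hp : ∀ a ∈ A, (PP d).real {ω | Y a ω} ≤ p) :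
    (PP d).real {ω | ∃ a ∈ A, X a ω ∧ Y a ω} ≤ n * p := by
  refine (measureReal_mono (s₂ := ⋃ a ∈ A, {ω | X a ω ∧ Y a ω}) 
    (by rintro ω ⟨a, h1, h2⟩; exact Set.mem_biUnion h1 h2)
    (measure_ne_top _ _)).trans ((measureReal_biUnion_finset_le _ _).trans ?_)
  refine (Finset.sum_le_sum (g := fun a => (PP d).real {ω | X a ω} * p) fun a ha => by
    rw [(hX a).indep (hY a) hST]
    exact mul_le_mul_of_nonneg_left (hp a ha) measureReal_nonneg).trans ?_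
  rw [← Finset.sum_mul]
  refine mul_le_mul_of_nonneg_right ?_ p0
  have V0 : (0 : ℝ) < Fintype.card (S → Bool) := by exact_mod_cast Fintype.card_pos
  simp only [fun a => (hX a).real_eq, ← Finset.sum_div]
  rw [div_le_iff₀ V0]
  simp only [card_filter]
  push_cast
  rw [Finset.sum_comm, mul_comm]
  refine sum_le_mul' ((Nat.cast_nonneg _).trans (hn fun _ => true)) (by simp) fun c _ => ?_
  simpa using hn (extd S c)

open Classical in
/-- a path of separated bad centres -/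
def Path (B : Zd d → Prop) (r R : ℝ) : ℕ → Zd d → Finset (Zd d) → Prop
  | 0, _, _ => True
  | m + 1, y, A => ∃ g ∈ A, dist g y ≤ r ∧ B g ∧ Path B r R m g (A.filter fun g' => R < dist g' g)

lemma Path.congr {B B' : Zd d → Prop} {r R : ℝ} (m : ℕ) : ∀ (y : Zd d) (A : Finset (Zd d)),
    (∀ g ∈ A, B g → B' g) → Path B r R m y A → Path B' r R m y A := by
  classical
  induction m with
  | zero => exact fun _ _ _ _ => trivial
  | succ m ih =>
    rintro y A h ⟨g, h1, h2, h3, h4⟩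
    exact ⟨g, h1, h2, h g h1 h3, ih _ _ (fun g' hg' => h g' (mem_filter.1 hg').1) h4⟩

lemma dep_Path {B : Zd d → (Zd d → Bool) → Prop} {R : ℕ} (hD : ∀ g, Dep (bx g R) (B g)) (r R' : ℝ)
    (m : ℕ) (y : Zd d) (A : Finset (Zd d)) :
    Dep (A.biUnion fun g => bx g R) fun ω => Path (fun g => B g ω) r R' m y A := fun ω ω' e =>
  Path.congr m y A fun g hg => hD g ω ω' fun z hz => e z (mem_biUnion.2 ⟨g, hg, hz⟩)

open Classical in
lemma prob_path {B : Zd d → (Zd d → Bool) → Prop} {R : ℕ} {r q V : ℝ} (hD : ∀ g, Dep (bx g R) (B g))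
    (hq : ∀ g, (PP d).real {ω | B g ω} ≤ q) (V0 : 0 ≤ V) (m : ℕ) : ∀ (y : Zd d) (A : Finset (Zd d)),
    (∀ y, ((A.filter fun g => dist g y ≤ r).card : ℝ) ≤ V) →
    (PP d).real {ω | Path (fun g => B g ω) r (2 * R) m y A} ≤ (V * q) ^ m := by
  have q0 : 0 ≤ q := measureReal_nonneg.trans (hq 0)
  induction m with
  | zero => exact fun _ _ _ => by simp
  | succ m ih =>
    intro y A hA
    refine (measureReal_mono (s₂ := ⋃ g ∈ A.filter fun g => dist g y ≤ r, {ω | B g ω ∧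
      Path (fun g => B g ω) r (2 * R) m g (A.filter fun g' => 2 * R < dist g' g)}) ?_
      (measure_ne_top _ _)).trans ((measureReal_biUnion_finset_le _ _).trans ?_)
    · rintro ω ⟨g, h1, h2, h3, h4⟩
      simp only [Set.mem_iUnion]
      exact ⟨g, mem_filter.2 ⟨h1, h2⟩, h3, h4⟩
    · rw [show (V * q) ^ (m + 1) = V * (q * (V * q) ^ m) by ring]
      refine sum_le_mul (by positivity) (hA y) fun g _ => ?_
      rw [(hD g).indep (dep_Path hD _ _ m g _) ((disjoint_biUnion_right _ _ _).2 fun g' hg' =>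
        (disj_bx (mem_filter.1 hg').2).symm)]
      exact mul_le_mul (hq g) (ih _ _ fun y' => le_trans (by
        exact_mod_cast card_le_card (filter_subset_filter _ (filter_subset _ _))) (hA y'))
        measureReal_nonneg q0

lemma last_visit {x : ℕ → Zd d} {n a : ℕ} {z : Zd d} {r : ℝ} (ha : a ≤ n)
    (h1 : dist (x a) z ≤ r) (h2 : r < dist (x n) z) (hs : ∀ t < n, dist (x (t + 1)) (x t) ≤ 2) :
    ∃ a', a < a' ∧ a' ≤ n ∧ dist (x a') z ≤ r + 2 ∧ ∀ t, a' ≤ t → t ≤ n → r < dist (x t) z := by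
  classical
  have b1 := Nat.findGreatest_spec (P := fun t => dist (x t) z ≤ r) ha h1
  have b2 := Nat.le_findGreatest (P := fun t => dist (x t) z ≤ r) ha h1
  have b3 := Nat.findGreatest_le (P := fun t => dist (x t) z ≤ r) n
  have b4 := fun t => Nat.findGreatest_is_greatest (P := fun t => dist (x t) z ≤ r) (n := n) (k := t)
  set s := Nat.findGreatest (fun t => dist (x t) z ≤ r) n
  have b5 : s < n := lt_of_le_of_ne b3 fun e => by rw [e] at b1; linarith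
  exact ⟨s + 1, by omega, b5, by linarith [dist_triangle (x (s + 1)) (x s) z, hs s b5],
    fun t t1 t2 => not_le.1 (b4 t t1 t2)⟩

lemma path_of_chain {B : Zd d → Prop} {x : ℕ → Zd d} {n : ℕ} {r R : ℝ} (r0 : 0 ≤ r) (R0 : 0 ≤ R)
    (hR : R + 2 ≤ r) (hs : ∀ t < n, dist (x (t + 1)) (x t) ≤ 2) (m : ℕ) :
    ∀ (a : ℕ) (y : Zd d) (A : Finset (Zd d)), a ≤ n →
      (∀ t, a ≤ t → t ≤ n → (∃ g, B g ∧ dist g (x t) ≤ r) ∧ ∀ g, B g → dist g (x t) ≤ r → g ∈ A) →
      dist (x a) y ≤ 4 * r → dist (x a) 0 + m * (3 * r) ≤ dist (x n) 0 →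
      Path B (5 * r) R m y A := by
  classical
  induction m with
  | zero => exact fun _ _ _ _ _ _ _ => trivial
  | succ m ih =>
    intro a y A ha h h1 h2
    obtain ⟨⟨g, g1, g2⟩, h3⟩ := h a le_rfl ha
    push_cast at h2
    have m0 : 0 ≤ m * (3 * r) := by positivity
    obtain ⟨a', a1, a2, a3, a4⟩ := last_visit (z := x a) (r := 2 * r + R) ha (by rw [dist_self]; positivity)
      (by linarith [dist_triangle (x n) (x a) 0]) hs
    refine ⟨g, h3 g g1 g2, by linarith [dist_triangle g (x a) y], g1, ih a' g _ a2 (fun t t1 t2 =>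
      ⟨(h t (by omega) t2).1, fun g' b1 b2 => mem_filter.2 ⟨(h t (by omega) t2).2 g' b1 b2, ?_⟩⟩)
      (by linarith [dist_triangle_right (x a') g (x a)]) (by linarith [dist_triangle (x a') (x a) 0])⟩
    linarith [a4 t t1 t2, dist_triangle4 (x t) g' g (x a), dist_comm g' (x t)]

lemma quasi {v u : Zd d → ℝ} {E ε : ℝ} {r R : ℕ} (hu : ∀ y, TV v E u y = 0) (ε0 : 0 ≤ ε)
    (h : ∀ (n : ℕ) (x : ℕ → Zd d), dist (x 0) 0 ≤ r →
      (∀ t < n, ε < |u (x (t + 1))| ∧ dist (x (t + 1)) (x t) ≤ 2) → dist (x n) 0 + 1 ≤ R) :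
    ∃ D ⊆ bx (0 : Zd d) R, bx (0 : Zd d) r ⊆ D ∧
      ∀ y ∈ bx (0 : Zd d) R, |TV v E (cutS D u) y| ≤ 2 * d * ε := by
  classical
  let Re : Zd d → Prop := fun y => ∃ (n : ℕ) (x : ℕ → Zd d), dist (x 0) 0 ≤ r ∧
    (∀ t < n, ε < |u (x (t + 1))| ∧ dist (x (t + 1)) (x t) ≤ 2) ∧ x n = y
  have ext : ∀ y y', Re y → dist y' y ≤ 2 → ¬ Re y' → |u y'| ≤ ε := by
    rintro y y' ⟨n, x, h1, h2, rfl⟩ h3 h4
    by_contra hc
    refine h4 ⟨n + 1, fun t => if t ≤ n then x t else y', by simpa using h1, fun t ht => ?_, by simp⟩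
    by_cases b : t < n
    · simpa [b.le, Nat.succ_le_of_lt b] using h2 t b
    · obtain rfl : t = n := by omega
      simpa using ⟨not_le.1 hc, h3⟩
  have inn : ∀ y y', Re y' → dist y y' ≤ 1 →
      y ∈ (bx (0 : Zd d) R).filter fun y => ∃ y', Re y' ∧ dist y y' ≤ 1 := fun y y' a b => by
    refine mem_filter.2 ⟨mem_bx.2 ?_, y', a, b⟩
    obtain ⟨n, x, h1, h2, rfl⟩ := a
    linarith [h n x h1 h2, dist_triangle y (x n) 0]
  refine ⟨(bx 0 R).filter fun y => ∃ y', Re y' ∧ dist y y' ≤ 1, filter_subset _ _,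
    fun y hy => inn y y ⟨0, fun _ => y, mem_bx.1 hy, by simp, rfl⟩ (by simp), fun y hy => ?_⟩
  set D := (bx (0 : Zd d) R).filter fun y => ∃ y', Re y' ∧ dist y y' ≤ 1
  by_cases hD : y ∈ D
  · obtain ⟨z, z1, z2⟩ := (mem_filter.1 hD).2
    have := TV_cut v E u hD ε0 fun y' a b => ext z y' z1 (by linarith [dist_triangle y' y z])
      fun c => b (inn y' y' c (by simp))
    simpa [hu] using this
  · have k : ∀ y', dist y' y ≤ 1 → |cutS D u y'| ≤ ε := fun y' a => by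
      unfold cutS
      split_ifs with b
      · obtain ⟨z, z1, z2⟩ := (mem_filter.1 b).2
        exact ext z y' z1 (by linarith) fun c => hD (inn y y' c (by rwa [dist_comm]))
      · simpa using ε0
    rw [TV, show cutS D u y = 0 from if_neg hD, mul_zero, zero_sub, abs_neg, adj,
      show 2 * d * ε = d * (2 * ε) by ring]
    refine (Finset.abs_sum_le_sum_abs _ _).trans (sum_le_mul' (by positivity) (by simp) fun i _ => ?_)
    linarith [abs_add_le (cutS D u (y + ee i)) (cutS D u (y - ee i)), k _ (dist_add_ee y i).le,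
      k _ (dist_sub_ee y i).le]

end Pool.Agent.P.MP_d0f69c_mp
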