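import Pool.Agent.P.MP_d0f69c_mp.PP1

set_option autoImplicit false

open Finset MeasureTheory Matrix

namespace Pool.Agent.P.MP_d0f69c_mp

variable {d : ℕ} (P : Par) (i : Fin d)

open Classical in
/-- centres in an annulus -/
noncomputable def Ann (k r R : ℕ) : Finset (Zd d) :=
  (bx 0 (R + 2 * P.c (k + 1))).filter fun g => Grid (P.c k) g ∧ (r + 4 * P.c k : ℝ) < dist g 0

/-- a bad crossing of the annulus -/
def Cross (ω : Zd d → Bool) (e : ℝ) (k m r R : ℕ) : Prop :=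
  ∃ y ∈ bx (0 : Zd d) R, Path (Bad P i e ω k) (5 * P.c (k + 1)) (2 * (4 * P.c k : ℕ)) m y (Ann P k r R)

variable {P i} {X : Aux}

lemma pot_le (ω : Zd d → Bool) (y : Zd d) : |pot ω y| ≤ 1 := by unfold pot; split_ifs <;> simp

lemma loc_univ (h : Ok d P X) {ω : Zd d → Bool} {E e η θ : ℝ} {k : ℕ} (he : |E - e| ≤ η)
    (hθ : 2 * d * P.γ k + (P.M k + P.γ k) * η ≤ θ) {y : Zd d}
    (hb : ∀ g, Bad P i e ω k g → 2 * P.c k < dist y g) :
    Loc (pot ω) E Set.univ y (4 * P.c k + 1) θ (P.M k + P.γ k) := by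
  obtain ⟨g, hg⟩ := cov_univ (h.c0 k) y
  exact ((loc_of_cov hg trivial (fun b => by linarith [hb g b, hg.dist_le trivial]) (pot_le ω)
    fun _ _ _ => rfl).shift he).mono le_rfl hθ le_rfl

lemma stage (h : Ok d P X) {ω : Zd d → Bool} {E e e' η η' θ a : ℝ} {k m r R S : ℕ} {u : Zd d → ℝ}
    {x0 : Zd d} (hu : ∀ y, TV (pot ω) E u y = 0) (he : |E - e| ≤ η) (he' : |E - e'| ≤ η')
    (hθ : 2 * d * P.γ k + (P.M k + P.γ k) * η ≤ θ) (θ0 : 0 ≤ θ) (θ1 : θ ≤ 1 / 2)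
    (hS : S * (4 * P.c k + 1) + 2 * P.c k ≤ P.c (k + 1)) (hR : r + (3 * m + 3) * P.c (k + 1) ≤ R)
    (ha : ∀ y ∈ bx (0 : Zd d) (R + P.c (k + 1)), |u y| ≤ a) (hx : x0 ∈ bx (0 : Zd d) r)
    (h0 : u x0 ≠ 0) (hn : (2 * R + 1) ^ d * (2 * d * (θ ^ S * a)) ^ 2 ≤ η' ^ 2 * u x0 ^ 2)
    (hc : ¬ Cross P i ω e k m r R) : Act ω e' R (2 * η') := by
  classical
  have a0 : 0 ≤ a := (abs_nonneg _).trans (ha 0 (self_mem_bx _ _))
  have c1 : (1 : ℝ) ≤ P.c k := by exact_mod_cast h.c0 k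
  have c2 : (10 * P.c k : ℝ) ≤ P.c (k + 1) := by
    exact_mod_cast (by have := h.J10 k; have := h.cP k; omega : 10 * P.c k ≤ P.c (k + 1))
  have s1 : (S * (4 * P.c k + 1) + 2 * P.c k : ℝ) ≤ P.c (k + 1) := by exact_mod_cast hS
  have s2 : (r + (3 * m + 3) * P.c (k + 1) : ℝ) ≤ R := by exact_mod_cast hR
  have m0 : (0 : ℝ) ≤ m * P.c (k + 1) := by positivity
  have M1 : 0 ≤ P.M k + P.γ k := add_nonneg (h.M0 k) (h.γ0 k)
  obtain ⟨D, D1, D2, D3⟩ := quasi (r := r) (R := R) (ε := θ ^ S * a) hu (by positivity) (by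
    intro n x x1 x2
    by_contra hcon
    have ex : ∃ n', ¬ dist (x n') 0 + 1 ≤ R := ⟨n, hcon⟩
    have n1 := Nat.find_spec ex
    have n2 := fun t => Nat.find_min ex (m := t)
    have n3 : Nat.find ex ≤ n := Nat.find_min' ex hcon
    set n' := Nat.find ex
    push Not at n1 n2
    have hs : ∀ t < n', dist (x (t + 1)) (x t) ≤ 2 := fun t ht => (x2 t (by omega)).2
    obtain ⟨a', a1, a2, a3, a4⟩ := last_visit (x := x) (z := 0) (r := r + P.c (k + 1) + 4 * P.c k)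
      (Nat.zero_le n') (by linarith) (by linarith) hs
    refine hc ⟨x a', mem_bx.2 (by linarith), path_of_chain (n := n') (by linarith) (by positivity)
      (by push_cast; linarith) hs m a' _ _ a2 (fun t t1 t2 => ?_) (by rw [dist_self]; linarith)
      (by linarith)⟩
    obtain ⟨t, rfl⟩ : ∃ s, t = s + 1 := ⟨t - 1, by omega⟩
    have b1 : dist (x (t + 1)) 0 ≤ R + 1 := by
      linarith [n2 t t2, hs t t2, dist_triangle (x (t + 1)) (x t) 0]
    refine ⟨?_, fun g g1 g2 => mem_filter.2 ⟨mem_bx.2 ?_, g1.1, ?_⟩⟩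
    · by_contra hg
      push Not at hg
      have := Loc.iter (Λ := Set.univ) (ρ := 4 * P.c k + 1) (by positivity) θ0 θ1 M1 S (x (t + 1))
        trivial (fun w _ w2 => loc_univ (i := i) h he hθ fun g b => by
          linarith [hg g b, dist_triangle_left g (x (t + 1)) w]) u (fun _ b => absurd trivial b) a 0 a0
        le_rfl (fun w w2 => ha w (mem_bx.2 (by
          push_cast
          linarith [dist_triangle w (x (t + 1)) 0]))) (fun w _ _ => by simp [hu])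
      linarith [(x2 t (by omega)).1]
    · push_cast
      linarith [dist_triangle g (x (t + 1)) 0]
    · linarith [a4 _ t1 t2, dist_triangle_left (x (t + 1)) 0 g, dist_triangle (x (t + 1)) g 0,
        dist_comm g (x (t + 1))])
  have e0 : cutS D u x0 = u x0 := if_pos (D2 hx)
  refine ⟨cutS D u, fun y hy => if_neg fun b => hy (D1 b), fun b => h0 (by rw [← e0, b]; rfl), ?_⟩
  have b1 : u x0 ^ 2 ≤ ∑ y ∈ bx 0 R, cutS D u y ^ 2 := by
    rw [← e0]
    exact Finset.single_le_sum (f := fun y => cutS D u y ^ 2) (fun _ _ => sq_nonneg _) (D1 (D2 hx))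
  have b2 : ∑ y ∈ bx 0 R, TV (pot ω) e' (cutS D u) y ^ 2
      ≤ ∑ y ∈ bx 0 R, (2 * (2 * d * (θ ^ S * a)) ^ 2 + 2 * η' ^ 2 * cutS D u y ^ 2) := by
    refine Finset.sum_le_sum fun y hy => ?_
    rw [TV_shift _ E]
    have f1 := sq_le_sq' (abs_le.1 (D3 y hy)).1 (abs_le.1 (D3 y hy)).2
    have f2 := mul_le_mul_of_nonneg_right (sq_le_sq' (abs_le.1 he').1 (abs_le.1 he').2)
      (sq_nonneg (cutS D u y))
    nlinarith [sq_nonneg (TV (pot ω) E (cutS D u) y - (E - e') * cutS D u y)]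
  rw [Finset.sum_add_distrib, sum_const, card_bx, nsmul_eq_mul, ← Finset.mul_sum] at b2
  push_cast at b2
  nlinarith [mul_le_mul_of_nonneg_left b1 (sq_nonneg η')]

lemma dep_Cross (h : Ok d P X) (e : ℝ) (k m r R : ℕ) :
    Dep ((Ann P k r R).biUnion fun g => bx g (4 * P.c k)) fun ω => Cross P i ω e k m r R := by
  rintro ω ω' e' ⟨y, h1, h2⟩
  exact ⟨y, h1, dep_Path (B := fun g ω => Bad P i e ω k g) (dep_Bad h k) _ _ m y _ ω ω' e' h2⟩

lemma disj_Ann (k r R : ℕ) :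
    Disjoint (bx (0 : Zd d) r) ((Ann P k r R).biUnion fun g => bx g (4 * P.c k)) := by
  classical
  refine (disjoint_biUnion_right _ _ _).2 fun g hg => Finset.disjoint_left.2 fun y h1 h2 => ?_
  have a := mem_bx.1 h2
  push_cast at a
  linarith [mem_bx.1 h1, (mem_filter.1 hg).2.2, dist_triangle_left g 0 y]

lemma prob_cross (h : Ok d P X) {e q : ℝ} {k : ℕ}
    (hq : ∀ g, (PP d).real {ω | Bad P i e ω k g} ≤ q) (m r R : ℕ) :
    (PP d).real {ω | Cross P i ω e k m r R} ≤ (2 * R + 1) ^ d * ((10 * X.K k + 1) ^ d * q) ^ m := by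
  classical
  have q0 : 0 ≤ q := measureReal_nonneg.trans (hq 0)
  refine (measureReal_mono (s₂ := ⋃ y ∈ bx (0 : Zd d) R, {ω | Path (Bad P i e ω k) (5 * P.c (k + 1))
    (2 * (4 * P.c k : ℕ)) m y (Ann P k r R)}) (by rintro ω ⟨a, h1, h2⟩; exact Set.mem_biUnion h1 h2)
    (measure_ne_top _ _)).trans ((measureReal_biUnion_finset_le _ _).trans (sum_le_mul
      (by positivity) (by rw [card_bx]; push_cast; exact le_rfl) fun y _ => ?_))
  refine prob_path (B := fun g ω => Bad P i e ω k g) (dep_Bad h k) hq (by positivity) m y _ fun y => ?_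
  have := card_grid (h.c0 k) y (5 * X.K k) ((Ann P k r R).filter fun g => dist g y ≤ 5 * P.c (k + 1))
    fun g hg => ⟨(mem_filter.1 (mem_filter.1 hg).1).2.1, mem_bx.2 (by
      rw [mul_assoc, ← h.cK]
      exact_mod_cast (mem_filter.1 hg).2)⟩
  rw [← mul_assoc] at this
  exact_mod_cast this

lemma H1_of_loc {Q Θ : Finset (Zd d)} {v : Zd d → ℝ} {E M : ℝ} (M0 : 0 ≤ M)
    (h : ∀ z ∈ Q, z ∉ Θ → ∃ ρ, Loc v E Q z ρ (1 / 2) M) :
    H1 (mat Q v E) (univ.filter fun y : Q => y.1 ∈ Θ) (2 * M) := by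
  intro ψ a F ha F0 h1 h2 z
  have := maxp Q (fun y => |ext0 Q ψ y|) (b1 := M * F) (by positivity) ha (fun m hm y hy => by
    by_cases hT : y ∈ Θ
    · left
      rw [ext0_coe ψ ⟨y, hy⟩]
      exact h1 _ (by simpa using hT)
    · obtain ⟨ρ, hρ⟩ := h y hy hT
      have m0 := (abs_nonneg _).trans (hm y hy)
      have := hρ _ (ext0_out ψ) m F m0 F0 (fun w _ => by
        by_cases hw : w ∈ Q
        · exact hm w hw
        · rwa [ext0_out ψ w hw, abs_zero]) (fun w w1 _ => by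
          rw [← mat_mv0 v E ψ ⟨w, w1⟩]
          exact h2 _)
      exact Or.inr (by linarith)) z z.2
  rw [ext0_coe] at this
  linarith

open Classical in
lemma card_her {Θ Λ B0 : Finset (Zd d)} {Bd : ℕ → Zd d → Prop} {c : ℕ → ℕ} {a s N : ℕ}
    (hc : ∀ j, 2 * c j ≤ c (j + 1))
    (h1 : ∀ z ∈ Θ, ∀ j, a ≤ j → j < a + s → ∃ g ∈ Λ, Bd j g ∧ dist z g ≤ 2 * c j)
    (h2 : ∀ j, a ≤ j → j < a + s → ∀ g ∈ Λ, ((bx g (3 * c (j + 1))).filter (Bd j)).card ≤ N)
    (h3 : B0 ⊆ Λ) (h4 : ∀ z ∈ Θ, ∃ g ∈ B0, dist z g ≤ 2 * c (a + s)) :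
    Θ.card ≤ B0.card * N ^ s * (4 * c a + 1) ^ d := by
  have key : ∀ t ≤ s, ∃ B ⊆ Λ, B.card ≤ B0.card * N ^ t ∧
      ∀ z ∈ Θ, ∃ g ∈ B, dist z g ≤ 2 * c (a + s - t) := by
    intro t ht
    induction t with
    | zero => exact ⟨B0, h3, by simp, h4⟩
    | succ t ih =>
      obtain ⟨B, B1, B2, B3⟩ := ih (by omega)
      obtain ⟨j, hj⟩ : ∃ j, a + s = j + 1 + t := ⟨a + s - 1 - t, by omega⟩
      rw [show a + s - t = j + 1 by omega] at B3
      rw [show a + s - (t + 1) = j by omega]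
      refine ⟨(B.biUnion fun g => (bx g (3 * c (j + 1))).filter (Bd j)) ∩ Λ, inter_subset_right, ?_,
        fun z hz => ?_⟩
      · refine (card_le_card inter_subset_left).trans ((card_biUnion_le_card_mul _ _ N
          fun g hg => h2 j (by omega) (by omega) g (B1 hg)).trans ?_)
        rw [pow_succ, ← mul_assoc]
        exact Nat.mul_le_mul_right _ B2
      · obtain ⟨g, g0, hg, g3⟩ := h1 z hz j (by omega) (by omega)
        obtain ⟨g', g1, g2⟩ := B3 z hz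
        have c1 : (2 * c j : ℝ) ≤ c (j + 1) := by exact_mod_cast hc j
        refine ⟨g, mem_inter.2 ⟨mem_biUnion.2 ⟨g', g1, mem_filter.2 ⟨mem_bx.2 ?_, hg⟩⟩, g0⟩, g3⟩
        push_cast
        linarith [dist_triangle_left g g' z]
  obtain ⟨B, -, B2, B3⟩ := key s le_rfl
  rw [Nat.add_sub_cancel] at B3
  refine (card_le_card (t := B.biUnion fun g => bx g (2 * c a)) fun z hz => ?_).trans
    ((card_biUnion_le_card_mul _ _ _ fun g _ => le_of_eq ?_).trans (Nat.mul_le_mul_right _ B2))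
  · obtain ⟨g, g1, g2⟩ := B3 z hz
    exact mem_biUnion.2 ⟨g, g1, mem_bx.2 (by exact_mod_cast g2)⟩
  · rw [card_bx]
    congr 1
    ring

variable (P i)

open Classical in
/-- few defects outside the core -/
def NSB (CR N : ℕ) (ω : Zd d → Bool) (e : ℝ) (a k : ℕ) : Prop :=
  ∀ j, a ≤ j → j ≤ k → ∀ g' ∈ bx (0 : Zd d) ((CR + 8) * P.c (k + 1)),
    ((bx g' (3 * P.c (j + 1))).filter fun g =>
      Bad P i e ω j g ∧ (CR * P.c k + 4 * P.c k : ℝ) < dist g 0).card < N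

variable {P i}

lemma count_nr (h : Ok d P X) {CR N a s : ℕ} (hCR : 2 ≤ CR) (N1 : 1 ≤ N) {ω : Zd d → Bool}
    {E G : ℝ} {η e : ℕ → ℝ} (he : ∀ t ≤ s, |E - e t| ≤ η (a + t))
    (hN : ∀ t ≤ s, NSB P i CR N ω (e t) a (a + t)) (η0 : 0 < η (a + s + 1))
    (b1 : ∀ k, ∀ j ≤ k, 2 * d * P.γ j + (P.M j + P.γ j) * η k ≤ 1 / 2)
    (b2 : ∀ j ≤ a + s, 2 * (P.M j + P.γ j) ≤ G) (b3 : 512 ≤ G)
    (b4 : ((2 * (CR * P.c (a + s + 1)) + 1 : ℕ) : ℝ) ^ d ≤ G)
    (b5 : 3 * η (a + s) + 2 * η (a + s + 1) ≤ 2 * (1 / G ^ 4)) {A : Finset ℤ}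
    (hA : ∀ n ∈ A, Act ω (n * η (a + s + 1)) (CR * P.c (a + s + 1)) (2 * η (a + s + 1)) ∧
      |n * η (a + s + 1) - e s| ≤ 2 * η (a + s)) :
    A.card ≤ ((2 * (CR * P.c a + 6 * P.c a) + 1) ^ d
      + (s + 1) * ((2 * (CR + 8) + 1) ^ d * N ^ (s + 1) * (4 * P.c a + 1) ^ d)) * 5 := by
  classical
  set Q := bx (0 : Zd d) (CR * P.c (a + s + 1)) with hQ
  let Θt : ℕ → Finset (Zd d) := fun t => Q.filter fun z =>
    (CR * P.c (a + t) + 6 * P.c (a + t) : ℝ) < dist z 0 ∧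
      dist z 0 ≤ CR * P.c (a + t + 1) + 6 * P.c (a + t + 1) ∧
      ∀ j, a ≤ j → j ≤ a + t → ∀ g, Cov Q (P.c j) z g → Bad P i (e t) ω j g
  have hcov : ∀ j ≤ a + s + 1, ∀ z ∈ Q, ∃ g, Cov Q (P.c j) z g := fun j hj z hz =>
    cov_bx (h.c0 j) (Nat.mul_le_mul hCR (h.le hj)) (Dvd.dvd.mul_left (h.dvd hj) _)
      (fun _ => dvd_zero _) hz
  obtain ⟨b, lam, D⟩ := exists_dec (mat_herm Q (pot ω) E)
  have G0 : 0 < G := by linarith
  have a1 := H1_of_loc (Q := Q) (Θ := bx 0 (CR * P.c a + 6 * P.c a) ∪ (range (s + 1)).biUnion Θt)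
    (v := pot ω) (E := E) (M := G / 2) (by positivity) fun z hz hΘ => by
      rw [mem_union, not_or, mem_bx] at hΘ
      push_cast at hΘ
      obtain ⟨t, t1, t2, t3⟩ : ∃ t, (CR * P.c (a + t) + 6 * P.c (a + t) : ℝ) < dist z 0 ∧ t ≤ s ∧
          ∀ k, t < k → k ≤ s → ¬ (CR * P.c (a + k) + 6 * P.c (a + k) : ℝ) < dist z 0 :=
        ⟨_, Nat.findGreatest_spec (P := fun t =>
          (CR * P.c (a + t) + 6 * P.c (a + t) : ℝ) < dist z 0) (Nat.zero_le s) (not_le.1 hΘ.1),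
          Nat.findGreatest_le s, fun k => Nat.findGreatest_is_greatest⟩
      have t4 : dist z 0 ≤ CR * P.c (a + t + 1) + 6 * P.c (a + t + 1) := by
        rcases eq_or_lt_of_le t2 with rfl | l
        · have := mem_bx.1 hz
          push_cast at this
          linarith [Nat.cast_nonneg (α := ℝ) (P.c (a + t + 1))]
        · exact not_lt.1 (t3 (t + 1) (by omega) l)
      have t5 : z ∉ Θt t := fun b => hΘ.2 (mem_biUnion.2 ⟨t, mem_range.2 (by omega), b⟩)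
      simp only [Θt, mem_filter, hz, t1, t4, true_and, not_forall] at t5
      obtain ⟨j, -, j2, g, g1, g2⟩ := t5
      exact ⟨_, ((loc_of_cov g1 hz g2 (pot_le ω) fun _ _ _ => rfl).shift (he t t2)).mono le_rfl
        (b1 _ j j2) (by linarith [b2 j (by omega)])⟩
  have a2 := count_le D a1 (by rw [Fintype.card_coe, card_bx]; exact_mod_cast b4) (by positivity)
    (by linarith) b3
  refine (card_net (W := univ.filter fun i => |lam i| ≤ 2 * (1 / G ^ 4)) (x := fun i => lam i + E) η0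
    fun n hn => ?_).trans (Nat.mul_le_mul_right _ (a2.trans ?_))
  · obtain ⟨j, hj⟩ := act_eig D (by positivity) (hA n hn).1
    refine ⟨j, mem_filter.2 ⟨mem_univ _, ?_⟩, by rwa [← sub_sub_eq_add_sub]⟩
    have f1 := abs_le.1 hj
    have f2 := abs_le.1 (hA n hn).2
    have f3 := abs_le.1 (he s le_rfl)
    rw [abs_le]
    constructor <;> linarith [f1.1, f1.2, f2.1, f2.2, f3.1, f3.2]
  have cardf : ∀ (A : Finset (Zd d)), (univ.filter fun y : Q => y.1 ∈ A).card ≤ A.card := fun A =>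
    card_le_card_of_injOn Subtype.val (fun y hy => by simpa using hy) Subtype.val_injective.injOn
  refine (cardf _).trans ((card_union_le _ _).trans (add_le_add (card_bx _ _).le ?_))
  refine (card_biUnion_le_card_mul _ _ _ fun t ht => ?_).trans (by rw [card_range])
  have ts : t ≤ s := by have := mem_range.1 ht; omega
  have c0 : (0 : ℝ) ≤ P.c (a + t + 1) := Nat.cast_nonneg _
  refine (card_her (Θ := Θt t) (Λ := bx 0 ((CR + 8) * P.c (a + t + 1)))
    (B0 := (bx 0 ((CR + 8) * P.c (a + t + 1))).filter (Grid (P.c (a + t + 1))))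
    (Bd := fun j g => Bad P i (e t) ω j g ∧ (CR * P.c (a + t) + 4 * P.c (a + t) : ℝ) < dist g 0)
    (s := t + 1) (N := N) (fun j => by have := h.cP j; omega) (fun z hz j j1 j2 => ?_)
    (fun j j1 j2 g hg => Nat.le_of_lt (by convert hN t ts j j1 (by omega) g hg)) (filter_subset _ _)
    fun z hz => ?_).trans (Nat.mul_le_mul_right _ (Nat.mul_le_mul (card_grid (h.c0 _) 0 _ _
      fun y hy => ⟨(mem_filter.1 hy).2, (mem_filter.1 hy).1⟩) (Nat.pow_le_pow_right N1 (by omega))))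
  · obtain ⟨z1, z2, z3, z4⟩ := mem_filter.1 hz
    obtain ⟨g, hg⟩ := hcov j (by omega) z z1
    have g1 := hg.dist_le z1
    have c1 : (P.c j : ℝ) ≤ P.c (a + t) := by exact_mod_cast h.le (by omega)
    have c2 : (P.c j : ℝ) ≤ P.c (a + t + 1) := by exact_mod_cast h.le (by omega)
    refine ⟨g, mem_bx.2 ?_, ⟨z4 j j1 (by omega) g hg, by linarith [dist_triangle z g 0]⟩, g1⟩
    push_cast
    linarith [dist_triangle_left g 0 z]
  · obtain ⟨z1, z2, z3, z4⟩ := mem_filter.1 hz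
    obtain ⟨g, hg⟩ := cov_univ (h.c0 (a + t + 1)) z
    have g1 := hg.dist_le trivial
    refine ⟨g, mem_filter.2 ⟨mem_bx.2 ?_, hg.1⟩, g1⟩
    push_cast
    linarith [dist_triangle_left g 0 z]

lemma dep_NSB (h : Ok d P X) (CR N : ℕ) (e : ℝ) (a k : ℕ) :
    Dep (bx 0 ((CR + 15) * P.c (k + 1)) \ bx 0 (CR * P.c k)) fun ω => NSB P i CR N ω e a k := by
  classical
  intro ω ω' he hN j j1 j2 g' hg'
  refine lt_of_le_of_lt (card_le_card fun g hg => ?_) (hN j j1 j2 g' hg')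
  obtain ⟨g1, g2, g3⟩ := mem_filter.1 hg
  refine mem_filter.2 ⟨g1, dep_Bad h j g ω' ω (fun y hy => (he y ?_).symm) g2, g3⟩
  have a1 := mem_bx.1 hy
  have a2 := mem_bx.1 g1
  have a3 := mem_bx.1 hg'
  have c1 : (P.c j : ℝ) ≤ P.c k := by exact_mod_cast h.le j2
  have c2 : (P.c (j + 1) : ℝ) ≤ P.c (k + 1) := by exact_mod_cast h.le (by omega)
  have c3 : (P.c j : ℝ) ≤ P.c (k + 1) := by exact_mod_cast h.le (by omega)
  rw [mem_sdiff, mem_bx, mem_bx]
  push_cast at a1 a2 a3 ⊢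
  exact ⟨by linarith [dist_triangle4 y g g' 0], by linarith [dist_triangle_left g 0 y]⟩

lemma prob_NSB (h : Ok d P X) {CR m a t : ℕ} {e β : ℝ} {q : ℕ → ℝ} (β0 : 0 ≤ β)
    (hq : ∀ j g, (PP d).real {ω | Bad P i e ω j g} ≤ q j)
    (hβ : ∀ j, a ≤ j → ((6 * X.K j + 1) ^ d * q j) ^ m ≤ β) :
    (PP d).real {ω | ¬ NSB P i CR (m * 17 ^ d) ω e a (a + t)}
      ≤ (t + 1) * ((2 * ((CR + 8) * P.c (a + t + 1) : ℕ) + 1) ^ d * β) := by
  classical
  refine (measureReal_mono (s₂ := ⋃ j ∈ Icc a (a + t), ⋃ g' ∈ bx (0 : Zd d) ((CR + 8) * P.c (a + t + 1)),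
    {ω | m * 17 ^ d ≤ (((bx g' (3 * P.c (j + 1))).filter (Grid (P.c j))).filter fun g =>
      Bad P i e ω j g).card}) (fun ω hω => ?_) (measure_ne_top _ _)).trans
    ((measureReal_biUnion_finset_le _ _).trans (sum_le_mul' (by positivity) ?_ fun j hj => ?_))
  · simp only [NSB, Set.mem_ofPred_eq, not_forall, not_lt] at hω
    obtain ⟨j, j1, j2, g', g1, g2⟩ := hω
    simp only [Set.mem_iUnion]
    refine ⟨j, mem_Icc.2 ⟨j1, j2⟩, g', g1, g2.trans (card_le_card fun y hy => ?_)⟩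
    obtain ⟨y1, y2, -⟩ := mem_filter.1 hy
    exact mem_filter.2 ⟨mem_filter.2 ⟨y1, y2.1⟩, y2⟩
  · rw [Nat.card_Icc]
    exact_mod_cast (by omega : a + t + 1 - a ≤ t + 1)
  refine (measureReal_biUnion_finset_le _ _).trans (sum_le_mul β0
    (by rw [card_bx]; push_cast; exact le_rfl) fun g _ => ?_)
  refine (many (w := 17 ^ d) (V := (6 * X.K j + 1) ^ d) (dep_Bad h j) (hq j) (by positivity) m _ ?_
    fun g' => ?_).trans (hβ j (mem_Icc.1 hj).1)
  · have := card_grid (h.c0 j) g (3 * X.K j) ((bx g (3 * P.c (j + 1))).filter (Grid (P.c j)))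
      fun y hy => ⟨(mem_filter.1 hy).2, by rw [mul_assoc, ← h.cK]; exact (mem_filter.1 hy).1⟩
    rw [← mul_assoc] at this
    exact_mod_cast this
  · refine card_grid (h.c0 j) g' 8 _ fun y hy => ?_
    obtain ⟨y1, y2⟩ := mem_filter.1 hy
    refine ⟨(mem_filter.1 y1).2, mem_bx.2 ?_⟩
    push_cast at y2 ⊢
    linarith

end Pool.Agent.P.MP_d0f69c_mp
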