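import Pool.Agent.P.MP_d0f69c_mp.PP2

set_option autoImplicit false

open Finset MeasureTheory Filter Topology

namespace Pool.Agent.P.MP_d0f69c_mp

variable {d : ℕ}

/-- parameters of the energy reduction -/
structure Aux2 where
  η : ℕ → ℝ
  θ : ℕ → ℝ
  S : ℕ → ℕ
  Z : ℕ → ℝ
  m0 : ℕ
  N1 : ℕ
  N2 : ℕ
  mF : ℕ
  CR : ℕ
  Bc : ℕ → ℕ
  G : ℕ → ℝ
  β : ℕ → ℝ
  V : ℕ → ℝ
  W : ℕ → ℝ
  s : ℝ

/-- conditions for the energy reduction -/
structure Ok2 (d : ℕ) (P : Par) (X : Aux) (Y : Aux2) : Prop where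
  η0 : ∀ k, 0 < Y.η k
  η1 : ∀ k, Y.η (k + 1) ≤ Y.η k
  θ1 : ∀ k, 2 * d * P.γ k + (P.M k + P.γ k) * Y.η k ≤ Y.θ k
  θ2 : ∀ k, Y.θ k ≤ 1 / 2
  S1 : ∀ k, Y.S k * (4 * P.c k + 1) + 2 * P.c k ≤ P.c (k + 1)
  N0 : 1 ≤ Y.N1
  F0 : 1 ≤ Y.mF
  CR : Y.CR = 6 * Y.m0 + 7
  r0 : ∀ j, P.c j + (3 * P.c j + 3) * P.c (j + 1) ≤ P.c (j + Y.N1)
  V1 : ∀ j, 2 * ((Y.CR + 1) * P.c (j + Y.N1)) + 1 ≤ Y.V j
  W1 : ∀ k, 2 * ((Y.CR + 8) * P.c (k + 1)) + 1 ≤ Y.W k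
  n1 : ∀ j k, j ≤ k → Y.V j ^ d * (2 * d * (Y.θ k ^ Y.S k * Y.V j ^ (d + 2))) ^ 2
    ≤ Y.η (k + 1) ^ 2 * (1 / 2) ^ j
  p0 : ∀ j, Y.Z j * (Y.V j ^ d * ((10 * X.K j + 1) ^ d * X.q j) ^ P.c j) ≤ (1 / 2) ^ j
  p1 : ∀ j k, j ≤ k →
    Y.V j ^ d * 5 * (Y.V j ^ d * ((10 * X.K k + 1) ^ d * X.q k) ^ Y.m0) ≤ (1 / 2) ^ j
  c1 : ∀ a, ((2 * (Y.CR * P.c a + 6 * P.c a) + 1) ^ d + (Y.N2 + 1) * ((2 * (Y.CR + 8) + 1) ^ d
    * (Y.mF * 17 ^ d) ^ (Y.N2 + 1) * (4 * P.c a + 1) ^ d)) * 5 ≤ Y.Bc a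
  G1 : ∀ k, ∀ j ≤ k, 2 * (P.M j + P.γ j) ≤ Y.G k
  G2 : ∀ k, 512 ≤ Y.G k
  G3 : ∀ k, Y.W k ^ d ≤ Y.G k
  G4 : ∀ k, 5 * Y.η k ≤ 2 * (1 / Y.G k ^ 4)
  β1 : ∀ a j, a ≤ j → ((6 * X.K j + 1) ^ d * X.q j) ^ Y.mF ≤ Y.β a
  p2 : ∀ a, ∀ t ≤ Y.N2, Y.Bc a ^ (t + 1) * ((t + 1) * (Y.W (a + t) ^ d * Y.β a)) ≤ (1 / 2) ^ a
  p3 : ∀ a, Y.Bc a ^ (Y.N2 + 1) * ((2 * ((Y.CR + 8) * X.K (a + Y.N2)) + 1) ^ d * X.q (a + Y.N2))
    ≤ (1 / 2) ^ a
  n2 : ∀ k, Y.W k ^ d * (Y.θ k * Y.W k ^ (d + 2)) ^ 2 ≤ (1 / 2) ^ k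
  s0 : 0 ≤ Y.s
  n3 : ∀ k, Y.θ k * Y.W k ^ (d + 2) ≤ Real.exp (-Y.W k ^ Y.s)

lemma bc {s : ℕ → (Zd d → Bool) → Prop} (h : ∀ k, (PP d).real {ω | s k ω} ≤ (1 / 2) ^ k) :
    ∀ᵐ ω ∂(PP d), ∀ᶠ k in atTop, ¬ s k ω :=
  ae_eventually_notMem (μ := PP d) (s := fun k => {ω | s k ω}) (by
    refine ne_top_of_le_ne_top (b := ∑' k : ℕ, ENNReal.ofReal ((1 / 2) ^ k)) ?_
      (ENNReal.tsum_le_tsum fun k => ?_)
    · rw [← ENNReal.ofReal_tsum_of_nonneg (fun k => by positivity) summable_geometric_two]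
      exact ENNReal.ofReal_ne_top
    · rw [← ofReal_measureReal (measure_ne_top _ _)]
      exact ENNReal.ofReal_le_ofReal (h k))

variable (P : Par) (i : Fin d) (Y : Aux2) (Nt : ℕ → Finset ℤ)

/-- radii of the first reduction -/
def rr (j t : ℕ) : ℕ := P.c (j + Y.N1) + (6 * Y.m0 + 6) * P.c (j + t)

/-- first exceptional event -/
def F0 (j : ℕ) (ω : Zd d → Bool) : Prop :=
  ∃ n ∈ Nt j, Cross P i ω (n * Y.η j) j (P.c j) (P.c j) (rr P Y j 1)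

/-- second exceptional event -/
def F1 (t j : ℕ) (ω : Zd d → Bool) : Prop :=
  ∃ n ∈ Nt (j + t), Act ω (n * Y.η (j + t)) (rr P Y j t) (2 * Y.η (j + t)) ∧
    Cross P i ω (n * Y.η (j + t)) (j + t) Y.m0 (rr P Y j t) (rr P Y j (t + 1))

open Classical in
/-- active net points -/
noncomputable def AN (ω : Zd d → Bool) (k : ℕ) : Finset ℤ :=
  (Nt k).filter fun n => Act ω (n * Y.η k) (Y.CR * P.c k) (2 * Y.η k)

open Classical in
/-- active net points near a given one -/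
noncomputable def Near (ω : Zd d → Bool) (k : ℕ) (n : ℤ) : Finset ℤ :=
  (AN P Y Nt ω (k + 1)).filter fun n' => |n' * Y.η (k + 1) - n * Y.η k| ≤ 2 * Y.η k

/-- surviving net points -/
noncomputable def LV (ω : Zd d → Bool) (a : ℕ) : ℕ → Finset ℤ
  | 0 => AN P Y Nt ω a
  | t + 1 => (LV ω a t).biUnion fun n =>
      if (Near P Y Nt ω (a + t) n).card ≤ Y.Bc a then Near P Y Nt ω (a + t) n else ∅

/-- third exceptional event -/
def F2 (t a : ℕ) (ω : Zd d → Bool) : Prop :=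
  ∃ n ∈ Nt (a + t), n ∈ LV P Y Nt ω a t ∧
    ¬ NSB P i Y.CR (Y.mF * 17 ^ d) ω (n * Y.η (a + t)) a (a + t)

/-- fourth exceptional event -/
def F3 (a : ℕ) (ω : Zd d → Bool) : Prop :=
  ∃ n ∈ Nt (a + Y.N2), n ∈ LV P Y Nt ω a Y.N2 ∧
    ∃ g ∈ Ann P (a + Y.N2) (Y.CR * P.c (a + Y.N2)) ((Y.CR + 6) * P.c (a + Y.N2 + 1)),
      Bad P i (n * Y.η (a + Y.N2)) ω (a + Y.N2) g

variable {P i Y Nt} {X : Aux}

lemma Ok2.rr_le (h : Ok d P X) (h2 : Ok2 d P X Y) (j : ℕ) {t : ℕ} (ht : t ≤ Y.N1) :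
    rr P Y j t ≤ Y.CR * P.c (j + Y.N1) := by
  have := Nat.mul_le_mul_left (6 * Y.m0 + 6) (h.le (Nat.add_le_add_left ht j))
  rw [h2.CR, rr]
  linarith

lemma Ok2.rr_V (h : Ok d P X) (h2 : Ok2 d P X Y) (j : ℕ) {t : ℕ} (ht : t ≤ Y.N1) :
    (2 * rr P Y j t + 1 : ℝ) ^ d ≤ Y.V j ^ d := by
  have a : (rr P Y j t : ℝ) ≤ Y.CR * P.c (j + Y.N1) := by exact_mod_cast h2.rr_le h j ht
  refine pow_le_pow_left₀ (by positivity) (le_trans ?_ (h2.V1 j)) d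
  linarith [Nat.cast_nonneg (α := ℝ) (P.c (j + Y.N1))]

lemma Ok2.V0 (h2 : Ok2 d P X Y) (j : ℕ) : 0 ≤ Y.V j := le_trans (by positivity) (h2.V1 j)

lemma Ok2.W0 (h2 : Ok2 d P X Y) (j : ℕ) : 0 ≤ Y.W j := le_trans (by positivity) (h2.W1 j)

lemma Ok2.θ0 (h : Ok d P X) (h2 : Ok2 d P X Y) (k : ℕ) : 0 ≤ Y.θ k := by
  have := h.γ0 k
  have := h.M0 k
  have := h2.η0 k
  exact le_trans (by positivity) (h2.θ1 k)

lemma prob_F0 (h : Ok d P X) (h2 : Ok2 d P X Y) (hZ : ∀ k, ((Nt k).card : ℝ) ≤ Y.Z k)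
    (q0 : ∀ k, 0 ≤ X.q k)
    (hq : ∀ k, ∀ n ∈ Nt k, ∀ j g, (PP d).real {ω | Bad P i (n * Y.η k) ω j g} ≤ X.q j) (j : ℕ) :
    (PP d).real {ω | F0 P i Y Nt j ω} ≤ (1 / 2) ^ j := by
  have := q0 j
  have := h2.V0 j
  refine (measureReal_mono (s₂ := ⋃ n ∈ Nt j,
    {ω | Cross P i ω (n * Y.η j) j (P.c j) (P.c j) (rr P Y j 1)})
    (by rintro ω ⟨a, h1, h2⟩; exact Set.mem_biUnion h1 h2) (measure_ne_top _ _)).trans
    ((measureReal_biUnion_finset_le _ _).trans ((sum_le_mul' (by positivity) (hZ j)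
      fun n hn => ?_).trans (h2.p0 j)))
  exact (prob_cross h (hq j n hn j) _ _ _).trans
    (mul_le_mul_of_nonneg_right (h2.rr_V h j h2.N0) (by positivity))

lemma prob_F1 (h : Ok d P X) (h2 : Ok2 d P X Y) (q0 : ∀ k, 0 ≤ X.q k)
    (hq : ∀ k, ∀ n ∈ Nt k, ∀ j g, (PP d).real {ω | Bad P i (n * Y.η k) ω j g} ≤ X.q j) {t : ℕ}
    (ht : t < Y.N1) (j : ℕ) : (PP d).real {ω | F1 P i Y Nt t j ω} ≤ (1 / 2) ^ j := by
  classical
  have := q0 (j + t)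
  have := h2.V0 j
  refine (union_indep (Nt (j + t)) (fun n => dep_Act _ _ _) (fun n => dep_Cross h _ _ _ _ _)
    (disj_Ann _ _ _) (by positivity) (fun ω => ?_) fun n hn => ?_).trans
    (h2.p1 j (j + t) (Nat.le_add_right _ _))
  · refine le_trans ?_ (mul_le_mul_of_nonneg_right (h2.rr_V h j ht.le) (by norm_num))
    exact_mod_cast card_act ω (h2.η0 (j + t)) (rr P Y j t) fun n hn => (mem_filter.1 hn).2
  · exact (prob_cross h (hq _ n hn _) _ _ _).trans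
      (mul_le_mul_of_nonneg_right (h2.rr_V h j ht) (by positivity))

lemma AN_congr {ω ω' : Zd d → Bool} {k : ℕ} (e : ∀ y ∈ bx (0 : Zd d) (Y.CR * P.c k), ω y = ω' y) :
    AN P Y Nt ω k = AN P Y Nt ω' k := by
  classical
  exact filter_congr fun n _ => ⟨dep_Act _ _ _ ω ω' e, dep_Act _ _ _ ω' ω fun y hy => (e y hy).symm⟩

lemma LV_congr (h : Ok d P X) {ω ω' : Zd d → Bool} (a t : ℕ)
    (e : ∀ y ∈ bx (0 : Zd d) (Y.CR * P.c (a + t)), ω y = ω' y) :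
    LV P Y Nt ω a t = LV P Y Nt ω' a t := by
  induction t with
  | zero => exact AN_congr e
  | succ t ih =>
    have c1 : (Y.CR * P.c (a + t) : ℕ) ≤ ((Y.CR * P.c (a + (t + 1)) : ℕ) : ℝ) := by
      exact_mod_cast Nat.mul_le_mul_left _ (h.le (by omega))
    simp only [LV, Near]
    rw [ih fun y hy => e y (mem_bx.2 ((mem_bx.1 hy).trans c1)), AN_congr (k := a + t + 1) e]

lemma dep_LV (h : Ok d P X) (a t : ℕ) (n : ℤ) :
    Dep (bx (0 : Zd d) (Y.CR * P.c (a + t))) fun ω => n ∈ LV P Y Nt ω a t := fun _ _ e hn =>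
  (LV_congr h a t e).subset hn

lemma LV_sub (ω : Zd d → Bool) (a t : ℕ) : LV P Y Nt ω a t ⊆ Nt (a + t) := by
  classical
  cases t with
  | zero => exact filter_subset _ _
  | succ t =>
    intro n hn
    obtain ⟨m, -, hm⟩ := mem_biUnion.1 hn
    split_ifs at hm
    · exact (mem_filter.1 (mem_filter.1 hm).1).1
    · simp at hm

lemma card_LV (h2 : Ok2 d P X Y) (ω : Zd d → Bool) (a t : ℕ) :
    (LV P Y Nt ω a t).card ≤ Y.Bc a ^ (t + 1) := by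
  classical
  induction t with
  | zero =>
    rw [zero_add, pow_one]
    refine (card_act ω (h2.η0 a) (Y.CR * P.c a) fun n hn => (mem_filter.1 hn).2).trans
      (le_trans (Nat.mul_le_mul_right _ ?_) (h2.c1 a))
    exact (Nat.pow_le_pow_left (by omega) d).trans (Nat.le_add_right _ _)
  | succ t ih =>
    refine (card_biUnion_le_card_mul _ _ (Y.Bc a) fun n _ => ?_).trans ?_
    · split_ifs with b
      · exact b
      · simp
    · rw [pow_succ]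
      exact Nat.mul_le_mul_right _ ih

lemma card_LV' (h2 : Ok2 d P X Y) (ω : Zd d → Bool) (a t : ℕ) (A : Finset ℤ)
    {_ : DecidablePred fun n => n ∈ LV P Y Nt ω a t} :
    ((A.filter fun n => n ∈ LV P Y Nt ω a t).card : ℝ) ≤ Y.Bc a ^ (t + 1) := by
  exact_mod_cast (card_le_card fun n hn => (mem_filter.1 hn).2).trans (card_LV h2 ω a t)

lemma prob_F2 (h : Ok d P X) (h2 : Ok2 d P X Y) (q0 : ∀ k, 0 ≤ X.q k)
    (hq : ∀ k, ∀ n ∈ Nt k, ∀ j g, (PP d).real {ω | Bad P i (n * Y.η k) ω j g} ≤ X.q j) {t : ℕ}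
    (ht : t ≤ Y.N2) (a : ℕ) : (PP d).real {ω | F2 P i Y Nt t a ω} ≤ (1 / 2) ^ a := by
  classical
  have := q0 a
  have := h2.W0 (a + t)
  have β0 : 0 ≤ Y.β a := le_trans (by positivity) (h2.β1 a a le_rfl)
  refine (union_indep (Nt (a + t)) (fun n => dep_LV h a t n) (fun n => (dep_NSB h _ _ _ _ _).not)
    disjoint_sdiff (by positivity) (fun ω => card_LV' h2 ω a t _) fun n hn => ?_).trans
    (h2.p2 a t ht)
  refine (prob_NSB h β0 (hq _ n hn) (h2.β1 a)).trans ?_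
  have := h2.W1 (a + t)
  push_cast
  gcongr

lemma prob_F3 (h : Ok d P X) (h2 : Ok2 d P X Y) (q0 : ∀ k, 0 ≤ X.q k)
    (hq : ∀ k, ∀ n ∈ Nt k, ∀ j g, (PP d).real {ω | Bad P i (n * Y.η k) ω j g} ≤ X.q j) (a : ℕ) :
    (PP d).real {ω | F3 P i Y Nt a ω} ≤ (1 / 2) ^ a := by
  classical
  have := q0 (a + Y.N2)
  refine (union_indep (Nt (a + Y.N2)) (fun n => dep_LV h a _ n) (fun n => ?_)
    (disj_Ann (P := P) (a + Y.N2) _ ((Y.CR + 6) * P.c (a + Y.N2 + 1))) (by positivity)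
    (fun ω => card_LV' h2 ω a Y.N2 _) fun n hn => ?_).trans (h2.p3 a)
  · rintro ω ω' e ⟨g, g1, g2⟩
    exact ⟨g, g1, dep_Bad h _ g ω ω' (fun y hy => e y (mem_biUnion.2 ⟨g, g1, hy⟩)) g2⟩
  refine (measureReal_mono (s₂ := ⋃ g ∈ Ann P (a + Y.N2) (Y.CR * P.c (a + Y.N2))
    ((Y.CR + 6) * P.c (a + Y.N2 + 1)), {ω | Bad P i (n * Y.η (a + Y.N2)) ω (a + Y.N2) g})
    (by rintro ω ⟨a, h1, h2⟩; exact Set.mem_biUnion h1 h2) (measure_ne_top _ _)).trans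
    ((measureReal_biUnion_finset_le _ _).trans (sum_le_mul this ?_ fun g _ => hq _ n hn _ g))
  have := card_grid (h.c0 (a + Y.N2)) (0 : Zd d) ((Y.CR + 8) * X.K (a + Y.N2)) (Ann P (a + Y.N2)
    (Y.CR * P.c (a + Y.N2)) ((Y.CR + 6) * P.c (a + Y.N2 + 1))) fun g hg =>
    ⟨(mem_filter.1 hg).2.1, by
      have := (mem_filter.1 hg).1
      rwa [mul_assoc, ← h.cK, show (Y.CR + 8) * P.c (a + Y.N2 + 1)
        = (Y.CR + 6) * P.c (a + Y.N2 + 1) + 2 * P.c (a + Y.N2 + 1) by ring]⟩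
  exact_mod_cast this

lemma red1 (h : Ok d P X) (h2 : Ok2 d P X Y) {ω : Zd d → Bool} {E C : ℝ} {ap : ℕ → ℤ}
    (hap : ∀ k, ap k ∈ Nt k ∧ |E - ap k * Y.η k| ≤ Y.η k) {u : Zd d → ℝ} {x0 : Zd d}
    (hu : ∀ y, TV (pot ω) E u y = 0) (C0 : 0 ≤ C)
    (hC : ∀ k : ℕ, ∀ y ∈ bx (0 : Zd d) k, |u y| ≤ C * (2 * k + 1) ^ (d + 2)) (h0 : u x0 ≠ 0) {j : ℕ}
    (hx : x0 ∈ bx (0 : Zd d) (P.c j)) (hj : C ^ 2 * (1 / 2) ^ j ≤ u x0 ^ 2)
    (f0 : ¬ F0 P i Y Nt j ω) (f1 : ∀ t < Y.N1, ¬ F1 P i Y Nt t j ω) :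
    ap (j + Y.N1) ∈ AN P Y Nt ω (j + Y.N1) := by
  classical
  have V0 := h2.V0 j
  have st : ∀ t < Y.N1, ∀ m r, P.c j ≤ r → r + (3 * m + 3) * P.c (j + t + 1) ≤ rr P Y j (t + 1) →
      ¬ Cross P i ω (ap (j + t) * Y.η (j + t)) (j + t) m r (rr P Y j (t + 1)) →
      Act ω (ap (j + t + 1) * Y.η (j + t + 1)) (rr P Y j (t + 1)) (2 * Y.η (j + t + 1)) := by
    intro t ht m r r1 r2
    have θ0 := h2.θ0 h (j + t)
    refine stage h (a := C * Y.V j ^ (d + 2)) (x0 := x0) hu (hap _).2 (hap _).2 (h2.θ1 _) θ0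
      (h2.θ2 _) (h2.S1 _) r2 (fun y hy => (hC _ y hy).trans ?_)
      (mem_bx.2 ((mem_bx.1 hx).trans (by exact_mod_cast r1))) h0 ?_
    · have a : (rr P Y j (t + 1) : ℝ) ≤ Y.CR * P.c (j + Y.N1) := by exact_mod_cast h2.rr_le h j ht
      have b : (P.c (j + t + 1) : ℝ) ≤ P.c (j + Y.N1) := by exact_mod_cast h.le (by omega)
      refine mul_le_mul_of_nonneg_left (pow_le_pow_left₀ (by positivity)
        (le_trans ?_ (h2.V1 j)) _) C0
      push_cast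
      linarith
    · have a := mul_le_mul_of_nonneg_right (h2.n1 j (j + t) (Nat.le_add_right _ _)) (sq_nonneg C)
      have b := mul_le_mul_of_nonneg_left hj (sq_nonneg (Y.η (j + t + 1)))
      refine (mul_le_mul_of_nonneg_right (h2.rr_V h j ht) (sq_nonneg _)).trans ?_
      calc _ = Y.V j ^ d * (2 * d * (Y.θ (j + t) ^ Y.S (j + t) * Y.V j ^ (d + 2))) ^ 2 * C ^ 2 := by
            ring
        _ ≤ _ := by linarith
  have key : ∀ t < Y.N1,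
      Act ω (ap (j + t + 1) * Y.η (j + t + 1)) (rr P Y j (t + 1)) (2 * Y.η (j + t + 1)) := by
    intro t ht
    induction t with
    | zero => exact st 0 ht (P.c j) (P.c j) le_rfl ((h2.r0 j).trans (Nat.le_add_right _ _))
                fun b => f0 ⟨ap j, (hap j).1, b⟩
    | succ t ih =>
      refine st (t + 1) ht Y.m0 (rr P Y j (t + 1)) ((h.le (Nat.le_add_right _ _)).trans
        (Nat.le_add_right _ _)) ?_ fun b => f1 (t + 1) ht ⟨ap (j + t + 1), (hap _).1, ih (by omega), b⟩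
      have a : 2 * P.c (j + (t + 1)) ≤ P.c (j + (t + 1) + 1) := by have := h.cP (j + (t + 1)); omega
      have b := Nat.mul_le_mul_left (3 * Y.m0 + 3) a
      simp only [rr, ← add_assoc] at b ⊢
      linarith
  obtain ⟨t, ht⟩ : ∃ t, Y.N1 = t + 1 := ⟨Y.N1 - 1, by have := h2.N0; omega⟩
  have := key t (by omega)
  rw [add_assoc, ← ht, show rr P Y j Y.N1 = Y.CR * P.c (j + Y.N1) by rw [rr, h2.CR]; ring] at this
  exact mem_filter.2 ⟨(hap _).1, this⟩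

lemma red2 (h : Ok d P X) (h2 : Ok2 d P X Y) {ω : Zd d → Bool} {E : ℝ} {ap : ℕ → ℤ}
    (hap : ∀ k, ap k ∈ Nt k ∧ |E - ap k * Y.η k| ≤ Y.η k) {a : ℕ}
    (hA : ∀ t, ap (a + t) ∈ AN P Y Nt ω (a + t)) (f2 : ∀ t ≤ Y.N2, ¬ F2 P i Y Nt t a ω) :
    ap (a + Y.N2) ∈ LV P Y Nt ω a Y.N2 := by
  classical
  have anti : Antitone Y.η := antitone_nat_of_succ_le h2.η1
  have key : ∀ t ≤ Y.N2, ∀ s ≤ t, ap (a + s) ∈ LV P Y Nt ω a s := by
    intro t ht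
    induction t with
    | zero =>
      intro s hs
      obtain rfl : s = 0 := by omega
      exact hA 0
    | succ t ih =>
      intro s hs
      rcases eq_or_lt_of_le hs with rfl | l
      swap
      · exact ih (by omega) s (by omega)
      refine mem_biUnion.2 ⟨ap (a + t), ih (by omega) t le_rfl, ?_⟩
      rw [if_pos]
      · refine mem_filter.2 ⟨hA (t + 1), ?_⟩
        have f1 := abs_le.1 (hap (a + t)).2
        have f2 := abs_le.1 (hap (a + t + 1)).2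
        have := h2.η1 (a + t)
        rw [abs_le, ← add_assoc]
        constructor <;> linarith [f1.1, f1.2, f2.1, f2.2]
      refine le_trans (count_nr h (i := i) (CR := Y.CR) (N := Y.mF * 17 ^ d) (s := t) (E := E)
        (G := Y.G (a + t)) (η := Y.η) (e := fun s => ap (a + s) * Y.η (a + s)) (by rw [h2.CR]; omega)
        (Nat.mul_pos h2.F0 (by positivity)) (fun s _ => (hap _).2) (fun s hs => ?_) (h2.η0 _)
        (fun k j hj => ?_) (h2.G1 _) (h2.G2 _) (le_trans ?_ (h2.G3 _))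
        (by linarith [h2.G4 (a + t), h2.η1 (a + t)])
        fun n hn => ⟨(mem_filter.1 (mem_filter.1 hn).1).2, (mem_filter.1 hn).2⟩)
        (le_trans ?_ (h2.c1 a))
      · by_contra b
        exact f2 s (by omega) ⟨_, (hap _).1, ih (by omega) s hs, b⟩
      · refine le_trans ?_ ((h2.θ1 j).trans (h2.θ2 j))
        have := mul_le_mul_of_nonneg_left (anti hj) (add_nonneg (h.M0 j) (h.γ0 j))
        linarith
      · refine pow_le_pow_left₀ (by positivity) (le_trans ?_ (h2.W1 _)) d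
        push_cast
        linarith [Nat.cast_nonneg (α := ℝ) (P.c (a + t + 1))]
      · have := Nat.mul_pos h2.F0 (show 0 < 17 ^ d by positivity)
        gcongr <;> omega
  exact key _ le_rfl _ le_rfl

lemma Ok.lt (h : Ok d P X) (k : ℕ) : k < P.c k := by
  induction k with
  | zero => exact h.c0 0
  | succ k ih => have := h.cP k; omega

theorem stepA (h : Ok d P X) (h2 : Ok2 d P X Y) (hZ : ∀ k, ((Nt k).card : ℝ) ≤ Y.Z k)
    (q0 : ∀ k, 0 ≤ X.q k)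
    (hq : ∀ k, ∀ n ∈ Nt k, ∀ j g, (PP d).real {ω | Bad P i (n * Y.η k) ω j g} ≤ X.q j) :
    ∀ᵐ ω ∂(PP d), ∀ (E C : ℝ) (ap : ℕ → ℤ) (u : Zd d → ℝ),
      (∀ k, ap k ∈ Nt k ∧ |E - ap k * Y.η k| ≤ Y.η k) → (∀ y, TV (pot ω) E u y = 0) → 0 ≤ C →
      (∀ k : ℕ, ∀ y ∈ bx (0 : Zd d) k, |u y| ≤ C * (2 * k + 1) ^ (d + 2)) →
      (Summable fun y => u y ^ 2) ∧ ∃ A : ℝ, ∀ y, |u y| ≤ A * Real.exp (-‖y‖ ^ Y.s) := by
  classical
  filter_upwards [bc (prob_F0 h h2 hZ q0 hq), (ae_ball_iff (Set.to_countable {t | t < Y.N1})).2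
    fun t ht => bc (prob_F1 h h2 q0 hq ht), (ae_ball_iff (Set.to_countable {t | t ≤ Y.N2})).2
    fun t ht => bc (prob_F2 h h2 q0 hq ht), bc (prob_F3 h h2 q0 hq)] with ω f0 f1 f2 f3 E C ap u hap
    hu C0 hC
  by_cases hz : ∀ y, u y = 0
  · exact ⟨by simp [hz, summable_zero], 0, by simp [hz]⟩
  push Not at hz
  obtain ⟨x0, h0⟩ := hz
  have g1 := (eventually_all_finite (Set.finite_lt_nat Y.N1)).2 f1
  have g2 := (eventually_all_finite (Set.finite_le_nat Y.N2)).2 f2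
  have g3 : ∀ᶠ j : ℕ in atTop, C ^ 2 * (1 / 2) ^ j ≤ u x0 ^ 2 := by
    have := (tendsto_pow_atTop_nhds_zero_of_lt_one (r := (1 / 2 : ℝ)) (by norm_num)
      (by norm_num)).const_mul (C ^ 2)
    rw [mul_zero] at this
    exact this.eventually_le_const (by positivity)
  have g4 : ∀ᶠ j : ℕ in atTop, x0 ∈ bx (0 : Zd d) (P.c j) := by
    filter_upwards [tendsto_natCast_atTop_atTop.eventually_ge_atTop (dist x0 0)] with j hj
    exact mem_bx.2 (hj.trans (by exact_mod_cast (h.lt j).le))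
  obtain ⟨j0, hj0⟩ := eventually_atTop.1 (f0.and (g1.and (g2.and (f3.and (g3.and g4)))))
  have hA : ∀ a, j0 + Y.N1 ≤ a → ap a ∈ AN P Y Nt ω a := fun a ha => by
    obtain ⟨b1, b2, -, -, b5, b6⟩ := hj0 (a - Y.N1) (by omega)
    have := red1 h h2 hap hu C0 hC h0 b6 b5 b1 b2
    rwa [Nat.sub_add_cancel (by omega)] at this
  have dec : ∀ k, j0 + Y.N1 + Y.N2 ≤ k → ∀ y ∈ bx (0 : Zd d) ((Y.CR + 6) * P.c (k + 1)),
      y ∉ bx (0 : Zd d) ((Y.CR + 6) * P.c k) → |u y| ≤ C * (Y.θ k * Y.W k ^ (d + 2)) := by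
    intro k hk y y1 y2
    obtain ⟨a, rfl⟩ : ∃ a, k = a + Y.N2 := ⟨k - Y.N2, by omega⟩
    obtain ⟨-, -, b3, b4, -⟩ := hj0 a (by omega)
    have b7 := red2 h h2 hap (fun t => hA (a + t) (by omega)) b3
    set k := a + Y.N2
    have c2 : (10 * P.c k : ℝ) ≤ P.c (k + 1) := by
      exact_mod_cast (by have := h.J10 k; have := h.cP k; omega : 10 * P.c k ≤ P.c (k + 1))
    have c1 : (1 : ℝ) ≤ P.c k := by exact_mod_cast h.c0 k
    rw [mem_bx] at y1 y2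
    push_cast at y1 y2
    have W0 := h2.W0 k
    have := loc_univ (i := i) (ω := ω) (y := y) h (hap k).2 (h2.θ1 k) (fun g hg => by
      by_contra hc
      refine b4 ⟨_, (hap _).1, b7, g, mem_filter.2 ⟨mem_bx.2 ?_, hg.1, ?_⟩, hg⟩
      · push_cast
        linarith [dist_triangle_left g 0 y]
      · push_cast
        linarith [dist_triangle y g 0]) u (fun _ b => absurd trivial b) (C * Y.W k ^ (d + 2)) 0
      (by positivity) le_rfl (fun w hw => (hC ((Y.CR + 8) * P.c (k + 1)) w (mem_bx.2 (by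
        push_cast
        linarith [dist_triangle w y 0]))).trans (by
          have := h2.W1 k
          push_cast
          gcongr)) (fun w _ _ => by simp [hu])
    linarith
  set k0 := j0 + Y.N1 + Y.N2
  have sub : ∀ j k, j ≤ k → bx (0 : Zd d) ((Y.CR + 6) * P.c j) ⊆ bx 0 ((Y.CR + 6) * P.c k) :=
    fun j k hjk y hy => mem_bx.2 ((mem_bx.1 hy).trans (by
      exact_mod_cast Nat.mul_le_mul_left _ (h.le hjk)))
  have big : ∀ y : Zd d, ∀ᶠ k : ℕ in atTop, y ∈ bx (0 : Zd d) ((Y.CR + 6) * P.c k) := fun y => by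
    filter_upwards [tendsto_natCast_atTop_atTop.eventually_ge_atTop (dist y 0)] with j hj
    refine mem_bx.2 (hj.trans ?_)
    exact_mod_cast (h.lt j).le.trans (Nat.le_mul_of_pos_left _ (by omega))
  constructor
  · have inv : ∀ k, k0 ≤ k → ∑ y ∈ bx (0 : Zd d) ((Y.CR + 6) * P.c k), u y ^ 2
        + 2 * (C ^ 2 * (1 / 2) ^ k) ≤ ∑ y ∈ bx (0 : Zd d) ((Y.CR + 6) * P.c k0), u y ^ 2
        + 2 * (C ^ 2 * (1 / 2) ^ k0) := by
      intro k hk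
      induction k, hk using Nat.le_induction with
      | base => exact le_rfl
      | succ k hk ih =>
        rw [← Finset.sum_sdiff (sub k (k + 1) (Nat.le_succ k)), pow_succ (1 / 2 : ℝ)]
        have := sum_le_mul (s := bx (0 : Zd d) ((Y.CR + 6) * P.c (k + 1)) \ bx 0 ((Y.CR + 6) * P.c k))
          (f := fun y => u y ^ 2) (a := (C * (Y.θ k * Y.W k ^ (d + 2))) ^ 2) (v := Y.W k ^ d)
          (sq_nonneg _) (by
            refine le_trans (Nat.cast_le.2 (card_le_card sdiff_subset)) ?_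
            rw [card_bx]
            push_cast
            refine pow_le_pow_left₀ (by positivity) (le_trans ?_ (h2.W1 k)) d
            linarith [Nat.cast_nonneg (α := ℝ) (P.c (k + 1))]) fun y hy => by
            have := abs_le.1 (dec k hk y (mem_sdiff.1 hy).1 (mem_sdiff.1 hy).2)
            exact sq_le_sq' this.1 this.2
        nlinarith [mul_le_mul_of_nonneg_left (h2.n2 k) (sq_nonneg C)]
    refine summable_of_sum_le (c := ∑ y ∈ bx (0 : Zd d) ((Y.CR + 6) * P.c k0), u y ^ 2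
      + 2 * (C ^ 2 * (1 / 2) ^ k0)) (fun y => sq_nonneg _) fun s => ?_
    obtain ⟨k, k1, k2⟩ := (((eventually_all_finset s).2 fun y _ => big y).and
      (eventually_ge_atTop k0)).exists
    have := Finset.sum_le_sum_of_subset_of_nonneg (f := fun y => u y ^ 2) k1 fun _ _ _ => sq_nonneg _
    have : 0 ≤ C ^ 2 * (1 / 2 : ℝ) ^ k := by positivity
    linarith [inv k k2]
  · obtain ⟨A, hA⟩ := (((bx (0 : Zd d) ((Y.CR + 6) * P.c k0)).finite_toSet).image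
      fun y => |u y| / Real.exp (-‖y‖ ^ Y.s)).bddAbove
    refine ⟨max A C, fun y => ?_⟩
    by_cases hy : y ∈ bx (0 : Zd d) ((Y.CR + 6) * P.c k0)
    · exact (div_le_iff₀ (Real.exp_pos _)).1 ((hA ⟨y, hy, rfl⟩).trans (le_max_left _ _))
    have ex := (big y).exists
    obtain ⟨k, hk⟩ : ∃ k, Nat.find ex = k + 1 := ⟨Nat.find ex - 1, by
      have : Nat.find ex ≠ 0 := fun e => hy (sub _ _ (by omega) (Nat.find_spec ex))
      omega⟩
    have k1 : k0 ≤ k := by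
      by_contra b
      exact hy (sub _ _ (by omega) (Nat.find_spec ex))
    have y1 := Nat.find_spec ex
    rw [hk] at y1
    refine (dec k k1 y y1 (Nat.find_min ex (by omega))).trans (mul_le_mul (le_max_right _ _)
      ((h2.n3 k).trans (Real.exp_le_exp.2 (neg_le_neg (Real.rpow_le_rpow (norm_nonneg _)
        (le_trans ?_ (h2.W1 k)) h2.s0)))) (by have := h2.θ0 h k; have := h2.W0 k; positivity)
        (le_max_of_le_right C0))
    have := mem_bx.1 y1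
    rw [dist_zero_right] at this
    push_cast at this
    have c0 : (0 : ℝ) ≤ P.c (k + 1) := Nat.cast_nonneg _
    nlinarith [Nat.cast_nonneg (α := ℝ) Y.CR]

end Pool.Agent.P.MP_d0f69c_mp
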