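import Pool.Agent.P.MP_d0f69c_mp.Params3

set_option autoImplicit false

open Finset MeasureTheory Filter Topology

namespace Pool.Agent.P.MP_d0f69c_mp

section
variable {X : Type} [NormedAddCommGroup X] [InnerProductSpace ℂ X] [CompleteSpace X]
  {H : X →L[ℂ] X}

lemma GG_left (hH : IsSelfAdjoint H) {z : ℂ} (hz : z.im ≠ 0) (x : X) :
    GG H z (H x - z • x) = x := by
  have := congrArg (fun A : X →L[ℂ] X => A x) (Ring.inverse_mul_cancel _ (unit_sub hH hz))
  simpa [GG] using this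

lemma harnack (hH : IsSelfAdjoint H) (χ : X) {ε E E' : ℝ} (hε : 0 < ε) (h : |E - E'| ≤ ε) :
    ss H χ ε E ≤ 4 * ss H χ ε E' := by
  have e1 := GG_eq hH (z := E' + ε * Complex.I) (by simpa using hε.ne') χ
  have e2 := GG_left hH (z := E + ε * Complex.I) (by simpa using hε.ne')
    (GG H (E' + ε * Complex.I) χ)
  have e3 := norm_GG_im hH (z := E + ε * Complex.I) (by simpa using hε)
    (((E - E' : ℝ) : ℂ) • GG H (E' + ε * Complex.I) χ)
  simp only [ss]
  set w' := GG H (E' + ε * Complex.I) χ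
  have e4 : H w' - (E + ε * Complex.I : ℂ) • w' = χ - ((E - E' : ℝ) : ℂ) • w' := by
    rw [← e1]
    push_cast
    module
  rw [e4, map_sub, sub_eq_iff_eq_add] at e2
  rw [norm_smul, Complex.norm_real, Real.norm_eq_abs] at e3
  simp only [Complex.add_im, Complex.ofReal_im, Complex.mul_im, Complex.ofReal_re, Complex.I_im,
    mul_one, Complex.I_re, mul_zero, add_zero, zero_add] at e3
  have e5 := le_of_mul_le_mul_left (e3.trans (mul_le_mul_of_nonneg_right h (norm_nonneg _))) hε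
  have e6 : ‖GG H (E + ε * Complex.I) χ‖ ≤ 2 * ‖w'‖ := by
    rw [e2]
    linarith [norm_add_le w' (GG H (E + ε * Complex.I) (((E - E' : ℝ) : ℂ) • w'))]
  nlinarith [mul_le_mul_of_nonneg_left (pow_le_pow_left₀ (norm_nonneg _) e6 2) hε.le]

omit [CompleteSpace X] in
lemma ss_add (φ χ : X) {ε : ℝ} (hε : 0 < ε) (E : ℝ) :
    ss H (φ + χ) ε E ≤ 2 * ss H φ ε E + 2 * ss H χ ε E := by
  simp only [ss, map_add]
  have b1 := pow_le_pow_left₀ (norm_nonneg _) (norm_add_le (GG H (E + ε * Complex.I) φ)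
    (GG H (E + ε * Complex.I) χ)) 2
  nlinarith [mul_nonneg hε.le (sq_nonneg (‖GG H (E + ε * Complex.I) φ‖ -
    ‖GG H (E + ε * Complex.I) χ‖))]

/-- functions with a Harnack inequality and an integral bound -/
structure Har (ε R : ℝ) (F : ℝ → ℝ) (c : ℝ) : Prop where
  cont : Continuous F
  pos : ∀ E, 0 ≤ F E
  har : ∀ E E', |E - E'| ≤ ε → F E ≤ 4 * F E'
  int : ∫ E in (-R)..R, F E ≤ c

lemma Har.add {ε R c c' : ℝ} {F F' : ℝ → ℝ} (h : Har ε R F c) (h' : Har ε R F' c') :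
    Har ε R (fun E => F E + F' E) (c + c') :=
  ⟨h.cont.add h'.cont, fun E => add_nonneg (h.pos E) (h'.pos E),
    fun E E' a => by linarith [h.har E E' a, h'.har E E' a], by
      rw [intervalIntegral.integral_add (h.cont.intervalIntegrable _ _)
        (h'.cont.intervalIntegrable _ _)]
      exact add_le_add h.int h'.int⟩

lemma Har.mul {ε R c a : ℝ} {F : ℝ → ℝ} (h : Har ε R F c) (ha : 0 ≤ a) :
    Har ε R (fun E => a * F E) (a * c) :=
  ⟨h.cont.const_mul a, fun E => mul_nonneg ha (h.pos E),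
    fun E E' b => by linarith [mul_le_mul_of_nonneg_left (h.har E E' b) ha], by
      rw [intervalIntegral.integral_const_mul]
      exact mul_le_mul_of_nonneg_left h.int ha⟩

lemma Har.sum {ε R : ℝ} {ι : Type} (s : Finset ι) {F : ι → ℝ → ℝ} {c : ι → ℝ}
    (h : ∀ j ∈ s, Har ε R (F j) (c j)) : Har ε R (fun E => ∑ j ∈ s, F j E) (∑ j ∈ s, c j) := by
  classical
  induction s using Finset.induction_on with
  | empty => exact ⟨by simpa using continuous_const, by simp, by simp, by simp⟩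
  | insert a s ha ih =>
    simp only [Finset.sum_insert ha]
    exact (h a (mem_insert_self _ _)).add (ih fun j hj => h j (mem_insert_of_mem hj))

lemma har_one (ε R : ℝ) : Har ε R (fun _ => 1) (2 * R) :=
  ⟨continuous_const, fun _ => zero_le_one, fun _ _ _ => by norm_num, by simp [two_mul]⟩

lemma har_ss (hH : IsSelfAdjoint H) (χ : X) {ε R : ℝ} (hε : 0 < ε) (hR : ε ≤ R)
    (hR2 : 2 * ‖H‖ ≤ R) : Har ε R (ss H χ ε) (6 * ‖χ‖ ^ 2) :=
  ⟨cont_ss hH χ hε, fun E => by unfold ss; positivity, fun _ _ => harnack hH χ hε,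
    int_ss hH χ hε hR hR2⟩

lemma meas_le (hH : IsSelfAdjoint H) (ψ : X) (μ : Measure ℝ) [IsFiniteMeasure μ]
    (hμ : ∀ z : ℂ, z.im ≠ 0 → ∫ x : ℝ, ((x : ℂ) - z)⁻¹ ∂μ = inner ℂ ψ (GG H z ψ))
    {ε R c : ℝ} {F : ℝ → ℝ} (hε : 0 < ε) (hF : Har ε R F c) {N : ℕ} (hN : -R + N * ε = R)
    {A : Set ℝ} (hA : A ⊆ Set.Ioc (-R) R) (h : ∀ E ∈ A, ss H ψ ε E ≤ F E) : μ.real A ≤ 8 * c := by
  have key : ∀ n : ℕ, μ.real (A ∩ Set.Ioc (-R) (-R + n * ε))
      ≤ 8 * ∫ E in (-R)..(-R + n * ε), F E := by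
    intro n
    induction n with
    | zero => simp
    | succ n ih =>
      push_cast
      rw [add_mul, one_mul, ← add_assoc, ← intervalIntegral.integral_add_adjacent_intervals
        (b := -R + n * ε) (hF.cont.intervalIntegrable _ _) (hF.cont.intervalIntegrable _ _),
        ← Set.Ioc_union_Ioc_eq_Ioc (b := -R + n * ε) (le_add_of_nonneg_right (by positivity))
        (by linarith), Set.inter_union_distrib_left, mul_add]
      refine (measureReal_union_le _ _).trans (add_le_add ih ?_)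
      set a := -R + n * ε
      rcases (A ∩ Set.Ioc a (a + ε)).eq_empty_or_nonempty with e | ⟨E, e1, e2⟩
      · rw [e, measureReal_empty]
        exact mul_nonneg (by norm_num)
          (intervalIntegral.integral_nonneg (by linarith) fun E _ => hF.pos E)
      have p := poisson μ hε E
      rw [hμ _ (by simpa using hε.ne'), ← ss_eq hH ψ hε, Real.volume_closedBall,
        ENNReal.div_le_iff (by simpa using hε) ENNReal.ofReal_ne_top,
        ← ENNReal.ofReal_mul (by unfold ss; positivity)] at p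
      have p2 := ENNReal.toReal_le_of_le_ofReal (by unfold ss; positivity) p
      have p3 : μ.real (A ∩ Set.Ioc a (a + ε)) ≤ μ.real (Metric.closedBall E ε) :=
        measureReal_mono fun x hx => by
          rw [Metric.mem_closedBall, Real.dist_eq, abs_le]
          constructor <;> linarith [hx.2.1, hx.2.2, e2.1, e2.2]
      have p4 := intervalIntegral.integral_mono_on (μ := volume) (f := fun _ => F E / 4) (g := F)
        (by linarith : a ≤ a + ε) intervalIntegrable_const (hF.cont.intervalIntegrable _ _)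
        fun x hx => by
          linarith [hF.har E x (abs_le.2 ⟨by linarith [hx.2, e2.1], by linarith [hx.1, e2.2]⟩)]
      rw [intervalIntegral.integral_const, add_sub_cancel_left, smul_eq_mul] at p4
      rw [← measureReal_def] at p2
      nlinarith [mul_le_mul_of_nonneg_right (h E e1) hε.le]
  have := key N
  rw [hN, Set.inter_eq_left.2 hA] at this
  linarith [hF.int]

end

variable {d : ℕ}

/-- the comparison function -/
noncomputable def TK (H : L2 d →L[ℂ] L2 d) (k : ℕ) (E : ℝ) : ℝ :=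
  1 + ∑ j ∈ range (k + 1), 1 / ((j + 1) * (j + 2) * (2 * j + 1) ^ d) *
    ∑ y ∈ bx (0 : Zd d) j, ss H (lp.single 2 y 1) ((1 / (k + 1)) ^ 2) E

lemma har_TK {H : L2 d →L[ℂ] L2 d} (hH : IsSelfAdjoint H) (k : ℕ) {R : ℝ} (hR : 1 ≤ R)
    (hR2 : 2 * ‖H‖ ≤ R) : Har ((1 / (k + 1)) ^ 2) R (TK H k) (2 * R + 6) := by
  have e1 : (1 / (k + 1) : ℝ) ^ 2 ≤ R := (pow_le_one₀ (by positivity)
    (by rw [div_le_one (by positivity)]; linarith [Nat.cast_nonneg (α := ℝ) k])).trans hR
  have := (har_one _ R).add (Har.sum (range (k + 1)) fun j _ => (Har.sum (bx (0 : Zd d) j)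
    fun y _ => har_ss hH (lp.single 2 y 1) (by positivity) e1 hR2).mul
      (a := 1 / ((j + 1) * (j + 2) * (2 * j + 1) ^ d)) (by positivity))
  refine ⟨this.cont, this.pos, this.har, this.int.trans (add_le_add le_rfl ?_)⟩
  have e : ∀ n : ℕ, ∑ j ∈ range n, (1 / ((j + 1) * (j + 2) * (2 * j + 1) ^ d) *
      ∑ y ∈ bx (0 : Zd d) j, 6 * ‖(lp.single 2 y 1 : L2 d)‖ ^ 2 : ℝ) = 6 - 6 / (n + 1) := by
    intro n
    induction n with
    | zero => simp
    | succ n ih =>
      rw [Finset.sum_range_succ, ih]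
      simp only [lp.norm_single (p := 2) (by norm_num), norm_one, sum_const, card_bx, nsmul_eq_mul]
      push_cast
      field_simp
      ring
  rw [e]
  exact sub_le_self _ (by positivity)

lemma TK_ge (H : L2 d →L[ℂ] L2 d) (k : ℕ) (E : ℝ) : 1 ≤ TK H k E :=
  le_add_of_nonneg_right (Finset.sum_nonneg fun j _ => mul_nonneg (by positivity)
    (Finset.sum_nonneg fun y _ => by unfold ss; positivity))

lemma ss_le_TK (H : L2 d →L[ℂ] L2 d) {j k : ℕ} (hj : j ≤ k) (E : ℝ) {y : Zd d}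
    (hy : y ∈ bx (0 : Zd d) j) :
    ss H (lp.single 2 y 1) ((1 / (k + 1)) ^ 2) E ≤ 2 * (2 * j + 1) ^ (d + 2) * TK H k E := by
  have p : ∀ y : Zd d, 0 ≤ ss H (lp.single 2 y 1) ((1 / (k + 1)) ^ 2) E := fun y => by
    unfold ss
    positivity
  have a := Finset.single_le_sum (f := fun y => ss H (lp.single 2 y 1) ((1 / (k + 1)) ^ 2) E)
    (fun y _ => p y) hy
  have b := Finset.single_le_sum (f := fun j : ℕ => 1 / ((j + 1) * (j + 2) * (2 * j + 1) ^ d) *
    ∑ y ∈ bx (0 : Zd d) j, ss H (lp.single 2 y 1) ((1 / (k + 1)) ^ 2) E)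
    (fun j _ => mul_nonneg (by positivity) (Finset.sum_nonneg fun y _ => p y))
    (mem_range.2 (Nat.lt_succ_of_le hj))
  have c : 1 / ((j + 1) * (j + 2) * (2 * j + 1) ^ d) * ss H (lp.single 2 y 1) ((1 / (k + 1)) ^ 2) E
      ≤ TK H k E := by
    refine (mul_le_mul_of_nonneg_left a (by positivity)).trans (b.trans ?_)
    exact le_add_of_nonneg_left zero_le_one
  rw [one_div_mul_eq_div, div_le_iff₀' (by positivity)] at c
  refine c.trans (mul_le_mul_of_nonneg_right ?_ (by linarith [TK_ge H k E]))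
  rw [pow_add, mul_comm ((2 * j + 1 : ℝ) ^ d), ← mul_assoc]
  refine mul_le_mul_of_nonneg_right ?_ (by positivity)
  nlinarith [Nat.cast_nonneg (α := ℝ) j]

lemma IsOp.re {ω : Zd d → Bool} {H : L2 d →L[ℂ] L2 d} (h : IsOp ω H) (E : ℝ) (v : L2 d) (y : Zd d) :
    TV (pot ω) E (fun y => (v y).re) y = ((H v - (E : ℂ) • v) y).re := by
  simp only [lp.coeFn_sub, lp.coeFn_smul, Pi.sub_apply, Pi.smul_apply, h v y, smul_eq_mul,
    Complex.sub_re, Complex.add_re, Complex.neg_re, Complex.re_sum, Complex.mul_re,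
    apply_ite Complex.im, apply_ite Complex.re, Complex.one_im, Complex.one_re, Complex.neg_im,
    ite_self, neg_zero, Complex.ofReal_re, Complex.ofReal_im, Finset.sum_add_distrib,
    Finset.sum_sub_distrib, Finset.sum_const, Finset.card_univ, Fintype.card_fin, nsmul_eq_mul,
    Complex.natCast_re, Complex.natCast_im, TV, adj, pot]
  ring

lemma approx {ω : Zd d → Bool} {H : L2 d →L[ℂ] L2 d} (h : IsOp ω H) (E : ℝ) (x : Zd d) {t : ℝ}
    (ht : 0 < t) : ∃ u : Zd d → ℝ, u x = ss H (lp.single 2 x 1) (t ^ 2) E ∧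
      (∀ y, |u y| ≤ (ss H (lp.single 2 x 1) (t ^ 2) E + ss H (lp.single 2 y 1) (t ^ 2) E) / 2) ∧
      ∀ y, |TV (pot ω) E u y| ≤ t * (1 + ss H (lp.single 2 x 1) (t ^ 2) E) / 2
        + t ^ 2 * ((ss H (lp.single 2 x 1) (t ^ 2) E + ss H (lp.single 2 y 1) (t ^ 2) E) / 2) := by
  have ε0 : 0 < t ^ 2 := by positivity
  have n1 : ∀ (w : L2 d) y, ‖w y‖ ≤ ‖w‖ := fun w y => lp.norm_apply_le_norm two_ne_zero w y
  set z : ℂ := E + (t ^ 2 : ℝ) * Complex.I with hz
  have z1 : z.im ≠ 0 := by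
    simp only [hz, Complex.add_im, Complex.ofReal_im, Complex.mul_im, Complex.ofReal_re, Complex.I_im,
      mul_one, Complex.I_re, mul_zero, add_zero, zero_add]
    exact ε0.ne'
  have z2 : (starRingEnd ℂ z).im ≠ 0 := by simpa using z1
  set w := fun y : Zd d => GG H z (lp.single 2 y 1) with hw
  set v := GG H (starRingEnd ℂ z) (((t ^ 2 : ℝ) : ℂ) • w x) with hv
  have e1 : H v - starRingEnd ℂ z • v = ((t ^ 2 : ℝ) : ℂ) • w x := GG_eq h.sa z2 _
  have e2 : ∀ y, v y = (t ^ 2 : ℝ) * inner ℂ (w y) (w x) := fun y => by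
    have a : v y = inner ℂ (lp.single 2 y (1 : ℂ) : L2 d) v := by
      rw [lp.inner_single_left]
      simp
    have b := ContinuousLinearMap.isSelfAdjoint_iff_isSymmetric.1 h.sa (w y) v
    simp only [ContinuousLinearMap.coe_coe] at b
    rw [a, ← GG_eq h.sa z1 (lp.single 2 y 1), inner_sub_left, inner_smul_left, b,
      ← inner_smul_right, ← inner_sub_right, e1, inner_smul_right]
  have e3 : ∀ y, ‖v y‖ ≤ (ss H (lp.single 2 x 1) (t ^ 2) E + ss H (lp.single 2 y 1) (t ^ 2) E) / 2 :=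
    fun y => by
      rw [e2, norm_mul, Complex.norm_real, Real.norm_of_nonneg ε0.le]
      change _ ≤ (t ^ 2 * ‖w x‖ ^ 2 + t ^ 2 * ‖w y‖ ^ 2) / 2
      nlinarith [mul_le_mul_of_nonneg_left (norm_inner_le_norm (𝕜 := ℂ) (w y) (w x)) ε0.le,
        mul_nonneg ε0.le (sq_nonneg (‖w x‖ - ‖w y‖))]
  refine ⟨fun y => (v y).re, ?_, fun y => (Complex.abs_re_le_norm _).trans (e3 y), fun y => ?_⟩
  · simp only [e2, inner_self_eq_norm_sq_to_K]
    change (((t ^ 2 : ℝ) : ℂ) * ((‖w x‖ : ℝ) : ℂ) ^ 2).re = t ^ 2 * ‖w x‖ ^ 2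
    rw [← Complex.ofReal_pow, ← Complex.ofReal_mul, Complex.ofReal_re]
  · have e4 : H v - (E : ℂ) • v = ((t ^ 2 : ℝ) : ℂ) • w x - (((t ^ 2 : ℝ) : ℂ) * Complex.I) • v := by
      rw [← e1, hz]
      simp only [map_add, map_mul, Complex.conj_ofReal, Complex.conj_I]
      module
    rw [h.re, e4]
    refine (Complex.abs_re_le_norm _).trans ?_
    simp only [lp.coeFn_sub, lp.coeFn_smul, Pi.sub_apply, Pi.smul_apply]
    refine (norm_sub_le _ _).trans (add_le_add ?_ ?_)
    · rw [norm_smul, Complex.norm_real, Real.norm_of_nonneg ε0.le]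
      change _ ≤ t * (1 + t ^ 2 * ‖w x‖ ^ 2) / 2
      nlinarith [mul_le_mul_of_nonneg_left (n1 (w x) y) ε0.le,
        mul_nonneg ht.le (sq_nonneg (t * ‖w x‖ - 1))]
    · rw [norm_smul, norm_mul, Complex.norm_I, mul_one, Complex.norm_real, Real.norm_of_nonneg ε0.le]
      exact mul_le_mul_of_nonneg_left (e3 y) ε0.le

lemma gen {ω : Zd d → Bool} {H : L2 d →L[ℂ] L2 d} (h : IsOp ω H) (E : ℝ) (x : Zd d)
    (h0 : ∀ (C : ℝ) (u : Zd d → ℝ), (∀ y, TV (pot ω) E u y = 0) → 0 ≤ C →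
      (∀ k : ℕ, ∀ y ∈ bx (0 : Zd d) k, |u y| ≤ C * (2 * k + 1) ^ (d + 2)) → u x = 0) :
    Tendsto (fun k : ℕ => ss H (lp.single 2 x 1) ((1 / (k + 1)) ^ 2) E / TK H k E) atTop (𝓝 0) := by
  have T0 : ∀ k, 0 < TK H k E := fun k => by linarith [TK_ge H k E]
  refine tendsto_order.2 ⟨fun a ha => Eventually.of_forall fun k => ha.trans_le (by
    have := T0 k
    unfold ss
    positivity), fun l hl => ?_⟩
  by_contra hc
  obtain ⟨U, U1⟩ := Ultrafilter.exists_le (atTop ⊓ 𝓟 {k : ℕ |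
    ¬ ss H (lp.single 2 x 1) ((1 / (k + 1)) ^ 2) E / TK H k E < l}) (h := frequently_iff_neBot.1 (not_eventually.1 hc))
  obtain ⟨U2, U3⟩ := le_inf_iff.1 U1
  rw [le_principal_iff] at U3
  choose u u1 u2 u3 using fun k : ℕ => approx h E x (t := 1 / (k + 1)) (by positivity)
  obtain ⟨n, hn⟩ := exists_nat_ge (dist x 0)
  set A : ℝ := (2 * n + 1) ^ (d + 2) with hA
  have A0 : 0 ≤ A := by positivity
  have b1 : ∀ᶠ k : ℕ in atTop, ss H (lp.single 2 x 1) ((1 / (k + 1)) ^ 2) E ≤ 2 * A * TK H k E := by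
    filter_upwards [eventually_ge_atTop n] with k hk
    exact ss_le_TK H hk E (mem_bx.2 hn)
  have b2 : ∀ j : ℕ, ∀ y ∈ bx (0 : Zd d) j, ∀ᶠ k : ℕ in atTop,
      (ss H (lp.single 2 x 1) ((1 / (k + 1)) ^ 2) E + ss H (lp.single 2 y 1) ((1 / (k + 1)) ^ 2) E) / 2
        ≤ (A + 1) * (2 * j + 1) ^ (d + 2) * TK H k E := fun j y hy => by
    filter_upwards [b1, eventually_ge_atTop j] with k k1 k2
    have a := ss_le_TK H k2 E hy
    have b : (1 : ℝ) ≤ (2 * j + 1) ^ (d + 2) := one_le_pow₀ (by linarith [Nat.cast_nonneg (α := ℝ) j])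
    nlinarith [mul_le_mul_of_nonneg_left b (mul_nonneg A0 (T0 k).le)]
  have b3 : ∀ j : ℕ, ∀ y ∈ bx (0 : Zd d) j, ∀ᶠ k : ℕ in U,
      |u k y / TK H k E| ≤ (A + 1) * (2 * j + 1) ^ (d + 2) := fun j y hy => by
    filter_upwards [U2 (b2 j y hy)] with k hk
    rw [abs_div, abs_of_pos (T0 k), div_le_iff₀ (T0 k)]
    exact (u2 k y).trans hk
  have lim : ∀ y, ∃ a, Tendsto (fun k => u k y / TK H k E) U (𝓝 a) := fun y => by
    obtain ⟨j, hj⟩ := exists_nat_ge (dist y 0)
    obtain ⟨a, -, ha⟩ := (isCompact_Icc (a := -((A + 1) * (2 * j + 1) ^ (d + 2)))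
      (b := (A + 1) * (2 * j + 1) ^ (d + 2))).ultrafilter_le_nhds
      (U.map fun k => u k y / TK H k E) (le_principal_iff.2 ((b3 j y (mem_bx.2 hj)).mono
        fun k hk => abs_le.1 hk))
    exact ⟨a, ha⟩
  choose f hf using lim
  have := h0 (A + 1) f (fun y => ?_) (by positivity) fun j y hy =>
    le_of_tendsto (hf y).abs (b3 j y hy)
  · have a := ge_of_tendsto (hf x) (b := l) (by
      filter_upwards [U3] with k hk
      rw [u1]
      exact not_lt.1 hk)
    linarith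
  have t1 : Tendsto (fun k => TV (pot ω) E (u k) y / TK H k E) U (𝓝 (TV (pot ω) E f y)) := by
    have := ((hf y).const_mul (2 * d + pot ω y - E)).sub
      (tendsto_finsetSum univ fun i _ => (hf (y + ee i)).add (hf (y - ee i)))
    refine this.congr fun k => ?_
    simp only [TV, adj, sub_div, Finset.sum_div, add_div, mul_div_assoc]
  obtain ⟨j, hj⟩ := exists_nat_ge (dist y 0)
  have t2 := tendsto_one_div_add_atTop_nhds_zero_nat (𝕜 := ℝ)
  have t3 := (t2.mul_const ((1 + 2 * A) / 2)).add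
    ((t2.pow 2).mul_const ((A + 1) * (2 * j + 1) ^ (d + 2)))
  simp only [zero_mul, zero_pow two_ne_zero, add_zero] at t3
  refine tendsto_nhds_unique t1 ((squeeze_zero_norm' ?_ t3).mono_left U2)
  filter_upwards [b1, b2 j y (mem_bx.2 hj)] with k k1 k2
  rw [Real.norm_eq_abs, abs_div, abs_of_pos (T0 k), div_le_iff₀ (T0 k)]
  refine (u3 k y).trans ?_
  have p : (0 : ℝ) ≤ 1 / (k + 1) := by positivity
  nlinarith [mul_le_mul_of_nonneg_left k1 p, mul_le_mul_of_nonneg_left k2 (sq_nonneg (1 / (k + 1) : ℝ)),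
    mul_le_mul_of_nonneg_left (TK_ge H k E) p]

lemma eig_countable {H : L2 d →L[ℂ] L2 d} (hH : IsSelfAdjoint H) :
    {E : ℝ | ∃ f : L2 d, f ≠ 0 ∧ H f = (E : ℂ) • f}.Countable := by
  classical
  have ex : ∀ E : {E : ℝ | ∃ f : L2 d, f ≠ 0 ∧ H f = (E : ℂ) • f},
      ∃ f : L2 d, ‖f‖ = 1 ∧ H f = (E.1 : ℂ) • f := by
    rintro ⟨E, f, f1, f2⟩
    refine ⟨((‖f‖⁻¹ : ℝ) : ℂ) • f, ?_, by simp only [map_smul, f2]; exact smul_comm _ _ _⟩
    rw [norm_smul, Complex.norm_real, norm_inv, norm_norm, inv_mul_cancel₀ (norm_ne_zero_iff.2 f1)]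
  choose f f1 f2 using ex
  have on : Orthonormal ℂ f := ⟨f1, fun a b hab => by
    have := ContinuousLinearMap.isSelfAdjoint_iff_isSymmetric.1 hH (f a) (f b)
    simp only [ContinuousLinearMap.coe_coe, f2, inner_smul_left, inner_smul_right,
      Complex.conj_ofReal] at this
    exact (mul_eq_mul_right_iff.1 this).resolve_left fun e =>
      hab (Subtype.ext (by exact_mod_cast e))⟩
  rw [← Set.countable_coe_iff, ← Set.countable_univ_iff]
  refine (Set.countable_iUnion fun y : Zd d =>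
    (on.inner_products_summable (lp.single 2 y 1)).countable_support).mono fun a _ => ?_
  by_contra hc
  simp only [Set.mem_iUnion, Function.mem_support, not_exists, not_not, lp.inner_single_right,
    pow_eq_zero_iff two_ne_zero, norm_eq_zero, RCLike.inner_apply, one_mul, map_eq_zero] at hc
  have := f1 a
  rw [show f a = 0 from lp.ext (funext hc), norm_zero] at this
  exact zero_ne_one this

lemma eig_of_sol {ω : Zd d → Bool} {H : L2 d →L[ℂ] L2 d} (h : IsOp ω H) {E : ℝ} {u : Zd d → ℝ}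
    (hu : ∀ y, TV (pot ω) E u y = 0) (hs : Summable fun y => u y ^ 2) {x : Zd d} (hx : u x ≠ 0) :
    ∃ f : L2 d, f ≠ 0 ∧ H f = (E : ℂ) • f := by
  refine ⟨⟨fun y => (u y : ℂ), memℓp_gen (by simpa using hs)⟩, fun e => hx ?_, lp.ext (funext fun y => ?_)⟩
  · simpa using congrArg (fun f : L2 d => f x) e
  · have := congrArg (fun t : ℝ => (t : ℂ)) (hu y)
    rw [h]
    simp only [TV, adj, pot] at this
    simp only [lp.coeFn_smul, Pi.smul_apply, smul_eq_mul, Finset.sum_add_distrib,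
      Finset.sum_sub_distrib, Finset.sum_const, Finset.card_univ, Fintype.card_fin, nsmul_eq_mul]
    push_cast [apply_ite Complex.ofReal, Finset.sum_add_distrib] at this
    linear_combination this

theorem pure_point {ω : Zd d → Bool} {H : L2 d →L[ℂ] L2 d} (h : IsOp ω H) {I : Set ℝ} {R0 : ℝ}
    (hI : I ⊆ Set.Icc (-R0) R0)
    (h0 : ∀ E ∈ I, ∀ (C : ℝ) (u : Zd d → ℝ), (∀ y, TV (pot ω) E u y = 0) → 0 ≤ C →
      (∀ k : ℕ, ∀ y ∈ bx (0 : Zd d) k, |u y| ≤ C * (2 * k + 1) ^ (d + 2)) → Summable fun y => u y ^ 2)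
    (ψ : L2 d) (μ : Measure ℝ) [IsFiniteMeasure μ]
    (hμ : ∀ z : ℂ, z.im ≠ 0 → ∫ x : ℝ, ((x : ℂ) - z)⁻¹ ∂μ = inner ℂ ψ (GG H z ψ)) :
    μ (I \ {E : ℝ | ∃ f : L2 d, f ≠ 0 ∧ H f = (E : ℂ) • f}) = 0 := by
  obtain ⟨R, hR⟩ := exists_nat_ge (|R0| + 1 + 2 * ‖H‖)
  have H0 := norm_nonneg H
  have R1 := abs_nonneg R0
  have R2 := le_abs_self R0
  refine le_antisymm (ENNReal.le_of_forall_pos_le_add fun η hη _ => ?_) bot_le
  rw [zero_add]
  have η0 : (0 : ℝ) < η := hη
  have hs := lp.hasSum_single (ENNReal.ofNat_ne_top (n := nat_lit 2)) ψ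
  obtain ⟨s, hs'⟩ := (Metric.tendsto_nhds.1 hs (Real.sqrt (η / 192)) (by positivity)).exists
  set φ := ∑ i ∈ s, (lp.single 2 i (ψ i) : L2 d) with hφ
  have a1 : 192 * ‖ψ - φ‖ ^ 2 ≤ η := by
    rw [dist_comm, dist_eq_norm] at hs'
    have := pow_le_pow_left₀ (norm_nonneg _) hs'.le 2
    rw [Real.sq_sqrt (by positivity)] at this
    linarith
  set l : ℝ := η / (32 * (2 * R + 6)) with hl
  have l0 : 0 < l := by positivity
  let A : ℕ → Set ℝ := fun n => {E | E ∈ I ∧ ∀ k : ℕ, n ≤ k →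
    ss H φ ((1 / (k + 1)) ^ 2) E ≤ l * TK H k E}
  refine (measure_mono (t := ⋃ n, A n) fun E hE => ?_).trans ?_
  · have one : ∀ x : Zd d, Tendsto (fun k : ℕ =>
        ss H (lp.single 2 x 1) ((1 / (k + 1)) ^ 2) E / TK H k E) atTop (𝓝 0) := fun x =>
      gen h E x fun C u u1 u2 u3 => by
        by_contra hx
        exact hE.2 (eig_of_sol h u1 (h0 E hE.1 C u u1 u2 u3) hx)
    have T0 : ∀ k, 0 < TK H k E := fun k => by linarith [TK_ge H k E]
    have two : Tendsto (fun k : ℕ => ss H φ ((1 / (k + 1)) ^ 2) E / TK H k E) atTop (𝓝 0) := by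
      rw [hφ]
      clear_value φ
      clear hφ
      induction s using Finset.induction_on with
      | empty => simp [ss]
      | insert a s ha ih =>
        have lim := (((one a).const_mul (‖ψ a‖ ^ 2)).const_mul 2).add (ih.const_mul 2)
        simp only [mul_zero, add_zero] at lim
        refine squeeze_zero (fun k => by have := T0 k; unfold ss; positivity) (fun k => ?_) lim
        have e : (lp.single 2 a (ψ a) : L2 d) = ψ a • lp.single 2 a 1 := by
          rw [← lp.single_smul, smul_eq_mul, mul_one]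
        rw [Finset.sum_insert ha, e]
        refine (div_le_div_of_nonneg_right (ss_add _ _ (by positivity) E) (T0 k).le).trans
          (le_of_eq ?_)
        simp only [ss, map_smul, norm_smul]
        ring
    obtain ⟨n, hn⟩ := eventually_atTop.1 (two.eventually_le_const l0)
    exact Set.mem_iUnion.2 ⟨n, hE.1, fun k hk => (div_le_iff₀ (T0 k)).1 (hn k hk)⟩
  rw [Monotone.measure_iUnion (s := A) fun m n hmn E hE => ⟨hE.1, fun k hk => hE.2 k (hmn.trans hk)⟩]
  refine iSup_le fun n => ?_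
  have e1 : (1 / (n + 1) : ℝ) ^ 2 ≤ R := (pow_le_one₀ (by positivity)
    (by rw [div_le_one (by positivity)]; linarith [Nat.cast_nonneg (α := ℝ) n])).trans (by linarith)
  have := meas_le h.sa ψ μ hμ (by positivity) (((har_TK h.sa n (R := R) (by linarith)
    (by linarith)).mul (a := 2 * l) (by positivity)).add ((har_ss h.sa (ψ - φ) (by positivity) e1
      (by linarith)).mul (a := 2) (by norm_num))) (N := 2 * R * (n + 1) ^ 2)
    (by push_cast; field_simp; ring) (A := A n)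
    (fun E hE => ⟨by linarith [(hI hE.1).1], by linarith [(hI hE.1).2]⟩) fun E hE => by
      have := ss_add (H := H) φ (ψ - φ) (ε := (1 / (n + 1)) ^ 2) (by positivity) E
      rw [add_sub_cancel] at this
      linarith [hE.2 n le_rfl]
  rw [← ofReal_measureReal (measure_ne_top _ _), ← ENNReal.ofReal_coe_nnreal]
  refine ENNReal.ofReal_le_ofReal (this.trans ?_)
  have e2 : l * (2 * R + 6) = η / 32 := by
    rw [hl]
    field_simp
  linarith

end Pool.Agent.P.MP_d0f69c_mp
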