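import Pool.Agent.P.MP_d0f69c_mp.PP4

set_option autoImplicit false

open Finset MeasureTheory Filter Topology

namespace Pool.Agent.P.MP_d0f69c_mp

variable {d : ℕ}

theorem main5 (hd : 1 ≤ d) {s : ℝ} (s0 : 0 ≤ s) (s1 : s < 1) : ∃ δ : ℝ, 0 < δ ∧
    ∀ᵐ ω ∂(PP d), ∀ H : L2 d →L[ℂ] L2 d, IsOp ω H →
      (∀ (ψ : L2 d) (μ : Measure ℝ), IsFiniteMeasure μ →
        (∀ z : ℂ, z.im ≠ 0 → ∫ x : ℝ, ((x : ℂ) - z)⁻¹ ∂μ = inner ℂ ψ (GG H z ψ)) →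
        μ ((Set.Icc (-1) (-1 + δ) ∪ Set.Icc (4 * d + 1 - δ) (4 * d + 1)) \
          {E : ℝ | ∃ f : L2 d, f ≠ 0 ∧ H f = (E : ℂ) • f}) = 0) ∧
      ∀ E ∈ Set.Icc (-1) (-1 + δ) ∪ Set.Icc (4 * d + 1 - δ) (4 * d + 1), ∀ f : L2 d,
        H f = ((E : ℝ) : ℂ) • f → ∃ A : ℝ, ∀ y, ‖f y‖ ≤ A * Real.exp (-‖y‖ ^ s) := by
  obtain ⟨δ, δ0, δ1, h⟩ := stepA2 hd s0 s1
  have d1 : (1 : ℝ) ≤ d := by exact_mod_cast hd
  refine ⟨δ, δ0, ?_⟩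
  filter_upwards [h] with ω hω H hH
  refine ⟨fun ψ μ _ hμ => pure_point hH (R0 := 4 * d + 1) (fun E hE => ?_)
    (fun E hE C u u1 u2 u3 => (hω E hE C u u1 u2 u3).1) ψ μ hμ, fun E hE f hf => ?_⟩
  · rcases hE with a | a <;> constructor <;> linarith [a.1, a.2]
  have key : ∀ g : L2 d, H g = (E : ℂ) • g → ∃ A : ℝ, ∀ y, |(g y).re| ≤ A * Real.exp (-‖y‖ ^ s) :=
    fun g hg => (hω E hE ‖g‖ (fun y => (g y).re) (fun y => by simp [hH.re, hg]) (norm_nonneg _)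
      fun k y _ => ((Complex.abs_re_le_norm _).trans (lp.norm_apply_le_norm two_ne_zero g y)).trans
        (le_mul_of_one_le_right (norm_nonneg _)
          (one_le_pow₀ (by linarith [Nat.cast_nonneg (α := ℝ) k])))).2
  obtain ⟨A, hA⟩ := key f hf
  obtain ⟨B, hB⟩ := key (Complex.I • f) (by rw [map_smul, hf, smul_comm])
  refine ⟨A + B, fun y => (Complex.norm_le_abs_re_add_abs_im _).trans ?_⟩
  have := hB y
  simp only [lp.coeFn_smul, Pi.smul_apply, smul_eq_mul, Complex.I_mul_re, abs_neg] at this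
  linarith [hA y]

theorem main6 (hd : 1 ≤ d) {s : ℝ} (s0 : 0 ≤ s) (s1 : s < 1) : ∃ δ : ℝ, 0 < δ ∧
    ∀ᵐ ω ∂(PP d), ∀ (X : Type) [NormedAddCommGroup X] [InnerProductSpace ℂ X] [CompleteSpace X]
      (b : HilbertBasis (Zd d) ℂ X) (H : X →L[ℂ] X),
      (∀ (u : X) (j : Zd d), inner ℂ (b j) (H u) = -(∑ i : Fin d,
        ((inner ℂ (b (j + ee i)) u - inner ℂ (b j) u) + (inner ℂ (b (j - ee i)) u - inner ℂ (b j) u)))
        + (if ω j then (1 : ℂ) else -1) * inner ℂ (b j) u) →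
      {E : ℝ | ∃ u : X, u ≠ 0 ∧ H u = (E : ℂ) • u}.Countable ∧
      (∀ (ψ : X) (μ : Measure ℝ), IsFiniteMeasure μ →
        (∀ z : ℂ, z.im ≠ 0 → ∫ x : ℝ, ((x : ℂ) - z)⁻¹ ∂μ = inner ℂ ψ (GG H z ψ)) →
        μ ((Set.Icc (-1) (-1 + δ) ∪ Set.Icc (4 * d + 1 - δ) (4 * d + 1)) \
          {E : ℝ | ∃ u : X, u ≠ 0 ∧ H u = (E : ℂ) • u}) = 0) ∧
      ∀ E ∈ Set.Icc (-1) (-1 + δ) ∪ Set.Icc (4 * d + 1 - δ) (4 * d + 1), ∀ u : X,
        H u = ((E : ℝ) : ℂ) • u → ∃ A : ℝ, ∀ y, ‖inner ℂ (b y) u‖ ≤ A * Real.exp (-‖y‖ ^ s) := by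
  obtain ⟨δ, δ0, h⟩ := main5 hd s0 s1
  refine ⟨δ, δ0, ?_⟩
  filter_upwards [h] with ω hω X _ _ _ b H hH
  obtain ⟨H', a1, a2⟩ := transport b H hH
  have e : ∀ x, H' (b.repr x) = b.repr (H x) := fun x => lp.ext (funext fun j => by
    rw [a1]
    simp only [b.repr_apply_apply]
    exact (hH x j).symm)
  have e2 : {E : ℝ | ∃ u : X, u ≠ 0 ∧ H u = (E : ℂ) • u}
      = {E : ℝ | ∃ f : L2 d, f ≠ 0 ∧ H' f = (E : ℂ) • f} := by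
    ext E
    constructor
    · rintro ⟨u, u1, u2⟩
      exact ⟨b.repr u, by simpa using u1, by rw [e, u2, map_smul]⟩
    · rintro ⟨f, f1, f2⟩
      obtain ⟨u, rfl⟩ := b.repr.surjective f
      exact ⟨u, by simpa using f1, b.repr.injective (by rw [← e, f2, map_smul])⟩
  rw [e2]
  refine ⟨eig_countable a1.sa, fun ψ μ h1 h2 => (hω H' a1).1 (b.repr ψ) μ h1
    fun z hz => (h2 z hz).trans (a2 ψ z hz), fun E hE u hu => ?_⟩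
  simpa only [b.repr_apply_apply] using (hω H' a1).2 E hE (b.repr u) (by rw [e, hu, map_smul])

end Pool.Agent.P.MP_d0f69c_mp
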