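import Mathlib

set_option autoImplicit false

namespace Pool.Agent.P.MP_d0f69c_mp

/-- real powers of two -/
noncomputable def pw (x : ℝ) : ℝ := (2 : ℝ) ^ x

lemma pw_pos (x : ℝ) : 0 < pw x := Real.rpow_pos_of_pos (by norm_num) x

lemma pw_add (x y : ℝ) : pw (x + y) = pw x * pw y := Real.rpow_add (by norm_num) x y

lemma pw_pow (x : ℝ) (n : ℕ) : pw x ^ n = pw (x * n) := by
  rw [pw, pw, Real.rpow_mul (by norm_num), Real.rpow_natCast]

lemma pw_mono {x y : ℝ} (h : x ≤ y) : pw x ≤ pw y :=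
  Real.rpow_le_rpow_of_exponent_le (by norm_num) h

lemma pw_nat (n : ℕ) : pw n = 2 ^ n := Real.rpow_natCast 2 n

lemma pw_zero : pw 0 = 1 := Real.rpow_zero 2

lemma pw_one : pw 1 = 2 := Real.rpow_one 2

lemma pw_neg (x : ℝ) : pw (-x) = (pw x)⁻¹ := Real.rpow_neg (by norm_num) x

lemma pw_succ (x : ℝ) : pw (x + 1) = 2 * pw x := by rw [pw_add, pw_one, mul_comm]

lemma pw_half (n : ℕ) : (1 / 2 : ℝ) ^ n = pw (-n) := by rw [pw_neg, pw_nat, one_div, inv_pow]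

lemma one_le_pw {x : ℝ} (h : 0 ≤ x) : 1 ≤ pw x := pw_zero ▸ pw_mono h

lemma pw_le_one {x : ℝ} (h : x ≤ 0) : pw x ≤ 1 := pw_zero ▸ pw_mono h

lemma le_pw {a n : ℕ} (h : a ≤ 2 ^ n) : (a : ℝ) ≤ pw n := by
  rw [pw_nat]
  exact_mod_cast h

lemma nat_le_pw (n : ℕ) : (n : ℝ) ≤ pw n := le_pw Nat.lt_two_pow_self.le

lemma pow_le_pw {a n : ℕ} (h : a ≤ 2 ^ n) (d : ℕ) : (a : ℝ) ^ d ≤ pw (n * d) := by
  rw [← pw_pow]
  exact pow_le_pow_left₀ (Nat.cast_nonneg _) (le_pw h) d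

lemma exp_le_pw {x : ℝ} (h : 0 ≤ x) : Real.exp (-x) ≤ pw (-x) := by
  rw [pw, Real.rpow_def_of_pos (by norm_num), Real.exp_le_exp]
  nlinarith [Real.log_two_lt_d9]

lemma cube_le {x : ℕ} (h : 10 ≤ x) : x ^ 3 ≤ 2 ^ x := by
  induction x, h using Nat.le_induction with
  | base => norm_num
  | succ x h ih =>
    have : (x + 1) ^ 3 ≤ 2 * x ^ 3 := by nlinarith [Nat.mul_le_mul h h, Nat.mul_le_mul_left (x * x) h]
    rw [pow_succ 2]
    omega

lemma le2 (a : ℕ) {x y : ℕ} (h : a + x ≤ y) : 2 ^ a * 2 ^ x ≤ 2 ^ y := by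
  rw [← pow_add]
  exact Nat.pow_le_pow_right (by norm_num) h

lemma eq2 {a x y : ℕ} (h : a + x = y) : 2 ^ a * 2 ^ x = 2 ^ y := by rw [← pow_add, h]

/-- exponents of the scales -/
def zz (B h0 : ℕ) : ℕ → ℕ
  | 0 => B * h0
  | k + 1 => zz B h0 k + zz B h0 k / B

/-- increments -/
def hh (B h0 k : ℕ) : ℕ := zz B h0 k / B

variable {B h0 : ℕ}

lemma zz_succ (k : ℕ) : zz B h0 (k + 1) = zz B h0 k + hh B h0 k := rfl

lemma zz_mono {j k : ℕ} (h : j ≤ k) : zz B h0 j ≤ zz B h0 k :=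
  monotone_nat_of_le_succ (fun k => by rw [zz_succ]; omega) h

lemma hh_mono {j k : ℕ} (h : j ≤ k) : hh B h0 j ≤ hh B h0 k := Nat.div_le_div_right (zz_mono h)

lemma hh_ge (hB : 40 ≤ B) (k : ℕ) : h0 ≤ hh B h0 k := by
  refine le_trans (le_of_eq ?_) (hh_mono (Nat.zero_le k))
  simp only [hh, zz]
  rw [Nat.mul_div_cancel_left _ (by omega)]

lemma zz_ge (k : ℕ) : B * hh B h0 k ≤ zz B h0 k := Nat.mul_div_le _ _

lemma zz_lt (hB : 40 ≤ B) (k : ℕ) : zz B h0 k < B * hh B h0 k + B := by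
  have := Nat.div_add_mod (zz B h0 k) B
  have := Nat.mod_lt (zz B h0 k) (show 0 < B by omega)
  unfold hh
  omega

lemma zz_le (hB : 40 ≤ B) (h6 : 6 * B ≤ h0) (k : ℕ) : zz B h0 k ≤ 2 * B * hh B h0 k := by
  nlinarith [zz_lt (h0 := h0) hB k, hh_ge (h0 := h0) hB k]

lemma hh_succ (hB : 40 ≤ B) (h6 : 6 * B ≤ h0) (k : ℕ) : hh B h0 k + 6 ≤ hh B h0 (k + 1) := by
  rw [hh, hh, Nat.le_div_iff_mul_le (by omega), zz_succ]
  nlinarith [zz_ge (B := B) (h0 := h0) k, hh_ge (h0 := h0) hB k, show hh B h0 k = zz B h0 k / B from rfl]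

lemma hh_succ_le (hB : 40 ≤ B) (h6 : 6 * B ≤ h0) (k : ℕ) :
    3 * hh B h0 (k + 1) + 3 ≤ 4 * hh B h0 k := by
  have a := zz_ge (B := B) (h0 := h0) (k + 1)
  rw [zz_succ] at a
  have b := zz_lt (h0 := h0) hB k
  have c := hh_ge (h0 := h0) hB k
  by_contra hc
  have e : 4 * hh B h0 k ≤ 3 * hh B h0 (k + 1) + 2 := by omega
  nlinarith [Nat.mul_le_mul_left B e, Nat.mul_le_mul_right (hh B h0 k) hB]

lemma zz_add (k t : ℕ) : zz B h0 k + t * hh B h0 k ≤ zz B h0 (k + t) := by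
  induction t with
  | zero => simp
  | succ t ih =>
    rw [← add_assoc, zz_succ, add_mul]
    have := hh_mono (B := B) (h0 := h0) (Nat.le_add_right k t)
    omega

lemma zz_dbl (hB : 40 ≤ B) (h6 : 6 * B ≤ h0) (k W : ℕ) :
    2 ^ W * zz B h0 k ≤ zz B h0 (k + 2 * B * W) := by
  induction W with
  | zero => simp
  | succ W ih =>
    have a := zz_add (B := B) (h0 := h0) (k + 2 * B * W) (2 * B)
    have b := zz_le hB h6 (k + 2 * B * W)
    rw [mul_add, mul_one, ← add_assoc, pow_succ]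
    linarith

lemma zz_up (hB : 40 ≤ B) (k t : ℕ) : zz B h0 (k + t) ≤ 2 ^ t * zz B h0 k := by
  induction t with
  | zero => simp
  | succ t ih =>
    have a := zz_ge (B := B) (h0 := h0) (k + t)
    rw [← add_assoc, zz_succ, pow_succ]
    nlinarith

lemma le_zz (hB : 40 ≤ B) (h6 : 6 * B ≤ h0) (k : ℕ) : k ≤ zz B h0 k := by
  have a := zz_add (B := B) (h0 := h0) 0 k
  have b := hh_ge (h0 := h0) hB 0
  rw [zero_add] at a
  nlinarith

end Pool.Agent.P.MP_d0f69c_mp
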