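import Pool.Agent.P.MP_d0f69c_mp.Final2
import Pool.Agent.P.MP_d0f69c_mp.Scales

set_option autoImplicit false

namespace Pool.Agent.P.MP_d0f69c_mp

/-- natural powers of two -/
def tw (x : ℕ) : ℕ := 2 ^ x

lemma tw_mul (a b : ℕ) : tw a * tw b = tw (a + b) := (pow_add 2 a b).symm

lemma tw_pow (a b : ℕ) : tw a ^ b = tw (a * b) := (pow_mul 2 a b).symm

lemma tl (a x y : ℕ) (h : a + x ≤ y) : 2 ^ a * tw x ≤ tw y := le2 a h

lemma tw_pos (a : ℕ) : 0 < tw a := Nat.two_pow_pos a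

lemma lt_tw (a : ℕ) : a < tw a := Nat.lt_two_pow_self

lemma tw_41 (a b : ℕ) : tw a * (4 * tw b + 1) = 4 * tw (a + b) + tw a := by
  rw [← tw_mul]
  ring

lemma tw_pw (a : ℕ) : (tw a : ℝ) = pw a := by
  rw [pw_nat, tw]
  push_cast
  rfl

lemma mle {a b x y : ℝ} (h1 : a ≤ pw x) (h2 : b ≤ pw y) (b0 : 0 ≤ b) : a * b ≤ pw (x + y) := by
  rw [pw_add]
  exact mul_le_mul h1 h2 b0 (pw_pos _).le

lemma pw_tw (a b : ℕ) : pw (-(tw a : ℕ)) ^ tw b ≤ pw (-(tw (a + b) : ℕ)) := by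
  rw [pw_pow, ← tw_mul]
  exact pw_mono (by push_cast; linarith)

lemma two_pw : (2 : ℝ) ≤ pw 1 := pw_one.ge

lemma four_pw : (4 : ℝ) ≤ pw 2 := by
  rw [show (2 : ℝ) = (2 : ℕ) by norm_num, pw_nat]
  norm_num

lemma cst {a b : ℕ} (h : a ≤ b) : (a : ℝ) ≤ b := Nat.cast_le.2 h

/-- the parameters -/
noncomputable def par (d B h0 : ℕ) : Par where
  c k := tw (8 * zz B h0 k)
  J k := tw (7 * hh B h0 k)
  p k := tw (8 * zz B h0 k - 1)
  f k := tw (7 * zz B h0 k)
  γ k := pw (-(tw (8 * zz B h0 k - hh B h0 k) : ℕ)) / (2 * d)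
  M k := pw (tw (8 * zz B h0 k - 3 * hh B h0 k))

/-- the auxiliary parameters -/
noncomputable def aux (d B h0 : ℕ) : Aux where
  D := 2 * B * (B + 5) + 2 * B * B
  mF := 2 ^ (2 * B * (B + 5) + 2 * B * B + 2) * (9 * d + 3)
  K k := tw (8 * hh B h0 k)
  S k := tw (7 * hh B h0 k - 3)
  S0 k := tw (hh B h0 k + 3)
  S1 k := tw (8 * hh B h0 k - 5)
  I k := tw (7 * hh B h0 k + 5)
  Jf k := tw (7 * hh B h0 k)
  l k := tw (8 * zz B h0 k + 2 * hh B h0 k)
  T k := tw (8 * zz B h0 k + 2 * hh B h0 k + 2)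
  n k := tw (8 * zz B h0 (k - 2 * B * (B + 5)))
  m k := tw (3 * zz B h0 k)
  j0 k := k - 2 * B * (B + 5)
  G1 k := pw (2 * tw (8 * zz B h0 (k - 2 * B * (B + 5))))
  G2 k := pw (tw (8 * zz B h0 k))
  w k := pw (-(tw (8 * zz B h0 k + 3 * hh B h0 k) : ℕ))
  Ms k := pw (4 * tw (8 * zz B h0 k + 4 * hh B h0 k))
  β k := pw (-((9 * d + 3) * zz B h0 (k + 1) : ℕ))
  q k := pw (-(zz B h0 k : ℕ))

variable {d B h0 : ℕ}

/-- size conditions -/
structure Big (d B h0 : ℕ) : Prop where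
  d1 : 1 ≤ d
  hB : 20 * d + 20 ≤ B
  h6 : 6 * B ≤ h0

lemma Big.B40 (h : Big d B h0) : 40 ≤ B := by have := h.d1; have := h.hB; omega

lemma Big.lv (h : Big d B h0) (k : ℕ) : zz B h0 (k + 1) = zz B h0 k + hh B h0 k ∧
    20 * (d * hh B h0 k) + 20 * hh B h0 k ≤ zz B h0 k ∧ 240 ≤ hh B h0 k ∧ 120 * d ≤ hh B h0 k ∧
    hh B h0 k + 6 ≤ hh B h0 (k + 1) ∧ 3 * hh B h0 (k + 1) + 3 ≤ 4 * hh B h0 k ∧
    32 * (d * zz B h0 k) ≤ tw (zz B h0 k) ∧ zz B h0 k ≤ d * zz B h0 k ∧ k ≤ zz B h0 k := by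
  have a := zz_ge (B := B) (h0 := h0) k
  have b := hh_ge (h0 := h0) h.B40 k
  have c := h.h6
  have e := h.hB
  have B4 := h.B40
  have a1 := Nat.mul_le_mul_right (hh B h0 k) e
  have a2 : 20 * (d * hh B h0 k) + 20 * hh B h0 k ≤ zz B h0 k := by linarith
  refine ⟨rfl, a2, by omega, by omega, hh_succ h.B40 h.h6 k, hh_succ_le h.B40 h.h6 k, ?_,
    Nat.le_mul_of_pos_left _ h.d1, le_zz h.B40 h.h6 k⟩
  refine le_trans ?_ (cube_le (by omega))
  calc 32 * (d * zz B h0 k) ≤ zz B h0 k * (zz B h0 k * zz B h0 k) := by gcongr <;> omega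
    _ = _ := by ring

lemma Big.th (h : Big d B h0) (k : ℕ) :
    2 * d * (par d B h0).γ k = pw (-(tw (8 * zz B h0 k - hh B h0 k) : ℕ)) := by
  have : (0 : ℝ) < d := by exact_mod_cast h.d1
  simp only [par]
  field_simp

lemma Big.MM (h : Big d B h0) (k : ℕ) : 1 ≤ (par d B h0).M k + (par d B h0).γ k ∧
    (par d B h0).M k + (par d B h0).γ k ≤ pw (tw (8 * zz B h0 k - 3 * hh B h0 k) + 1) := by
  have d1 : (1 : ℝ) ≤ d := by exact_mod_cast h.d1
  have a : 1 ≤ (par d B h0).M k := one_le_pw (Nat.cast_nonneg _)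
  have b : 0 ≤ (par d B h0).γ k := div_nonneg (pw_pos _).le (by positivity)
  have c : (par d B h0).γ k ≤ 1 := by
    have := h.th k
    have := pw_le_one (x := -(tw (8 * zz B h0 k - hh B h0 k) : ℕ)) (by simp)
    nlinarith
  refine ⟨by linarith, ?_⟩
  rw [pw_succ]
  change (par d B h0).M k + _ ≤ 2 * (par d B h0).M k
  linarith

lemma Big.M4 (h : Big d B h0) (k : ℕ) : 1 + 4 * d * ((par d B h0).M k + (par d B h0).γ k)
    ≤ pw (tw (8 * zz B h0 k - 3 * hh B h0 k) + d + 4) := by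
  have d1 : (1 : ℝ) ≤ d := by exact_mod_cast h.d1
  obtain ⟨a, b⟩ := h.MM k
  have c := mul_le_mul (nat_le_pw d) b (by linarith) (pw_pos _).le
  have e : pw (tw (8 * zz B h0 k - 3 * hh B h0 k) + d + 4)
      = 8 * (pw d * pw (tw (8 * zz B h0 k - 3 * hh B h0 k) + 1)) := by
    rw [← pw_add, show (8 : ℝ) = pw (3 : ℕ) by rw [pw_nat]; norm_num, ← pw_add]
    congr 1
    push_cast
    ring
  rw [e]
  nlinarith

lemma Big.j16 (h : Big d B h0) {k : ℕ} (hk : 2 * B * (B + 5) ≤ k) :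
    16 * zz B h0 (k - 2 * B * (B + 5)) ≤ hh B h0 k := by
  have a := zz_dbl h.B40 h.h6 (k - 2 * B * (B + 5)) (B + 5)
  rw [Nat.sub_add_cancel hk, pow_add] at a
  have b := zz_le h.B40 h.h6 k
  have c := Nat.mul_le_mul_right (zz B h0 (k - 2 * B * (B + 5))) (lt_tw B).le
  have := h.B40
  unfold tw at c
  nlinarith

lemma Big.D0 (h : Big d B h0) {k : ℕ} (hk : 2 * B * (B + 5) ≤ k) :
    2 * tw (8 * zz B h0 (k - 2 * B * (B + 5))) * (2 * tw (8 * zz B h0 (k - 2 * B * (B + 5) + 1)) + 1) ^ d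
      ≤ tw (zz B h0 k) := by
  have a := h.j16 hk
  obtain ⟨-, b1, b2, -⟩ := h.lv k
  obtain ⟨c1, c2, -⟩ := h.lv (k - 2 * B * (B + 5))
  have e1 := tl 1 (8 * zz B h0 (k - 2 * B * (B + 5))) (hh B h0 k) (by omega)
  have e2 := tl 2 (8 * zz B h0 (k - 2 * B * (B + 5) + 1)) (2 * hh B h0 k) (by omega)
  have e3 := tw_pos (8 * zz B h0 (k - 2 * B * (B + 5) + 1))
  calc _ ≤ tw (hh B h0 k) * tw (2 * hh B h0 k) ^ d := by gcongr <;> omega
    _ ≤ _ := by
      rw [tw_pow, tw_mul]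
      simpa using tl 0 _ _ (by linarith)

lemma Big.K9 (h : Big d B h0) (k : ℕ) {a : ℝ} (a0 : 0 ≤ a) (ha : a ≤ 6) :
    (a * tw (8 * hh B h0 k) + 1) ^ d ≤ pw (9 * (d * hh B h0 k : ℕ)) := by
  obtain ⟨-, b1, b2, -⟩ := h.lv k
  have e1 := tl 3 (8 * hh B h0 k) (9 * hh B h0 k) (by omega)
  have e2 := tw_pos (8 * hh B h0 k)
  have e3 : (6 * tw (8 * hh B h0 k) + 1 : ℝ) ≤ tw (9 * hh B h0 k) := by
    exact_mod_cast (by omega : 6 * tw (8 * hh B h0 k) + 1 ≤ tw (9 * hh B h0 k))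
  have e4 := mul_le_mul_of_nonneg_right ha (Nat.cast_nonneg (tw (8 * hh B h0 k)))
  refine (pow_le_pow_left₀ (by positivity) (b := (tw (9 * hh B h0 k) : ℝ)) (by linarith) d).trans ?_
  rw [tw_pw, pw_pow]
  exact pw_mono (by push_cast; linarith)

lemma Big.c9 (h : Big d B h0) (k : ℕ) {x : ℝ} (x0 : 0 ≤ x) (hx : x ≤ 16 * tw (8 * zz B h0 k)) :
    x ^ d ≤ pw (9 * (d * zz B h0 k : ℕ)) := by
  obtain ⟨-, b1, b2, -⟩ := h.lv k
  have e3 : (16 * tw (8 * zz B h0 k) : ℝ) ≤ tw (9 * zz B h0 k) := by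
    exact_mod_cast tl 4 (8 * zz B h0 k) (9 * zz B h0 k) (by omega)
  refine (pow_le_pow_left₀ x0 (hx.trans e3) d).trans ?_
  rw [tw_pw, pw_pow]
  exact pw_mono (by push_cast; linarith)

lemma Big.tau (h : Big d B h0) (k : ℕ) : (2 * d * (par d B h0).γ k) ^ (aux d B h0).S k
    * (4 * ((par d B h0).M (k + 1) + (par d B h0).γ (k + 1))) * pw (2 * tw (8 * zz B h0 k)) ^ 3 ≤ 1 := by
  obtain ⟨b0, b1, b2, b3, b4, -⟩ := h.lv k
  have e0 := tl 4 (8 * zz B h0 k + 5 * hh B h0 k) (8 * zz B h0 k - hh B h0 k + (7 * hh B h0 k - 3))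
    (by omega)
  have e1 := tl 0 (8 * zz B h0 (k + 1) - 3 * hh B h0 (k + 1)) (8 * zz B h0 k + 5 * hh B h0 k) (by omega)
  have e2 := tl 0 (8 * zz B h0 k) (8 * zz B h0 k + 5 * hh B h0 k) (by omega)
  have e3 := tw_pos (8 * zz B h0 k)
  have e4 := cst (by omega : tw (8 * zz B h0 (k + 1) - 3 * hh B h0 (k + 1)) + 3 + 6 * tw (8 * zz B h0 k)
      ≤ tw (8 * zz B h0 k - hh B h0 k + (7 * hh B h0 k - 3)))
  have := (h.MM (k + 1)).1
  rw [h.th]
  refine (mle (mle (pw_tw _ _) (mle four_pw (h.MM (k + 1)).2 (by linarith)) (by linarith))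
    (pw_pow _ 3).le (pow_nonneg (pw_pos _).le _)).trans (pw_le_one ?_)
  push_cast at e4 ⊢
  linarith

theorem Big.ok (h : Big d B h0)
    (hN : ((aux d B h0).mF * 17 ^ d) ^ ((aux d B h0).D + 1) ≤ tw h0) :
    Ok d (par d B h0) (aux d B h0) where
  c0 k := tw_pos _
  cK k := by simp only [par, aux, tw_mul, zz_succ]; congr 1; ring
  cJ k := pow_dvd_pow 2 (by omega)
  cP k := by
    obtain ⟨b0, b1, b2, -⟩ := h.lv k
    have e1 := tl 3 (7 * hh B h0 k + 8 * zz B h0 k) (8 * zz B h0 (k + 1)) (by omega)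
    have e2 := tl 0 (8 * zz B h0 k) (7 * hh B h0 k + 8 * zz B h0 k) (by omega)
    simp only [par, tw_mul]
    omega
  γ0 k := div_nonneg (pw_pos _).le (by positivity)
  γ1 k := by
    rw [h.th, show (1 / 2 : ℝ) = (1 / 2) ^ 1 by norm_num, pw_half]
    exact pw_mono (neg_le_neg (cst (tw_pos _)))
  M0 k := (pw_pos _).le
  S1 k := by
    obtain ⟨b0, b1, b2, -⟩ := h.lv k
    have e1 := tl 3 (7 * hh B h0 k - 3 + 8 * zz B h0 k) (7 * hh B h0 k + 8 * zz B h0 k) (by omega)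
    have e2 := tl 0 (7 * hh B h0 k - 3) (7 * hh B h0 k - 3 + 8 * zz B h0 k) (by omega)
    have e3 := tl 4 (8 * zz B h0 k) (7 * hh B h0 k - 3 + 8 * zz B h0 k) (by omega)
    simp only [par, aux, tw_mul, tw_41]
    omega
  S2 k := by
    have a := h.tau k
    have b := (h.MM k).1
    have c := (h.MM (k + 1)).1
    have e : 1 ≤ pw (2 * tw (8 * zz B h0 k)) ^ 3 := one_le_pow₀ (one_le_pw (by positivity))
    have f : 0 ≤ (2 * d * (par d B h0).γ k) ^ (aux d B h0).S k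
        * (4 * ((par d B h0).M (k + 1) + (par d B h0).γ (k + 1))) := by
      rw [h.th]
      exact mul_nonneg (pow_nonneg (pw_pos _).le _) (by linarith)
    nlinarith
  S3 k := by
    obtain ⟨b0, b1, b2, b3, -⟩ := h.lv k
    have e0 := tl 4 (8 * zz B h0 k + 4 * hh B h0 k) (8 * zz B h0 k - hh B h0 k + (7 * hh B h0 k - 3))
      (by omega)
    have e1 := lt_tw (8 * zz B h0 k + 4 * hh B h0 k)
    have e4 := cst (by omega : 4 * tw (8 * zz B h0 k + 4 * hh B h0 k) + d + 2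
      ≤ tw (8 * zz B h0 k - hh B h0 k + (7 * hh B h0 k - 3)))
    rw [h.th, show (1 / 2 : ℝ) = (1 / 2) ^ 1 by norm_num, pw_half]
    refine (mle (mle (mle two_pw (nat_le_pw d) (by positivity)) le_rfl (pw_pos _).le) (pw_tw _ _)
      (pow_nonneg (pw_pos _).le _)).trans (pw_mono ?_)
    push_cast at e4 ⊢
    linarith
  Ms1 k := one_le_pw (by positivity)
  g1 k := by
    obtain ⟨b0, b1, b2, -⟩ := h.lv k
    have e1 := tl 5 (8 * hh B h0 k - 5 + 8 * zz B h0 k) (8 * zz B h0 (k + 1)) (by omega)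
    have e2 := tl 0 (8 * hh B h0 k - 5) (8 * hh B h0 k - 5 + 8 * zz B h0 k) (by omega)
    have e3 := tl 4 (8 * zz B h0 k) (8 * hh B h0 k - 5 + 8 * zz B h0 k) (by omega)
    have e4 := tl 3 (7 * hh B h0 k + 8 * zz B h0 k) (8 * hh B h0 k - 5 + 8 * zz B h0 k) (by omega)
    have e5 := tw_pos (8 * zz B h0 k)
    simp only [par, aux, tw_mul, tw_41]
    omega
  g2 k := by
    obtain ⟨b0, b1, b2, b3, b4, -⟩ := h.lv k
    have d1 : (0 : ℝ) < d := by exact_mod_cast h.d1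
    have e0 := tl 4 (8 * zz B h0 k + 4 * hh B h0 k) (8 * zz B h0 k - hh B h0 k + (8 * hh B h0 k - 5))
      (by omega)
    have e1 := lt_tw (8 * zz B h0 k + 4 * hh B h0 k)
    have e2 := tl 1 (8 * zz B h0 (k + 1) - hh B h0 (k + 1))
      (8 * zz B h0 k - hh B h0 k + (8 * hh B h0 k - 5)) (by omega)
    have e3 := tl 0 (8 * zz B h0 k - 3 * hh B h0 k) (8 * zz B h0 k + 4 * hh B h0 k) (by omega)
    have e4 := cst (by omega : tw (8 * zz B h0 (k + 1) - hh B h0 (k + 1))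
      + 4 * tw (8 * zz B h0 k + 4 * hh B h0 k) + tw (8 * zz B h0 k - 3 * hh B h0 k) + 2 * d + 6
      ≤ tw (8 * zz B h0 k - hh B h0 k + (8 * hh B h0 k - 5)))
    have a : 0 ≤ 1 + 4 * d * ((par d B h0).M k + (par d B h0).γ k) := by
      have := (h.MM k).1
      positivity
    have b : 0 ≤ (aux d B h0).Ms k := (pw_pos _).le
    rw [h.th]
    refine (le_div_iff₀ (by positivity)).2 ((mle (mle (pw_tw _ _) (mle two_pw (mle le_rfl (h.M4 k) a)
      (by positivity)) (by positivity)) (mle two_pw (nat_le_pw d) d1.le) (by positivity)).trans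
      (pw_mono ?_))
    push_cast at e4 ⊢
    linarith
  g3 k := by
    obtain ⟨b0, b1, b2, b3, b4, b5, -⟩ := h.lv k
    have e1 := lt_tw (8 * zz B h0 k + 4 * hh B h0 k)
    have e2 := tl 3 (8 * zz B h0 k + 4 * hh B h0 k) (8 * zz B h0 (k + 1) - 3 * hh B h0 (k + 1))
      (by omega)
    have e3 := tl 0 (8 * zz B h0 k - 3 * hh B h0 k) (8 * zz B h0 k + 4 * hh B h0 k) (by omega)
    have e4 := cst (by omega : 4 * tw (8 * zz B h0 k + 4 * hh B h0 k)
      + tw (8 * zz B h0 k - 3 * hh B h0 k) + d + 6 ≤ tw (8 * zz B h0 (k + 1) - 3 * hh B h0 (k + 1)))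
    have a : 0 ≤ 1 + 4 * d * ((par d B h0).M k + (par d B h0).γ k) := by
      have := (h.MM k).1
      positivity
    have b : 0 ≤ (aux d B h0).Ms k := (pw_pos _).le
    refine (mle four_pw (mle le_rfl (h.M4 k) a) (by positivity)).trans (pw_mono ?_)
    push_cast at e4 ⊢
    linarith
  p0 k := tw_pos _
  p1 k := by
    obtain ⟨b0, b1, b2, -⟩ := h.lv k
    exact tl 1 _ _ (by omega)
  p2 k := by
    obtain ⟨b0, b1, b2, -⟩ := h.lv k
    have e1 := tl 4 (7 * hh B h0 k + 8 * zz B h0 k) (7 * hh B h0 k + 5 + (8 * zz B h0 k - 1)) (by omega)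
    have e2 := tl 2 (8 * zz B h0 k) (7 * hh B h0 k + 8 * zz B h0 k) (by omega)
    simp only [par, aux, tw_mul]
    omega
  p3 k := by
    obtain ⟨b0, b1, b2, -⟩ := h.lv k
    have e1 := tl 1 (7 * hh B h0 k + 5 + (8 * zz B h0 k - 1)) (8 * zz B h0 (k + 1) - 1) (by omega)
    have e2 := tl 2 (7 * hh B h0 k + (8 * zz B h0 k - 1)) (8 * zz B h0 (k + 1) - 1) (by omega)
    simp only [par, aux, add_mul, tw_mul]
    omega
  p4 k := by simp only [par, aux, tw_mul, zz_succ]; exact le_of_eq (by congr 1; ring)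
  w1 k hk := by
    have : 0 < 2 * B * (B + 5) := by have := h.B40; positivity
    simp only [aux] at hk ⊢
    omega
  w2 k := by
    obtain ⟨b0, b1, b2, -⟩ := h.lv k
    have e1 := tl 4 (hh B h0 k + 3 + 8 * zz B h0 k) (8 * zz B h0 k + 2 * hh B h0 k) (by omega)
    have e2 := tl 0 (hh B h0 k + 3) (hh B h0 k + 3 + 8 * zz B h0 k) (by omega)
    have e3 := tl 3 (8 * zz B h0 k) (hh B h0 k + 3 + 8 * zz B h0 k) (by omega)
    simp only [par, aux, tw_41]
    omega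
  w3 k := by
    obtain ⟨b0, b1, b2, -⟩ := h.lv k
    simpa [par, aux, tw_mul] using tl 0 _ _ (by omega)
  w4 k := by
    obtain ⟨b0, b1, b2, -⟩ := h.lv k
    have e1 := tl 2 (8 * zz B h0 k + 2 * hh B h0 k) (8 * zz B h0 k + 2 * hh B h0 k + 2) (by omega)
    have e2 := tl 2 (8 * zz B h0 k) (8 * zz B h0 k + 2 * hh B h0 k) (by omega)
    have e3 := tl 0 (8 * zz B h0 k - 1) (8 * zz B h0 k) (by omega)
    have e5 := tw_pos (8 * zz B h0 k)
    simp only [par, aux]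
    omega
  w5 k := pw_pos _
  w6 k := by
    obtain ⟨b0, b1, b2, b3, -⟩ := h.lv k
    have e1 := tl 2 (hh B h0 k - 2) (hh B h0 k) (by omega)
    have e2 := lt_tw (hh B h0 k - 2)
    have e3 := lt_tw d
    have e4 : (d + 4) * tw (8 * zz B h0 k + 2 * hh B h0 k + 2) ≤ tw (8 * zz B h0 k + 3 * hh B h0 k) := by
      refine (Nat.mul_le_mul_right _ (by omega : d + 4 ≤ tw (hh B h0 k - 2))).trans ?_
      simpa [tw_mul] using tl 0 _ _ (by omega)
    have e5 := pow_le_pw (a := 8 * d + 6) (n := d + 4) (by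
      unfold tw at e3
      rw [pow_add]
      omega) ((aux d B h0).T k)
    have e6 := cst e4
    push_cast at e5 e6
    refine (mle le_rfl e5 (by positivity)).trans (pw_le_one ?_)
    simp only [aux]
    linarith
  w7 k hk := by
    simp only [aux] at hk
    have a := zz_dbl h.B40 h.h6 (k - (2 * B * (B + 5) + 2 * B * B)) B
    rw [show k - (2 * B * (B + 5) + 2 * B * B) + 2 * B * B = k - 2 * B * (B + 5) by omega] at a
    obtain ⟨b0, b1, b2, -⟩ := h.lv (k - (2 * B * (B + 5) + 2 * B * B))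
    obtain ⟨-, c1, -⟩ := h.lv (k - 2 * B * (B + 5))
    have c2 := hh_ge (h0 := h0) h.B40 (k - 2 * B * (B + 5))
    have e1 := tl 3 (8 * zz B h0 (k - (2 * B * (B + 5) + 2 * B * B)))
      (9 * zz B h0 (k - (2 * B * (B + 5) + 2 * B * B))) (by omega)
    have e2 := tw_pos (8 * zz B h0 (k - (2 * B * (B + 5) + 2 * B * B)))
    have e3 := Nat.mul_le_mul_right (zz B h0 (k - (2 * B * (B + 5) + 2 * B * B)))
      ((by have := h.hB; omega : 9 * d ≤ B).trans (lt_tw B).le)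
    refine (Nat.mul_le_mul hN (Nat.pow_le_pow_left (m := tw (9 * zz B h0
      (k - (2 * B * (B + 5) + 2 * B * B)))) (by simp only [par, aux]; omega) d)).trans ?_
    rw [tw_pow, tw_mul]
    unfold tw at e3
    have c3 : h0 ≤ zz B h0 (k - 2 * B * (B + 5)) := by omega
    simpa [aux] using tl 0 _ _ (by linarith)
  w8 k := tw_pos _
  w9 k := tw_pos _
  w10 k hk := by
    refine (Nat.mul_le_mul_left _ (h.D0 (le_trans (Nat.le_add_right _ _) hk))).trans ?_
    simpa [par, aux, tw_pow, tw_mul] using tl 0 _ _ (by omega)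
  w11 k := by
    obtain ⟨b0, b1, b2, b3, -, -, b6, -⟩ := h.lv k
    have e1 := tl 3 (7 * hh B h0 k + 8 * zz B h0 k) (16 * zz B h0 k) (by omega)
    have e2 := tw_pos (7 * hh B h0 k + 8 * zz B h0 k)
    have e3 := tl 0 (zz B h0 k) (8 * zz B h0 k) (by omega)
    have e5 := pow_le_pw (a := 2 * (2 * tw (7 * hh B h0 k + 8 * zz B h0 k)) + 1) (n := 16 * zz B h0 k)
      (by change _ ≤ tw _; omega) d
    have e6 := cst (by omega : 16 * (d * zz B h0 k) ≤ tw (8 * zz B h0 k))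
    simp only [par, aux, tw_mul]
    push_cast at e5 e6
    exact e5.trans (pw_mono (by linarith))
  w12 k j hj := by
    obtain ⟨b0, b1, b2, -⟩ := h.lv j
    have e0 := zz_mono (B := B) (h0 := h0) hj
    have e1 := tl 2 (8 * zz B h0 j - 3 * hh B h0 j) (8 * zz B h0 k) (by omega)
    have e2 := tw_pos (8 * zz B h0 j - 3 * hh B h0 j)
    have e3 := cst (by omega : tw (8 * zz B h0 j - 3 * hh B h0 j) + 2 ≤ tw (8 * zz B h0 k))
    refine (mle two_pw (h.MM j).2 (by linarith [(h.MM j).1])).trans (pw_mono ?_)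
    push_cast at e3
    linarith
  w13 k _ := by
    simp only [aux]
    generalize k - 2 * B * (B + 5) = j
    obtain ⟨b0, b1, b2, -⟩ := h.lv j
    have e1 := tl 2 (8 * zz B h0 j - 3 * hh B h0 j) (8 * zz B h0 j) (by omega)
    have e2 := tw_pos (8 * zz B h0 j - 3 * hh B h0 j)
    have e3 := cst (by omega : tw (8 * zz B h0 j - 3 * hh B h0 j) + 2 ≤ 2 * tw (8 * zz B h0 j))
    refine (mle two_pw (h.MM j).2 (by linarith [(h.MM j).1])).trans (pw_mono ?_)
    push_cast at e3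
    linarith
  w14 k _ := (pow_le_pow_left₀ (by norm_num) four_pw _).trans (pw_pow _ _).le
  w15 k := by
    simp only [aux]
    generalize k - 2 * B * (B + 5) = j
    obtain ⟨b0, b1, b2, -⟩ := h.lv j
    have e1 := lt_tw (8 * zz B h0 j)
    have e3 := cst (by omega : 9 ≤ 2 * tw (8 * zz B h0 j))
    rw [show (512 : ℝ) = pw (9 : ℕ) by rw [pw_nat]; norm_num]
    push_cast at e3 ⊢
    exact pw_mono e3
  w16 k hk := by
    have a := h.j16 (le_trans (Nat.le_add_right _ _) hk)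
    obtain ⟨b0, b1, b2, -⟩ := h.lv k
    exact pw_mono (by
      exact_mod_cast tl 1 (8 * zz B h0 (k - 2 * B * (B + 5))) (8 * zz B h0 k) (by omega))
  w17 k _ := h.tau _
  w18 k := by
    obtain ⟨b0, b1, b2, -⟩ := h.lv k
    have e0 := cst (tl 3 (8 * zz B h0 k) (8 * zz B h0 k - hh B h0 k + (hh B h0 k + 3)) (by omega))
    rw [h.th]
    refine (mle (pw_tw _ _) (pw_pow _ 5).le (pow_nonneg (pw_pos _).le _)).trans (pw_le_one ?_)
    push_cast at e0 ⊢
    linarith [Nat.cast_nonneg (α := ℝ) (tw (8 * zz B h0 k))]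
  w19 k hk := by
    have a := h.j16 (le_trans (Nat.le_add_right _ _) hk)
    obtain ⟨b0, b1, b2, -⟩ := h.lv k
    have e1 := tl 1 (8 * zz B h0 (k - 2 * B * (B + 5))) (hh B h0 k) (by omega)
    have e2 := tw_pos (8 * zz B h0 (k - 2 * B * (B + 5)))
    have e3 := tl 4 (8 * zz B h0 k) (8 * zz B h0 k + 3 * hh B h0 k) (by omega)
    have e4 := tw_pos (8 * zz B h0 k)
    have e5 := tl 0 (8 * zz B h0 k + 3 * hh B h0 k) (8 * zz B h0 k + 4 * hh B h0 k) (by omega)
    have e6 := Nat.mul_le_mul (by omega : 12 * tw (8 * zz B h0 k) + 3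
      + 2 * tw (8 * zz B h0 k + 3 * hh B h0 k) ≤ 3 * tw (8 * zz B h0 k + 3 * hh B h0 k))
      (by omega : tw (8 * zz B h0 (k - 2 * B * (B + 5))) + 1 ≤ tw (hh B h0 k))
    rw [mul_assoc 3, tw_mul, show 8 * zz B h0 k + 3 * hh B h0 k + hh B h0 k
      = 8 * zz B h0 k + 4 * hh B h0 k by omega] at e6
    have e7 := cst e6
    have e8 := cst (by omega : 5 * tw (8 * zz B h0 k) ≤ tw (8 * zz B h0 k + 4 * hh B h0 k))
    simp only [aux]
    rw [show (8 : ℝ) = pw (3 : ℕ) by rw [pw_nat]; norm_num, ← pw_zero]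
    simp only [div_eq_mul_inv, ← pw_neg, pw_pow, ← pw_add]
    push_cast at e7 e8 ⊢
    exact pw_mono (by linarith)
  q1 k j hk j1 j2 := by
    obtain ⟨b0, b1, b2, -⟩ := h.lv j
    have e0 := (zz_mono (B := B) (h0 := h0) (by omega : k + 1 ≤ j + ((aux d B h0).D + 1))).trans
      (zz_up h.B40 j _)
    have e1 : (9 * d + 3) * zz B h0 (k + 1) + 9 * (d * hh B h0 j) * (aux d B h0).mF
        ≤ zz B h0 j * (aux d B h0).mF := by
      have a1 := Nat.mul_le_mul_left (9 * d + 3) e0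
      have a2 := Nat.mul_le_mul_right (aux d B h0).mF
        (by omega : 2 * (9 * (d * hh B h0 j)) ≤ zz B h0 j)
      have a3 : (aux d B h0).mF = 2 * (2 ^ ((aux d B h0).D + 1) * (9 * d + 3)) := by
        simp only [aux]
        ring
      have a4 : 2 * ((9 * d + 3) * (2 ^ ((aux d B h0).D + 1) * zz B h0 j))
          = zz B h0 j * (aux d B h0).mF := by
        rw [a3]
        ring
      linarith
    have e2 := cst e1
    refine (pow_le_pow_left₀ (mul_nonneg (by positivity) (pw_pos _).le)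
      (mle (h.K9 j (by norm_num) le_rfl) le_rfl (pw_pos _).le) _).trans
      ((pw_pow _ _).le.trans (pw_mono ?_))
    push_cast at e2 ⊢
    linarith
  q2 k hk := by
    have a := h.j16 (le_trans (Nat.le_add_right _ _) hk)
    obtain ⟨b0, b1, b2, b3, -, -, -, b7, -⟩ := h.lv k
    obtain ⟨-, c1, c2, -, -, -, -, -, c8⟩ := h.lv (k + 1)
    have r0 := cst b0.le
    have r1 := cst b1
    have r2 := cst b2
    have t1 := (pow_le_pow_left₀ (mul_nonneg (by positivity) (pw_pos _).le)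
      (mle (h.K9 k (by norm_num) le_rfl) (le_refl ((aux d B h0).q k)) (pw_pos _).le) 2).trans
      ((pw_pow _ _).le.trans (pw_mono (y := -(zz B h0 (k + 1) : ℕ) - 2) (by
        push_cast at r0 r1 r2 ⊢
        linarith [Nat.cast_nonneg (α := ℝ) (d * hh B h0 k), Nat.cast_mul (α := ℝ) d (hh B h0 k)])))
    have u1 := cst ((by omega : (aux d B h0).D + 1 ≤ zz B h0 (k + 1)).trans (lt_tw _).le)
    rw [tw_pw] at u1
    have u0 := cst (tw_pos (8 * zz B h0 (k + 1)))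
    have r3 := cst (by omega : 2 ≤ zz B h0 (k + 1))
    have t2 := (mle u1 (mle (h.c9 (k + 1) (x := 4 * tw (8 * zz B h0 (k + 1)) + 1) (by positivity)
      (by push_cast at u0; linarith)) (le_refl ((aux d B h0).β k)) (pw_pos _).le)
      (mul_nonneg (by positivity) (pw_pos _).le)).trans
      (pw_mono (y := -(zz B h0 (k + 1) : ℕ) - 2) (by push_cast at r3 ⊢; linarith))
    have e1 := tl 1 (8 * zz B h0 (k - 2 * B * (B + 5))) (hh B h0 k) (by omega)
    have e2 := tw_pos (8 * zz B h0 (k - 2 * B * (B + 5)))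
    have v1 := cst (by omega : tw (8 * zz B h0 (k - 2 * B * (B + 5))) + 1 ≤ tw (hh B h0 k))
    have v2 := cst (by omega : 2 * tw (8 * zz B h0 (k - 2 * B * (B + 5))) ≤ tw (hh B h0 k))
    have v3 := cst (h.D0 (le_trans (Nat.le_add_right _ _) hk))
    have v4 : ((tw (3 * zz B h0 k) : ℝ))⁻¹ ≤ pw (-(3 * zz B h0 k : ℕ)) := by rw [tw_pw, pw_neg]
    rw [tw_pw (hh B h0 k)] at v1 v2
    rw [tw_pw (zz B h0 k)] at v3
    have t3 := (mle (h.K9 k (a := 4) (by norm_num) (by norm_num)) (mle v1 (mle (mle v2 v3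
      (by positivity)) v4 (by positivity)) (by positivity)) (by positivity)).trans
      (pw_mono (y := -(zz B h0 (k + 1) : ℕ) - 1) (by
        push_cast at r0 r1 r2 ⊢
        linarith [Nat.cast_nonneg (α := ℝ) (d * hh B h0 k), Nat.cast_mul (α := ℝ) d (hh B h0 k)]))
    have s1 := pw_succ (-(zz B h0 (k + 1) : ℕ) - 2)
    have s2 := pw_succ (-(zz B h0 (k + 1) : ℕ) - 1)
    rw [show (-(zz B h0 (k + 1) : ℕ) - 2 + 1 : ℝ) = -(zz B h0 (k + 1) : ℕ) - 1 by ring] at s1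
    rw [sub_add_cancel] at s2
    simp only [par, aux, div_eq_mul_inv] at t1 t2 t3 ⊢
    push_cast at t1 t2 t3 s1 s2 ⊢
    linarith

theorem Big.okF (h : Big d B h0) : OkF d (par d B h0) (aux d B h0) where
  f1 k := div_pos (pw_pos _) (by have := h.d1; positivity)
  f2 k := by
    rw [pw_half]
    exact pw_mono (neg_le_neg (cst (le_zz h.B40 h.h6 k)))
  f3 k := by
    obtain ⟨b0, b1, b2, b3, -, -, b6, b7, b8⟩ := h.lv k
    have e1 := tl 0 (zz B h0 k) (8 * zz B h0 k - 3 * hh B h0 k) (by omega)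
    have e2 := tl 2 (8 * zz B h0 k - 3 * hh B h0 k) (8 * zz B h0 k - hh B h0 k) (by omega)
    have e3 := cst (by omega : k + 18 * (d * zz B h0 k) + 2 * tw (8 * zz B h0 k - 3 * hh B h0 k) + 4
      ≤ tw (8 * zz B h0 k - hh B h0 k))
    have u0 := cst (tw_pos (8 * zz B h0 k))
    obtain ⟨a1, a2⟩ := h.MM k
    have a3 : 1 + ((par d B h0).M k + (par d B h0).γ k)
        ≤ pw (tw (8 * zz B h0 k - 3 * hh B h0 k) + 1 + 1) := by
      rw [pw_succ]
      linarith
    rw [h.th, pw_half]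
    refine (mle le_rfl ((pow_le_pow_left₀ (by positivity) (mle (h.c9 k (by positivity) (by
      simp only [par]
      push_cast at u0 ⊢
      linarith)) a3 (by linarith)) 2).trans (pw_pow _ _).le) (by positivity)).trans (pw_mono ?_)
    push_cast at e3 ⊢
    linarith

theorem Big.ok0 (h : Big d B h0) {r : ℕ} (r8 : 8 ∣ r)
    (hr : 32 * (10 * d * (2 ^ (aux d B h0).D * (B * h0))) ≤ r) (hr2 : 512 * d ^ 2 * r ^ 2 ≤ tw h0) :
    Ok0 d (par d B h0) (aux d B h0) r := by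
  have r1 : 1 ≤ r := by
    refine le_trans (Nat.succ_le_of_lt ?_) hr
    have := h.d1
    have := h.B40
    have : 0 < h0 := by have := h.h6; omega
    positivity
  have d1 : (1 : ℝ) ≤ d := by exact_mod_cast h.d1
  have r1' : (1 : ℝ) ≤ r := by exact_mod_cast r1
  have hZ : ∀ k, (512 * d ^ 2 * r ^ 2 : ℝ) ≤ tw (hh B h0 k) := fun k => by
    exact_mod_cast hr2.trans (by simpa using tl 0 _ _ (by simpa using hh_ge h.B40 k))
  have hV : ∀ k, (2 * (2 * (par d B h0).c k : ℕ) + 1 : ℝ) ^ d ≤ pw (9 * (d * zz B h0 k : ℕ)) :=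
    fun k => h.c9 k (by positivity) (by
      have u0 := cst (tw_pos (8 * zz B h0 k))
      simp only [par]
      push_cast at u0 ⊢
      linarith)
  have hd : ∀ k, (32 * d * r ^ 2 : ℝ) * (2 * d) ≤ pw (hh B h0 k) := fun k => by
    rw [← tw_pw]
    nlinarith [hZ k, show (0 : ℝ) ≤ d ^ 2 * r ^ 2 by positivity]
  refine ⟨r1, r8, fun k _ => ?_, fun k _ => ?_, fun k _ => ?_, fun k hk => ?_⟩
  · obtain ⟨b0, b1, b2, b3, -, -, b6, b7, b8⟩ := h.lv k
    have e1 := tl 0 (zz B h0 k) (8 * zz B h0 k - hh B h0 k) (by omega)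
    have e3 := cst (by omega : hh B h0 k + 9 * (d * zz B h0 k) ≤ tw (8 * zz B h0 k - hh B h0 k))
    have e4 : (tw (8 * zz B h0 k) : ℝ) = tw (8 * zz B h0 k - hh B h0 k) * tw (hh B h0 k) := by
      rw [← Nat.cast_mul, tw_mul, Nat.sub_add_cancel (by omega)]
    have e5 : Real.exp (-(1 / (256 * d ^ 2 * r ^ 2)) * (par d B h0).c k)
        ≤ pw (-(2 * tw (8 * zz B h0 k - hh B h0 k))) := by
      rw [neg_mul]
      refine (exp_le_pw (by positivity)).trans (pw_mono (neg_le_neg ?_))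
      rw [one_div_mul_eq_div, le_div_iff₀ (by positivity)]
      simp only [par]
      rw [e4]
      nlinarith [mul_le_mul_of_nonneg_left (hZ k)
        (Nat.cast_nonneg (tw (8 * zz B h0 k - hh B h0 k)))]
    refine (le_div_iff₀ (by positivity)).2 ?_
    rw [mul_right_comm]
    refine (mle (hd k) (mle (hV k) e5 (by positivity)) (by positivity)).trans (pw_mono ?_)
    push_cast at e3 ⊢
    linarith
  · obtain ⟨b0, b1, b2, b3, -, -, b6, b7, b8⟩ := h.lv k
    have e1 := tl 0 (zz B h0 k) (8 * zz B h0 k - 3 * hh B h0 k) (by omega)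
    have e3 := cst (by omega : hh B h0 k + 9 * (d * zz B h0 k) ≤ tw (8 * zz B h0 k - 3 * hh B h0 k))
    refine (mle ((le_mul_of_one_le_right (by positivity) (by linarith)).trans (hd k)) (hV k)
      (by positivity)).trans (pw_mono ?_)
    push_cast at e3 ⊢
    linarith
  · obtain ⟨b0, b1, b2, -⟩ := h.lv k
    have e1 := tl 3 (7 * zz B h0 k) (8 * zz B h0 k - 1) (by omega)
    simp only [par]
    omega
  · obtain ⟨b0, b1, b2, b3, -, -, b6, b7, b8⟩ := h.lv k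
    have e0 := (zz_mono (B := B) (h0 := h0) (by omega : k ≤ 0 + (aux d B h0).D)).trans
      (zz_up h.B40 0 _)
    have e1 : 32 * (10 * (d * zz B h0 k)) ≤ r ^ d := by
      refine le_trans ?_ (hr.trans (Nat.le_self_pow (by have := h.d1; omega) r))
      rw [← mul_assoc 10]
      exact Nat.mul_le_mul_left _ (Nat.mul_le_mul_left _ e0)
    have e2 := cst e1
    have e3 := cst b7
    have u0 := cst (tw_pos (8 * zz B h0 k))
    rw [neg_div]
    refine (mle (h.c9 k (by positivity) (by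
      simp only [par]
      push_cast at u0 ⊢
      linarith)) (exp_le_pw (by positivity)) (by positivity)).trans (pw_mono ?_)
    push_cast at e2 e3 ⊢
    linarith

theorem exists_par (hd : 1 ≤ d) :
    ∃ (P : Par) (X : Aux) (r : ℕ), Ok d P X ∧ Ok0 d P X r ∧ OkF d P X := by
  set B := 20 * d + 20 with hB
  set D := (aux d B 0).D with hD
  set C := 512 * d ^ 2 * (32 * (10 * d * (2 ^ D * B))) ^ 2 with hC
  set N := ((aux d B 0).mF * 17 ^ d) ^ (D + 1) with hN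
  have h : Big d B (6 * B + C + N) := ⟨hd, le_rfl, by omega⟩
  refine ⟨par d B (6 * B + C + N), aux d B (6 * B + C + N),
    32 * (10 * d * (2 ^ D * (B * (6 * B + C + N)))), h.ok ?_,
    h.ok0 (Dvd.dvd.mul_right (by norm_num) _) le_rfl ?_, h.okF⟩
  · exact (Nat.le_add_left N _).trans (lt_tw _).le
  · refine le_trans ?_ (cube_le (by omega))
    calc _ = C * (6 * B + C + N) ^ 2 := by rw [hC]; ring
      _ ≤ (6 * B + C + N) * (6 * B + C + N) ^ 2 := Nat.mul_le_mul_right _ (by omega)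
      _ = _ := by ring

theorem main4 (hd : 1 ≤ d) : ∃ δ : ℝ, 0 < δ ∧
    ∀ᵐ ω ∂(PP d), ∀ H : L2 d →L[ℂ] L2 d, IsOp ω H → ∀ (ψ : L2 d) (μ : MeasureTheory.Measure ℝ),
      MeasureTheory.IsFiniteMeasure μ →
      (∀ z : ℂ, z.im ≠ 0 → ∫ x : ℝ, ((x : ℂ) - z)⁻¹ ∂μ = inner ℂ ψ (GG H z ψ)) →
      (μ.restrict (Set.Icc (-1) (-1 + δ) ∪ Set.Icc (4 * d + 1 - δ) (4 * d + 1))).MutuallySingular
        MeasureTheory.volume := by
  obtain ⟨P, X, r, h, h0, hF⟩ := exists_par hd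
  have d1 : (1 : ℝ) ≤ d := by exact_mod_cast hd
  have r1 : (1 : ℝ) ≤ r := by exact_mod_cast h0.r1
  refine ⟨1 / (64 * d * r ^ 2), by positivity, main3 hd h h0 hF ?_ le_rfl⟩
  rw [div_le_one (by positivity)]
  nlinarith [one_le_mul_of_one_le_of_one_le d1 (one_le_pow₀ (n := 2) r1)]

end Pool.Agent.P.MP_d0f69c_mp
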