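import Pool.Agent.P.MP_d0f69c_mp.Params2
import Pool.Agent.P.MP_d0f69c_mp.PP3

set_option autoImplicit false

namespace Pool.Agent.P.MP_d0f69c_mp

/-- exponent of the mesh -/
def AA (B h0 k : ℕ) : ℕ := tw (8 * zz B h0 k - hh B h0 k) + tw (8 * zz B h0 k - 3 * hh B h0 k) + 1

/-- the parameters of the energy reduction -/
noncomputable def aux2 (d B h0 : ℕ) (s : ℝ) : Aux2 where
  η k := pw (-(AA B h0 k : ℕ))
  θ k := pw (1 - (tw (8 * zz B h0 k - hh B h0 k) : ℕ))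
  S k := tw (8 * hh B h0 k - 3)
  Z k := pw (AA B h0 k + d + 4 : ℕ)
  m0 := 2 ^ (2 * B * 2) * (36 * d + 8)
  N1 := 2 * B * 2
  N2 := 2 * B * (2 * B)
  mF := 2 * (10 * d * (2 * B * (2 * B) + 1) + 9 * d * 2 ^ (2 * B * (2 * B)) + 2 * B * (2 * B) + 2)
  CR := 6 * (2 ^ (2 * B * 2) * (36 * d + 8)) + 7
  Bc a := tw (10 * (d * zz B h0 a))
  G k := pw (tw (8 * zz B h0 k - 3 * hh B h0 k) + 2)
  β a := pw (-(zz B h0 a : ℕ) / 2 * (2 * (10 * d * (2 * B * (2 * B) + 1)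
    + 9 * d * 2 ^ (2 * B * (2 * B)) + 2 * B * (2 * B) + 2) : ℕ))
  V j := pw (9 * zz B h0 (j + 2 * B * 2) : ℕ)
  W k := pw (8 * zz B h0 k + 9 * hh B h0 k : ℕ)
  s := s

variable {d B h0 : ℕ}

lemma Big.cc (h : Big d B h0) (k : ℕ) {a x : ℕ} (ha : a + 1 ≤ tw h0) :
    a * tw x + 1 ≤ tw (x + hh B h0 k) := by
  have e := tl 0 h0 (hh B h0 k) (by simpa using hh_ge h.B40 k)
  have := tw_pos x
  rw [← tw_mul]
  nlinarith

lemma Big.KQ (h : Big d B h0) (k : ℕ) {a : ℕ} (ha : a + 1 ≤ tw h0) :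
    ((a : ℝ) * (aux d B h0).K k + 1) ^ d * (aux d B h0).q k ≤ pw (-(zz B h0 k : ℕ) / 2) := by
  obtain ⟨-, b1, -⟩ := h.lv k
  have e := cst (h.cc k (x := 8 * hh B h0 k) ha)
  have r1 := cst b1
  rw [tw_pw] at e
  push_cast at e r1
  refine (mle ((pow_le_pow_left₀ (by positivity) e d).trans (pw_pow _ _).le) le_rfl
    (pw_pos _).le).trans (pw_mono ?_)
  nlinarith [Nat.cast_nonneg (α := ℝ) (hh B h0 k), Nat.cast_nonneg (α := ℝ) d]

lemma Big.mm_mono (h : Big d B h0) {j k : ℕ} (hjk : j ≤ k) :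
    tw (8 * zz B h0 j - 3 * hh B h0 j) ≤ tw (8 * zz B h0 k - 3 * hh B h0 k) :=
  monotone_nat_of_le_succ (f := fun k => tw (8 * zz B h0 k - 3 * hh B h0 k)) (fun k => by
    obtain ⟨b0, b1, b2, b3, b4, b5, -⟩ := h.lv k
    simpa using tl 0 _ _ (by omega)) hjk

theorem Big.ok2 (h : Big d B h0) {s : ℝ} (s0 : 0 ≤ s) (s1 : s ≤ 1) (s2 : 2 ≤ (1 - s) * B)
    (hC : 2 * ((aux2 d B h0 s).CR + 8) + 1 ≤ tw h0)
    (hC2 : ((aux2 d B h0 s).N2 + 1) * ((2 * ((aux2 d B h0 s).CR + 8) + 1) ^ d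
      * ((aux2 d B h0 s).mF * 17 ^ d) ^ ((aux2 d B h0 s).N2 + 1)) ≤ tw h0) :
    Ok2 d (par d B h0) (aux d B h0) (aux2 d B h0 s) := by
  have up : ∀ j k, j ≤ k → 63 * (d * zz B h0 (j + 2 * B * 2)) ≤ tw (zz B h0 k + hh B h0 k) := by
    intro j k hjk
    have e0 := (zz_up (h0 := h0) h.B40 j (2 * B * 2)).trans (Nat.mul_le_mul_left _ (zz_mono hjk))
    have e1 := h.cc k (x := zz B h0 k) hC
    have e2 := lt_tw (zz B h0 k)
    simp only [aux2] at e1
    generalize 2 ^ (2 * B * 2) = N at e0 e1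
    have e3 := Nat.mul_le_mul_left (63 * d) (e0.trans (Nat.mul_le_mul_left N e2.le))
    nlinarith [Nat.zero_le (N * tw (zz B h0 k)), Nat.zero_le (d * N * tw (zz B h0 k))]
  have q0 : ∀ k, 0 ≤ (aux d B h0).q k := fun k => (pw_pos _).le
  refine ⟨fun k => pw_pos _, fun k => ?η1, fun k => ?θ1, fun k => ?θ2, fun k => ?S1, ?N0, ?F0, rfl,
    fun j => ?r0, fun j => ?V1, fun k => ?W1, fun j k hjk => ?n1, fun j => ?p0, fun j k hjk => ?p1,
    fun a => ?c1, fun k j hj => ?G1, fun k => ?G2, fun k => ?G3, fun k => ?G4, fun a j hj => ?β1,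
    fun a t ht => ?p2, fun a => ?p3, fun k => ?n2, s0, fun k => ?n3⟩
  case η1 =>
    obtain ⟨b0, b1, b2, b3, b4, b5, -⟩ := h.lv k
    have e1 := h.mm_mono (Nat.le_add_right k 1)
    have e2 := tl 0 (8 * zz B h0 k - hh B h0 k) (8 * zz B h0 (k + 1) - hh B h0 (k + 1)) (by omega)
    exact pw_mono (neg_le_neg (cst (by unfold AA; omega)))
  case θ1 =>
    have e := (mle (h.MM k).2 (le_refl (pw (-(AA B h0 k : ℕ)))) (pw_pos _).le).trans
      (pw_mono (y := -(tw (8 * zz B h0 k - hh B h0 k) : ℕ)) (by unfold AA; push_cast; linarith))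
    rw [h.th]
    simp only [aux2]
    rw [sub_eq_neg_add, pw_succ]
    linarith
  case θ2 =>
    obtain ⟨b0, b1, b2, -⟩ := h.lv k
    have e1 := tl 1 0 (8 * zz B h0 k - hh B h0 k) (by omega)
    have e2 := cst (le_trans (by norm_num [tw] : 2 ≤ 2 ^ 1 * tw 0) e1)
    rw [show (1 / 2 : ℝ) = (1 / 2) ^ 1 by norm_num, pw_half]
    exact pw_mono (by push_cast at e2 ⊢; linarith)
  case S1 =>
    obtain ⟨b0, b1, b2, -⟩ := h.lv k
    have e1 := tl 3 (8 * hh B h0 k - 3 + 8 * zz B h0 k) (8 * zz B h0 (k + 1)) (by omega)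
    have e2 := tl 0 (8 * hh B h0 k - 3) (8 * hh B h0 k - 3 + 8 * zz B h0 k) (by omega)
    have e3 := tl 0 (8 * zz B h0 k) (8 * hh B h0 k - 3 + 8 * zz B h0 k) (by omega)
    simp only [par, aux2, tw_41]
    omega
  case N0 => have := h.B40; simp only [aux2]; omega
  case F0 => simp only [aux2]; omega
  case r0 =>
    obtain ⟨b0, b1, b2, -⟩ := h.lv j
    have e0 := zz_dbl h.B40 h.h6 j 2
    have e1 := tl 3 (8 * zz B h0 j + 8 * zz B h0 (j + 1)) (8 * zz B h0 (j + 2 * B * 2)) (by omega)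
    have e2 := tl 0 (8 * zz B h0 j) (8 * zz B h0 j + 8 * zz B h0 (j + 1)) (by omega)
    have e3 := tl 0 (8 * zz B h0 (j + 1)) (8 * zz B h0 j + 8 * zz B h0 (j + 1)) (by omega)
    simp only [par, aux2, add_mul, mul_assoc 3, tw_mul]
    omega
  case V1 =>
    obtain ⟨b0, b1, b2, -⟩ := h.lv (j + 2 * B * 2)
    have e1 := h.cc (j + 2 * B * 2) (x := 8 * zz B h0 (j + 2 * B * 2))
      (a := 2 * ((aux2 d B h0 s).CR + 1)) (by omega)
    have e2 := tl 0 (8 * zz B h0 (j + 2 * B * 2) + hh B h0 (j + 2 * B * 2))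
      (9 * zz B h0 (j + 2 * B * 2)) (by omega)
    have e3 := cst (e1.trans (by simpa using e2))
    rw [tw_pw (9 * _), mul_assoc] at e3
    exact_mod_cast e3
  case W1 =>
    obtain ⟨b0, -⟩ := h.lv k
    have e1 := cst (h.cc k (x := 8 * zz B h0 (k + 1)) hC)
    rw [tw_pw (_ + _), mul_assoc, show 8 * zz B h0 (k + 1) + hh B h0 k
      = 8 * zz B h0 k + 9 * hh B h0 k by omega] at e1
    exact_mod_cast e1
  case n1 =>
    obtain ⟨b0, b1, b2, b3, b4, -, -, -, b8⟩ := h.lv k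
    obtain ⟨-, -, -, -, -, -, -, c7, -⟩ := h.lv (j + 2 * B * 2)
    have e0 := up j k hjk
    have e1 := tl 3 (8 * zz B h0 k + 7 * hh B h0 k - 6)
      (8 * zz B h0 k - hh B h0 k + (8 * hh B h0 k - 3)) (by omega)
    have e2 := tl 1 (8 * hh B h0 k - 3) (8 * zz B h0 k - hh B h0 k + (8 * hh B h0 k - 3)) (by omega)
    have e3 := tl 0 (8 * zz B h0 (k + 1) - hh B h0 (k + 1)) (8 * zz B h0 k + 7 * hh B h0 k - 6)
      (by omega)
    have e4 := tl 0 (8 * zz B h0 (k + 1) - 3 * hh B h0 (k + 1)) (8 * zz B h0 k + 7 * hh B h0 k - 6)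
      (by omega)
    have e5 := tl 0 (zz B h0 k + hh B h0 k) (8 * zz B h0 k + 7 * hh B h0 k - 6) (by omega)
    have e6 := lt_tw (8 * zz B h0 k + 7 * hh B h0 k - 6)
    have e7 := cst (by unfold AA; omega : 27 * (d * zz B h0 (j + 2 * B * 2))
      + 36 * zz B h0 (j + 2 * B * 2) + 2 * d + 2 + 2 * tw (8 * hh B h0 k - 3) + 2 * AA B h0 (k + 1) + j
      ≤ 2 * tw (8 * zz B h0 k - hh B h0 k + (8 * hh B h0 k - 3)))
    rw [← tw_mul] at e7
    simp only [aux2]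
    rw [pw_half, pw_pow, pw_pow, pw_pow, pw_pow, ← pw_add, ← pw_add]
    refine (mle le_rfl ((pow_le_pow_left₀ (mul_nonneg (by positivity) (pw_pos _).le)
      (mle (mle two_pw (nat_le_pw d) (by positivity)) le_rfl (pw_pos _).le) 2).trans (pw_pow _ _).le)
      (sq_nonneg _)).trans (pw_mono ?_)
    push_cast at e7 ⊢
    linarith
  case p0 =>
    obtain ⟨b0, b1, b2, b3, b4, -, -, -, b8⟩ := h.lv j
    have e0 := up j j le_rfl
    have e1 := tl 0 (8 * zz B h0 j - hh B h0 j) (8 * zz B h0 j) (by omega)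
    have e2 := tl 0 (8 * zz B h0 j - 3 * hh B h0 j) (8 * zz B h0 j) (by omega)
    have e3 := tl 0 (zz B h0 j + hh B h0 j) (8 * zz B h0 j) (by omega)
    have e4 := lt_tw (8 * zz B h0 j)
    have e5 := Nat.mul_le_mul_right (tw (8 * zz B h0 j)) (by omega : 16 ≤ zz B h0 j)
    have e7 := cst (by unfold AA; omega : 2 * (AA B h0 j + d + 4 + 9 * (d * zz B h0 (j + 2 * B * 2)) + j)
      ≤ zz B h0 j * tw (8 * zz B h0 j))
    have := q0 j
    rw [pw_half]
    refine (mle le_rfl (mle (pw_pow _ _).le ((pow_le_pow_left₀ (by positivity)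
      (h.KQ j (a := 10) (by omega)) _).trans (pw_pow _ _).le) (by positivity))
      (mul_nonneg (pow_nonneg (pw_pos _).le _) (by positivity))).trans (pw_mono ?_)
    simp only [par]
    push_cast at e7 ⊢
    linarith
  case p1 =>
    obtain ⟨b0, b1, b2, b3, b4, -, -, -, b8⟩ := h.lv k
    have e0 := (zz_up (h0 := h0) h.B40 j (2 * B * 2)).trans (Nat.mul_le_mul_left _ (zz_mono hjk))
    have e1 : 36 * (d * zz B h0 (j + 2 * B * 2)) + 6 + 2 * j ≤ zz B h0 k * (aux2 d B h0 s).m0 := by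
      have := Nat.mul_le_mul_left (36 * d) e0
      have := Nat.mul_le_mul_right (8 * zz B h0 k) (Nat.one_le_two_pow (n := 2 * B * 2))
      have : 6 + 2 * j ≤ 8 * zz B h0 k := by omega
      simp only [aux2]
      linarith
    have e7 := cst e1
    have := q0 k
    have five : (5 : ℝ) ≤ pw (3 : ℕ) := by rw [pw_nat]; norm_num
    rw [pw_half]
    refine (mle (mle (pw_pow _ _).le five (by norm_num)) (mle (pw_pow _ _).le
      ((pow_le_pow_left₀ (by positivity) (h.KQ k (a := 10) (by omega)) _).trans (pw_pow _ _).le)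
      (by positivity)) (mul_nonneg (pow_nonneg (pw_pos _).le _) (by positivity))).trans (pw_mono ?_)
    push_cast at e7 ⊢
    linarith
  case c1 =>
    obtain ⟨b0, b1, b2, b3, b4, -, -, b7, b8⟩ := h.lv a
    have e1 := h.cc a (x := 8 * zz B h0 a) (a := 2 * ((aux2 d B h0 s).CR + 6)) (by omega)
    have e2 := tl 0 (8 * zz B h0 a + hh B h0 a) (9 * zz B h0 a) (by omega)
    have e3 : (2 * ((aux2 d B h0 s).CR * tw (8 * zz B h0 a) + 6 * tw (8 * zz B h0 a)) + 1) ^ d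
        ≤ tw (9 * zz B h0 a) ^ d := Nat.pow_le_pow_left (by linarith) d
    have e4 : (4 * tw (8 * zz B h0 a) + 1) ^ d ≤ tw (9 * zz B h0 a) ^ d :=
      Nat.pow_le_pow_left (by nlinarith [Nat.zero_le ((aux2 d B h0 s).CR * tw (8 * zz B h0 a))]) d
    have e5 := Nat.mul_le_mul (hC2.trans (by simpa using tl 0 _ _ (by simpa using hh_ge h.B40 a))) e4
    rw [tw_pow, mul_assoc 9, mul_comm (zz _ _ _)] at e3 e5
    rw [tw_mul, mul_assoc] at e5
    have e6 := tl 0 (9 * (d * zz B h0 a)) (hh B h0 a + 9 * (d * zz B h0 a)) (by omega)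
    have e7 := tl 4 (hh B h0 a + 9 * (d * zz B h0 a)) (10 * (d * zz B h0 a)) (by omega)
    change _ ≤ tw (10 * (d * zz B h0 a))
    simp only [par]
    omega
  case G1 =>
    have e1 := cst (h.mm_mono hj)
    refine (mle two_pw (h.MM j).2 (by linarith [(h.MM j).1])).trans (pw_mono ?_)
    linarith
  case G2 =>
    obtain ⟨b0, b1, b2, -⟩ := h.lv k
    have e1 := cst (le_trans (by omega : 7 ≤ 8 * zz B h0 k - 3 * hh B h0 k) (lt_tw _).le)
    rw [show (512 : ℝ) = pw (9 : ℕ) by rw [pw_nat]; norm_num]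
    exact pw_mono (by push_cast at e1 ⊢; linarith)
  case G3 =>
    obtain ⟨b0, b1, b2, b3, -, -, b6, b7, -⟩ := h.lv k
    have e1 := tl 0 (zz B h0 k) (8 * zz B h0 k - 3 * hh B h0 k) (by omega)
    have e2 := cst (by omega : 8 * (d * zz B h0 k) + 9 * (d * hh B h0 k)
      ≤ tw (8 * zz B h0 k - 3 * hh B h0 k))
    refine (pw_pow _ _).le.trans (pw_mono ?_)
    push_cast at e2 ⊢
    linarith
  case G4 =>
    obtain ⟨b0, b1, b2, -⟩ := h.lv k
    have e1 := tl 4 (8 * zz B h0 k - 3 * hh B h0 k) (8 * zz B h0 k - hh B h0 k) (by omega)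
    have e2 := tw_pos (8 * zz B h0 k - 3 * hh B h0 k)
    have e3 := cst (by unfold AA; omega : 4 * tw (8 * zz B h0 k - 3 * hh B h0 k) + 11 ≤ AA B h0 k)
    have five : (5 : ℝ) ≤ pw (3 : ℕ) := by rw [pw_nat]; norm_num
    simp only [aux2]
    rw [pw_pow, one_div, ← pw_neg, ← pw_succ]
    refine (mle five le_rfl (pw_pos _).le).trans (pw_mono ?_)
    push_cast at e3 ⊢
    linarith
  case β1 =>
    have := q0 j
    have e1 := cst (zz_mono (B := B) (h0 := h0) hj)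
    refine (pow_le_pow_left₀ (by positivity) (h.KQ j (a := 6) (by omega)) _).trans
      ((pw_pow _ _).le.trans (pw_mono (mul_le_mul_of_nonneg_right (by linarith) (Nat.cast_nonneg _))))
  case p2 =>
    obtain ⟨b0, b1, b2, b3, -, -, -, b7, b8⟩ := h.lv a
    obtain ⟨-, c1, -, -, -, -, -, c7, -⟩ := h.lv (a + t)
    have e0 := (zz_mono (B := B) (h0 := h0) (Nat.add_le_add_left ht a)).trans (zz_up h.B40 a _)
    have e1 : 2 * (10 * (d * zz B h0 a) * (t + 1) + (t + 1) + (8 * (d * zz B h0 (a + t))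
        + 9 * (d * hh B h0 (a + t))) + a) ≤ zz B h0 a * (aux2 d B h0 s).mF := by
      simp only [aux2] at e0 ht ⊢
      generalize 2 * B * (2 * B) = N at e0 ht ⊢
      have a1 := Nat.mul_le_mul_left (18 * d) e0
      have a2 := Nat.mul_le_mul_left (20 * (d * zz B h0 a)) ht
      have a3 := Nat.mul_le_mul_left (N + 1) (by omega : 1 ≤ zz B h0 a)
      linarith
    have e7 := cst e1
    have e8 := nat_le_pw (t + 1)
    have β0 : 0 ≤ (aux2 d B h0 s).β a := (pw_pos _).le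
    have W0 : 0 ≤ (aux2 d B h0 s).W (a + t) := (pw_pos _).le
    push_cast at e8
    rw [pw_half]
    refine (mle ((pow_le_pow_left₀ (Nat.cast_nonneg _) (tw_pw _).le _).trans (pw_pow _ _).le)
      (mle e8 (mle (pw_pow _ _).le le_rfl β0) (by positivity)) (by positivity)).trans (pw_mono ?_)
    rw [Nat.cast_mul (zz B h0 a)] at e7
    change _ ≤ (zz B h0 a : ℝ) * ((2 * (10 * d * (2 * B * (2 * B) + 1)
      + 9 * d * 2 ^ (2 * B * (2 * B)) + 2 * B * (2 * B) + 2) : ℕ) : ℝ) at e7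
    generalize ((2 * (10 * d * (2 * B * (2 * B) + 1)
      + 9 * d * 2 ^ (2 * B * (2 * B)) + 2 * B * (2 * B) + 2) : ℕ) : ℝ) = m at e7 ⊢
    push_cast at e7 ⊢
    linarith
  case p3 =>
    obtain ⟨b0, b1, b2, b3, -, -, -, b7, b8⟩ := h.lv a
    have e0 := zz_dbl h.B40 h.h6 a (2 * B)
    have e1 : 2 * (10 * (d * zz B h0 a) * (2 * B * (2 * B) + 1) + a)
        ≤ zz B h0 (a + 2 * B * (2 * B)) := by
      have a0 := h.B40
      have a1 := Nat.mul_le_mul_right (zz B h0 a) (cube_le (x := 2 * B) (by omega))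
      have a2 := Nat.mul_le_mul_right (zz B h0 a * (2 * B * (2 * B) + 1))
        (by have := h.hB; omega : 20 * d ≤ B)
      have a3 : B + 2 ≤ B ^ 3 := by nlinarith [Nat.mul_le_mul a0 a0]
      have a4 := Nat.mul_le_mul_right (zz B h0 a) a3
      nlinarith [Nat.zero_le (B ^ 3 * zz B h0 a)]
    have e7 := cst e1
    have e2 := h.KQ (a + 2 * B * (2 * B)) hC
    have := q0 (a + (aux2 d B h0 s).N2)
    rw [pw_half]
    rw [Nat.cast_mul, mul_assoc] at e2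
    refine (mle ((pow_le_pow_left₀ (Nat.cast_nonneg _) (tw_pw _).le _).trans (pw_pow _ _).le)
      (by exact_mod_cast e2) (by positivity)).trans (pw_mono ?_)
    simp only [aux2]
    push_cast at e7 ⊢
    linarith
  case n2 =>
    obtain ⟨b0, b1, b2, b3, -, -, b6, b7, b8⟩ := h.lv k
    have e1 := tl 2 (zz B h0 k) (8 * zz B h0 k - hh B h0 k) (by omega)
    have e2 := cst (by omega : 24 * (d * zz B h0 k) + 27 * (d * hh B h0 k) + 32 * zz B h0 k
      + 36 * hh B h0 k + 2 + k ≤ 2 * tw (8 * zz B h0 k - hh B h0 k))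
    simp only [aux2]
    rw [pw_half, pw_pow, pw_pow, ← pw_add, pw_pow, ← pw_add]
    refine pw_mono ?_
    push_cast at e2 ⊢
    linarith
  case n3 =>
    obtain ⟨b0, b1, b2, b3, -, -, b6, b7, b8⟩ := h.lv k
    have e1 := tl 0 (zz B h0 k) (8 * zz B h0 k - hh B h0 k - 2) (by omega)
    have e2 := tl 2 (8 * zz B h0 k - hh B h0 k - 2) (8 * zz B h0 k - hh B h0 k) (by omega)
    have e3 := cst (by omega : 8 * (d * zz B h0 k) + 9 * (d * hh B h0 k) + 16 * zz B h0 k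
      + 18 * hh B h0 k + 1 + 2 * tw (8 * zz B h0 k - hh B h0 k - 2) ≤ tw (8 * zz B h0 k - hh B h0 k))
    have e4 : pw (8 * zz B h0 k + 9 * hh B h0 k : ℕ) ^ s ≤ tw (8 * zz B h0 k - hh B h0 k - 2) := by
      rw [tw_pw, pw, ← Real.rpow_mul (by norm_num)]
      refine pw_mono ?_
      have a1 := cst (zz_ge (B := B) (h0 := h0) k)
      have a2 := cst b2
      have a3 : ((8 * zz B h0 k - hh B h0 k - 2 : ℕ) : ℝ) = 8 * zz B h0 k - hh B h0 k - 2 := by
        rw [Nat.cast_sub (by omega), Nat.cast_sub (by omega)]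
        push_cast
        rfl
      rw [a3]
      push_cast at a1 a2 ⊢
      nlinarith [mul_le_mul_of_nonneg_left a1 (sub_nonneg.2 s1),
        mul_le_mul_of_nonneg_right s2 (Nat.cast_nonneg (hh B h0 k))]
    simp only [aux2]
    rw [pw_pow, ← pw_add]
    refine (pw_mono (y := -(2 * tw (8 * zz B h0 k - hh B h0 k - 2))) ?_).trans ?_
    · push_cast at e3 ⊢
      linarith
    · rw [pw, Real.rpow_def_of_pos (by norm_num), Real.exp_le_exp]
      nlinarith [Real.log_two_gt_d9, Nat.cast_nonneg (α := ℝ) (tw (8 * zz B h0 k - hh B h0 k - 2))]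

theorem exists_par2 (hd : 1 ≤ d) {s : ℝ} (s0 : 0 ≤ s) (s1 : s < 1) :
    ∃ (P : Par) (X : Aux) (Y : Aux2) (r : ℕ) (A : ℕ → ℕ), Ok d P X ∧ Ok0 d P X r ∧ Ok2 d P X Y ∧
      Y.s = s ∧ (∀ k, 0 ≤ X.q k) ∧ ∀ k, Y.η k = pw (-(A k : ℕ)) ∧ Y.Z k = pw (A k + d + 4 : ℕ) ∧
        Y.η k ≤ 1 / (128 * d * r ^ 2) := by
  obtain ⟨B0, hB0⟩ := exists_nat_ge (2 / (1 - s))
  set B := 20 * d + 20 + B0 with hB
  set D := (aux d B 0).D with hD
  set C := 512 * d ^ 2 * (32 * (10 * d * (2 ^ D * B))) ^ 2 with hC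
  set N := ((aux d B 0).mF * 17 ^ d) ^ (D + 1) with hN
  set N1 := 2 * ((aux2 d B 0 s).CR + 8) + 1 with hN1
  set N2 := ((aux2 d B 0 s).N2 + 1) * ((2 * ((aux2 d B 0 s).CR + 8) + 1) ^ d
      * ((aux2 d B 0 s).mF * 17 ^ d) ^ ((aux2 d B 0 s).N2 + 1)) with hN2
  set h0 := 6 * B + C + N + N1 + N2 with hh0
  have h : Big d B h0 := ⟨hd, by omega, by omega⟩
  have l := lt_tw h0
  have hr : 512 * d ^ 2 * (32 * (10 * d * (2 ^ D * (B * h0)))) ^ 2 ≤ tw h0 := by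
    refine le_trans ?_ (cube_le (by omega))
    calc _ = C * h0 ^ 2 := by rw [hC]; ring
      _ ≤ h0 * h0 ^ 2 := Nat.mul_le_mul_right _ (by omega)
      _ = _ := by ring
  have o0 := h.ok0 (r := 32 * (10 * d * (2 ^ D * (B * h0)))) (Dvd.dvd.mul_right (by norm_num) _)
    le_rfl hr
  refine ⟨par d B h0, aux d B h0, aux2 d B h0 s, _, AA B h0, h.ok (show N ≤ _ by omega), o0,
    h.ok2 s0 s1.le ?_ (show N1 ≤ _ by omega) (show N2 ≤ _ by omega), rfl, fun k => (pw_pos _).le,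
    fun k => ⟨rfl, rfl, ?_⟩⟩
  · rw [div_le_iff₀ (by linarith)] at hB0
    have : (B0 : ℝ) ≤ B := cst (by omega)
    nlinarith
  · have r1 := cst o0.r1
    generalize 32 * (10 * d * (2 ^ D * (B * h0))) = r at hr r1 ⊢
    obtain ⟨b0, b1, -⟩ := h.lv k
    have e1 := hh_ge (h0 := h0) h.B40 k
    have e2 := lt_tw (8 * zz B h0 k - hh B h0 k)
    have e3 := cst (hr.trans (by simpa using tl 0 h0 (AA B h0 k) (by unfold AA; omega)))
    have d1 := cst hd
    rw [tw_pw] at e3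
    push_cast at e3 r1 d1
    simp only [aux2]
    rw [pw_neg, ← one_div]
    refine one_div_le_one_div_of_le (by positivity) (le_trans ?_ e3)
    nlinarith [mul_le_mul_of_nonneg_right d1 (by positivity : (0 : ℝ) ≤ d * r ^ 2),
      (by positivity : (0 : ℝ) ≤ d * r ^ 2)]

open MeasureTheory Finset in
theorem stepA2 (hd : 1 ≤ d) {s : ℝ} (s0 : 0 ≤ s) (s1 : s < 1) : ∃ δ : ℝ, 0 < δ ∧ δ ≤ 1 ∧
    ∀ᵐ ω ∂(PP d), ∀ E ∈ Set.Icc (-1) (-1 + δ) ∪ Set.Icc (4 * d + 1 - δ) (4 * d + 1),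
      ∀ (C : ℝ) (u : Zd d → ℝ), (∀ y, TV (pot ω) E u y = 0) → 0 ≤ C →
      (∀ k : ℕ, ∀ y ∈ bx (0 : Zd d) k, |u y| ≤ C * (2 * k + 1) ^ (d + 2)) →
      (Summable fun y => u y ^ 2) ∧ ∃ A : ℝ, ∀ y, |u y| ≤ A * Real.exp (-‖y‖ ^ s) := by
  classical
  obtain ⟨P, X, Y, r, A, h, h0, h2, rfl, q0, hA⟩ := exists_par2 hd s0 s1
  have d1 : (1 : ℝ) ≤ d := by exact_mod_cast hd
  have r1 : (1 : ℝ) ≤ r := by exact_mod_cast h0.r1
  set δ : ℝ := 1 / (128 * d * r ^ 2) with hδ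
  have δ0 : 0 < δ := by positivity
  have δ1 : δ ≤ 1 / 2 := by
    rw [hδ, div_le_div_iff₀ (by positivity) (by positivity)]
    nlinarith [one_le_mul_of_one_le_of_one_le d1 (one_le_pow₀ (n := 2) r1)]
  have δ2 : 2 * δ ≤ 1 / (64 * d * r ^ 2) := by
    rw [hδ]
    exact le_of_eq (by field_simp; norm_num)
  let Nt : ℕ → Finset ℤ := fun k => (Icc (-((4 * d + 1) * 2 ^ A k : ℕ) : ℤ) ((4 * d + 1) * 2 ^ A k : ℕ)).filter
    fun n => -1 ≤ n * Y.η k ∧ n * Y.η k ≤ 4 * d + 1 ∧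
      (n * Y.η k ≤ -1 + 2 * δ ∨ 4 * d + 1 - 2 * δ ≤ n * Y.η k)
  have mem : ∀ k (n : ℤ), -1 ≤ n * Y.η k → n * Y.η k ≤ 4 * d + 1 →
      (n * Y.η k ≤ -1 + 2 * δ ∨ 4 * d + 1 - 2 * δ ≤ n * Y.η k) → n ∈ Nt k := by
    intro k n n1 n2 n3
    refine mem_filter.2 ⟨?_, n1, n2, n3⟩
    rw [(hA k).1, pw_neg, pw_nat, ← div_eq_mul_inv] at n1 n2
    rw [le_div_iff₀ (by positivity)] at n1
    rw [div_le_iff₀ (by positivity)] at n2
    have n4 : -((4 * d + 1) * 2 ^ A k : ℝ) ≤ n := by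
      nlinarith [show (0 : ℝ) ≤ d * 2 ^ A k by positivity]
    exact mem_Icc.2 ⟨by exact_mod_cast n4, by exact_mod_cast n2⟩
  refine ⟨δ, δ0, by linarith, ?_⟩
  filter_upwards [stepA (i := ⟨0, hd⟩) (Nt := Nt) h h2 (fun k => by
    rw [(hA k).2.1, ← tw_pw]
    refine cst ((card_filter_le _ _).trans ?_)
    have a := lt_tw d
    have b := tw_pos (A k)
    rw [Int.card_Icc, show A k + d + 4 = d + A k + 4 by ring, ← tw_mul, ← tw_mul,
      show (2 ^ A k : ℕ) = tw (A k) from rfl, show tw 4 = 16 from rfl]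
    have c := Nat.mul_le_mul_right (tw (A k)) (Nat.succ_le_of_lt a)
    have e : (4 * d + 1) * tw (A k) + 1 + (4 * d + 1) * tw (A k) ≤ tw d * tw (A k) * 16 := by
      nlinarith
    omega) q0 fun k n hn j g => msa2 h h0 hd (mem_filter.1 hn).2.1 (mem_filter.1 hn).2.2.1
      (mem_filter.1 hn).2.2.2 δ2 j g] with ω hω E hE C u
  rcases hE with hE | hE
  · refine hω E C (fun k => ⌈E / Y.η k⌉) u fun k => ?_
    have a1 := (div_le_iff₀ (h2.η0 k)).1 (Int.le_ceil (E / Y.η k))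
    have a2 : (⌈E / Y.η k⌉ - 1 : ℝ) * Y.η k < E :=
      (lt_div_iff₀ (h2.η0 k)).1 (by linarith [Int.ceil_lt_add_one (E / Y.η k)])
    have a3 := (hA k).2.2
    exact ⟨mem k _ (by linarith [hE.1]) (by linarith [hE.2]) (Or.inl (by linarith [hE.2])),
      abs_le.2 ⟨by linarith, by linarith [h2.η0 k]⟩⟩
  · refine hω E C (fun k => ⌊E / Y.η k⌋) u fun k => ?_
    have a1 := (le_div_iff₀ (h2.η0 k)).1 (Int.floor_le (E / Y.η k))
    have a2 : E < (⌊E / Y.η k⌋ + 1 : ℝ) * Y.η k :=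
      (div_lt_iff₀ (h2.η0 k)).1 (Int.lt_floor_add_one (E / Y.η k))
    have a3 := (hA k).2.2
    exact ⟨mem k _ (by linarith [hE.1]) (by linarith [hE.2]) (Or.inr (by linarith [hE.1])),
      abs_le.2 ⟨by linarith [h2.η0 k], by linarith⟩⟩

end Pool.Agent.P.MP_d0f69c_mp
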