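import Pool.Agent.P.MP_d0f69c_mp.Bridge

set_option autoImplicit false

open Finset MeasureTheory

namespace Pool.Agent.P.MP_d0f69c_mp

variable {d : ℕ}

lemma disj_bx {g g' : Zd d} {R : ℕ} (h : (2 * R : ℝ) < dist g g') : Disjoint (bx g R) (bx g' R) := by
  rw [Finset.disjoint_left]
  intro a h1 h2
  linarith [mem_bx.1 h1, mem_bx.1 h2, dist_triangle_left g g' a]

lemma two_bad {B : Zd d → (Zd d → Bool) → Prop} {R : ℕ} {q V : ℝ} (hD : ∀ g, Dep (bx g R) (B g))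
    (hq : ∀ g, (PP d).real {ω | B g ω} ≤ q) {A : Finset (Zd d)} (hV : (A.card : ℝ) ≤ V) :
    (PP d).real {ω | ∃ g ∈ A, ∃ g' ∈ A, B g ω ∧ B g' ω ∧ (2 * R : ℝ) < dist g g'} ≤ (V * q) ^ 2 := by
  classical
  have q0 : 0 ≤ q := measureReal_nonneg.trans (hq 0)
  have V0 : 0 ≤ V := (Nat.cast_nonneg _).trans hV
  refine (measureReal_mono (s₂ := ⋃ g ∈ A, ⋃ g' ∈ A.filter fun g' => (2 * R : ℝ) < dist g g',
    {ω | B g ω ∧ B g' ω}) ?_ (measure_ne_top _ _)).trans ((measureReal_biUnion_finset_le _ _).trans ?_)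
  · rintro ω ⟨g, h1, g', h2, h3, h4, h5⟩
    simp only [Set.mem_iUnion]
    exact ⟨g, h1, g', mem_filter.2 ⟨h2, h5⟩, h3, h4⟩
  · rw [show (V * q) ^ 2 = V * (V * (q * q)) by ring]
    refine sum_le_mul (by positivity) hV fun g _ => (measureReal_biUnion_finset_le _ _).trans ?_
    refine sum_le_mul (by positivity) (le_trans (by exact_mod_cast card_filter_le _ _) hV)
      fun g' hg' => ?_
    rw [(hD g).indep (hD g') (disj_bx (mem_filter.1 hg').2)]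
    exact mul_le_mul (hq g) (hq g') measureReal_nonneg q0

open Classical in
lemma many {B : Zd d → (Zd d → Bool) → Prop} {R w : ℕ} {q V : ℝ} (hD : ∀ g, Dep (bx g R) (B g))
    (hq : ∀ g, (PP d).real {ω | B g ω} ≤ q) (w0 : 0 < w) (m : ℕ) : ∀ A : Finset (Zd d),
    (A.card : ℝ) ≤ V → (∀ g, (A.filter fun g' => dist g' g ≤ 2 * R).card ≤ w) →
    (PP d).real {ω | m * w ≤ (A.filter fun g => B g ω).card} ≤ (V * q) ^ m := by
  have q0 : 0 ≤ q := measureReal_nonneg.trans (hq 0)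
  induction m with
  | zero => exact fun A _ _ => by simp
  | succ m ih =>
    intro A hV hw
    have V0 : 0 ≤ V := (Nat.cast_nonneg _).trans hV
    refine (measureReal_mono (s₂ := ⋃ g ∈ A, {ω | B g ω ∧ m * w ≤
      ((A.filter fun g' => ¬ dist g' g ≤ 2 * R).filter fun g => B g ω).card}) ?_
      (measure_ne_top _ _)).trans
      ((measureReal_biUnion_finset_le _ _).trans ?_)
    · intro ω hω
      simp only [Set.mem_ofPred_eq, add_mul, one_mul] at hω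
      obtain ⟨g, hg⟩ := card_pos.1 (show 0 < (A.filter fun g => B g ω).card by omega)
      simp only [Set.mem_iUnion]
      refine ⟨g, (mem_filter.1 hg).1, (mem_filter.1 hg).2, ?_⟩
      have a1 := card_filter_add_card_filter_not (s := A.filter fun g => B g ω)
        (fun g' => dist g' g ≤ 2 * R)
      have a2 : ((A.filter fun g => B g ω).filter fun g' => dist g' g ≤ 2 * R).card ≤ w :=
        (card_le_card (filter_subset_filter _ (filter_subset _ _))).trans (hw g)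
      rw [filter_comm]
      omega
    · rw [show (V * q) ^ (m + 1) = V * (q * (V * q) ^ m) by ring]
      refine sum_le_mul (by positivity) hV fun g _ => ?_
      have D : Dep ((A.filter fun g' => ¬ dist g' g ≤ 2 * R).biUnion fun g' => bx g' R) fun ω =>
          m * w ≤ ((A.filter fun g' => ¬ dist g' g ≤ 2 * R).filter fun g => B g ω).card :=
        fun ω ω' e h => h.trans (card_le_card fun g' hg' => mem_filter.2 ⟨(mem_filter.1 hg').1,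
          hD g' ω ω' (fun y hy => e y (mem_biUnion.2 ⟨g', (mem_filter.1 hg').1, hy⟩))
            (mem_filter.1 hg').2⟩)
      rw [(hD g).indep D ((disjoint_biUnion_right _ _ _).2 fun g' hg' =>
        (disj_bx (not_le.1 (mem_filter.1 hg').2)).symm)]
      exact mul_le_mul (hq g) (ih _ (le_trans (by exact_mod_cast card_filter_le _ _) hV) fun g' =>
        (card_le_card (filter_subset_filter _ (filter_subset _ _))).trans (hw g'))
        measureReal_nonneg q0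

/-- auxiliary parameters -/
structure Aux where
  D : ℕ
  mF : ℕ
  K : ℕ → ℕ
  S : ℕ → ℕ
  S0 : ℕ → ℕ
  S1 : ℕ → ℕ
  I : ℕ → ℕ
  Jf : ℕ → ℕ
  l : ℕ → ℕ
  T : ℕ → ℕ
  n : ℕ → ℕ
  m : ℕ → ℕ
  j0 : ℕ → ℕ
  G1 : ℕ → ℝ
  G2 : ℕ → ℝ
  w : ℕ → ℝ
  Ms : ℕ → ℝ
  β : ℕ → ℝ
  q : ℕ → ℝ

/-- conditions on the parameters -/
structure Ok (d : ℕ) (P : Par) (X : Aux) : Prop where
  c0 : ∀ k, 0 < P.c k
  cK : ∀ k, P.c (k + 1) = X.K k * P.c k
  cJ : ∀ k, P.J k ∣ X.K k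
  cP : ∀ k, 4 * (P.J k * P.c k) + 4 * P.c k ≤ P.c (k + 1)
  γ0 : ∀ k, 0 ≤ P.γ k
  γ1 : ∀ k, 2 * d * P.γ k ≤ 1 / 2
  M0 : ∀ k, 0 ≤ P.M k
  S1 : ∀ k, X.S k * (4 * P.c k + 1) + 10 * P.c k ≤ P.J k * P.c k
  S2 : ∀ k, (2 * d * P.γ k) ^ X.S k * (4 * (P.M (k + 1) + P.γ (k + 1))) ≤ 2 * (P.M k + P.γ k)
  S3 : ∀ k, 2 * d * X.Ms k * (2 * d * P.γ k) ^ X.S k ≤ 1 / 2
  Ms1 : ∀ k, 1 ≤ X.Ms k
  g1 : ∀ k, 3 * (X.S1 k * (4 * P.c k + 1) + 10 * P.c k) + (5 * (P.J k * P.c k) + 1) < P.c (k + 1)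
  g2 : ∀ k, (2 * d * P.γ k) ^ X.S1 k * (2 * (X.Ms k * (1 + 4 * d * (P.M k + P.γ k)))) ≤ P.γ (k + 1)
  g3 : ∀ k, 4 * (X.Ms k * (1 + 4 * d * (P.M k + P.γ k))) ≤ P.M (k + 1)
  p0 : ∀ k, 0 < P.p k
  p1 : ∀ k, 2 * P.p k ≤ P.c k
  p2 : ∀ k, 2 * (4 * (P.J k * P.c k) + 10 * P.c k) ≤ X.I k * P.p k
  p3 : ∀ k, (X.Jf k + X.I k) * P.p k + X.Jf k * P.p k ≤ P.p (k + 1)
  p4 : ∀ k, P.f (k + 1) ≤ X.Jf k * P.f k
  w1 : ∀ k, X.D ≤ k → X.j0 k < k
  w2 : ∀ k, X.S0 k * (4 * P.c k + 1) + 11 * P.c k ≤ X.l k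
  w3 : ∀ k, X.T k ≤ P.J k * P.c k
  w4 : ∀ k, 2 * (X.l k + P.c k) + 1 + P.p k ≤ X.T k
  w5 : ∀ k, 0 < X.w k
  w6 : ∀ k, X.w k * (8 * d + 6) ^ X.T k ≤ 1
  w7 : ∀ k, X.D ≤ k → (X.mF * 17 ^ d) ^ (X.D + 1) * (4 * P.c (k - X.D) + 1) ^ d ≤ X.n k
  w8 : ∀ k, 0 < X.n k
  w9 : ∀ k, 0 < X.m k
  w10 : ∀ k, X.D ≤ k → X.m k ^ 2 * (2 * X.n k * (2 * P.c (X.j0 k + 1) + 1) ^ d) ≤ P.f k
  w11 : ∀ k, ((2 * (2 * (P.J k * P.c k : ℕ)) + 1) ^ d : ℝ) ≤ X.G2 k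
  w12 : ∀ k, ∀ j ≤ k, 2 * (P.M j + P.γ j) ≤ X.G2 k
  w13 : ∀ k, X.D ≤ k → 2 * (P.M (X.j0 k) + P.γ (X.j0 k)) ≤ X.G1 k
  w14 : ∀ k, X.D ≤ k → 4 ^ X.n k ≤ X.G1 k
  w15 : ∀ k, 512 ≤ X.G1 k
  w16 : ∀ k, X.D ≤ k → X.G1 k ≤ X.G2 k
  w17 : ∀ k, X.D ≤ k → (2 * d * P.γ (X.j0 k)) ^ X.S (X.j0 k)
    * (4 * (P.M (X.j0 k + 1) + P.γ (X.j0 k + 1))) * X.G1 k ^ 3 ≤ 1
  w18 : ∀ k, (2 * d * P.γ k) ^ X.S0 k * X.G2 k ^ 5 ≤ 1
  w19 : ∀ k, X.D ≤ k →
    X.G2 k / (1 / X.G2 k ^ 4 * ((X.w k / X.G2 k ^ 6) ^ 2 / 8) ^ (X.n k + 1)) ≤ X.Ms k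
  q1 : ∀ k j, X.D ≤ k → k ≤ j + X.D → j ≤ k → ((6 * X.K j + 1) ^ d * X.q j) ^ X.mF ≤ X.β k
  q2 : ∀ k, X.D ≤ k → ((6 * X.K k + 1) ^ d * X.q k) ^ 2
    + (X.D + 1) * ((4 * P.c (k + 1) + 1) ^ d * X.β k) + (4 * X.K k + 1) ^ d * ((X.n k + 1)
      * (2 * X.n k * (2 * X.n k * (2 * P.c (X.j0 k + 1) + 1) ^ d : ℕ) / X.m k)) ≤ X.q (k + 1)

variable {P : Par} {X : Aux} {i : Fin d} {E : ℝ}

lemma Ok.dvd (h : Ok d P X) {j k : ℕ} (hjk : j ≤ k) : P.c j ∣ P.c k := by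
  induction k, hjk using Nat.le_induction with
  | base => rfl
  | succ k _ ih => rw [h.cK]; exact Dvd.dvd.mul_left ih _

lemma Ok.le (h : Ok d P X) {j k : ℕ} (hjk : j ≤ k) : P.c j ≤ P.c k :=
  Nat.le_of_dvd (h.c0 k) (h.dvd hjk)

lemma Ok.J10 (h : Ok d P X) (k : ℕ) : 10 * P.c k ≤ P.J k * P.c k := by have := h.S1 k; omega

lemma Ok.cov (h : Ok d P X) (k : ℕ) {G zs : Zd d} (hG : Grid (P.c (k + 1)) G)
    (hz : zs ∈ bx G (2 * P.c (k + 1))) :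
    ∃ G', Cov (bx G (2 * P.c (k + 1))) (P.J k * P.c k) zs G' := by
  have a : P.J k * P.c k ∣ P.c (k + 1) := by rw [h.cK]; exact Nat.mul_dvd_mul_right (h.cJ k) _
  have := h.J10 k
  have := h.c0 k
  have := h.cP k
  exact cov_bx (by omega) (by omega) (Dvd.dvd.mul_left a 2) (hG.of_dvd a) hz

lemma dep_Bad (h : Ok d P X) (k : ℕ) (g : Zd d) :
    Dep (bx g (4 * P.c k)) fun ω => Bad P i E ω k g := fun _ _ e =>
  (Bad_congr h.cP fun y _ hy => e y (mem_bx.2 (by exact_mod_cast hy))).1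

lemma gd_step (h : Ok d P X) (hd : 1 ≤ d) {ω : Zd d → Bool} {k : ℕ} {G : Zd d}
    (hG : Grid (P.c (k + 1)) G)
    (one : ∀ g ∈ bx G (3 * P.c (k + 1)), ∀ g' ∈ bx G (3 * P.c (k + 1)), Bad P i E ω k g →
      Bad P i E ω k g' → dist g g' ≤ 8 * P.c k)
    (res : ∀ zs ∈ bx G (2 * P.c (k + 1)), Bad P i E ω k zs → ∃ G',
      Cov (bx G (2 * P.c (k + 1))) (P.J k * P.c k) zs G' ∧
        NR (pot ω) E (bx G' (2 * (P.J k * P.c k))) (X.Ms k)) :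
    Gd P i E ω (k + 1) G := by
  have c0 : (0 : ℝ) ≤ P.c k := Nat.cast_nonneg _
  have c1 : (0 : ℝ) ≤ P.c (k + 1) := Nat.cast_nonneg _
  have hd1 : (1 : ℝ) ≤ d := by exact_mod_cast hd
  have sub : ∀ g ∈ bx G (2 * P.c (k + 1)), g ∈ bx G (3 * P.c (k + 1)) := fun g hg => mem_bx.2 (by
    have := mem_bx.1 hg
    push_cast at this ⊢
    linarith)
  refine ⟨fun v v1 v2 => ?_, ?_⟩
  · have θ0 : 0 ≤ 2 * d * P.γ k := by have := h.γ0 k; positivity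
    have M1 : 0 ≤ P.M k + P.γ k := add_nonneg (h.M0 k) (h.γ0 k)
    have M2 : P.M k + P.γ k ≤ X.Ms k * (1 + 4 * d * (P.M k + P.γ k)) := by
      have : P.M k + P.γ k ≤ 1 + 4 * d * (P.M k + P.γ k) := by nlinarith
      nlinarith [h.Ms1 k]
    have J1 : (10 * P.c k : ℝ) ≤ P.J k * P.c k := by exact_mod_cast h.J10 k
    have loc : ∀ y ∈ bx G (2 * P.c (k + 1)), (∀ g ∈ bx G (2 * P.c (k + 1)), dist y g ≤ 2 * P.c k →
        ¬ Bad P i E ω k g) → Loc v E (bx G (2 * P.c (k + 1))) y (4 * P.c k + 1) (2 * d * P.γ k)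
          (P.M k + P.γ k) := fun y hy hb => by
      obtain ⟨g, hg⟩ := cov_bx (h.c0 k) (L := 2 * P.c (k + 1)) (by have := h.cP k; omega)
        (Dvd.dvd.mul_left (h.dvd (Nat.le_succ k)) 2) (hG.of_dvd (h.dvd (Nat.le_succ k))) hy
      exact loc_of_cov hg hy (hb g hg.mem (hg.dist_le hy)) v1 fun w w1 w2 => v2 w w1 (Or.inl w2)
    have fin : ∀ zs : Zd d, (∀ y ∈ bx G (2 * P.c (k + 1)), 10 * P.c k < dist y zs →
        Loc v E (bx G (2 * P.c (k + 1))) y (4 * P.c k + 1) (2 * d * P.γ k) (P.M k + P.γ k)) →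
        (∀ y ∈ bx G (2 * P.c (k + 1)), dist y zs ≤ 10 * P.c k → Loc v E (bx G (2 * P.c (k + 1))) y
          (5 * (P.J k * P.c k : ℕ) + 1) (1 / 2) (X.Ms k * (1 + 4 * d * (P.M k + P.γ k)))) →
        Green v E (bx G (2 * P.c (k + 1))) (P.c (k + 1)) (P.γ (k + 1)) (P.M (k + 1)) :=
      fun zs h1 h2 => green_step (S := X.S1 k) (R := X.S1 k * (4 * P.c k + 1) + 10 * P.c k)
        (ρs := 5 * (P.J k * P.c k : ℕ) + 1)
        (by positivity) θ0 (h.γ1 k) M1 M2 (by positivity) le_rfl (by positivity)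
        (by exact_mod_cast h.g1 k) (h.g2 k) (h.g3 k) h1 fun y hy => by
          by_cases a : 10 * P.c k < dist y zs
          · exact (h1 y hy a).mono (by push_cast; linarith) (h.γ1 k) M2
          · exact h2 y hy (not_lt.1 a)
    by_cases hb : ∃ zs ∈ bx G (2 * P.c (k + 1)), Bad P i E ω k zs
    · obtain ⟨zs, z1, z2⟩ := hb
      obtain ⟨G', g1, g2⟩ := res zs z1 z2
      have far : ∀ y ∈ bx G (2 * P.c (k + 1)), 10 * P.c k < dist y zs →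
          Loc v E (bx G (2 * P.c (k + 1))) y (4 * P.c k + 1) (2 * d * P.γ k) (P.M k + P.γ k) :=
        fun y hy a => loc y hy fun g b1 b2 b3 => by
          linarith [one g (sub g b1) zs (sub zs z1) b3 z2, dist_triangle y g zs]
      refine fin zs far fun y hy a => (loc_res (S := X.S k) (by positivity) θ0 (h.γ1 k) M1
        (by exact_mod_cast h.S1 k) g1 hy a far fun ψ hψ F F0 hF => g2 ψ hψ F F0 fun w hw => ?_).mono
        le_rfl (h.S3 k) le_rfl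
      refine le_trans (le_of_eq ?_) (hF w hw)
      rw [TV, TV, v2 w (g1.2.1 w hw) (mem_Fr_succ.2 (Or.inr ⟨zs, z2, ?_⟩))]
      have a1 := mem_bx.1 hw
      have a2 := g1.dist_le z1
      push_cast at a1 a2
      linarith [dist_triangle_right w zs G']
    · push Not at hb
      exact fin G (fun y hy _ => loc y hy fun g b1 _ => hb g b1) fun y hy _ =>
        (loc y hy fun g b1 _ => hb g b1).mono (by push_cast; linarith) (h.γ1 k) M2
  · obtain ⟨z, hz⟩ : ∃ z, ∀ g ∈ bx G (3 * P.c (k + 1)), Bad P i E ω k g → dist g z ≤ 8 * P.c k := by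
      by_cases hb : ∃ z ∈ bx G (3 * P.c (k + 1)), Bad P i E ω k z
      · obtain ⟨z, z1, z2⟩ := hb
        exact ⟨z, fun g g1 g2 => one g g1 z z1 g2 z2⟩
      · exact ⟨G, fun g g1 g2 => absurd ⟨g, g1, g2⟩ hb⟩
    exact sparse_step (h.c0 k) (h.dvd (Nat.le_succ k)) hG (h.cP k) (h.p1 k) (h.p0 k) (h.p2 k) (h.p3 k)
      (h.p4 k) hz

/-- the structure event -/
def Str (P : Par) (X : Aux) (i : Fin d) (E : ℝ) (ω : Zd d → Bool) (k : ℕ) (G : Zd d) : Prop :=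
  (∀ g ∈ bx G (3 * P.c (k + 1)), ∀ g' ∈ bx G (3 * P.c (k + 1)), Bad P i E ω k g →
      Bad P i E ω k g' → dist g g' ≤ 8 * P.c k) ∧
    ∀ j, k ≤ j + X.D → j ≤ k → ∀ g ∈ bx G (2 * P.c (k + 1)), Few P i E ω j (X.mF * 17 ^ d) g

lemma Str.congr (h : Ok d P X) {ω ω' : Zd d → Bool} {k : ℕ} {G : Zd d} (hS : Str P X i E ω k G)
    (e : ∀ y ∈ Fr P i E ω k, y ∈ bx G (9 * P.c (k + 1)) → ω y = ω' y) :
    Str P X i E ω' k G ∧ ∀ g ∈ bx G (2 * P.c (k + 1)), Bad P i E ω k g → Bad P i E ω' k g := by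
  classical
  have c1 : (0 : ℝ) ≤ P.c (k + 1) := Nat.cast_nonneg _
  have b : ∀ j ≤ k, ∀ g, dist g G ≤ 5 * P.c (k + 1) → (Bad P i E ω j g ↔ Bad P i E ω' j g) :=
    fun j hj g hg => Bad_congr h.cP fun y y1 y2 => e y (Fr_mono ω hj y1) (mem_bx.2 (by
      have : (P.c j : ℝ) ≤ P.c (k + 1) := by exact_mod_cast h.le (by omega)
      push_cast
      linarith [dist_triangle y g G]))
  have b3 : ∀ (a : ℕ), a ≤ 3 → ∀ g ∈ bx G (a * P.c (k + 1)), dist g G ≤ 5 * P.c (k + 1) :=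
    fun a ha g hg => by
      have := mem_bx.1 hg
      have : (a : ℝ) ≤ 3 := by exact_mod_cast ha
      push_cast at *
      nlinarith
  refine ⟨⟨fun g g1 g' g2 g3 g4 => hS.1 g g1 g' g2 ((b k le_rfl g (b3 3 le_rfl g g1)).2 g3)
    ((b k le_rfl g' (b3 3 le_rfl g' g2)).2 g4), fun j j1 j2 g g1 => ?_⟩,
    fun g g1 => (b k le_rfl g (b3 2 (by norm_num) g g1)).1⟩
  refine lt_of_le_of_lt (card_le_card fun y hy => ?_) (hS.2 j j1 j2 g g1)
  obtain ⟨y1, y2⟩ := mem_filter.1 hy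
  refine mem_filter.2 ⟨y1, (b j j2 y ?_).2 y2⟩
  have a1 := mem_bx.1 y1
  have a2 := mem_bx.1 g1
  have : (P.c (j + 1) : ℝ) ≤ P.c (k + 1) := by exact_mod_cast h.le (by omega)
  push_cast at a1 a2
  linarith [dist_triangle y g G]

lemma prob_res (h : Ok d P X) (E1 : -1 ≤ E) (E2 : E ≤ 4 * d + 1) {k : ℕ} (hk : X.D ≤ k)
    {G G' zs : Zd d} (hz : zs ∈ bx G (2 * P.c (k + 1)))
    (hc : Cov (bx G (2 * P.c (k + 1))) (P.J k * P.c k) zs G') :
    (PP d).real {ω | (Str P X i E ω k G ∧ Bad P i E ω k zs) ∧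
      ¬ NR (pot ω) E (bx G' (2 * (P.J k * P.c k))) (X.Ms k)} ≤ (X.n k + 1)
      * (2 * X.n k * (2 * X.n k * (2 * P.c (X.j0 k + 1) + 1) ^ d : ℕ) / X.m k) := by
  classical
  have c1 : (0 : ℝ) ≤ P.c (k + 1) := Nat.cast_nonneg _
  have sub : ∀ a : ℕ, 2 ≤ a → ∀ g ∈ bx G (2 * P.c (k + 1)), g ∈ bx G (a * P.c (k + 1)) :=
    fun a ha g hg => mem_bx.2 (by
      have := mem_bx.1 hg
      have : (2 : ℝ) ≤ a := by exact_mod_cast ha
      push_cast at *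
      nlinarith)
  have fz : ∀ ω ω' y, y ∈ Fr P i E ω k →
      ω y = mrg (Uf P i E ω k (X.l k) zs (bx G' (2 * (P.J k * P.c k)))) ω ω' y := fun ω ω' y hy =>
    (if_neg fun hU => (mem_filter.1 hU).2.1 hy).symm
  have fe : ∀ ω ω' y, y ∈ Fr P i E ω k ↔
      y ∈ Fr P i E (mrg (Uf P i E ω k (X.l k) zs (bx G' (2 * (P.J k * P.c k)))) ω ω') k :=
    fun ω ω' y => Fr_congr h.cP k y fun y' a _ => fz ω ω' y' a
  refine fiber (T := bx G (9 * P.c (k + 1))) (fun ω ω' e a => ?_)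
    (fun ω => Uf P i E ω k (X.l k) zs (bx G' (2 * (P.J k * P.c k)))) (fun ω ω' => ?_) fun ω => ?_
  · obtain ⟨b1, b2⟩ := a.1.1.congr h fun y _ => e y
    refine ⟨⟨b1, b2 zs hz a.1.2⟩, fun b => a.2 fun ψ hψ F F0 hF => b ψ hψ F F0 fun w hw => ?_⟩
    refine le_trans (le_of_eq ?_) (hF w hw)
    simp only [TV, pot, e w (sub 9 (by norm_num) w (hc.2.1 w hw))]
  · exact filter_congr fun y _ => and_congr_left fun _ => not_congr (fe ω ω' y).symm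
  · by_cases a : Str P X i E ω k G ∧ Bad P i E ω k zs
    · refine (measureReal_mono fun ω' b => b.2).trans (wegner2 (S := X.S) E1 E2 h.γ0 h.γ1 h.M0
        (fun j => h.le) (fun j => by have := h.cP j; omega) (fun j => by have := h.S1 j; omega)
        (fun j => by have := h.cP j; omega) h.S2 (h.w2 k) (h.w1 k hk) hk (h.w3 k) (h.w4 k) (h.p1 k)
        (h.w5 k) (h.w6 k) (h.w7 k hk) (h.w8 k) (h.w9 k) (h.w10 k hk) (h.w11 k) (h.w12 k)
        (h.w13 k hk) (h.w14 k hk) (h.w15 k) (h.w16 k hk) (h.w17 k hk) (h.w18 k) (h.w19 k hk)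
        hc.2.1 (fun j hj z hz => ?_) (fun g g1 g2 => ?_) a.1.2)
      · have b : P.c j ∣ P.J k * P.c k := Dvd.dvd.mul_left (h.dvd hj) _
        exact cov_bx (h.c0 j) (by have := h.le hj; have := h.J10 k; omega) (Dvd.dvd.mul_left b 2)
          (hc.1.of_dvd b) hz
      · exact a.1.1 g (sub 3 (by norm_num) g (hc.2.1 g g1)) zs (sub 3 (by norm_num) zs hz) g2 a.2
    · refine (measureReal_mono (s₂ := ∅) fun ω' b => a ?_).trans (by simp; positivity)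
      obtain ⟨b1, b2⟩ := b.1.1.congr h (ω' := ω) fun y y1 _ => (fz ω ω' y ((fe ω ω' y).2 y1)).symm
      exact ⟨b1, b2 zs hz b.1.2⟩

lemma prob_step2 (h : Ok d P X) (hd : 1 ≤ d) (E1 : -1 ≤ E) (E2 : E ≤ 4 * d + 1) {k : ℕ}
    (hk : X.D ≤ k) (ih : ∀ j ≤ k, ∀ g, (PP d).real {ω | Bad P i E ω j g} ≤ X.q j) (G : Zd d) :
    (PP d).real {ω | Bad P i E ω (k + 1) G} ≤ X.q (k + 1) := by
  classical
  have β0 : 0 ≤ X.β k := le_trans (by
    have : 0 ≤ X.q k := measureReal_nonneg.trans (ih k le_rfl 0)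
    positivity) (h.q1 k k hk (by omega) le_rfl)
  refine le_trans ?_ (h.q2 k hk)
  by_cases hG : Grid (P.c (k + 1)) G
  swap
  · refine (measureReal_mono (s₂ := ∅) fun ω b => hG b.1).trans ?_
    simp only [measureReal_empty]
    positivity
  choose! G' hG' using fun zs => h.cov k (zs := zs) hG
  have cg : ∀ (j a : ℕ) (g : Zd d), (((bx g (a * P.c (j + 1))).filter (Grid (P.c j))).card : ℝ)
      ≤ (2 * a * X.K j + 1) ^ d := fun j a g => by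
    have := card_grid (h.c0 j) g (a * X.K j) ((bx g (a * P.c (j + 1))).filter (Grid (P.c j)))
      fun y hy => ⟨(mem_filter.1 hy).2, by rw [mul_assoc, ← h.cK]; exact (mem_filter.1 hy).1⟩
    rw [mul_assoc]
    exact_mod_cast this
  refine (measureReal_mono (s₂ := ({ω | ∃ g ∈ (bx G (3 * P.c (k + 1))).filter (Grid (P.c k)),
      ∃ g' ∈ (bx G (3 * P.c (k + 1))).filter (Grid (P.c k)), Bad P i E ω k g ∧ Bad P i E ω k g' ∧
        (2 * (4 * P.c k : ℕ) : ℝ) < dist g g'} ∪ ⋃ j ∈ Icc (k - X.D) k,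
      ⋃ g ∈ bx G (2 * P.c (k + 1)), {ω | ¬ Few P i E ω j (X.mF * 17 ^ d) g}) ∪
      ⋃ zs ∈ (bx G (2 * P.c (k + 1))).filter (Grid (P.c k)),
        {ω | (Str P X i E ω k G ∧ Bad P i E ω k zs) ∧
          ¬ NR (pot ω) E (bx (G' zs) (2 * (P.J k * P.c k))) (X.Ms k)}) fun ω hω => ?_).trans
    ((measureReal_union_le _ _).trans (add_le_add ((measureReal_union_le _ _).trans
      (add_le_add ?_ ?_)) ?_))
  · by_contra hc
    simp only [Set.mem_union, Set.mem_iUnion, Set.mem_ofPred_eq, not_or, not_exists, not_and,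
      not_not, mem_filter, mem_Icc, not_lt] at hc
    obtain ⟨⟨h1, h2⟩, h3⟩ := hc
    have one : ∀ g ∈ bx G (3 * P.c (k + 1)), ∀ g' ∈ bx G (3 * P.c (k + 1)), Bad P i E ω k g →
        Bad P i E ω k g' → dist g g' ≤ 8 * P.c k := fun g g1 g' g2 g3 g4 => by
      have := h1 g ⟨g1, g3.1⟩ g' ⟨g2, g4.1⟩ g3 g4
      push_cast at this
      linarith
    exact hω.2 (gd_step h hd hG one fun zs z1 z2 => ⟨G' zs, hG' zs z1,
      h3 zs ⟨z1, z2.1⟩ ⟨⟨one, fun j j1 j2 => h2 j ⟨by omega, j2⟩⟩, z2⟩⟩)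
  · refine (two_bad (dep_Bad h k) (ih k le_rfl) (cg k 3 G)).trans (le_of_eq ?_)
    norm_num
  · refine (measureReal_biUnion_finset_le _ _).trans (sum_le_mul' (by positivity) ?_ fun j hj => ?_)
    · rw [Nat.card_Icc]
      exact_mod_cast (by omega : k + 1 - (k - X.D) ≤ X.D + 1)
    obtain ⟨j1, j2⟩ := mem_Icc.1 hj
    refine (measureReal_biUnion_finset_le _ _).trans (sum_le_mul β0 ?_ fun g _ => ?_)
    · rw [card_bx]
      push_cast
      exact le_of_eq (by ring)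
    refine le_trans (measureReal_mono fun ω hω => ?_) ((many (w := 17 ^ d) (dep_Bad h j) (ih j j2)
      (by positivity) X.mF _ (cg j 3 g) fun g' => ?_).trans
        (le_trans (le_of_eq ?_) (h.q1 k j hk (by omega) j2)))
    · refine (not_lt.1 hω).trans (card_le_card fun y hy => ?_)
      obtain ⟨y1, y2⟩ := mem_filter.1 hy
      exact mem_filter.2 ⟨mem_filter.2 ⟨y1, y2.1⟩, y2⟩
    · refine card_grid (h.c0 j) g' 8 _ fun y hy => ?_
      obtain ⟨y1, y2⟩ := mem_filter.1 hy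
      refine ⟨(mem_filter.1 y1).2, mem_bx.2 ?_⟩
      push_cast at y2 ⊢
      linarith
    · norm_num
  · refine (measureReal_biUnion_finset_le _ _).trans (sum_le_mul (by positivity)
      ((cg k 2 G).trans (le_of_eq (by norm_num))) fun zs hz => ?_)
    exact prob_res h E1 E2 hk (mem_filter.1 hz).1 (hG' zs (mem_filter.1 hz).1)

end Pool.Agent.P.MP_d0f69c_mp
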