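import Pool.Agent.P.MP_d0f69c_mp.Basic

set_option autoImplicit false

open Finset MeasureTheory

namespace Pool.Agent.P.MP_d0f69c_mp

variable {d : ℕ}

lemma gap {ι : Type} [Fintype ι] [DecidableEq ι] (A : Matrix ι ι ℝ) (hA : A.IsHermitian) :
    ∃ lam : Fin (Fintype.card ι) → ℝ, ∀ E η : ℝ, 0 ≤ η → (∀ j, η ≤ |lam j - E|) →
      ∀ (v : ι → ℝ) (z : ι), η * |v z| ≤ ∑ y, |A.mulVec v y - E * v y| := by
  have hT := Matrix.isSymmetric_toEuclideanLin_iff.2 hA
  have hn : Module.finrank ℝ (EuclideanSpace ℝ ι) = Fintype.card ι := finrank_euclideanSpace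
  refine ⟨hT.eigenvalues hn, fun E η hη h v z => ?_⟩
  set b := hT.eigenvectorBasis hn with hb
  set x : EuclideanSpace ℝ ι := WithLp.toLp 2 v with hx
  set w : EuclideanSpace ℝ ι := A.toEuclideanLin x - E • x with hw
  have e1 : ∀ j, b.repr w j = (hT.eigenvalues hn j - E) * b.repr x j := by
    intro j
    rw [hw, map_sub, map_smul, PiLp.sub_apply, hT.eigenvectorBasis_apply_self_apply hn]
    simp only [PiLp.smul_apply, smul_eq_mul, RCLike.ofReal_real_eq_id, id]
    ring
  have e2 : (η * ‖x‖) ^ 2 ≤ ‖w‖ ^ 2 := by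
    rw [mul_pow, ← b.repr.norm_map x, ← b.repr.norm_map w, EuclideanSpace.real_norm_sq_eq,
      EuclideanSpace.real_norm_sq_eq, Finset.mul_sum]
    apply Finset.sum_le_sum
    intro j _
    rw [e1, mul_pow]
    apply mul_le_mul_of_nonneg_right _ (sq_nonneg _)
    rw [← sq_abs (_ - E)]
    exact pow_le_pow_left₀ hη (h j) 2
  have e3 : ‖w‖ ^ 2 ≤ (∑ y, |w y|) ^ 2 := by
    rw [EuclideanSpace.real_norm_sq_eq]
    refine le_trans (le_of_eq ?_) (Finset.sum_sq_le_sq_sum_of_nonneg (fun _ _ => abs_nonneg _))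
    simp
  have e4 : η * ‖x‖ ≤ ∑ y, |w y| :=
    abs_le_of_sq_le_sq' (e2.trans e3) (Finset.sum_nonneg fun _ _ => abs_nonneg _) |>.2
  have e5 : |v z| ≤ ‖x‖ := by
    have := PiLp.norm_apply_le x z
    simpa [hx] using this
  refine (mul_le_mul_of_nonneg_left e5 hη).trans (e4.trans (le_of_eq ?_))
  apply Finset.sum_congr rfl
  intro y _
  simp [hw, hx]

/-- cut-off to the box -/
noncomputable def cut (L : ℕ) (u : Zd d → ℝ) (y : Zd d) : ℝ := if y ∈ box d L then u y else 0

lemma abs_sub_cut {L : ℕ} (u : Zd d → ℝ) {y : Zd d} (hy : ‖y‖ ≤ L + 1) :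
    |u y - cut L u y| ≤ ∑ y ∈ shell d L, |u y| := by
  unfold cut
  split_ifs with h
  · rw [sub_self, abs_zero]
    exact Finset.sum_nonneg fun _ _ => abs_nonneg _
  · rw [sub_zero]
    refine Finset.single_le_sum (f := fun y => |u y|) (fun _ _ => abs_nonneg _) ?_
    rw [mem_shell]
    rw [mem_box] at h
    exact ⟨hy, not_le.1 h⟩

lemma abs_TT_cut (ω : Zd d → Bool) (E : ℝ) {L : ℕ} (u : Zd d → ℝ) {y : Zd d} (hy : y ∈ box d L) :
    |TT ω E (cut L u) y| ≤ |TT ω E u y| + 2 * d * ∑ y ∈ shell d L, |u y| := by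
  have e : TT ω E (cut L u) y = TT ω E u y + ∑ i : Fin d,
      ((u (y + ee i) - cut L u (y + ee i)) + (u (y - ee i) - cut L u (y - ee i))) := by
    simp only [TT, adj, Finset.sum_add_distrib, Finset.sum_sub_distrib]
    rw [show cut L u y = u y from if_pos hy]
    ring
  rw [e]
  refine (abs_add_le _ _).trans (add_le_add le_rfl ?_)
  refine (Finset.abs_sum_le_sum_abs _ _).trans ?_
  have hy' := mem_box.1 hy
  refine (Finset.sum_le_card_nsmul _ _ (2 * ∑ y ∈ shell d L, |u y|) fun i _ => ?_).trans ?_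
  · have a1 := abs_sub_cut (L := L) u (y := y + ee i)
      (by linarith [norm_add_le y (ee i), norm_ee i])
    have a2 := abs_sub_cut (L := L) u (y := y - ee i)
      (by linarith [norm_sub_le y (ee i), norm_ee i])
    linarith [abs_add_le (u (y + ee i) - cut L u (y + ee i)) (u (y - ee i) - cut L u (y - ee i))]
  · simp only [Finset.card_univ, Fintype.card_fin, nsmul_eq_mul]
    linarith

lemma sum_ind {L : ℕ} (u : Zd d → ℝ) (a : Zd d) :
    ∑ y : box d L, (if (y : Zd d) = a then (1 : ℝ) else 0) * u y = cut L u a := by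
  rw [Finset.sum_coe_sort (box d L) (fun y => (if y = a then (1 : ℝ) else 0) * u y)]
  simp only [ite_mul, one_mul, zero_mul, Finset.sum_ite_eq', cut]

theorem wegner (ω : Zd d → Bool) (L : ℕ) {R v : ℝ} (hR : 0 < R)
    (hv : ((box d L).card : ℝ) ≤ v) :
    volume {E : ℝ | ¬ Res ω E L R} ≤ ENNReal.ofReal (2 * (2 * d + 1) * v ^ 2 / R) := by
  classical
  let A : Matrix (box d L) (box d L) ℝ := fun y y' =>
    (if (y' : Zd d) = y then (1 : ℝ) else 0) * (2 * d + pot ω y)
      - ∑ i : Fin d, ((if (y' : Zd d) = y + ee i then (1 : ℝ) else 0)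
        + (if (y' : Zd d) = y - ee i then (1 : ℝ) else 0))
  have hA : A.IsHermitian := by
    ext y y'
    simp only [Matrix.conjTranspose_apply, star_trivial, A]
    congr 1
    · by_cases h : (y : Zd d) = y'
      · simp [h]
      · rw [if_neg h, if_neg (fun h' => h h'.symm)]
        simp
    · apply Finset.sum_congr rfl
      intro i _
      rw [add_comm]
      congr 1
      · exact if_congr (by rw [eq_sub_iff_add_eq, eq_comm]) rfl rfl
      · exact if_congr (by rw [eq_sub_iff_add_eq, eq_comm]) rfl rfl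
  obtain ⟨lam, hlam⟩ := gap A hA
  have v1 : 1 ≤ v := by
    refine le_trans ?_ hv
    rw [card_box]
    exact_mod_cast Nat.one_le_pow _ _ (by omega)
  set η := (2 * d + 1) * v / R with hη
  have η0 : 0 < η := by positivity
  have sub : {E : ℝ | ¬ Res ω E L R} ⊆ ⋃ j, Metric.ball (lam j) η := by
    intro E hE
    by_contra hc
    apply hE
    simp only [Set.mem_iUnion, not_exists, Metric.mem_ball, not_lt] at hc
    intro z hz u
    have h := hlam E η η0.le (fun j => by rw [abs_sub_comm]; exact hc j) (fun y => u y) ⟨z, hz⟩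
    have e : ∀ y : box d L, A.mulVec (fun y => u y) y - E * u y = TT ω E (cut L u) y := by
      intro y
      simp only [Matrix.mulVec, dotProduct, A, sub_mul, Finset.sum_sub_distrib, Finset.sum_mul,
        add_mul (if _ then (1 : ℝ) else 0)]
      rw [Finset.sum_comm]
      simp only [Finset.sum_add_distrib, sum_ind, mul_right_comm _ (2 * d + pot ω y),
        ← Finset.sum_mul, TT, adj]
      rw [show cut L u y = u y from if_pos y.2]
      ring
    simp only [e] at h
    rw [Finset.sum_coe_sort (box d L) (fun y => |TT ω E (cut L u) y|)] at h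
    set S := ∑ y ∈ shell d L, |u y| with hS
    set F := ∑ y ∈ box d L, |TT ω E u y| with hF
    have F0 : 0 ≤ F := Finset.sum_nonneg fun _ _ => abs_nonneg _
    have S0 : 0 ≤ S := Finset.sum_nonneg fun _ _ => abs_nonneg _
    have h2 : ∑ y ∈ box d L, |TT ω E (cut L u) y| ≤ F + v * (2 * d * S) := by
      refine (Finset.sum_le_sum fun y hy => abs_TT_cut ω E u hy).trans ?_
      rw [Finset.sum_add_distrib]
      exact add_le_add le_rfl (sum_le_mul (by positivity) hv (fun _ _ => le_rfl))
    have h3 : η * |u z| ≤ η * (R * S + R * F) := by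
      have : η * (R * S + R * F) = (2 * d + 1) * v * (S + F) := by
        rw [hη]
        field_simp
      rw [this]
      have d0 : (0 : ℝ) ≤ d := Nat.cast_nonneg d
      nlinarith [mul_nonneg d0 F0, mul_nonneg (sub_nonneg.2 v1) F0, mul_nonneg (sub_nonneg.2 v1) S0,
        mul_nonneg (mul_nonneg d0 (sub_nonneg.2 v1)) F0]
    exact le_of_mul_le_mul_left h3 η0
  refine (measure_mono sub).trans ((measure_iUnion_fintype_le _ _).trans ?_)
  simp only [Real.volume_ball, Finset.sum_const, Finset.card_univ, Fintype.card_fin,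
    Fintype.card_coe, nsmul_eq_mul]
  rw [← ENNReal.ofReal_natCast, ← ENNReal.ofReal_mul (Nat.cast_nonneg _)]
  apply ENNReal.ofReal_le_ofReal
  calc ((box d L).card : ℝ) * (2 * η) ≤ v * (2 * η) := by gcongr
    _ = _ := by rw [hη]; ring

end Pool.Agent.P.MP_d0f69c_mp
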