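import Pool.Agent.P.MP_d0f69c_mp.PP5

set_option autoImplicit false

open MeasureTheory

namespace Pool.Agent.Results.MP_d0f69c_mp.EdgeLocalization

/-- In the coordinates `u j = ⟨b j, u⟩` the operator `H` acts as `Δ_ω`: minus the discrete
Laplacian plus the potential `±1`. -/
def IsAnderson {d : ℕ} {X : Type} [NormedAddCommGroup X] [InnerProductSpace ℂ X]
    (ω : (Fin d → ℤ) → Bool) (b : HilbertBasis (Fin d → ℤ) ℂ X) (H : X →L[ℂ] X) : Prop :=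
  ∀ (u : X) (j : Fin d → ℤ), inner ℂ (b j) (H u) = -(∑ i : Fin d,
      ((inner ℂ (b (j + Pi.single i 1)) u - inner ℂ (b j) u)
        + (inner ℂ (b (j - Pi.single i 1)) u - inner ℂ (b j) u)))
    + (if ω j then (1 : ℂ) else -1) * inner ℂ (b j) u

/-- `μ` is the spectral measure of the vector `ψ` for the operator `H`. -/
def IsSpectralMeasure {X : Type} [NormedAddCommGroup X] [InnerProductSpace ℂ X]
    (H : X →L[ℂ] X) (ψ : X) (μ : Measure ℝ) : Prop :=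
  IsFiniteMeasure μ ∧ ∀ z : ℂ, z.im ≠ 0 →
    (∫ x, ((x : ℂ) - z)⁻¹ ∂μ) = inner ℂ ψ (Ring.inverse (H - z • (1 : X →L[ℂ] X)) ψ)

/-- The real eigenvalues of `H`. -/
def Eigenvalues {X : Type} [NormedAddCommGroup X] [InnerProductSpace ℂ X]
    (H : X →L[ℂ] X) : Set ℝ :=
  {E | ∃ u : X, u ≠ 0 ∧ H u = (E : ℂ) • u}

/-- The two intervals of length `δ` at the edges of `[-1, 4d+1]`. -/
def Edge (d : ℕ) (δ : ℝ) : Set ℝ :=
  Set.Icc (-1) (-1 + δ) ∪ Set.Icc (4 * d + 1 - δ) (4 * d + 1)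

theorem result (d : ℕ) (hd : 1 ≤ d) (s : ℝ) (hs0 : 0 < s) (hs1 : s < 1) : ∃ δ : ℝ, 0 < δ ∧
    ∀ᵐ ω ∂(Measure.infinitePi
        (fun _ : Fin d → ℤ => (PMF.uniformOfFintype Bool).toMeasure)),
      ∀ (X : Type) [NormedAddCommGroup X] [InnerProductSpace ℂ X] [CompleteSpace X]
        (b : HilbertBasis (Fin d → ℤ) ℂ X) (H : X →L[ℂ] X), IsAnderson ω b H →
        (Eigenvalues H).Countable ∧
        (∀ (ψ : X) (μ : Measure ℝ), IsSpectralMeasure H ψ μ →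
          μ (Edge d δ \ Eigenvalues H) = 0 ∧ μ.restrict (Edge d δ) ⟂ₘ volume) ∧
        ∀ E ∈ Edge d δ, ∀ u : X, H u = (E : ℂ) • u →
          ∃ A : ℝ, ∀ j : Fin d → ℤ, ‖inner ℂ (b j) u‖ ≤ A * Real.exp (-‖j‖ ^ s) := by
  obtain ⟨δ, h1, h3⟩ := Pool.Agent.P.MP_d0f69c_mp.main6 hd hs0.le hs1
  refine ⟨δ, h1, ?_⟩
  filter_upwards [h3] with ω hω X _ _ _ b H hH
  obtain ⟨a0, a2, a3⟩ := hω X b H hH
  have a1 : (Eigenvalues H).Countable := a0
  refine ⟨a1, fun ψ μ hμ => ⟨a2 ψ μ hμ.1 hμ.2, (Eigenvalues H)ᶜ, a1.measurableSet.compl, ?_, ?_⟩, a3⟩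
  · rw [Measure.restrict_apply a1.measurableSet.compl, Set.inter_comm]
    exact a2 ψ μ hμ.1 hμ.2
  · rw [compl_compl]
    exact a1.measure_zero _

end Pool.Agent.Results.MP_d0f69c_mp.EdgeLocalization
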